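import Pool.Agent.Lib.MP_5d4057_al.T5.Defs

/-!
# T5: conjugation (owner: helper1)
-/

set_option autoImplicit false

namespace Pool.Agent.Lib.MP_5d4057_al.T5

open Metric Filter Topology Pool.Agent.Lib.MP_5d4057_al Pool.Agent.Lib.MP_5d4057_al.HM

variable {Γ : Subgroup (SUGroup 1)}

/-- Cocompactness is preserved under conjugation. -/
theorem coc_conj (hΓ : Coc Γ) (h : SUGroup 1) :
    Coc (Γ.map (MulAut.conj h⁻¹).toMonoidHom) := by
  have hmem : ∀ x : SUGroup 1, x ∈ Γ.map (MulAut.conj h⁻¹).toMonoidHom ↔ h * x * h⁻¹ ∈ Γ := by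
    intro x
    rw [Subgroup.mem_map]
    constructor
    · rintro ⟨y, hy, rfl⟩
      have : h * ((MulAut.conj h⁻¹).toMonoidHom y) * h⁻¹ = y := by
        simp [mul_assoc]
      rw [this]
      exact hy
    · intro hx
      refine ⟨h * x * h⁻¹, hx, ?_⟩
      simp [mul_assoc]
  constructor
  · have := hΓ.disc
    have hc : Continuous fun x : (Γ.map (MulAut.conj h⁻¹).toMonoidHom) =>
        (⟨h * (x : SUGroup 1) * h⁻¹, (hmem x).1 x.2⟩ : Γ) := by
      refine Continuous.subtype_mk ?_ _
      exact (continuous_const.mul continuous_subtype_val).mul continuous_const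
    refine DiscreteTopology.of_continuous_injective hc ?_
    intro x y hxy
    have h1 := congrArg Subtype.val hxy
    simp only at h1
    exact Subtype.ext (mul_left_cancel (mul_right_cancel h1))
  · obtain ⟨F, hF, hcov⟩ := hΓ.cpt
    refine ⟨(fun x => h⁻¹ * x) '' F, hF.image (continuous_const.mul continuous_id), ?_⟩
    intro g
    obtain ⟨γ, hγ, hF'⟩ := hcov (h * g)
    refine ⟨h⁻¹ * γ * h, ?_, ⟨γ * (h * g), hF', ?_⟩⟩
    · rw [hmem]
      have : h * (h⁻¹ * γ * h) * h⁻¹ = γ := by group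
      rw [this]
      exact hγ
    · simp [mul_assoc]

end Pool.Agent.Lib.MP_5d4057_al.T5
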