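import Pool.Agent.Lib.MP_5d4057_al.T5.MobA

/-!
# T5: functions of polynomial growth (owner: helper1)
-/

set_option autoImplicit false

namespace Pool.Agent.Lib.MP_5d4057_al.T5

open Metric Filter Topology Matrix Pool.Agent.Lib.MP_5d4057_al Pool.Agent.Lib.MP_5d4057_al.HM

/-- `1 - |mb g x|² = (1 - |x|²) / |c x + d|²`. -/
theorem mb_sq (g : SUGroup 1) {x : ℂ} (hx : x ∈ ball (0 : ℂ) 1) :
    (1 - ‖mb g x‖ ^ 2) * ‖g.toMatrix 1 0 * x + g.toMatrix 1 1‖ ^ 2 = 1 - ‖x‖ ^ 2 := by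
  have hd := mb_den g hx
  have hf := mb_form g x
  have hn : ‖g.toMatrix 1 0 * x + g.toMatrix 1 1‖ ≠ 0 := norm_ne_zero_iff.2 hd
  have h1 : ‖mb g x‖ ^ 2 * ‖g.toMatrix 1 0 * x + g.toMatrix 1 1‖ ^ 2 =
      ‖g.toMatrix 0 0 * x + g.toMatrix 0 1‖ ^ 2 := by
    rw [mb, norm_div, div_pow, div_mul_cancel₀ _ (pow_ne_zero 2 hn)]
  rw [sub_mul, one_mul, h1, hf]

/-- Schwarz - Pick for the growth of functions: `1 - ‖x‖ ≤ C (1 - ‖mb g x‖)`. -/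
theorem mb_growth (g : SUGroup 1) : ∃ C : ℝ, 0 < C ∧ ∀ x ∈ ball (0 : ℂ) 1,
    1 - ‖x‖ ≤ C * (1 - ‖mb g x‖) := by
  refine ⟨2 * (‖g.toMatrix 1 0‖ + ‖g.toMatrix 1 1‖ + 1) ^ 2, by positivity, ?_⟩
  intro x hx
  have hx1 : ‖x‖ < 1 := by simpa using hx
  have hm : ‖mb g x‖ < 1 := by simpa using mb_mem g hx
  have h := mb_sq g hx
  have hM : ‖g.toMatrix 1 0 * x + g.toMatrix 1 1‖ ≤ ‖g.toMatrix 1 0‖ + ‖g.toMatrix 1 1‖ + 1 := by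
    calc ‖g.toMatrix 1 0 * x + g.toMatrix 1 1‖
        ≤ ‖g.toMatrix 1 0‖ * ‖x‖ + ‖g.toMatrix 1 1‖ :=
          (norm_add_le _ _).trans (by rw [norm_mul])
      _ ≤ ‖g.toMatrix 1 0‖ * 1 + ‖g.toMatrix 1 1‖ := by gcongr
      _ ≤ _ := by linarith
  have hM2 : ‖g.toMatrix 1 0 * x + g.toMatrix 1 1‖ ^ 2 ≤
      (‖g.toMatrix 1 0‖ + ‖g.toMatrix 1 1‖ + 1) ^ 2 := by gcongr
  have h0 : 0 ≤ ‖mb g x‖ := norm_nonneg _
  have h1 : 0 ≤ 1 - ‖mb g x‖ ^ 2 := by nlinarith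
  calc 1 - ‖x‖ ≤ 1 - ‖x‖ ^ 2 := by nlinarith [norm_nonneg x]
    _ = (1 - ‖mb g x‖ ^ 2) * ‖g.toMatrix 1 0 * x + g.toMatrix 1 1‖ ^ 2 := h.symm
    _ ≤ (1 - ‖mb g x‖ ^ 2) * (‖g.toMatrix 1 0‖ + ‖g.toMatrix 1 1‖ + 1) ^ 2 := by gcongr
    _ ≤ (2 * (1 - ‖mb g x‖)) * (‖g.toMatrix 1 0‖ + ‖g.toMatrix 1 1‖ + 1) ^ 2 := by
        gcongr
        nlinarith
    _ = _ := by ring

/-- A nonnegative constant. -/
theorem PG.exists_nonneg {f : ℂ → ℂ} (h : PG f) : ∃ (C : ℝ) (N : ℕ), 0 ≤ C ∧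
    ∀ x ∈ ball (0 : ℂ) 1, ‖f x‖ * (1 - ‖x‖) ^ N ≤ C := by
  obtain ⟨C, N, hC⟩ := h.growth
  have h0 := hC 0 (by simp)
  refine ⟨C, N, le_trans ?_ h0, hC⟩
  simp

/-- The exponent may be increased. -/
theorem PG.le_pow {f : ℂ → ℂ} {C : ℝ} {N : ℕ} {x : ℂ} (hx : x ∈ ball (0 : ℂ) 1)
    (h : ‖f x‖ * (1 - ‖x‖) ^ N ≤ C) (M : ℕ) : ‖f x‖ * (1 - ‖x‖) ^ (N + M) ≤ C := by
  have hx1 : ‖x‖ < 1 := by simpa using hx
  have hp : (1 - ‖x‖) ^ M ≤ 1 := pow_le_one₀ (by linarith) (by linarith [norm_nonneg x])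
  have hq : 0 ≤ ‖f x‖ * (1 - ‖x‖) ^ N := mul_nonneg (norm_nonneg _) (pow_nonneg (by linarith) _)
  rw [pow_add, ← mul_assoc]
  calc ‖f x‖ * (1 - ‖x‖) ^ N * (1 - ‖x‖) ^ M ≤ ‖f x‖ * (1 - ‖x‖) ^ N * 1 := by gcongr
    _ ≤ C := by rwa [mul_one]

theorem PG.comp_mb {f : ℂ → ℂ} (h : PG f) (g : SUGroup 1) : PG fun x => f (mb g x) := by
  obtain ⟨C, N, hC0, hC⟩ := h.exists_nonneg
  obtain ⟨K, hK0, hK⟩ := mb_growth g
  refine ⟨?_, C * K ^ N, N, ?_⟩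
  · exact h.diff.comp (fun x hx => (mb_analytic g hx).differentiableAt.differentiableWithinAt)
      (fun x hx => mb_mem g hx)
  · intro x hx
    have hx1 : ‖x‖ < 1 := by simpa using hx
    have hm := mb_mem g hx
    have hm1 : ‖mb g x‖ < 1 := by simpa using hm
    calc ‖f (mb g x)‖ * (1 - ‖x‖) ^ N ≤ ‖f (mb g x)‖ * (K * (1 - ‖mb g x‖)) ^ N := by
          have := hK x hx
          have h0 : 0 ≤ 1 - ‖x‖ := by linarith
          gcongr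
      _ = (‖f (mb g x)‖ * (1 - ‖mb g x‖) ^ N) * K ^ N := by rw [mul_pow]; ring
      _ ≤ C * K ^ N := by
          have := hC _ hm
          gcongr

theorem PG.add {f g : ℂ → ℂ} (hf : PG f) (hg : PG g) : PG fun x => f x + g x := by
  obtain ⟨C, N, hC⟩ := hf.growth
  obtain ⟨D, M, hD⟩ := hg.growth
  refine ⟨hf.diff.add hg.diff, C + D, N + M, ?_⟩
  intro x hx
  have hx1 : ‖x‖ < 1 := by simpa using hx
  have h1 := PG.le_pow hx (hC x hx) M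
  have h2 := PG.le_pow hx (hD x hx) N
  rw [add_comm M N] at h2
  have h0 : 0 ≤ (1 - ‖x‖) ^ (N + M) := pow_nonneg (by linarith) _
  calc ‖f x + g x‖ * (1 - ‖x‖) ^ (N + M) ≤ (‖f x‖ + ‖g x‖) * (1 - ‖x‖) ^ (N + M) := by
        gcongr
        exact norm_add_le _ _
    _ ≤ C + D := by rw [add_mul]; linarith

theorem PG.mul {f g : ℂ → ℂ} (hf : PG f) (hg : PG g) : PG fun x => f x * g x := by
  obtain ⟨C, N, hC0, hC⟩ := hf.exists_nonneg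
  obtain ⟨D, M, hD0, hD⟩ := hg.exists_nonneg
  refine ⟨hf.diff.mul hg.diff, C * D, N + M, ?_⟩
  intro x hx
  have hx1 : ‖x‖ < 1 := by simpa using hx
  have h1 := hC x hx
  have h2 := hD x hx
  rw [norm_mul, pow_add]
  calc ‖f x‖ * ‖g x‖ * ((1 - ‖x‖) ^ N * (1 - ‖x‖) ^ M)
      = (‖f x‖ * (1 - ‖x‖) ^ N) * (‖g x‖ * (1 - ‖x‖) ^ M) := by ring
    _ ≤ C * D := by
        have h3 : 0 ≤ ‖g x‖ * (1 - ‖x‖) ^ M :=
          mul_nonneg (norm_nonneg _) (pow_nonneg (by linarith) _)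
        gcongr

theorem PG.const (c : ℂ) : PG fun _ => c := by
  refine ⟨differentiableOn_const c, ‖c‖, 0, ?_⟩
  intro x _
  simp

/-- A constant multiple. -/
theorem PG.const_mul {f : ℂ → ℂ} (hf : PG f) (c : ℂ) : PG fun x => c * f x :=
  (PG.const c).mul hf

theorem PG.sub {f g : ℂ → ℂ} (hf : PG f) (hg : PG g) : PG fun x => f x - g x := by
  have h := hf.add (hg.const_mul (-1))
  refine ⟨hf.diff.sub hg.diff, ?_⟩
  obtain ⟨C, N, hC⟩ := h.growth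
  refine ⟨C, N, fun x hx => ?_⟩
  have := hC x hx
  simp only [neg_mul, one_mul, ← sub_eq_add_neg] at this
  exact this

theorem PG.pow {f : ℂ → ℂ} (hf : PG f) (k : ℕ) : PG fun x => f x ^ k := by
  induction k with
  | zero => simpa using PG.const 1
  | succ k ih => simpa only [pow_succ] using ih.mul hf

theorem PG.congr {f g : ℂ → ℂ} (hf : PG f) (h : ∀ x ∈ ball (0 : ℂ) 1, g x = f x) : PG g := by
  obtain ⟨C, N, hC⟩ := hf.growth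
  refine ⟨hf.diff.congr h, C, N, fun x hx => ?_⟩
  rw [h x hx]
  exact hC x hx

end Pool.Agent.Lib.MP_5d4057_al.T5
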