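import Pool.Agent.Lib.MP_5d4057_al.T5.Defs

/-!
# T5: a relation of least degree (owner: helper88)
-/

set_option autoImplicit false

namespace Pool.Agent.Lib.MP_5d4057_al.T5

open Metric Filter Topology Pool.Agent.Lib.MP_5d4057_al Pool.Agent.Lib.MP_5d4057_al.HM

/-- A continuous function on a preconnected set whose values are roots of a nonzero polynomial is
constant. -/
theorem rel_const {X : Set ℂ} {t : ℂ → ℂ} (hX : X.Nonempty) (hX' : IsPreconnected X)
    (hta : ContinuousOn t X) {q : Polynomial ℂ} (hq : q ≠ 0) (h : ∀ x ∈ X, q.eval (t x) = 0) :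
    ∃ c, ∀ x ∈ X, t x = c := by
  have hfin : Set.Finite {z : ℂ | q.eval z = 0} := by
    have h1 : {z : ℂ | q.eval z = 0} = {z | q.IsRoot z} := rfl
    rw [h1]
    exact Polynomial.finite_setOfPred_isRoot hq
  obtain ⟨x₀, hx₀⟩ := hX
  obtain ⟨c, -, hc⟩ := hX'.eqOn_const_of_mapsTo (T := {z : ℂ | q.eval z = 0}) hfin.isDiscrete hta
    (fun x hx => h x hx) ⟨t x₀, h x₀ hx₀⟩
  exact ⟨c, fun x hx => hc hx⟩

/-- The derivative of the relation in the second variable can be assumed to be nonzero. PROOF: a relation with algebraic coefficients of least degree in the second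
variable; if the degree is `0` then `t` is constant. -/
theorem min_rel {X : Set ℂ} {t g : ℂ → ℂ} (hX : X.Nonempty) (ht : ∀ c, ¬ ∀ x ∈ X, t x = c) (hX' : IsPreconnected X) (hX'' : IsOpen X)
    (hta : DifferentiableOn ℂ t X) (hga : DifferentiableOn ℂ g X) {d : ℕ} (p : ℕ → ℕ → ℂ)
    (hpa : ∀ i j, IsAlgebraic ℚ (p i j)) (hp0 : ∃ i < d, ∃ j < d, p i j ≠ 0)
    (hp : ∀ x ∈ X, ∑ i ∈ Finset.range d, ∑ j ∈ Finset.range d, p i j * t x ^ i * g x ^ j = 0) :
    ∃ (d' : ℕ) (p' : ℕ → ℕ → ℂ), (∀ i j, IsAlgebraic ℚ (p' i j)) ∧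
      (∀ x ∈ X, ∑ i ∈ Finset.range d', ∑ j ∈ Finset.range d', p' i j * t x ^ i * g x ^ j = 0) ∧
      ∃ x ∈ X, ∑ i ∈ Finset.range d', ∑ j ∈ Finset.range d',
        p' i j * t x ^ i * ((j : ℂ) * g x ^ (j - 1)) ≠ 0 := by
  classical
  let S : ℕ → Prop := fun n => ∃ (e : ℕ) (q : ℕ → ℕ → ℂ), (∀ i j, IsAlgebraic ℚ (q i j)) ∧
    (∃ i j, q i j ≠ 0) ∧ (∀ i j, q i j ≠ 0 → i < e ∧ j < e ∧ j ≤ n) ∧
    ∀ x ∈ X, ∑ i ∈ Finset.range e, ∑ j ∈ Finset.range e, q i j * t x ^ i * g x ^ j = 0
  have hS : ∃ n, S n := by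
    refine ⟨d, d, fun i j => if i < d ∧ j < d then p i j else 0, ?_, ?_, ?_, ?_⟩
    · intro i j
      dsimp only
      split_ifs
      · exact hpa i j
      · exact isAlgebraic_zero
    · obtain ⟨i, hi, j, hj, h⟩ := hp0
      exact ⟨i, j, by simpa [hi, hj] using h⟩
    · intro i j h
      have h1 : i < d ∧ j < d := by
        by_contra h1
        exact h (if_neg h1)
      exact ⟨h1.1, h1.2, h1.2.le⟩
    · intro x hx
      refine Eq.trans ?_ (hp x hx)
      refine Finset.sum_congr rfl fun i hi => Finset.sum_congr rfl fun j hj => ?_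
      dsimp only
      rw [if_pos ⟨Finset.mem_range.1 hi, Finset.mem_range.1 hj⟩]
  obtain ⟨e, q, hqa, ⟨i₀, j₀, hq0⟩, hqn, hq⟩ := Nat.find_spec hS
  obtain ⟨n, hn⟩ : ∃ n, n = Nat.find hS := ⟨_, rfl⟩
  rw [← hn] at hqn
  obtain ⟨hi₀, hj₀, hjn⟩ := hqn i₀ j₀ hq0
  have hz : ∀ i j, n < j → q i j = 0 := by
    intro i j hj
    by_contra h
    exact absurd (hqn i j h).2.2 (not_le.2 hj)
  rcases Nat.eq_zero_or_pos n with h0 | h0
  · exfalso
    have hj00 : j₀ = 0 := by omega
    subst hj00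
    let Q : Polynomial ℂ := ∑ i ∈ Finset.range e, Polynomial.C (q i 0) * Polynomial.X ^ i
    have hQ : Q ≠ 0 := by
      intro h
      have h1 : Q.coeff i₀ = 0 := by rw [h, Polynomial.coeff_zero]
      rw [Polynomial.finsetSum_coeff] at h1
      simp only [Polynomial.coeff_C_mul, Polynomial.coeff_X_pow] at h1
      rw [Finset.sum_eq_single i₀] at h1
      · rw [if_pos rfl, mul_one] at h1
        exact hq0 h1
      · intro b _ hb
        rw [if_neg (Ne.symm hb), mul_zero]
      · intro h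
        exact absurd (Finset.mem_range.2 hi₀) h
    obtain ⟨c, hc⟩ := rel_const hX hX' hta.continuousOn hQ (fun x hx => by
      rw [← hq x hx, Polynomial.eval_finsetSum]
      refine Finset.sum_congr rfl fun i _ => ?_
      rw [Finset.sum_eq_single 0]
      · simp
      · intro b _ hb
        rw [hz i b (by omega), zero_mul, zero_mul]
      · intro h
        exact absurd (Finset.mem_range.2 hj₀) h)
    exact ht c hc
  · refine ⟨e, q, hqa, hq, ?_⟩
    by_contra hcon
    push Not at hcon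
    have hmin : ¬ S (n - 1) := Nat.find_min hS (by omega)
    -- the leading coefficient
    have hlead : ∃ i, q i n ≠ 0 := by
      by_contra hl
      push Not at hl
      refine hmin ⟨e, q, hqa, ⟨i₀, j₀, hq0⟩, fun i j h => ?_, hq⟩
      obtain ⟨h1, h2, h3⟩ := hqn i j h
      refine ⟨h1, h2, ?_⟩
      rcases Nat.lt_or_ge j n with h4 | h4
      · omega
      · exfalso
        have h5 : j = n := le_antisymm h3 h4
        subst h5
        exact h (hl i)
    obtain ⟨i₁, hi₁⟩ := hlead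
    refine hmin ⟨e, fun i j => ((j + 1 : ℕ) : ℂ) * q i (j + 1), ?_, ⟨i₁, n - 1, ?_⟩, ?_, ?_⟩
    · intro i j
      exact (isAlgebraic_natCast (j + 1)).mul (hqa i (j + 1))
    · have h1 : n - 1 + 1 = n := by omega
      dsimp only
      rw [h1]
      exact mul_ne_zero (Nat.cast_ne_zero.2 (by omega)) hi₁
    · intro i j h
      obtain ⟨h1, h2, h3⟩ := hqn i (j + 1) (right_ne_zero_of_mul h)
      exact ⟨h1, by omega, by omega⟩
    · intro x hx
      refine Eq.trans ?_ (hcon x hx)
      refine Finset.sum_congr rfl fun i _ => ?_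
      obtain ⟨e', rfl⟩ : ∃ e', e = e' + 1 := ⟨e - 1, by omega⟩
      rw [Finset.sum_range_succ, Finset.sum_range_succ' (fun j => q i j * t x ^ i *
        ((j : ℂ) * g x ^ (j - 1)))]
      have h1 : q i (e' + 1) = 0 := by
        by_contra h
        have := (hqn i (e' + 1) h).2.1
        omega
      dsimp only
      rw [h1]
      simp only [mul_zero, zero_mul, add_zero, Nat.cast_zero, Nat.add_sub_cancel]
      refine Finset.sum_congr rfl fun j _ => ?_
      ring

end Pool.Agent.Lib.MP_5d4057_al.T5
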