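import Pool.Agent.Lib.MP_5d4057_al.T5.AtZ
import Pool.Agent.Lib.MP_5d4057_al.T5.Rel
import Pool.Agent.Lib.MP_5d4057_al.T5.Conj
import Pool.Agent.Lib.MP_5d4057_al.T5.Mob

/-!
# T5: the theorem (helper85)
-/

set_option autoImplicit false

namespace Pool.Agent.Lib.MP_5d4057_al.T5

open Metric Filter Topology Pool.Agent.Lib.MP_5d4057_al Pool.Agent.Lib.MP_5d4057_al.HM

variable {Γ : Subgroup (SUGroup 1)} {a b y₁ y₂ : ℂ → ℂ}

/-- Translation of a relation: `P(τ + u, g)`. -/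
theorem shift_sum {R : Type} [CommRing R] (d : ℕ) (p : ℕ → ℕ → R) (τ u : R) (w : ℕ → R) :
    ∑ i ∈ Finset.range d, ∑ j ∈ Finset.range d,
      (∑ k ∈ Finset.range d, p k j * (k.choose i : R) * τ ^ (k - i)) * u ^ i * w j =
    ∑ k ∈ Finset.range d, ∑ j ∈ Finset.range d, p k j * (u + τ) ^ k * w j := by
  have h1 : ∀ k ∈ Finset.range d, (u + τ) ^ k =
      ∑ i ∈ Finset.range d, u ^ i * τ ^ (k - i) * (k.choose i : R) := by
    intro k hk
    rw [add_pow]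
    have hkd : k + 1 ≤ d := Finset.mem_range.1 hk
    refine Finset.sum_subset (Finset.range_subset_range.2 hkd) ?_
    intro i _ hi
    rw [Nat.choose_eq_zero_of_lt (by simpa using hi)]
    simp
  calc _ = ∑ i ∈ Finset.range d, ∑ j ∈ Finset.range d, ∑ k ∈ Finset.range d,
        p k j * (u ^ i * τ ^ (k - i) * (k.choose i : R)) * w j := by
        refine Finset.sum_congr rfl fun i _ => Finset.sum_congr rfl fun j _ => ?_
        rw [Finset.sum_mul, Finset.sum_mul]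
        exact Finset.sum_congr rfl fun k _ => by ring
    _ = ∑ k ∈ Finset.range d, ∑ j ∈ Finset.range d, ∑ i ∈ Finset.range d,
        p k j * (u ^ i * τ ^ (k - i) * (k.choose i : R)) * w j := by
        rw [Finset.sum_comm]
        rw [Finset.sum_congr rfl fun j _ => Finset.sum_comm]
        rw [Finset.sum_comm]
    _ = _ := by
        refine Finset.sum_congr rfl fun k hk => Finset.sum_congr rfl fun j _ => ?_
        rw [h1 k hk, Finset.mul_sum, Finset.sum_mul]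

/-- Gaussian rational numbers are dense. -/
theorem exists_alg {U : Set ℂ} (hU : IsOpen U) (hne : U.Nonempty) : ∃ τ ∈ U, IsAlgebraic ℚ τ := by
  have h1 : DenseRange (fun q : ℚ × ℚ => Complex.equivRealProdCLM.symm ((q.1 : ℝ), (q.2 : ℝ))) := by
    have h2 : DenseRange (Prod.map (fun q : ℚ => (q : ℝ)) (fun q : ℚ => (q : ℝ))) :=
      Rat.denseRange_cast.prodMap Rat.denseRange_cast
    have h3 : DenseRange (Complex.equivRealProdCLM.symm : ℝ × ℝ → ℂ) :=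
      Complex.equivRealProdCLM.symm.surjective.denseRange
    exact h3.comp h2 Complex.equivRealProdCLM.symm.continuous
  obtain ⟨q, hq⟩ := h1.exists_mem_open hU hne
  refine ⟨_, hq, ?_⟩
  have h4 : Complex.equivRealProdCLM.symm ((q.1 : ℝ), (q.2 : ℝ)) =
      algebraMap ℚ ℂ q.1 + algebraMap ℚ ℂ q.2 * Complex.I := by
    apply Complex.ext <;> simp
  rw [h4]
  have h5 : IsAlgebraic ℚ Complex.I := by
    refine ⟨Polynomial.X ^ 2 + 1, ?_, by simp⟩
    exact (Polynomial.monic_X_pow_add_C (1 : ℚ) (n := 2) (by norm_num)).ne_zero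
  exact (isAlgebraic_algebraMap _).add ((isAlgebraic_algebraMap _).mul h5)

theorem ball_pre : IsPreconnected (ball (0 : ℂ) 1) := (convex_ball _ _).isPreconnected

theorem PG.an {f : ℂ → ℂ} (h : PG f) : AnalyticOnNhd ℂ f (ball 0 1) :=
  h.diff.analyticOnNhd isOpen_ball

/-- Identity theorem. -/
theorem ident {f g : ℂ → ℂ} (hf : AnalyticOnNhd ℂ f (ball 0 1)) (hg : AnalyticOnNhd ℂ g (ball 0 1))
    {X : Set ℂ} (hX : IsOpen X) (hXb : X ⊆ ball 0 1) (hne : X.Nonempty) (h : ∀ x ∈ X, f x = g x) :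
    ∀ x ∈ ball (0 : ℂ) 1, f x = g x := by
  obtain ⟨z, hz⟩ := hne
  refine hf.eqOn_of_preconnected_of_eventuallyEq hg ball_pre (hXb hz) ?_
  filter_upwards [hX.mem_nhds hz] with x hx using h x hx

/-- A small disc on which everything is regular. -/
theorem exists_disc (ha : PG a) (hb : PG b) (h₁ : PG y₁) (h₂ : PG y₂)
    (b0 : ∃ x ∈ ball (0 : ℂ) 1, b x ≠ 0) (y10 : ∃ x ∈ ball (0 : ℂ) 1, y₁ x ≠ 0)
    (y20 : ∃ x ∈ ball (0 : ℂ) 1, y₂ x ≠ 0)
    (hnc : ¬ ∃ c : ℂ, ∀ x ∈ ball (0 : ℂ) 1, a x = c * b x) :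
    ∃ X : Set ℂ, IsOpen X ∧ X.Nonempty ∧ IsPreconnected X ∧ X ⊆ ball 0 1 ∧
      ∀ x ∈ X, b x ≠ 0 ∧ y₁ x ≠ 0 ∧ y₂ x ≠ 0 ∧ deriv a x * b x - a x * deriv b x ≠ 0 := by
  have hw : AnalyticOnNhd ℂ (fun x => deriv a x * b x - a x * deriv b x) (ball 0 1) :=
    (ha.an.deriv.mul hb.an).sub (ha.an.mul hb.an.deriv)
  have hw0 : ∃ x ∈ ball (0 : ℂ) 1, deriv a x * b x - a x * deriv b x ≠ 0 := by
    by_contra hcon
    push Not at hcon
    obtain ⟨x₀, hx₀, hbx⟩ := b0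
    have hopen : IsOpen (ball (0 : ℂ) 1 ∩ {x | b x ≠ 0}) :=
      hb.diff.continuousOn.isOpen_inter_preimage isOpen_ball isOpen_compl_singleton
    obtain ⟨ε, hε, hsub⟩ := Metric.isOpen_iff.1 hopen x₀ ⟨hx₀, hbx⟩
    have hd : ∀ x ∈ ball x₀ ε, HasDerivAt (fun x => a x / b x) 0 x := by
      intro x hx
      have h3 := hsub hx
      have h4 : DifferentiableAt ℂ a x := ha.diff.differentiableAt (isOpen_ball.mem_nhds h3.1)
      have h5 : DifferentiableAt ℂ b x := hb.diff.differentiableAt (isOpen_ball.mem_nhds h3.1)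
      have h6 := h4.hasDerivAt.div h5.hasDerivAt h3.2
      rwa [hcon x h3.1, zero_div] at h6
    have hconst : ∀ x ∈ ball x₀ ε, a x / b x = a x₀ / b x₀ := by
      intro x hx
      refine isOpen_ball.is_const_of_deriv_eq_zero (convex_ball x₀ ε).isPreconnected
        (fun z hz => (hd z hz).differentiableAt.differentiableWithinAt) (fun z hz => (hd z hz).deriv)
        hx (mem_ball_self hε)
    refine hnc ⟨a x₀ / b x₀, ident ha.an (analyticOnNhd_const.mul hb.an) isOpen_ball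
      (fun x hx => (hsub hx).1) ⟨x₀, mem_ball_self hε⟩ fun x hx => ?_⟩
    rw [← hconst x hx, div_mul_cancel₀ _ (hsub hx).2]
  have hF : ∃ x ∈ ball (0 : ℂ) 1, b x * y₁ x * (y₂ x * (deriv a x * b x - a x * deriv b x)) ≠ 0 := by
    by_contra hcon
    push Not at hcon
    rcases (hb.an.mul h₁.an).eq_zero_or_eq_zero_of_mul_eq_zero (h₂.an.mul hw) hcon ball_pre with h | h
    · rcases hb.an.eq_zero_or_eq_zero_of_mul_eq_zero h₁.an h ball_pre with h' | h'
      · obtain ⟨x, hx, hne⟩ := b0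
        exact hne (h' x hx)
      · obtain ⟨x, hx, hne⟩ := y10
        exact hne (h' x hx)
    · rcases h₂.an.eq_zero_or_eq_zero_of_mul_eq_zero hw h ball_pre with h' | h'
      · obtain ⟨x, hx, hne⟩ := y20
        exact hne (h' x hx)
      · obtain ⟨x, hx, hne⟩ := hw0
        exact hne (h' x hx)
  obtain ⟨x₁, hx₁, hne⟩ := hF
  have hcF : ContinuousOn (fun x => b x * y₁ x * (y₂ x * (deriv a x * b x - a x * deriv b x)))
      (ball 0 1) := ((hb.an.mul h₁.an).mul (h₂.an.mul hw)).continuousOn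
  have hopen := hcF.isOpen_inter_preimage isOpen_ball (isOpen_compl_singleton (x := (0 : ℂ)))
  obtain ⟨ε, hε, hsub⟩ := Metric.isOpen_iff.1 hopen x₁ ⟨hx₁, hne⟩
  refine ⟨ball x₁ ε, isOpen_ball, ⟨x₁, mem_ball_self hε⟩, (convex_ball _ _).isPreconnected,
    fun x hx => (hsub hx).1, fun x hx => ?_⟩
  have h1 : b x * y₁ x * (y₂ x * (deriv a x * b x - a x * deriv b x)) ≠ 0 := (hsub hx).2
  refine ⟨?_, ?_, ?_, ?_⟩ <;> intro h0 <;> apply h1 <;> rw [h0] <;> ring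

theorem mb_inv_mb (h : SUGroup 1) {x : ℂ} (hx : x ∈ ball (0 : ℂ) 1) : mb h⁻¹ (mb h x) = x := by
  rw [← mb_mul h⁻¹ h hx, inv_mul_cancel, mb_one]

theorem mb_deriv_ne (h : SUGroup 1) {x : ℂ} (hx : x ∈ ball (0 : ℂ) 1) : deriv (mb h) x ≠ 0 := by
  intro h0
  have h1 : HasDerivAt (mb h) 0 x := by
    rw [← h0]
    exact (mb_analytic h hx).differentiableAt.hasDerivAt
  have h2 := ((mb_analytic h⁻¹ (mb_mem h hx)).differentiableAt.hasDerivAt).comp x h1
  have h3 : HasDerivAt (fun y => y) (1 : ℂ) x := hasDerivAt_id x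
  have h4 : (mb h⁻¹ ∘ mb h) =ᶠ[𝓝 x] fun y => y := by
    filter_upwards [isOpen_ball.mem_nhds hx] with y hy using mb_inv_mb h hy
  have h5 := (h3.congr_of_eventuallyEq h4).unique h2
  simp at h5

/-- `lg` is invariant under changes of the variable and `t ↦ t - τ`. -/
theorem lg_comp (ha : PG a) (hb : PG b) (h₁ : PG y₁) (h₂ : PG y₂) (h : SUGroup 1) (τ : ℂ) {x : ℂ}
    (hx : x ∈ ball (0 : ℂ) 1) :
    lg (fun x => a (mb h x) + -τ * b (mb h x)) (fun x => b (mb h x)) (fun x => y₁ (mb h x))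
      (fun x => y₂ (mb h x)) x = lg a b y₁ y₂ (mb h x) := by
  have hm := mb_mem h hx
  have key : ∀ {f : ℂ → ℂ}, PG f → HasDerivAt (fun x => f (mb h x)) (deriv f (mb h x) * deriv (mb h) x) x := by
    intro f hf
    exact (hf.diff.differentiableAt (isOpen_ball.mem_nhds hm)).hasDerivAt.comp x
      (mb_analytic h hx).differentiableAt.hasDerivAt
  have hm0 := mb_deriv_ne h hx
  unfold lg
  rw [((key ha).fun_add ((key hb).const_mul (-τ))).deriv, (key hb).deriv, (key h₁).deriv, (key h₂).deriv]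
  set e := deriv (mb h) x
  set z := mb h x
  have h1 : (deriv y₁ z * e * y₂ z - y₁ z * (deriv y₂ z * e)) * b z ^ 2 =
      e * ((deriv y₁ z * y₂ z - y₁ z * deriv y₂ z) * b z ^ 2) := by ring
  have h2 : y₁ z * y₂ z * ((deriv a z * e + -τ * (deriv b z * e)) * b z - (a z + -τ * b z) * (deriv b z * e)) =
      e * (y₁ z * y₂ z * (deriv a z * b z - a z * deriv b z)) := by ring
  rw [h1, h2, mul_div_mul_left _ _ hm0]

/-- **THEOREM T5.** -/
theorem finite_order (hΓ : Coc Γ) (ha : PG a) (hb : PG b) (h₁ : PG y₁) (h₂ : PG y₂)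
    (b0 : ∃ x ∈ ball (0 : ℂ) 1, b x ≠ 0) (y10 : ∃ x ∈ ball (0 : ℂ) 1, y₁ x ≠ 0)
    (y20 : ∃ x ∈ ball (0 : ℂ) 1, y₂ x ≠ 0)
    (hnc : ¬ ∃ c : ℂ, ∀ x ∈ ball (0 : ℂ) 1, a x = c * b x)
    (hinv : ∀ γ ∈ Γ, ∀ x ∈ ball (0 : ℂ) 1, a (mb γ x) * b x = a x * b (mb γ x))
    (μ : Γ →* ℂ) (hμ : ∀ γ, ‖μ γ‖ = 1) (hμa : ∀ γ, IsAlgebraic ℚ (μ γ))
    (hY : ∀ γ : Γ, ∀ x ∈ ball (0 : ℂ) 1, y₁ (mb γ x) * y₂ x = μ γ * (y₁ x * y₂ (mb γ x)))
    {d : ℕ} (p : ℕ → ℕ → ℂ) (hpa : ∀ i j, IsAlgebraic ℚ (p i j))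
    (hp0 : ∃ i < d, ∃ j < d, p i j ≠ 0)
    (hp : ∀ x ∈ ball (0 : ℂ) 1, b x ≠ 0 → y₁ x ≠ 0 → y₂ x ≠ 0 →
      deriv a x * b x - a x * deriv b x ≠ 0 → ∑ i ∈ Finset.range d, ∑ j ∈ Finset.range d,
      p i j * (a x / b x) ^ i * lg a b y₁ y₂ x ^ j = 0) :
    ∃ N : ℕ, 0 < N ∧ ∀ γ, μ γ ^ N = 1 := by
  obtain ⟨X, hXo, hXn, hXp, hXb, hX⟩ := exists_disc ha hb h₁ h₂ b0 y10 y20 hnc
  have hta : DifferentiableOn ℂ (fun x => a x / b x) X :=
    (ha.diff.mono hXb).div (hb.diff.mono hXb) fun x hx => (hX x hx).1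
  have hga : DifferentiableOn ℂ (lg a b y₁ y₂) X := by
    have d1 := fun {f : ℂ → ℂ} (hf : PG f) => hf.diff.mono hXb
    have d2 := fun {f : ℂ → ℂ} (hf : PG f) => (hf.diff.deriv isOpen_ball).mono hXb
    refine ((((d2 h₁).mul (d1 h₂)).sub ((d1 h₁).mul (d2 h₂))).mul ((d1 hb).pow 2)).div
      (((d1 h₁).mul (d1 h₂)).mul (((d2 ha).mul (d1 hb)).sub ((d1 ha).mul (d2 hb)))) fun x hx => ?_
    obtain ⟨_, e2, e3, e4⟩ := hX x hx
    exact mul_ne_zero (mul_ne_zero e2 e3) e4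
  have htc : ∀ c, ¬ ∀ x ∈ X, (fun x => a x / b x) x = c := by
    intro c hc
    refine hnc ⟨c, ident ha.an (analyticOnNhd_const.mul hb.an) hXo hXb hXn fun x hx => ?_⟩
    rw [← hc x hx]
    exact (div_mul_cancel₀ _ (hX x hx).1).symm
  obtain ⟨d', p', hpa', hp', x₁, hx₁, hreg⟩ := min_rel hXn htc hXp hXo hta hga p hpa hp0
    (fun x hx => hp x (hXb hx) (hX x hx).1 (hX x hx).2.1 (hX x hx).2.2.1 (hX x hx).2.2.2)
  -- the base point
  have hcq : ContinuousOn (fun x => ∑ i ∈ Finset.range d', ∑ j ∈ Finset.range d',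
        p' i j * (a x / b x) ^ i * ((j : ℂ) * lg a b y₁ y₂ x ^ (j - 1))) X := by
    refine continuousOn_finsetSum _ fun i _ => continuousOn_finsetSum _ fun j _ => ?_
    exact (continuousOn_const.mul (hta.continuousOn.pow i)).mul
      (continuousOn_const.mul (hga.continuousOn.pow (j - 1)))
  have hVo : IsOpen (X ∩ (fun x => ∑ i ∈ Finset.range d', ∑ j ∈ Finset.range d',
        p' i j * (a x / b x) ^ i * ((j : ℂ) * lg a b y₁ y₂ x ^ (j - 1))) ⁻¹' {0}ᶜ) :=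
    hcq.isOpen_inter_preimage hXo isOpen_compl_singleton
  set V := X ∩ (fun x => ∑ i ∈ Finset.range d', ∑ j ∈ Finset.range d',
        p' i j * (a x / b x) ^ i * ((j : ℂ) * lg a b y₁ y₂ x ^ (j - 1))) ⁻¹' {0}ᶜ with hV
  have hx₁V : x₁ ∈ V := ⟨hx₁, hreg⟩
  have htd : HasStrictDerivAt (fun x => a x / b x)
      ((deriv a x₁ * b x₁ - a x₁ * deriv b x₁) / b x₁ ^ 2) x₁ := by
    have e1 := (ha.an x₁ (hXb hx₁)).hasStrictDerivAt
    have e2 := (hb.an x₁ (hXb hx₁)).hasStrictDerivAt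
    exact e1.div e2 (hX x₁ hx₁).1
  have htd0 : (deriv a x₁ * b x₁ - a x₁ * deriv b x₁) / b x₁ ^ 2 ≠ 0 :=
    div_ne_zero (hX x₁ hx₁).2.2.2 (pow_ne_zero _ (hX x₁ hx₁).1)
  have himg : (fun x => a x / b x) '' V ∈ 𝓝 (a x₁ / b x₁) := by
    rw [← htd.map_nhds_eq htd0]
    exact image_mem_map (hVo.mem_nhds hx₁V)
  obtain ⟨W, hWs, hWo, hW1⟩ := _root_.mem_nhds_iff.1 himg
  obtain ⟨τ, hτW, hτa⟩ := exists_alg hWo ⟨_, hW1⟩
  obtain ⟨x₀, hx₀V, hx₀t⟩ := hWs hτW
  have hx₀t : a x₀ / b x₀ = τ := hx₀t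
  have hx₀X : x₀ ∈ X := hx₀V.1
  have hx₀b : x₀ ∈ ball (0 : ℂ) 1 := hXb hx₀X
  obtain ⟨hb₀, hy1₀, hy2₀, hw₀⟩ := hX x₀ hx₀X
  obtain ⟨h, hh⟩ := exists_mb hx₀b
  have h00 : (0 : ℂ) ∈ ball (0 : ℂ) 1 := mem_ball_self one_pos
  -- conjugation
  have hinj : Function.Injective (MulAut.conj h⁻¹).toMonoidHom := (MulAut.conj h⁻¹).injective
  set e := Γ.equivMapOfInjective (MulAut.conj h⁻¹).toMonoidHom hinj with he
  have hcomm : ∀ (δ : Γ.map (MulAut.conj h⁻¹).toMonoidHom) {x : ℂ}, x ∈ ball (0 : ℂ) 1 →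
      mb h (mb δ x) = mb (e.symm δ : Γ) (mb h x) := by
    intro δ x hx
    have e1 : (δ : SUGroup 1) = h⁻¹ * (e.symm δ : Γ) * h := by
      have e2 : ((e (e.symm δ) : Γ.map (MulAut.conj h⁻¹).toMonoidHom) : SUGroup 1) =
          (MulAut.conj h⁻¹).toMonoidHom (e.symm δ : Γ) := by
        rw [he, Subgroup.coe_equivMapOfInjective_apply]
      rw [MulEquiv.apply_symm_apply] at e2
      rw [e2]
      simp
    rw [← mb_mul h _ hx, ← mb_mul _ h hx, e1]
    congr 1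
    group
  have hae := at_zero (Γ := Γ.map (MulAut.conj h⁻¹).toMonoidHom)
    (a := fun x => a (mb h x) + -τ * b (mb h x)) (b := fun x => b (mb h x))
    (y₁ := fun x => y₁ (mb h x)) (y₂ := fun x => y₂ (mb h x)) (coc_conj hΓ h)
    ((ha.comp_mb h).add ((PG.const (-τ)).mul (hb.comp_mb h))) (hb.comp_mb h) (h₁.comp_mb h) (h₂.comp_mb h)
    (by
      show a (mb h 0) + -τ * b (mb h 0) = 0
      rw [hh, ← hx₀t]
      field_simp
      ring)
    (by
      have key : ∀ {f : ℂ → ℂ}, PG f → HasDerivAt (fun x => f (mb h x)) (deriv f (mb h 0) * deriv (mb h) 0) 0 := by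
        intro f hf
        exact (hf.diff.differentiableAt (isOpen_ball.mem_nhds (mb_mem h h00))).hasDerivAt.comp 0
          (mb_analytic h h00).differentiableAt.hasDerivAt
      rw [((key ha).fun_add ((key hb).const_mul (-τ))).deriv, hh]
      intro h0
      have h1 : (deriv a x₀ - τ * deriv b x₀) * deriv (mb h) 0 = 0 := by linear_combination h0
      rcases mul_eq_zero.1 h1 with h2 | h2
      · apply hw₀
        have h3 : a x₀ = τ * b x₀ := by rw [← hx₀t, div_mul_cancel₀ _ hb₀]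
        rw [h3]
        linear_combination b x₀ * h2
      · exact mb_deriv_ne h h00 h2)
    (by show b (mb h 0) ≠ 0; rwa [hh])
    (by show y₁ (mb h 0) ≠ 0; rwa [hh])
    (by show y₂ (mb h 0) ≠ 0; rwa [hh])
    (by
      intro δ hδ x hx
      have e1 := hcomm ⟨δ, hδ⟩ hx
      have e2 := hinv (e.symm ⟨δ, hδ⟩ : Γ) (e.symm ⟨δ, hδ⟩ : Γ).2 (mb h x) (mb_mem h hx)
      show (a (mb h (mb δ x)) + -τ * b (mb h (mb δ x))) * b (mb h x) =
        (a (mb h x) + -τ * b (mb h x)) * b (mb h (mb δ x))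
      have e1' : mb h (mb δ x) = mb (e.symm ⟨δ, hδ⟩ : Γ) (mb h x) := e1
      rw [e1']
      linear_combination e2)
    (μ.comp e.symm.toMonoidHom) (fun δ => hμ _) (fun δ => hμa _)
    (by
      intro δ x hx
      have e1 := hcomm δ hx
      show y₁ (mb h (mb δ x)) * y₂ (mb h x) = μ (e.symm δ) * (y₁ (mb h x) * y₂ (mb h (mb δ x)))
      rw [e1]
      exact hY (e.symm δ) (mb h x) (mb_mem h hx))
    (d := d') (fun i j => ∑ k ∈ Finset.range d', p' k j * (k.choose i : ℂ) * τ ^ (k - i))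
    (by
      intro i j
      refine Subalgebra.sum_mem (integralClosure ℚ ℂ) (t := Finset.range d')
        (f := fun k => p' k j * (k.choose i : ℂ) * τ ^ (k - i)) (fun k _ => ?_) |>.isAlgebraic
      exact (((hpa' k j).isIntegral.mul (isAlgebraic_natCast _).isIntegral).mul
        (hτa.isIntegral.pow _)))
    (by
      have hev : ∀ᶠ x in 𝓝 (0 : ℂ), mb h x ∈ X ∧ x ∈ ball (0 : ℂ) 1 := by
        refine ((mb_analytic h h00).continuousAt.eventually ?_).and (isOpen_ball.mem_nhds h00)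
        rw [hh]
        exact hXo.mem_nhds hx₀X
      filter_upwards [hev] with x hx
      have e1 := shift_sum d' p' τ ((a (mb h x) + -τ * b (mb h x)) / b (mb h x))
        (fun j => lg a b y₁ y₂ (mb h x) ^ j)
      have e2 : (a (mb h x) + -τ * b (mb h x)) / b (mb h x) + τ = a (mb h x) / b (mb h x) := by
        have := (hX _ hx.1).1
        field_simp
        ring
      rw [e2, hp' _ hx.1] at e1
      rw [lg_comp ha hb h₁ h₂ h τ hx.2]
      exact e1)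
    (by
      rw [lg_comp ha hb h₁ h₂ h τ h00, hh]
      have e1 : ∑ i ∈ Finset.range d', ∑ j ∈ Finset.range d',
        p' i j * (a x₀ / b x₀) ^ i * ((j : ℂ) * lg a b y₁ y₂ x₀ ^ (j - 1)) ≠ 0 := hx₀V.2
      rw [Finset.sum_comm, hx₀t] at e1
      convert e1 using 1
      refine Finset.sum_congr rfl fun j _ => ?_
      rw [Finset.sum_mul]
      exact Finset.sum_congr rfl fun k _ => by simp)
  obtain ⟨N, hN, hall⟩ := hae
  refine ⟨N, hN, fun γ => ?_⟩
  have e3 : (μ.comp e.symm.toMonoidHom) (e γ) = μ γ := congrArg μ (e.symm_apply_apply γ)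
  have e4 := hall (e γ)
  rwa [e3] at e4

end Pool.Agent.Lib.MP_5d4057_al.T5
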