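import Mathlib

/-!
# T5: heights and the auxiliary function (definitions)
-/

set_option autoImplicit false

namespace Pool.Agent.Lib.MP_5d4057_al.T5

/-- A bound for the height of an element of a number field. -/
def Ht (K : Type*) [Field K] [NumberField K] (x : K) (h : ℝ) : Prop :=
  0 ≤ h ∧ ∃ q : ℕ, 0 < q ∧ (q : ℝ) ≤ Real.exp h ∧ IsIntegral ℤ ((q : K) * x) ∧
    NumberField.house x ≤ Real.exp h

/-- The auxiliary function. -/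
def Fz {K : Type*} [Field K] (ι : K →+* ℂ) (t Y : ℂ → ℂ) (a : ℕ → ℕ → K) (x : K)
    (D0 D1 : ℕ) : ℂ → ℂ :=
  fun z => ∑ i ∈ Finset.range (D0 + 1), ∑ j ∈ Finset.range (D1 + 1),
    ι (a i j) * ι x ^ j * t z ^ i * Y z ^ j

/-- The Siegel lemma at the point `p` (statement). -/
def SiegelAt {K : Type*} [Field K] [NumberField K] (ι : K →+* ℂ) (t Y : ℂ → ℂ) (p : ℂ) : Prop :=
  ∃ C : ℝ, 1 ≤ C ∧ ∀ (D0 D1 T : ℕ), 1 ≤ T → ∀ (X : Finset K) (h : ℝ), 0 ≤ h →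
    (∀ x ∈ X, Ht K x h) →
    2 * T * X.card ≤ (D0 + 1) * (D1 + 1) → ∃ a : ℕ → ℕ → K,
      (∃ i ≤ D0, ∃ j ≤ D1, a i j ≠ 0) ∧
      (∀ i j, IsIntegral ℤ (a i j) ∧ NumberField.house (a i j) ≤
        Real.exp (C * (T * Real.log (D0 + D1 + T + 1) + D0 + D1 * (h + 1)))) ∧
      ∀ x ∈ X, (T : ℕ∞) ≤ analyticOrderAt (Fz ι t Y a x D0 D1) p

/-- The Liouville inequality at the point `p` (statement). -/
def LiouvilleAt {K : Type*} [Field K] [NumberField K] (ι : K →+* ℂ) (t Y : ℂ → ℂ)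
    (p : ℂ) : Prop :=
  ∃ C : ℝ, 1 ≤ C ∧ ∀ (D0 D1 m : ℕ) (a : ℕ → ℕ → K) (x : K) (h A : ℝ) (k : ℂ → ℂ), 0 ≤ A →
    (∀ i j, IsIntegral ℤ (a i j) ∧ NumberField.house (a i j) ≤ Real.exp A) → Ht K x h →
    AnalyticAt ℂ k p → k p ≠ 0 →
    (∀ᶠ z in nhds p, Fz ι t Y a x D0 D1 z = (z - p) ^ m * k z) →
    Real.exp (-(C * (A + m * Real.log (D0 + D1 + m + 1) + D0 + D1 * (h + 1)))) ≤ ‖k p‖

end Pool.Agent.Lib.MP_5d4057_al.T5
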