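import Pool.Agent.Lib.MP_5d4057_al.T5.Eis
import Pool.Agent.Lib.MP_5d4057_al.T5.HtD
import Pool.Agent.Lib.MP_60829e_nt.BAlg

/-!
# T5, arithmetic part: Siegel and Liouville for the functions `∑ a_ij x^j t^i Y^j`
-/

set_option autoImplicit false

namespace Pool.Agent.Lib.MP_5d4057_al.T5

open MvPolynomial NumberField Filter Topology

/-! ## The operator `d / dt` and orders -/

theorem Dt_analyticAt {t f : ℂ → ℂ} {p : ℂ} (ht : AnalyticAt ℂ t p) (ht' : deriv t p ≠ 0)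
    (hf : AnalyticAt ℂ f p) : AnalyticAt ℂ (Dt t f) p :=
  hf.deriv.div ht.deriv ht'

theorem Dt_iter_analyticAt {t f : ℂ → ℂ} {p : ℂ} (ht : AnalyticAt ℂ t p) (ht' : deriv t p ≠ 0)
    (hf : AnalyticAt ℂ f p) (l : ℕ) : AnalyticAt ℂ ((Dt t)^[l] f) p := by
  induction l with
  | zero => exact hf
  | succ l ih =>
    rw [Function.iterate_succ_apply']
    exact Dt_analyticAt ht ht' ih

theorem Dt_lead {t : ℂ → ℂ} {p : ℂ} (ht : AnalyticAt ℂ t p) (ht' : deriv t p ≠ 0) (m : ℕ) :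
    ∀ {F k : ℂ → ℂ}, AnalyticAt ℂ k p → F =ᶠ[𝓝 p] (fun z => (z - p) ^ m * k z) →
      (Dt t)^[m] F p = (m.factorial : ℂ) * k p / deriv t p ^ m := by
  induction m with
  | zero =>
    intro F k _ h
    have := h.self_of_nhds
    simpa using this
  | succ m ih =>
    intro F k hk h
    rw [Function.iterate_succ_apply]
    have h1 : Dt t F =ᶠ[𝓝 p] fun z => (z - p) ^ m *
        ((((m : ℂ) + 1) * k z + (z - p) * deriv k z) / deriv t z) := by
      filter_upwards [h.deriv, hk.eventually_analyticAt] with z hz hkz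
      rw [Dt, hz]
      have h2 : HasDerivAt (fun z => (z - p) ^ (m + 1) * k z)
          ((((m + 1 : ℕ) : ℂ) * (z - p) ^ m * 1) * k z + (z - p) ^ (m + 1) * deriv k z) z := by
        have h3 : HasDerivAt (fun z => (z - p) ^ (m + 1))
            (((m + 1 : ℕ) : ℂ) * (z - p) ^ m * 1) z := by
          have h4 := ((hasDerivAt_id z).sub_const p).fun_pow (m + 1)
          simpa using h4
        exact h3.mul hkz.differentiableAt.hasDerivAt
      rw [h2.deriv]
      push_cast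
      ring
    have hk1 : AnalyticAt ℂ (fun z => (((m : ℂ) + 1) * k z + (z - p) * deriv k z) / deriv t z) p :=
      ((analyticAt_const.mul hk).add ((analyticAt_id.sub analyticAt_const).mul hk.deriv)).div
        ht.deriv ht'
    rw [ih hk1 h1, Nat.factorial_succ, pow_succ]
    push_cast
    rw [sub_self, zero_mul, add_zero]
    field_simp

theorem order_of_Dt {t F : ℂ → ℂ} {p : ℂ} (ht : AnalyticAt ℂ t p) (ht' : deriv t p ≠ 0)
    (hF : AnalyticAt ℂ F p) (T : ℕ) (h : ∀ l < T, (Dt t)^[l] F p = 0) :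
    (T : ℕ∞) ≤ analyticOrderAt F p := by
  induction T with
  | zero => simp
  | succ T ih =>
    have h1 := ih fun l hl => h l (Nat.lt_succ_of_lt hl)
    obtain ⟨k, hk, he⟩ := (natCast_le_analyticOrderAt hF).1 h1
    have he' : F =ᶠ[𝓝 p] fun z => (z - p) ^ T * k z := by
      filter_upwards [he] with z hz
      simpa using hz
    have h2 := Dt_lead ht ht' T hk he'
    rw [h T (Nat.lt_succ_self T)] at h2
    have hk0 : k p = 0 := by
      have h3 : (T.factorial : ℂ) ≠ 0 := by exact_mod_cast T.factorial_ne_zero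
      have h4 : deriv t p ^ T ≠ 0 := pow_ne_zero _ ht'
      field_simp at h2
      simpa [h3] using h2.symm
    have h5 : (1 : ℕ∞) ≤ analyticOrderAt k p := by
      have h6 : analyticOrderAt k p ≠ 0 := by
        rw [hk.analyticOrderAt_ne_zero]
        exact hk0
      exact Order.one_le_iff_ne_zero.2 h6
    obtain ⟨k', hk', hke⟩ := (natCast_le_analyticOrderAt (n := 1) hk).1 (by exact_mod_cast h5)
    rw [natCast_le_analyticOrderAt hF]
    refine ⟨k', hk', ?_⟩
    filter_upwards [he, hke] with z hz hkz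
    rw [hz, hkz]
    simp only [smul_eq_mul, pow_succ, pow_zero, one_mul]
    ring

theorem Dt_iter_sum {κ : Type*} (s : Finset κ) {t : ℂ → ℂ} {p : ℂ} (ht : AnalyticAt ℂ t p)
    (ht' : deriv t p ≠ 0) (c : κ → ℂ) (f : κ → ℂ → ℂ) (hf : ∀ i ∈ s, AnalyticAt ℂ (f i) p)
    (l : ℕ) :
    (Dt t)^[l] (fun z => ∑ i ∈ s, c i * f i z) =ᶠ[𝓝 p]
      fun z => ∑ i ∈ s, c i * (Dt t)^[l] (f i) z := by
  induction l with
  | zero => rfl
  | succ l ih =>
    rw [Function.iterate_succ_apply']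
    refine (Dt_congr ih).trans ?_
    have h1 : ∀ᶠ z in 𝓝 p, ∀ i ∈ s, AnalyticAt ℂ ((Dt t)^[l] (f i)) z := by
      rw [Filter.eventually_all_finset]
      intro i hi
      exact (Dt_iter_analyticAt ht ht' (hf i hi) l).eventually_analyticAt
    filter_upwards [h1] with z hz
    have h2 : HasDerivAt (fun z => ∑ i ∈ s, c i * (Dt t)^[l] (f i) z)
        (∑ i ∈ s, c i * deriv ((Dt t)^[l] (f i)) z) z :=
      HasDerivAt.fun_sum fun i hi => ((hz i hi).differentiableAt.hasDerivAt).const_mul _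
    rw [Dt, h2.deriv, Finset.sum_div]
    apply Finset.sum_congr rfl
    intro i _
    rw [Function.iterate_succ_apply', Dt]
    ring

/-! ## An algebraic relation `P(t, g) = 0` gives a polynomial system -/

variable {K : Type} [Field K] [NumberField K]

theorem hasDerivAt_eval2 (ι : K →+* ℂ) {r : ℕ} {x : Fin r → ℂ → ℂ} {x' : Fin r → ℂ}
    {z : ℂ} (h : ∀ s, HasDerivAt (x s) (x' s) z) (F : MvPolynomial (Fin r) K) :
    HasDerivAt (fun z => eval₂ ι (fun s => x s z) F)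
      (∑ s, eval₂ ι (fun s => x s z) (pderiv s F) * x' s) z := by
  induction F using MvPolynomial.induction_on with
  | C a =>
    simp only [eval₂_C, pderiv_C, eval₂_zero, zero_mul, Finset.sum_const_zero]
    exact hasDerivAt_const _ _
  | add p q hp hq =>
    simp only [eval₂_add, map_add, add_mul, Finset.sum_add_distrib]
    exact hp.add hq
  | mul_X p i hp =>
    simp only [eval₂_mul, eval₂_X, Derivation.leibniz, eval₂_add, smul_eq_mul]
    have := hp.mul (h i)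
    refine this.congr_deriv ?_
    simp only [add_mul, Finset.sum_add_distrib]
    have h1 : ∑ s, eval₂ ι (fun s => x s z) p * eval₂ ι (fun s => x s z) (pderiv s (X i)) * x' s
        = eval₂ ι (fun s => x s z) p * x' i := by
      rw [Finset.sum_eq_single i]
      · rw [pderiv_X_self, eval₂_one, mul_one]
      · intro b _ hb
        rw [pderiv_X_of_ne (fun h => hb h.symm)]
        simp
      · simp
    rw [h1, Finset.sum_mul, add_comm]
    congr 1
    apply Finset.sum_congr rfl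
    intro s _
    ring

/-- The data at the base point. -/
structure Alg0 (ι : K →+* ℂ) (P : MvPolynomial (Fin 2) K) (t g Y : ℂ → ℂ) (p : ℂ) (τ γ y : K) :
    Prop where
  ht : AnalyticAt ℂ t p
  hg : AnalyticAt ℂ g p
  hY : AnalyticAt ℂ Y p
  ht' : deriv t p ≠ 0
  hP : ∀ᶠ z in 𝓝 p, eval₂ ι ![t z, g z] P = 0
  hY' : ∀ᶠ z in 𝓝 p, deriv Y z = g z * deriv t z * Y z
  tp : t p = ι τ
  gp : g p = ι γ
  hPg : eval ![τ, γ] (pderiv 1 P) ≠ 0
  Yp : Y p = ι y
  y0 : y ≠ 0

theorem eval₂_rename2 (ι : K →+* ℂ) (a b c : ℂ) (F : MvPolynomial (Fin 2) K) :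
    eval₂ ι ![a, b, c] (rename (Fin.castLE (by norm_num : 2 ≤ 3)) F) = eval₂ ι ![a, b] F := by
  rw [eval₂_rename]
  congr 1
  funext s
  fin_cases s <;> rfl

theorem eval₂_map_pt (ι : K →+* ℂ) {r : ℕ} (a : Fin r → K) (F : MvPolynomial (Fin r) K) :
    eval₂ ι (fun s => ι (a s)) F = ι (eval a F) := by
  have h3 := MvPolynomial.eval₂_comp_left ι (RingHom.id K) a F
  rw [RingHom.comp_id] at h3
  exact h3.symm

/-- The coefficients at the base point. -/
theorem Alg0.coef (ι : K →+* ℂ) (P : MvPolynomial (Fin 2) K) (τ γ : K)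
    (hPg : eval ![τ, γ] (pderiv 1 P) ≠ 0) :
    ∃ C : ℝ, 1 ≤ C ∧ ∃ q : ℕ, 0 < q ∧ ∀ {t g Y : ℂ → ℂ} {p : ℂ} {y : K}, Alg0 ι P t g Y p τ γ y →
      ∀ i j l : ℕ, ∃ c : K, (Dt t)^[l] (fun z => t z ^ i * Y z ^ j) p = ι c * Y p ^ j ∧
        IsIntegral ℤ ((q : K) ^ (i + l) * c) ∧ house c ≤ C ^ (i + l) * ((i : ℝ) + j + l) ^ l := by
  set f : Fin 2 → Fin 3 := Fin.castLE (by norm_num : 2 ≤ 3) with hf
  set Pt : MvPolynomial (Fin 3) K := rename f (pderiv 0 P) with hPt
  set Pgt : MvPolynomial (Fin 3) K := rename f (pderiv 0 (pderiv 1 P)) with hPgt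
  set Pgg : MvPolynomial (Fin 3) K := rename f (pderiv 1 (pderiv 1 P)) with hPgg
  set G1 : MvPolynomial (Fin 3) K := -(Pt * X 2) with hG1
  set G : Fin 3 → MvPolynomial (Fin 3) K := ![1, G1, -(X 2 ^ 2 * (Pgt + Pgg * G1))] with hG
  obtain ⟨C, hC, q, hq, h⟩ := eis0 ι G (X 1) ![τ, γ, (eval ![τ, γ] (pderiv 1 P))⁻¹]
  refine ⟨C, hC, q, hq, fun {t g Y p y} A i j l => ?_⟩
  set u : ℂ → ℂ := fun z => (eval₂ ι ![t z, g z] (pderiv 1 P))⁻¹ with hu
  have hpt : (fun s => ι ((![τ, γ] : Fin 2 → K) s)) = ![ι τ, ι γ] := by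
    funext s
    fin_cases s <;> rfl
  have hval : eval₂ ι ![t p, g p] (pderiv 1 P) = ι (eval ![τ, γ] (pderiv 1 P)) := by
    rw [A.tp, A.gp, ← hpt, eval₂_map_pt]
  have hne : eval₂ ι ![t p, g p] (pderiv 1 P) ≠ 0 := by
    rw [hval]
    exact (map_ne_zero ι).2 hPg
  -- the function `P_g(t, g)` has a derivative near `p`
  have hfun : ∀ z, (![t z, g z] : Fin 2 → ℂ) = fun s => (![t, g] : Fin 2 → ℂ → ℂ) s z := by
    intro z
    funext s
    fin_cases s <;> rfl
  have hder : ∀ (F : MvPolynomial (Fin 2) K) (z : ℂ), AnalyticAt ℂ t z → AnalyticAt ℂ g z →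
      HasDerivAt (fun z => eval₂ ι ![t z, g z] F)
        (eval₂ ι ![t z, g z] (pderiv 0 F) * deriv t z +
          eval₂ ι ![t z, g z] (pderiv 1 F) * deriv g z) z := by
    intro F z h1 h2
    have h3 := hasDerivAt_eval2 ι (x := ![t, g]) (x' := ![deriv t z, deriv g z]) (z := z) (by
      intro s
      fin_cases s
      · exact h1.differentiableAt.hasDerivAt
      · exact h2.differentiableAt.hasDerivAt) F
    simp only [Fin.sum_univ_two] at h3
    simp only [← hfun] at h3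
    exact h3
  have hcont : ∀ᶠ z in 𝓝 p, eval₂ ι ![t z, g z] (pderiv 1 P) ≠ 0 := by
    have h1 := (hder (pderiv 1 P) p A.ht A.hg).continuousAt
    exact h1.eventually_ne hne
  have hsys : ∀ᶠ z in 𝓝 p, ∀ s, HasDerivAt ((![t, g, u] : Fin 3 → ℂ → ℂ) s)
      (eval₂ ι (fun s => (![t, g, u] : Fin 3 → ℂ → ℂ) s z) (G s) * deriv t z) z := by
    filter_upwards [A.ht.eventually_analyticAt, A.hg.eventually_analyticAt, hcont,
      A.hP.eventually_nhds] with z hz1 hz2 hz3 hz4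
    have e3 : (fun s => (![t, g, u] : Fin 3 → ℂ → ℂ) s z) = ![t z, g z, u z] := by
      funext s
      fin_cases s <;> rfl
    have hd0 := hder P z hz1 hz2
    have hz4' : (fun z => eval₂ ι ![t z, g z] P) =ᶠ[𝓝 z] fun _ => (0 : ℂ) := hz4
    have hd1 := hd0.congr_of_eventuallyEq hz4'.symm
    have hd2 := hd1.unique (hasDerivAt_const z (0 : ℂ))
    have hg' : deriv g z = -(eval₂ ι ![t z, g z] (pderiv 0 P) * u z) * deriv t z := by
      rw [hu]
      field_simp
      linear_combination hd2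
    have hG1e : eval₂ ι ![t z, g z, u z] G1 = -(eval₂ ι ![t z, g z] (pderiv 0 P) * u z) := by
      rw [hG1, hPt, eval₂_neg, eval₂_mul, eval₂_rename2, eval₂_X]
      rfl
    intro s
    rw [e3]
    fin_cases s
    · show HasDerivAt t (eval₂ ι ![t z, g z, u z] (1 : MvPolynomial (Fin 3) K) * deriv t z) z
      rw [eval₂_one, one_mul]
      exact hz1.differentiableAt.hasDerivAt
    · show HasDerivAt g (eval₂ ι ![t z, g z, u z] G1 * deriv t z) z
      rw [hG1e, ← hg']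
      exact hz2.differentiableAt.hasDerivAt
    · show HasDerivAt u (eval₂ ι ![t z, g z, u z] (-(X 2 ^ 2 * (Pgt + Pgg * G1))) * deriv t z) z
      have h5 := (hder (pderiv 1 P) z hz1 hz2).inv hz3
      refine h5.congr_deriv ?_
      rw [eval₂_neg, eval₂_mul, eval₂_pow, eval₂_X, eval₂_add, eval₂_mul, hG1e, hPgt, hPgg,
        eval₂_rename2, eval₂_rename2, hg']
      have e4 : (![t z, g z, u z] : Fin 3 → ℂ) 2 = u z := rfl
      rw [e4, hu]
      field_simp
  have htn : ∀ᶠ z in 𝓝 p, deriv t z ≠ 0 := A.ht.deriv.continuousAt.eventually_ne A.ht'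
  have hYs : ∀ᶠ z in 𝓝 p, HasDerivAt Y (eval₂ ι (fun s => (![t, g, u] : Fin 3 → ℂ → ℂ) s z)
      (X 1) * deriv t z * Y z) z := by
    filter_upwards [A.hY', A.hY.eventually_analyticAt] with z hz1 hz2
    rw [eval₂_X]
    have e : (![t, g, u] : Fin 3 → ℂ → ℂ) 1 z = g z := rfl
    rw [e, ← hz1]
    exact hz2.differentiableAt.hasDerivAt
  have hpts : ∀ s, (![t, g, u] : Fin 3 → ℂ → ℂ) s p =
      ι ((![τ, γ, (eval ![τ, γ] (pderiv 1 P))⁻¹] : Fin 3 → K) s) := by
    intro s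
    fin_cases s
    · exact A.tp
    · exact A.gp
    · show u p = ι ((eval ![τ, γ] (pderiv 1 P))⁻¹)
      rw [hu, map_inv₀, ← hval]
  exact h ![t, g, u] t Y p hpts htn hsys hYs 0 i j l

/-! ## Heights -/

theorem le_exp_nat (q : ℕ) : (q : ℝ) ≤ Real.exp q :=
  (le_add_of_nonneg_right zero_le_one).trans (Real.add_one_le_exp _)

theorem nat_le_log (D m : ℕ) : (m : ℝ) ≤ 2 * (m * Real.log (D + m + 1)) := by
  rcases Nat.eq_zero_or_pos m with rfl | hm
  · simp
  · have h1 : (1 : ℝ) ≤ m := by exact_mod_cast hm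
    have h2 : Real.log 2 ≤ Real.log (D + m + 1) := by
      apply Real.log_le_log (by norm_num)
      have := Nat.cast_nonneg (α := ℝ) D
      linarith
    have h3 := Real.log_two_gt_d9
    nlinarith

/-- Denominators and sizes of all the coefficients. -/
theorem entry_bound (y : K) (C : ℝ) (hC : 1 ≤ C) (q : ℕ) (hq : 0 < q) : ∃ C' : ℝ, 1 ≤ C' ∧
    ∀ (D0 D1 m : ℕ) (x : K) (h : ℝ), Ht K x h → ∃ Q : ℕ, 0 < Q ∧
      (Q : ℝ) ≤ Real.exp (C' * (m * Real.log (D0 + D1 + m + 1) + D0 + D1 * (h + 1))) ∧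
      ∀ i j l : ℕ, i ≤ D0 → j ≤ D1 → l ≤ m → ∀ c : K, IsIntegral ℤ ((q : K) ^ (i + l) * c) →
        house c ≤ C ^ (i + l) * ((i : ℝ) + j + l) ^ l →
        IsIntegral ℤ ((Q : K) * (x ^ j * c * y ^ j)) ∧
        house (x ^ j * c * y ^ j) ≤
          Real.exp (C' * (m * Real.log (D0 + D1 + m + 1) + D0 + D1 * (h + 1))) := by
  classical
  obtain ⟨qy, hqy, hy⟩ := exists_den ({y} : Finset K)
  have hy' := hy y (Finset.mem_singleton_self _)
  obtain ⟨κ, hκ0, hκq, hκC, hκqy, hκy⟩ : ∃ κ : ℝ, 0 ≤ κ ∧ (q : ℝ) ≤ Real.exp κ ∧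
      C ≤ Real.exp κ ∧ (qy : ℝ) ≤ Real.exp κ ∧ house y ≤ Real.exp κ := by
    have h0 : 0 ≤ house y := house_nonneg _
    have hC0 : 0 ≤ C := by linarith
    have hq0 : (0 : ℝ) ≤ q := Nat.cast_nonneg _
    have hqy0 : (0 : ℝ) ≤ qy := Nat.cast_nonneg _
    refine ⟨q + C + qy + house y, by positivity, ?_, ?_, ?_, ?_⟩ <;>
    refine le_trans ?_ (Real.add_one_le_exp _) <;> linarith
  refine ⟨4 * κ + 3, by linarith, fun D0 D1 m x h hx => ?_⟩
  obtain ⟨hh, qx, hqx, hqx', hxi, hxh⟩ := hx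
  have hm := nat_le_log (D0 + D1) m
  push_cast at hm
  set L : ℝ := m * Real.log (D0 + D1 + m + 1) with hL
  have hD0 : (0 : ℝ) ≤ D0 := Nat.cast_nonneg _
  have hD1 : (0 : ℝ) ≤ D1 := Nat.cast_nonneg _
  have hm0 : (0 : ℝ) ≤ m := Nat.cast_nonneg _
  have hL0 : 0 ≤ L := by linarith
  refine ⟨q ^ (D0 + m) * qx ^ D1 * qy ^ D1, by positivity, ?_, ?_⟩
  · push_cast
    calc (q : ℝ) ^ (D0 + m) * (qx : ℝ) ^ D1 * (qy : ℝ) ^ D1
        ≤ Real.exp κ ^ (D0 + m) * Real.exp h ^ D1 * Real.exp κ ^ D1 := by gcongr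
      _ = Real.exp (κ * (D0 + m) + h * D1 + κ * D1) := by
          rw [← Real.exp_nat_mul, ← Real.exp_nat_mul, ← Real.exp_nat_mul, ← Real.exp_add,
            ← Real.exp_add]
          congr 1
          push_cast
          ring
      _ ≤ _ := by
          apply Real.exp_le_exp.2
          have h1 : κ * m ≤ κ * (2 * L) := mul_le_mul_of_nonneg_left hm hκ0
          nlinarith [mul_nonneg hκ0 hD0, mul_nonneg hκ0 hD1, mul_nonneg hκ0 hL0,
            mul_nonneg hD1 hh, mul_nonneg hκ0 (mul_nonneg hD1 hh)]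
  · intro i j l hi hj hl c hc hch
    constructor
    · have e : (((q ^ (D0 + m) * qx ^ D1 * qy ^ D1 : ℕ) : K)) * (x ^ j * c * y ^ j)
          = (q : K) ^ (D0 + m - (i + l)) * (qx : K) ^ (D1 - j) * (qy : K) ^ (D1 - j) *
            ((q : K) ^ (i + l) * c) * ((qx : K) * x) ^ j * ((qy : K) * y) ^ j := by
        have e1 : (q : K) ^ (D0 + m) = (q : K) ^ (D0 + m - (i + l)) * (q : K) ^ (i + l) := by
          rw [← pow_add, Nat.sub_add_cancel (by omega)]
        have e2 : (qx : K) ^ D1 = (qx : K) ^ (D1 - j) * (qx : K) ^ j := by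
          rw [← pow_add, Nat.sub_add_cancel hj]
        have e3 : (qy : K) ^ D1 = (qy : K) ^ (D1 - j) * (qy : K) ^ j := by
          rw [← pow_add, Nat.sub_add_cancel hj]
        push_cast
        rw [e1, e2, e3, mul_pow, mul_pow]
        ring
      rw [e]
      have hn : ∀ (a b : ℕ), IsIntegral ℤ ((a : K) ^ b) := fun a b =>
        (isIntegral_natCast (R := ℤ) (B := K) a).pow b
      exact (((((hn _ _).mul (hn _ _)).mul (hn _ _)).mul hc).mul (hxi.pow _)).mul (hy'.pow _)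
    · have hb : ((i : ℝ) + j + l) ^ l ≤ Real.exp L := by
        have h1 : ((i : ℝ) + j + l) ≤ D0 + D1 + m + 1 := by
          have h1 : (i : ℝ) ≤ D0 := by exact_mod_cast hi
          have h2 : (j : ℝ) ≤ D1 := by exact_mod_cast hj
          have h3 : (l : ℝ) ≤ m := by exact_mod_cast hl
          linarith
        calc ((i : ℝ) + j + l) ^ l ≤ ((D0 : ℝ) + D1 + m + 1) ^ l :=
              pow_le_pow_left₀ (by positivity) h1 _
          _ ≤ ((D0 : ℝ) + D1 + m + 1) ^ m := pow_le_pow_right₀ (by linarith) hl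
          _ = Real.exp L := by
              rw [hL, Real.exp_nat_mul, Real.exp_log (by positivity)]
      have hxj : house (x ^ j) ≤ Real.exp (h * D1) := by
        calc house (x ^ j) ≤ house x ^ j := house_pow_le _ _
          _ ≤ Real.exp h ^ j := pow_le_pow_left₀ (house_nonneg _) hxh _
          _ ≤ Real.exp h ^ D1 := pow_le_pow_right₀ (Real.one_le_exp hh) hj
          _ = Real.exp (h * D1) := by rw [← Real.exp_nat_mul, mul_comm]
      have hyj : house (y ^ j) ≤ Real.exp (κ * D1) := by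
        calc house (y ^ j) ≤ house y ^ j := house_pow_le _ _
          _ ≤ Real.exp κ ^ j := pow_le_pow_left₀ (house_nonneg _) hκy _
          _ ≤ Real.exp κ ^ D1 := pow_le_pow_right₀ (Real.one_le_exp hκ0) hj
          _ = Real.exp (κ * D1) := by rw [← Real.exp_nat_mul, mul_comm]
      have hCC : C ^ (i + l) ≤ Real.exp (κ * (D0 + m)) := by
        calc C ^ (i + l) ≤ Real.exp κ ^ (i + l) := pow_le_pow_left₀ (by linarith) hκC _
          _ ≤ Real.exp κ ^ (D0 + m) := pow_le_pow_right₀ (Real.one_le_exp hκ0) (by omega)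
          _ = Real.exp (κ * (D0 + m)) := by
              rw [← Real.exp_nat_mul]
              push_cast
              rw [mul_comm]
      calc house (x ^ j * c * y ^ j) ≤ house (x ^ j) * house c * house (y ^ j) :=
            (house_mul_le _ _).trans
              (mul_le_mul_of_nonneg_right (house_mul_le _ _) (house_nonneg _))
        _ ≤ Real.exp (h * D1) * (Real.exp (κ * (D0 + m)) * Real.exp L) * Real.exp (κ * D1) := by
            apply mul_le_mul _ hyj (house_nonneg _) (by positivity)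
            apply mul_le_mul hxj _ (house_nonneg _) (by positivity)
            refine hch.trans ?_
            exact mul_le_mul hCC hb (by positivity) (by positivity)
        _ = Real.exp (h * D1 + (κ * (D0 + m) + L) + κ * D1) := by
            rw [Real.exp_add, Real.exp_add, Real.exp_add]
        _ ≤ _ := by
            apply Real.exp_le_exp.2
            have h1 : κ * m ≤ κ * (2 * L) := mul_le_mul_of_nonneg_left hm hκ0
            nlinarith [mul_nonneg hκ0 hD0, mul_nonneg hκ0 hD1, mul_nonneg hκ0 hL0,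
              mul_nonneg hD1 hh, mul_nonneg hκ0 (mul_nonneg hD1 hh)]

theorem house_le_of {x : K} {H : ℝ} (h : ∀ φ : K →+* ℂ, ‖φ x‖ ≤ H) : house x ≤ H := by
  obtain ⟨φ⟩ : Nonempty (K →+* ℂ) := inferInstance
  have hH0 : 0 ≤ H := (norm_nonneg _).trans (h φ)
  rw [house_eq_sup', ← NNReal.coe_mk H hH0, NNReal.coe_le_coe]
  apply Finset.sup'_le
  intro φ _
  rw [← NNReal.coe_le_coe]
  exact h φ

/-- The derivatives of the auxiliary function. -/
theorem Fz_Dt {ι : K →+* ℂ} {t Y : ℂ → ℂ} {p : ℂ} {y : K} (ht : AnalyticAt ℂ t p)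
    (ht' : deriv t p ≠ 0) (hY : AnalyticAt ℂ Y p) (hy : Y p = ι y) {c : ℕ → ℕ → ℕ → K}
    (hc : ∀ i j l, (Dt t)^[l] (fun z => t z ^ i * Y z ^ j) p = ι (c i j l) * Y p ^ j)
    (D0 D1 : ℕ) (a : ℕ → ℕ → K) (x : K) (l : ℕ) :
    (Dt t)^[l] (Fz ι t Y a x D0 D1) p = ι (∑ i ∈ Finset.range (D0 + 1),
      ∑ j ∈ Finset.range (D1 + 1), a i j * (x ^ j * c i j l * y ^ j)) := by
  have e : Fz ι t Y a x D0 D1 = fun z => ∑ s ∈ Finset.range (D0 + 1) ×ˢ Finset.range (D1 + 1),
      (ι (a s.1 s.2) * ι x ^ s.2) * (t z ^ s.1 * Y z ^ s.2) := by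
    funext z
    rw [Fz, Finset.sum_product]
    apply Finset.sum_congr rfl
    intro i _
    apply Finset.sum_congr rfl
    intro j _
    ring
  have h1 := (Dt_iter_sum (Finset.range (D0 + 1) ×ˢ Finset.range (D1 + 1)) ht ht'
    (fun s => ι (a s.1 s.2) * ι x ^ s.2) (fun s z => t z ^ s.1 * Y z ^ s.2)
    (fun s _ => (ht.pow _).mul (hY.pow _)) l).self_of_nhds
  rw [e, h1]
  beta_reduce
  rw [Finset.sum_product, map_sum]
  apply Finset.sum_congr rfl
  intro i _
  rw [map_sum]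
  apply Finset.sum_congr rfl
  intro j _
  simp only [hc, hy, map_mul, map_pow]
  ring

theorem Fz_analyticAt {ι : K →+* ℂ} {t Y : ℂ → ℂ} {p : ℂ} (ht : AnalyticAt ℂ t p)
    (hY : AnalyticAt ℂ Y p) (D0 D1 : ℕ) (a : ℕ → ℕ → K) (x : K) :
    AnalyticAt ℂ (Fz ι t Y a x D0 D1) p :=
  Finset.analyticAt_fun_sum _ fun _ _ => Finset.analyticAt_fun_sum _ fun _ _ =>
    ((analyticAt_const.mul analyticAt_const).mul (ht.pow _)).mul (hY.pow _)

theorem card_le_exp (D0 D1 : ℕ) : (((D0 + 1) * (D1 + 1) : ℕ) : ℝ) ≤ Real.exp (D0 + D1) := by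
  rw [Real.exp_add]
  push_cast
  exact mul_le_mul (Real.add_one_le_exp _) (Real.add_one_le_exp _) (by positivity) (by positivity)

/-- **Siegel's lemma for T5.** -/
theorem siegel (ι : K →+* ℂ) (P : MvPolynomial (Fin 2) K) (τ γ y : K)
    (hPg : eval ![τ, γ] (pderiv 1 P) ≠ 0) :
    ∃ C : ℝ, 1 ≤ C ∧ ∀ {t g Y : ℂ → ℂ} {p : ℂ}, Alg0 ι P t g Y p τ γ y →
      ∀ (D0 D1 T : ℕ) (X : Finset K) (h : ℝ), 1 ≤ T → 0 ≤ h → (∀ x ∈ X, Ht K x h) →
        2 * (T * X.card) ≤ (D0 + 1) * (D1 + 1) →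
        ∃ a : ℕ → ℕ → K, (∃ i ≤ D0, ∃ j ≤ D1, a i j ≠ 0) ∧
          (∀ i j, IsIntegral ℤ (a i j) ∧ house (a i j) ≤
            Real.exp (C * (T * Real.log (D0 + D1 + T + 1) + D0 + D1 * (h + 1)))) ∧
          ∀ x ∈ X, (T : ℕ∞) ≤ analyticOrderAt (Fz ι t Y a x D0 D1) p := by
  classical
  obtain ⟨C, hC, q, hq, hcoef⟩ := Alg0.coef ι P τ γ hPg
  obtain ⟨C', hC', hent⟩ := entry_bound y C hC q hq
  obtain ⟨cS, hcS, hS⟩ := MP_60829e_nt.Bk.siegel K
  have hlogc : 0 ≤ Real.log cS := Real.log_nonneg hcS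
  refine ⟨4 * Real.log cS + 1 + 2 * C', by linarith, ?_⟩
  intro t g Y p A D0 D1 T X h hT hh hX hcard
  have hD0 : (0 : ℝ) ≤ D0 := Nat.cast_nonneg _
  have hD1 : (0 : ℝ) ≤ D1 := Nat.cast_nonneg _
  have hT1 : (1 : ℝ) ≤ T := by exact_mod_cast hT
  have hTL := nat_le_log (D0 + D1) T
  push_cast at hTL
  set L : ℝ := T * Real.log (D0 + D1 + T + 1) with hL
  have hL2 : 1 ≤ 2 * L := hT1.trans hTL
  rcases X.eq_empty_or_nonempty with rfl | ⟨x₀, hx₀⟩
  · -- no equations
    refine ⟨fun i j => 1, ⟨0, Nat.zero_le _, 0, Nat.zero_le _, one_ne_zero⟩, ?_, by simp⟩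
    intro i j
    refine ⟨isIntegral_one, ?_⟩
    rw [house_one']
    apply Real.one_le_exp
    have h1 : 0 ≤ (D1 : ℝ) * (h + 1) := by positivity
    have h2 : 0 ≤ L := by linarith
    positivity
  choose c hc1 hc2 hc3 using fun i j l => hcoef A i j l
  have hQ : ∀ x : X, ∃ Q : ℕ, 0 < Q ∧
      (Q : ℝ) ≤ Real.exp (C' * (L + D0 + D1 * (h + 1))) ∧
      ∀ i j l : ℕ, i ≤ D0 → j ≤ D1 → l ≤ T →
        IsIntegral ℤ ((Q : K) * ((x : K) ^ j * c i j l * y ^ j)) ∧
        house ((x : K) ^ j * c i j l * y ^ j) ≤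
          Real.exp (C' * (L + D0 + D1 * (h + 1))) := by
    intro x
    obtain ⟨Q, hQ0, hQ1, hQ2⟩ := hent D0 D1 T x h (hX x x.2)
    exact ⟨Q, hQ0, hQ1, fun i j l hi hj hl =>
      hQ2 i j l hi hj hl (c i j l) (hc2 i j l) (hc3 i j l)⟩
  choose Q hQ0 hQ1 hQ2 using hQ
  set E : ℝ := Real.exp (C' * (L + D0 + D1 * (h + 1))) with hE
  have hE1 : 1 ≤ E := by
    apply Real.one_le_exp
    have h1 : 0 ≤ (D1 : ℝ) * (h + 1) := by positivity
    have h2 : 0 ≤ L := by linarith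
    positivity
  have hc0 : c 0 0 0 = 1 := by
    have h1 := hc1 0 0 0
    simp only [pow_zero, mul_one, Function.iterate_zero, id_eq] at h1
    exact ι.injective (by rw [map_one]; exact h1.symm)
  -- the linear system
  obtain ⟨ξ, hξ0, hξ1, hξ2⟩ := hS (X × Fin T) (Fin (D0 + 1) × Fin (D1 + 1))
    (fun k s => (Q k.1 : K) * ((k.1 : K) ^ (s.2 : ℕ) * c s.1 s.2 k.2 * y ^ (s.2 : ℕ))) (E * E)
    (by nlinarith)
    (by
      rw [Fintype.card_prod, Fintype.card_coe, Fintype.card_fin]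
      exact Nat.mul_pos (Finset.card_pos.2 ⟨x₀, hx₀⟩) hT)
    (by
      rw [Fintype.card_prod, Fintype.card_coe, Fintype.card_fin, Fintype.card_prod,
        Fintype.card_fin, Fintype.card_fin, mul_comm X.card]
      exact hcard)
    (fun k s => (hQ2 k.1 s.1 s.2 k.2 (Nat.lt_succ_iff.1 s.1.2) (Nat.lt_succ_iff.1 s.2.2)
      k.2.2.le).1)
    (fun k s φ => by
      have h1 := (hQ2 k.1 s.1 s.2 k.2 (Nat.lt_succ_iff.1 s.1.2) (Nat.lt_succ_iff.1 s.2.2)
        k.2.2.le).2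
      rw [map_mul, norm_mul, map_natCast, Complex.norm_natCast]
      exact mul_le_mul (hQ1 k.1) ((norm_embedding_le_house _ φ).trans h1) (norm_nonneg _)
        (by positivity))
    ⟨(⟨x₀, hx₀⟩, ⟨0, hT⟩), (0, 0), by
      simp only [Fin.val_zero, pow_zero, hc0, mul_one]
      exact_mod_cast (hQ0 _).ne'⟩
  have hval : ∀ i j, (hi : i < D0 + 1) → (hj : j < D1 + 1) →
      (if h : i < D0 + 1 ∧ j < D1 + 1 then (ξ (⟨i, h.1⟩, ⟨j, h.2⟩) : K) else 0)
        = ξ (⟨i, hi⟩, ⟨j, hj⟩) := fun i j hi hj => dif_pos ⟨hi, hj⟩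
  refine ⟨fun i j => if h : i < D0 + 1 ∧ j < D1 + 1 then (ξ (⟨i, h.1⟩, ⟨j, h.2⟩) : K) else 0,
    ?_, ?_, ?_⟩
  · obtain ⟨s, hs⟩ := Function.ne_iff.1 hξ0
    refine ⟨s.1, Nat.lt_succ_iff.1 s.1.2, s.2, Nat.lt_succ_iff.1 s.2.2, ?_⟩
    beta_reduce
    rw [hval _ _ s.1.2 s.2.2]
    intro h0
    apply hs
    have h1 : (ξ s : K) = 0 := h0
    simpa using h1
  · intro i j
    beta_reduce
    by_cases hij : i < D0 + 1 ∧ j < D1 + 1
    · rw [dif_pos hij]
      refine ⟨(ξ _).2, ?_⟩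
      refine (house_le_of (fun φ => hξ2 _ φ)).trans ?_
      rw [Fintype.card_prod, Fintype.card_fin, Fintype.card_fin]
      have hcard2 := card_le_exp D0 D1
      have hcS' : cS = Real.exp (Real.log cS) := (Real.exp_log (by linarith)).symm
      calc cS * (cS * (((D0 + 1) * (D1 + 1) : ℕ) : ℝ) * (E * E))
          ≤ cS * (cS * Real.exp (D0 + D1) * (E * E)) := by gcongr
        _ = Real.exp (Real.log cS) * (Real.exp (Real.log cS) * Real.exp (D0 + D1) * (E * E)) := by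
            rw [← hcS']
        _ = Real.exp (2 * Real.log cS + (D0 + D1) + 2 * (C' * (L + D0 + D1 * (h + 1)))) := by
            rw [hE, ← Real.exp_add, ← Real.exp_add, ← Real.exp_add, ← Real.exp_add]
            congr 1
            ring
        _ ≤ _ := by
            apply Real.exp_le_exp.2
            have h1 : 2 * Real.log cS ≤ 4 * Real.log cS * L := by nlinarith
            have h2 : 0 ≤ Real.log cS * D0 := by positivity
            have h3 : 0 ≤ Real.log cS * (D1 * (h + 1)) := by positivity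
            have h4 : 0 ≤ (D1 : ℝ) * h := by positivity
            nlinarith
    · rw [dif_neg hij]
      refine ⟨isIntegral_zero, ?_⟩
      rw [house_zero']
      exact (Real.exp_pos _).le
  · intro x hx
    apply order_of_Dt A.ht A.ht' (Fz_analyticAt A.ht A.hY _ _ _ _)
    intro l hl
    rw [Fz_Dt A.ht A.ht' A.hY A.Yp hc1]
    have h1 := hξ1 (⟨x, hx⟩, ⟨l, hl⟩)
    rw [Fintype.sum_prod_type] at h1
    have hQx : (Q ⟨x, hx⟩ : K) ≠ 0 := by exact_mod_cast (hQ0 ⟨x, hx⟩).ne'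
    have h2 : (Q ⟨x, hx⟩ : K) * (∑ i ∈ Finset.range (D0 + 1), ∑ j ∈ Finset.range (D1 + 1),
        (if h : i < D0 + 1 ∧ j < D1 + 1 then (ξ (⟨i, h.1⟩, ⟨j, h.2⟩) : K) else 0) *
          (x ^ j * c i j l * y ^ j)) = 0 := by
      refine Eq.trans ?_ h1
      rw [Finset.mul_sum, Finset.sum_range]
      apply Finset.sum_congr rfl
      intro i _
      rw [Finset.mul_sum, Finset.sum_range]
      apply Finset.sum_congr rfl
      intro j _
      rw [hval _ _ i.2 j.2]
      ring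
    have h3 := (mul_eq_zero.1 h2).resolve_left hQx
    rw [h3, map_zero]

/-- **Liouville's inequality for T5.** -/
theorem liouville (ι : K →+* ℂ) (P : MvPolynomial (Fin 2) K) (τ γ y : K)
    (hPg : eval ![τ, γ] (pderiv 1 P) ≠ 0) {t g Y : ℂ → ℂ} {p : ℂ} (A : Alg0 ι P t g Y p τ γ y) :
    ∃ C : ℝ, 1 ≤ C ∧ ∀ (D0 D1 m : ℕ) (a : ℕ → ℕ → K) (x : K) (h B : ℝ) (k : ℂ → ℂ), Ht K x h →
      0 ≤ B → (∀ i j, IsIntegral ℤ (a i j) ∧ house (a i j) ≤ Real.exp B) → AnalyticAt ℂ k p →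
      Fz ι t Y a x D0 D1 =ᶠ[𝓝 p] (fun z => (z - p) ^ m * k z) → k p ≠ 0 →
      Real.exp (-(C * (B + m * Real.log (D0 + D1 + m + 1) + D0 + D1 * (h + 1)))) ≤ ‖k p‖ := by
  classical
  obtain ⟨C, hC, q, hq, hcoef⟩ := Alg0.coef ι P τ γ hPg
  obtain ⟨C', hC', hent⟩ := entry_bound y C hC q hq
  set d : ℕ := Module.finrank ℚ K with hd
  obtain ⟨κ, hκ0, hκ⟩ : ∃ κ : ℝ, 0 ≤ κ ∧ ‖deriv t p‖⁻¹ ≤ Real.exp κ := by
    refine ⟨‖deriv t p‖⁻¹, by positivity, ?_⟩
    exact (le_add_of_nonneg_right zero_le_one).trans (Real.add_one_le_exp _)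
  refine ⟨2 * d * (C' + 1) + 2 * κ + 1, by
    have : 0 ≤ 2 * (d : ℝ) * (C' + 1) := by positivity
    linarith, ?_⟩
  intro D0 D1 m a x h B k hx hB ha hk hF hk0
  have hD0 : (0 : ℝ) ≤ D0 := Nat.cast_nonneg _
  have hD1 : (0 : ℝ) ≤ D1 := Nat.cast_nonneg _
  have hm0 : (0 : ℝ) ≤ m := Nat.cast_nonneg _
  have hmL := nat_le_log (D0 + D1) m
  push_cast at hmL
  have hh := hx.1
  obtain ⟨Q, hQ0, hQ1, hQ2⟩ := hent D0 D1 m x h hx
  set L : ℝ := m * Real.log (D0 + D1 + m + 1) with hL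
  have hL0 : 0 ≤ L := by linarith
  choose c hc1 hc2 hc3 using fun i j l => hcoef A i j l
  set β : K := ∑ i ∈ Finset.range (D0 + 1), ∑ j ∈ Finset.range (D1 + 1),
    a i j * (x ^ j * c i j m * y ^ j) with hβ
  have h1 := Dt_lead A.ht A.ht' m hk hF
  rw [Fz_Dt A.ht A.ht' A.hY A.Yp hc1, ← hβ] at h1
  have hfac : (m.factorial : ℂ) ≠ 0 := by exact_mod_cast m.factorial_ne_zero
  have htm : deriv t p ^ m ≠ 0 := pow_ne_zero _ A.ht'
  have hβ0 : β ≠ 0 := by
    intro h0
    rw [h0, map_zero] at h1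
    have h2 := mul_ne_zero hfac hk0
    exact (div_ne_zero h2 htm) h1.symm
  have hkp : k p = ι β * deriv t p ^ m / (m.factorial : ℂ) := by
    rw [h1]
    field_simp
  -- integrality and size of β
  have hint : IsIntegral ℤ ((Q : K) * β) := by
    rw [hβ, Finset.mul_sum]
    apply IsIntegral.sum
    intro i hi
    rw [Finset.mul_sum]
    apply IsIntegral.sum
    intro j hj
    rw [show (Q : K) * (a i j * (x ^ j * c i j m * y ^ j))
      = a i j * ((Q : K) * (x ^ j * c i j m * y ^ j)) by ring]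
    exact (ha i j).1.mul (hQ2 i j m (Nat.lt_succ_iff.1 (Finset.mem_range.1 hi))
      (Nat.lt_succ_iff.1 (Finset.mem_range.1 hj)) le_rfl (c i j m) (hc2 i j m) (hc3 i j m)).1
  set S : ℝ := C' * (L + D0 + D1 * (h + 1)) with hS
  have hS0 : 0 ≤ S := by
    have : 0 ≤ (D1 : ℝ) * (h + 1) := by positivity
    positivity
  have hhouse : house β ≤ Real.exp (D0 + D1 + B + S) := by
    rw [hβ]
    refine (house_sum_le_sum_house _ _).trans ?_
    have h2 : ∀ i ∈ Finset.range (D0 + 1), house (∑ j ∈ Finset.range (D1 + 1),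
        a i j * (x ^ j * c i j m * y ^ j)) ≤ (D1 + 1) * (Real.exp B * Real.exp S) := by
      intro i hi
      refine (house_sum_le_sum_house _ _).trans ?_
      have h3 : ∀ j ∈ Finset.range (D1 + 1), house (a i j * (x ^ j * c i j m * y ^ j))
          ≤ Real.exp B * Real.exp S := by
        intro j hj
        refine (house_mul_le _ _).trans (mul_le_mul (ha i j).2 ?_ (house_nonneg _)
          (Real.exp_pos _).le)
        exact (hQ2 i j m (Nat.lt_succ_iff.1 (Finset.mem_range.1 hi))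
          (Nat.lt_succ_iff.1 (Finset.mem_range.1 hj)) le_rfl (c i j m) (hc2 i j m) (hc3 i j m)).2
      refine (Finset.sum_le_sum h3).trans ?_
      rw [Finset.sum_const, Finset.card_range, nsmul_eq_mul]
      push_cast
      exact le_rfl
    refine (Finset.sum_le_sum h2).trans ?_
    rw [Finset.sum_const, Finset.card_range, nsmul_eq_mul]
    have h4 := card_le_exp D0 D1
    calc (((D0 + 1 : ℕ) : ℝ)) * ((D1 + 1) * (Real.exp B * Real.exp S))
        = (((D0 + 1) * (D1 + 1) : ℕ) : ℝ) * (Real.exp B * Real.exp S) := by push_cast; ring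
      _ ≤ Real.exp (D0 + D1) * (Real.exp B * Real.exp S) := by gcongr
      _ = Real.exp (D0 + D1 + B + S) := by
          rw [← Real.exp_add, ← Real.exp_add]
          congr 1
          ring
  have hliou := MP_60829e_nt.Bk.liouville ι β hβ0 Q hQ0 hint
    (fun φ => (norm_embedding_le_house β φ).trans hhouse)
  rw [← hd] at hliou
  have hd1 : 1 ≤ d := Module.finrank_pos
  have hW0 : 0 ≤ (D0 : ℝ) + D1 + B + S := by positivity
  have hlow : Real.exp (-(2 * d * (D0 + D1 + B + S))) ≤ ‖ι β‖ := by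
    have h2 : (Q : ℝ) ^ d ≤ Real.exp (d * (D0 + D1 + B + S)) := by
      calc (Q : ℝ) ^ d ≤ Real.exp S ^ d := pow_le_pow_left₀ (Nat.cast_nonneg _) hQ1 _
        _ ≤ Real.exp (D0 + D1 + B + S) ^ d := by
            apply pow_le_pow_left₀ (Real.exp_pos _).le
            apply Real.exp_le_exp.2
            linarith
        _ = _ := by rw [← Real.exp_nat_mul]
    have h3 : Real.exp (D0 + D1 + B + S) ^ (d - 1) ≤ Real.exp (d * (D0 + D1 + B + S)) := by
      calc Real.exp (D0 + D1 + B + S) ^ (d - 1) ≤ Real.exp (D0 + D1 + B + S) ^ d :=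
            pow_le_pow_right₀ (Real.one_le_exp hW0) (Nat.sub_le _ _)
        _ = _ := by rw [← Real.exp_nat_mul]
    have h4 : 1 ≤ Real.exp (2 * d * (D0 + D1 + B + S)) * ‖ι β‖ := by
      calc (1 : ℝ) ≤ (Q : ℝ) ^ d * ‖ι β‖ * Real.exp (D0 + D1 + B + S) ^ (d - 1) := hliou
        _ ≤ Real.exp (d * (D0 + D1 + B + S)) * ‖ι β‖ * Real.exp (d * (D0 + D1 + B + S)) := by
            gcongr
        _ = _ := by
            rw [show 2 * (d : ℝ) * (D0 + D1 + B + S) = d * (D0 + D1 + B + S) +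
              d * (D0 + D1 + B + S) by ring, Real.exp_add]
            ring
    rw [Real.exp_neg]
    exact (inv_le_iff_one_le_mul₀' (Real.exp_pos _)).2 h4
  -- the factor t'(p)^m / m!
  have hfac2 : Real.exp (-(κ * m + L)) ≤ ‖deriv t p‖ ^ m / (m.factorial : ℝ) := by
    have h2 : (m.factorial : ℝ) ≤ Real.exp L := by
      have h3 : (m.factorial : ℝ) ≤ (m : ℝ) ^ m := by exact_mod_cast Nat.factorial_le_pow m
      refine h3.trans ?_
      calc (m : ℝ) ^ m ≤ ((D0 : ℝ) + D1 + m + 1) ^ m :=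
            pow_le_pow_left₀ hm0 (by linarith) _
        _ = Real.exp L := by rw [hL, Real.exp_nat_mul, Real.exp_log (by positivity)]
    have hn : 0 < ‖deriv t p‖ := norm_pos_iff.2 A.ht'
    have h3 : Real.exp (-κ) ≤ ‖deriv t p‖ := by
      rw [Real.exp_neg]
      exact inv_le_of_inv_le₀ hn hκ
    rw [le_div_iff₀ (by exact_mod_cast m.factorial_pos)]
    calc Real.exp (-(κ * m + L)) * (m.factorial : ℝ)
        ≤ Real.exp (-(κ * m + L)) * Real.exp L := by gcongr
      _ = Real.exp (-κ) ^ m := by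
          rw [← Real.exp_add, ← Real.exp_nat_mul]
          congr 1
          ring
      _ ≤ ‖deriv t p‖ ^ m := pow_le_pow_left₀ (Real.exp_pos _).le h3 _
  rw [hkp, norm_div, norm_mul, norm_pow, Complex.norm_natCast, mul_div_assoc]
  calc Real.exp (-((2 * d * (C' + 1) + 2 * κ + 1) * (B + L + D0 + D1 * (h + 1))))
      ≤ Real.exp (-(2 * d * (D0 + D1 + B + S))) * Real.exp (-(κ * m + L)) := by
        rw [← Real.exp_add]
        apply Real.exp_le_exp.2
        have h2 : κ * m ≤ κ * (2 * L) := mul_le_mul_of_nonneg_left hmL hκ0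
        have h3 : 0 ≤ (D1 : ℝ) * h := by positivity
        have h4 : (D0 : ℝ) + D1 + B + S ≤ (C' + 1) * (B + L + D0 + D1 * (h + 1)) := by
          rw [hS]
          nlinarith [mul_nonneg (by linarith : (0 : ℝ) ≤ C') hB]
        have h5 : (d : ℝ) * (D0 + D1 + B + S) ≤ d * ((C' + 1) * (B + L + D0 + D1 * (h + 1))) :=
          mul_le_mul_of_nonneg_left h4 (Nat.cast_nonneg _)
        have h6 : κ * (2 * L) ≤ 2 * κ * (B + L + D0 + D1 * (h + 1)) := by
          nlinarith [mul_nonneg hκ0 hB, mul_nonneg hκ0 hD0, mul_nonneg hκ0 hD1,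
            mul_nonneg hκ0 h3]
        have h7 : L ≤ B + L + D0 + D1 * (h + 1) := by nlinarith
        nlinarith
    _ ≤ ‖ι β‖ * (‖deriv t p‖ ^ m / (m.factorial : ℝ)) := by gcongr

theorem Alg0.siegelAt {ι : K →+* ℂ} {P : MvPolynomial (Fin 2) K} {t g Y : ℂ → ℂ} {p : ℂ}
    {τ γ y : K} (A : Alg0 ι P t g Y p τ γ y) : SiegelAt ι t Y p := by
  obtain ⟨C, hC, h⟩ := siegel ι P τ γ y A.hPg
  refine ⟨C, hC, fun D0 D1 T hT X h' hh hX hcard => ?_⟩
  exact h A D0 D1 T X h' hT hh hX (by rw [← mul_assoc]; exact hcard)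

theorem Alg0.liouvilleAt {ι : K →+* ℂ} {P : MvPolynomial (Fin 2) K} {t g Y : ℂ → ℂ} {p : ℂ}
    {τ γ y : K} (A : Alg0 ι P t g Y p τ γ y) : LiouvilleAt ι t Y p := by
  obtain ⟨C, hC, h⟩ := liouville ι P τ γ y A.hPg A
  exact ⟨C, hC, fun D0 D1 m a x h' B k hB ha hx hk hk0 hF =>
    h D0 D1 m a x h' B k hx hB ha hk hF hk0⟩

end Pool.Agent.Lib.MP_5d4057_al.T5
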