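import Pool.Agent.Lib.MP_5d4057_al.T5.Defs
import Mathlib.GroupTheory.Finiteness
import Mathlib

/-!
# T5: characters of finitely generated groups (helper7)
-/

set_option autoImplicit false

namespace Pool.Agent.Lib.MP_5d4057_al.T5

open Metric Filter Topology Pool.Agent.Lib.MP_5d4057_al Pool.Agent.Lib.MP_5d4057_al.HM

theorem exists_exp {G H : Type*} [Group G] [Group.FG G] [CommGroup H] (μ : G →* H) :
    ∃ w : ℕ, 0 < w ∧ ∃ r : ℕ, ∃ a : G → Fin r → ℤ, (∀ g h, a (g * h) = a g + a h) ∧
      Function.Surjective a ∧ ∃ ν : Multiplicative (Fin r → ℤ) →* H, Function.Injective ν ∧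
      ∀ g, μ g ^ w = ν (Multiplicative.ofAdd (a g)) := by
  classical
  let M := μ.range
  have hfg : Group.FG M := by infer_instance
  let A := Additive M
  have : AddGroup.FG A := by infer_instance
  have : Module.Finite ℤ A := Module.Finite.iff_addGroup_fg.2 inferInstance
  let T : Submodule ℤ A := Submodule.torsion ℤ A
  -- exponent of the torsion
  obtain ⟨w, hw0, hw⟩ : ∃ w : ℕ, 0 < w ∧ ∀ t ∈ T, w • t = 0 := by
    have : Module.Finite ℤ T := Module.Finite.of_fg (IsNoetherian.noetherian T)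
    obtain ⟨s, hs⟩ := (Module.finite_def (R := ℤ) (M := T)).1 inferInstance
    have h1 : ∀ t : T, ∃ k : ℕ, 0 < k ∧ k • t = 0 := by
      rintro ⟨t, ht⟩
      obtain ⟨⟨k, hk⟩, hkt⟩ := (Submodule.mem_torsion_iff t).1 ht
      have hk0 : k ≠ 0 := nonZeroDivisors.ne_zero hk
      refine ⟨k.natAbs, Int.natAbs_pos.2 hk0, ?_⟩
      apply Subtype.ext
      have h2 : k • t = 0 := hkt
      simp only [Submodule.coe_smul_of_tower, Submodule.coe_zero]
      rcases Int.natAbs_eq k with h | h
      · rw [h, natCast_zsmul] at h2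
        exact h2
      · rw [h, neg_smul, natCast_zsmul, neg_eq_zero] at h2
        exact h2
    choose k hk0 hk using h1
    refine ⟨∏ t ∈ s, k t, Finset.prod_pos fun t _ => hk0 t, ?_⟩
    intro t ht
    have h3 : ∀ x : T, (∏ t ∈ s, k t) • x = 0 := by
      intro x
      have hx : x ∈ Submodule.span ℤ (s : Set T) := by rw [hs]; trivial
      induction hx using Submodule.span_induction with
      | mem y hy =>
        obtain ⟨m, hm⟩ := Finset.dvd_prod_of_mem k hy
        rw [hm, mul_comm, mul_smul, hk, smul_zero]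
      | zero => simp
      | add y z _ _ h1 h2 => rw [smul_add, h1, h2, add_zero]
      | smul c y _ h1 => rw [smul_comm, h1, smul_zero]
    have := congrArg Subtype.val (h3 ⟨t, ht⟩)
    simpa using this
  let Q := A ⧸ T
  have : Module.Finite ℤ Q := inferInstance
  have : Module.IsTorsionFree ℤ Q := inferInstance
  have : Module.Free ℤ Q := inferInstance
  let b := Module.finBasis ℤ Q
  let r := Module.finrank ℤ Q
  let e : Q ≃ₗ[ℤ] (Fin r → ℤ) := b.equivFun
  -- the w-th power on the quotient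
  let pw : A →ₗ[ℤ] A := (w : ℤ) • LinearMap.id
  have hpw : T ≤ LinearMap.ker pw := by
    intro t ht
    rw [LinearMap.mem_ker]
    simp only [pw, LinearMap.smul_apply, LinearMap.id_apply, natCast_zsmul]
    exact hw t ht
  let f : Q →ₗ[ℤ] A := T.liftQ pw hpw
  have hf : Function.Injective f := by
    rw [← LinearMap.ker_eq_bot]
    rw [Submodule.ker_liftQ_eq_bot]
    intro t ht
    rw [LinearMap.mem_ker] at ht
    simp only [pw, LinearMap.smul_apply, LinearMap.id_apply] at ht
    refine (Submodule.mem_torsion_iff t).2 ⟨⟨(w : ℤ), ?_⟩, ht⟩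
    exact mem_nonZeroDivisors_of_ne_zero (by exact_mod_cast hw0.ne')
  let q : G → Q := fun g => T.mkQ (Additive.ofMul (⟨μ g, g, rfl⟩ : M))
  have hq : ∀ g h, q (g * h) = q g + q h := by
    intro g h
    simp only [q]
    rw [← map_add]
    congr 1
    rw [← ofMul_mul]
    congr 1
    apply Subtype.ext
    simp
  have hqs : Function.Surjective q := by
    intro x
    obtain ⟨y, rfl⟩ := T.mkQ_surjective x
    obtain ⟨⟨_, g, rfl⟩, rfl⟩ := Additive.ofMul.surjective y
    exact ⟨g, rfl⟩
  let a : G → Fin r → ℤ := fun g => e (q g)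
  let ν : Multiplicative (Fin r → ℤ) →* H :=
    M.subtype.comp (AddMonoidHom.toMultiplicative ((f ∘ₗ e.symm.toLinearMap).toAddMonoidHom :
      (Fin r → ℤ) →+ A))
  have hν : ∀ g, μ g ^ w = ν (Multiplicative.ofAdd (a g)) := by
    intro g
    have h1 : f (e.symm (a g)) = w • Additive.ofMul (⟨μ g, g, rfl⟩ : M) := by
      simp only [a, LinearEquiv.symm_apply_apply, q, f]
      rw [Submodule.mkQ_apply, Submodule.liftQ_apply]
      simp only [pw, LinearMap.smul_apply, LinearMap.id_apply, natCast_zsmul]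
    have h2 : ν (Multiplicative.ofAdd (a g)) = ((f (e.symm (a g))).toMul : M) := rfl
    rw [h2, h1]
    simp
  refine ⟨w, hw0, r, a, ?_, ?_, ν, ?_, hν⟩
  · intro g h
    simp only [a, hq, map_add]
  · intro x
    obtain ⟨g, hg⟩ := hqs (e.symm x)
    exact ⟨g, by simp only [a, hg, LinearEquiv.apply_symm_apply]⟩
  · intro x y hxy
    have h1 : f (e.symm x.toAdd) = f (e.symm y.toAdd) := by
      have h2 : ∀ x : Multiplicative (Fin r → ℤ), ν x = ((f (e.symm x.toAdd)).toMul : M) :=
        fun x => rfl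
      rw [h2, h2] at hxy
      exact Additive.toMul.injective (Subtype.ext hxy)
    have h2 := e.symm.injective (hf h1)
    exact Multiplicative.toAdd.injective h2



/-- PROOF. `A = μ(G) ⊂ ℂˣ` is a finitely generated abelian group: its torsion is finite, of exponent `w`, and `A / torsion ≅ ℤ^r` (`Module.Free`); `ν (class of x) = x^w`. -/
theorem chr {G : Type} [Group G] (hG : Group.FG G) (μ : G →* ℂ) :
    ∃ w : ℕ, 0 < w ∧ ∃ (r : ℕ) (ex : G → (Fin r → ℤ)) (ν : (Fin r → ℤ) → ℂ),
      (∀ g h, ex (g * h) = ex g + ex h) ∧ Function.Surjective ex ∧ ν 0 = 1 ∧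
      (∀ x y, ν (x + y) = ν x * ν y) ∧ Function.Injective ν ∧ ∀ g, μ g ^ w = ν (ex g) := by
  obtain ⟨w, hw, r, a, ha, hs, ν, hν, h⟩ := exists_exp μ.toHomUnits
  refine ⟨w, hw, r, a, fun z => (ν (Multiplicative.ofAdd z) : ℂ), ha, hs, ?_, ?_, ?_, ?_⟩
  · simp
  · intro x y
    simp [ofAdd_add]
  · intro x y hxy
    exact Multiplicative.ofAdd.injective (hν (Units.ext hxy))
  · intro g
    have := congrArg Units.val (h g)
    simpa using this

end Pool.Agent.Lib.MP_5d4057_al.T5
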