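import Pool.Agent.Lib.MP_5d4057_al.T5.Defs
import Mathlib

/-!
# T5: number fields (helper7)
-/

set_option autoImplicit false

namespace Pool.Agent.Lib.MP_5d4057_al.T5

open Metric Filter Topology Pool.Agent.Lib.MP_5d4057_al Pool.Agent.Lib.MP_5d4057_al.HM

open NumberField

/-- PROOF. `IntermediateField.adjoin ℚ S`. -/
theorem exists_nf (S : Set ℂ) (hS : S.Finite) (hA : ∀ x ∈ S, IsAlgebraic ℚ x) :
    ∃ (K : Type) (_ : Field K) (_ : NumberField K) (σ₀ : K →+* ℂ), ∀ x ∈ S, ∃ y, σ₀ y = x := by
  let K := IntermediateField.adjoin ℚ S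
  have hfin : FiniteDimensional ℚ K := by
    have : Finite S := hS
    exact IntermediateField.finiteDimensional_adjoin fun x hx => (hA x hx).isIntegral
  refine ⟨K, inferInstance, { to_charZero := inferInstance, to_finiteDimensional := hfin },
    algebraMap K ℂ, fun x hx => ?_⟩
  exact ⟨⟨x, IntermediateField.subset_adjoin ℚ S hx⟩, rfl⟩

theorem exists_den {K : Type} [Field K] [NumberField K] (x : K) :
    ∃ m : ℕ, 0 < m ∧ IsIntegral ℤ ((m : K) * x) := by
  have hx : IsAlgebraic ℤ x := by
    have : IsAlgebraic ℚ x := Algebra.IsAlgebraic.isAlgebraic x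
    exact (IsFractionRing.isAlgebraic_iff ℤ ℚ K).2 this
  obtain ⟨y, hy0, hy⟩ := hx.exists_integral_multiple
  refine ⟨y.natAbs, Int.natAbs_pos.2 hy0, ?_⟩
  rcases Int.natAbs_eq y with h | h
  · rw [h] at hy
    simpa [zsmul_eq_mul] using hy
  · rw [h] at hy
    have := hy.neg
    simpa [zsmul_eq_mul] using this

/-- PROOF. `ν z = ∏ ν (e_i)^(z_i)`; `M` = a common denominator of all `ν (± e_i)`, larger than their houses. -/
theorem lift_nu {K : Type} [Field K] [NumberField K] (σ₀ : K →+* ℂ) {r : ℕ}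
    {ν : (Fin r → ℤ) → ℂ} (h1 : ν 0 = 1) (hm : ∀ x y, ν (x + y) = ν x * ν y)
    (hK : ∀ i : Fin r, ∃ y, σ₀ y = ν (Pi.single i 1)) :
    ∃ (νK : (Fin r → ℤ) → K) (M : ℕ), 0 < M ∧ (∀ z, σ₀ (νK z) = ν z) ∧
      (∀ z, IsIntegral ℤ ((M : K) ^ l1 z * νK z)) ∧ ∀ z, house (νK z) ≤ (M : ℝ) ^ l1 z := by
  classical
  choose y hy using hK
  have hνinv : ∀ z, ν (-z) = (ν z)⁻¹ := by
    intro z
    have := hm z (-z)
    rw [add_neg_cancel, h1] at this
    exact eq_inv_of_mul_eq_one_right this.symm
  have hν0 : ∀ z, ν z ≠ 0 := by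
    intro z hz
    have := hm z (-z)
    rw [add_neg_cancel, h1, hz, zero_mul] at this
    exact one_ne_zero this
  let νh : Multiplicative (Fin r → ℤ) →* ℂ :=
    { toFun := fun z => ν z.toAdd
      map_one' := h1
      map_mul' := fun x y => hm _ _ }
  have hnat : ∀ (n : ℕ) z, ν (n • z) = ν z ^ n := by
    intro n z
    induction n with
    | zero => simp [h1]
    | succ n ih => rw [succ_nsmul, hm, ih, pow_succ]
  have hint : ∀ (n : ℤ) z, ν (n • z) = ν z ^ n := by
    intro n z
    cases n with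
    | ofNat n => simpa using hnat n z
    | negSucc n =>
      rw [negSucc_zsmul, hνinv, hnat, zpow_negSucc]
  have hy0 : ∀ i, y i ≠ 0 := by
    intro i h
    have := hy i
    rw [h, map_zero] at this
    exact hν0 _ this.symm
  have hsum : ∀ (s : Finset (Fin r)) (z : Fin r → ℤ), ν (∑ i ∈ s, z i • Pi.single i 1) =
      ∏ i ∈ s, ν (Pi.single i 1) ^ z i := by
    intro s z
    induction s using Finset.induction_on with
    | empty => simpa using h1
    | insert i s hi ih => rw [Finset.sum_insert hi, Finset.prod_insert hi, hm, ih, hint]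
  have hz : ∀ z : Fin r → ℤ, ∑ i, z i • (Pi.single i 1 : Fin r → ℤ) = z := by
    intro z
    funext j
    simp [Finset.sum_apply, Pi.single_apply]
  choose d hd0 hd using fun i => exists_den (y i)
  choose d' hd0' hd' using fun i => exists_den (y i)⁻¹
  obtain ⟨k, hk⟩ := exists_nat_ge (∑ i, (house (y i) + house (y i)⁻¹) + 1)
  set P : ℕ := (∏ i, d i) * ∏ i, d' i with hP
  have hP0 : 0 < P := Nat.mul_pos (Finset.prod_pos fun i _ => hd0 i)
    (Finset.prod_pos fun i _ => hd0' i)
  have hkpos : 0 < k := by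
    have h2 : 0 ≤ ∑ i, (house (y i) + house (y i)⁻¹) :=
      Finset.sum_nonneg fun i _ => add_nonneg (house_nonneg _) (house_nonneg _)
    have : (0 : ℝ) < k := by linarith
    exact_mod_cast this
  set M : ℕ := P * k with hM
  have hM0 : 0 < M := Nat.mul_pos hP0 hkpos
  have hnatint : ∀ n : ℕ, IsIntegral ℤ (n : K) := fun n => isIntegral_algebraMap (x := (n : ℤ))
    |> fun h => by simpa using h
  have hMd : ∀ i, IsIntegral ℤ ((M : K) * y i) := by
    intro i
    obtain ⟨e, he⟩ : d i ∣ M := (Dvd.dvd.mul_right (Dvd.dvd.mul_right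
      (Finset.dvd_prod_of_mem d (Finset.mem_univ i)) _) _)
    rw [he]
    push_cast
    rw [mul_right_comm]
    exact (hd i).mul (hnatint e)
  have hMd' : ∀ i, IsIntegral ℤ ((M : K) * (y i)⁻¹) := by
    intro i
    obtain ⟨e, he⟩ : d' i ∣ M := (Dvd.dvd.mul_right (Dvd.dvd.mul_left
      (Finset.dvd_prod_of_mem d' (Finset.mem_univ i)) _) _)
    rw [he]
    push_cast
    rw [mul_right_comm]
    exact (hd' i).mul (hnatint e)
  have hkM : (k : ℝ) ≤ M := by
    rw [hM]
    push_cast
    have h1 : (1 : ℝ) ≤ P := by exact_mod_cast hP0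
    have h2 : (0 : ℝ) ≤ k := Nat.cast_nonneg k
    nlinarith
  have hH : ∀ i, house (y i) ≤ M ∧ house (y i)⁻¹ ≤ M := by
    intro i
    have h2 : house (y i) + house (y i)⁻¹ ≤ ∑ i, (house (y i) + house (y i)⁻¹) :=
      Finset.single_le_sum (f := fun i => house (y i) + house (y i)⁻¹)
        (fun i _ => add_nonneg (house_nonneg _) (house_nonneg _)) (Finset.mem_univ i)
    have h3 := house_nonneg (y i)
    have h4 := house_nonneg (y i)⁻¹
    exact ⟨by linarith, by linarith⟩
  have hzp : ∀ i (n : ℤ), IsIntegral ℤ ((M : K) ^ n.natAbs * y i ^ n) ∧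
      house (y i ^ n) ≤ (M : ℝ) ^ n.natAbs := by
    intro i n
    have hpow : ∀ (x : K), IsIntegral ℤ ((M : K) * x) → house x ≤ M → ∀ n : ℕ,
        IsIntegral ℤ ((M : K) ^ n * x ^ n) ∧ house (x ^ n) ≤ (M : ℝ) ^ n := by
      intro x hx hx' n
      refine ⟨by rw [← mul_pow]; exact hx.pow n, ?_⟩
      exact (house_pow_le x n).trans (pow_le_pow_left₀ (house_nonneg _) hx' n)
    cases n with
    | ofNat n =>
      simpa using hpow _ (hMd i) (hH i).1 n
    | negSucc n =>
      have := hpow _ (hMd' i) (hH i).2 (n + 1)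
      rw [zpow_negSucc, ← inv_pow]
      simpa using this
  refine ⟨fun z => ∏ i, y i ^ z i, M, hM0, ?_, ?_, ?_⟩
  · intro z
    rw [map_prod]
    simp only [map_zpow₀, hy]
    rw [← hsum, hz]
  · intro z
    have h2 : ∀ s : Finset (Fin r), IsIntegral ℤ ((M : K) ^ (∑ i ∈ s, (z i).natAbs) *
        ∏ i ∈ s, y i ^ z i) := by
      intro s
      induction s using Finset.induction_on with
      | empty => simpa using isIntegral_one
      | insert i s hi ih =>
        rw [Finset.sum_insert hi, Finset.prod_insert hi, pow_add, mul_mul_mul_comm]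
        exact (hzp i _).1.mul ih
    exact h2 Finset.univ
  · intro z
    have h2 : ∀ s : Finset (Fin r), house (∏ i ∈ s, y i ^ z i) ≤
        (M : ℝ) ^ (∑ i ∈ s, (z i).natAbs) := by
      intro s
      induction s using Finset.induction_on with
      | empty =>
        have h3 : house (1 : K) = 1 := by
          have := house_intCast (K := K) 1
          simpa using this
        rw [Finset.prod_empty, h3]
        simp
      | insert i s hi ih =>
        rw [Finset.sum_insert hi, Finset.prod_insert hi, pow_add]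
        exact (house_mul_le _ _).trans
          (mul_le_mul (hzp i _).2 ih (house_nonneg _) (by positivity))
    exact h2 Finset.univ

end Pool.Agent.Lib.MP_5d4057_al.T5
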