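import Pool.Agent.Lib.MP_5d4057_al.T5.Defs
import Mathlib.RingTheory.PowerSeries.Basic

/-!
# T5: Eisenstein's theorem, crude form (owner: helper42)
-/

set_option autoImplicit false

namespace Pool.Agent.Lib.MP_5d4057_al.T5

open Metric Filter Topology Pool.Agent.Lib.MP_5d4057_al Pool.Agent.Lib.MP_5d4057_al.HM

open NumberField PowerSeries

variable {K : Type} [Field K] [NumberField K]

private theorem eisA_fac (s t : ℕ) (ht : 1 ≤ t) :
    (s + 1).factorial * t.factorial ≤ (s + t).factorial := by
  induction s with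
  | zero => simp
  | succ s ih =>
    have h1 : (s + 1 + 1).factorial = (s + 2) * (s + 1).factorial := Nat.factorial_succ (s + 1)
    have h2 : (s + 1 + t).factorial = (s + t + 1) * (s + t).factorial := by
      rw [show s + 1 + t = (s + t) + 1 by omega]
      exact Nat.factorial_succ (s + t)
    rw [h1, h2, mul_assoc]
    exact Nat.mul_le_mul (by omega) ih

private theorem eisA_sum (l : ℕ) (hl : 1 ≤ l) :
    ∑ x ∈ Finset.HasAntidiagonal.antidiagonal l,
      (if x.1 = 0 ∨ x.2 = 0 then 0 else x.1.factorial * x.2.factorial) ≤ l.factorial := by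
  rw [Finset.Nat.sum_antidiagonal_eq_sum_range_succ_mk, Finset.sum_range_succ',
    if_pos (Or.inl rfl), add_zero]
  obtain ⟨k, rfl⟩ : ∃ k, l = k + 1 := ⟨l - 1, by omega⟩
  calc _ ≤ ∑ _i ∈ Finset.range (k + 1), k.factorial := by
        refine Finset.sum_le_sum fun i hi => ?_
        rw [Finset.mem_range] at hi
        by_cases h : i + 1 = 0 ∨ k + 1 - (i + 1) = 0
        · rw [if_pos h]
          exact Nat.zero_le _
        · rw [if_neg h]
          have h2 : 1 ≤ k + 1 - (i + 1) := by omega
          have := eisA_fac i (k + 1 - (i + 1)) h2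
          rwa [show i + (k + 1 - (i + 1)) = k by omega] at this
    _ = (k + 1).factorial := by
        rw [Finset.sum_const, Finset.card_range, smul_eq_mul, Nat.factorial_succ]

private theorem eisA_house_one : house (1 : K) = 1 := by
  have := house_intCast (K := K) 1
  simpa using this

private theorem eisA_house_zero : house (0 : K) = 0 := by
  have := house_intCast (K := K) 0
  simpa using this

omit [NumberField K] in
private theorem eisA_int_mono {M a b : ℕ} {x : K} (h : IsIntegral ℤ ((M : K) ^ a * x)) (hab : a ≤ b) :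
    IsIntegral ℤ ((M : K) ^ b * x) := by
  have e : (M : K) ^ b * x = (M : K) ^ (b - a) * ((M : K) ^ a * x) := by
    rw [← mul_assoc, ← pow_add]
    congr 2
    omega
  rw [e]
  refine IsIntegral.mul ?_ h
  exact (isIntegral_algebraMap (R := ℤ) (A := K) (x := (M : ℤ))).pow _ |> fun h => by simpa using h

omit [NumberField K] in
private theorem eisA_pow_lt {w : PowerSeries K} (hw : coeff 0 w = 0) {j l : ℕ} (h : l < j) :
    coeff l (w ^ j) = 0 := by
  have h1 : (PowerSeries.X : PowerSeries K) ∣ w := by
    rw [X_dvd_iff, ← coeff_zero_eq_constantCoeff_apply]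
    exact hw
  exact X_pow_dvd_iff.1 (pow_dvd_pow_of_dvd h1 j) l h

private theorem eisA_core {d : ℕ} (q : ℕ → ℕ → K) (w : PowerSeries K) (hw0 : coeff 0 w = 0)
    (hw : w = ∑ i ∈ Finset.range d, ∑ m ∈ Finset.range d,
      C (q i m) * PowerSeries.X ^ i * w ^ m)
    (h00 : q 0 0 = 0) (h01 : q 0 1 = 0) (M : ℕ) (hM : 0 < M)
    (hqi : ∀ i m, i < d → m < d → IsIntegral ℤ ((M : K) * q i m))
    (hqh : ∑ i ∈ Finset.range d, ∑ m ∈ Finset.range d, house (q i m) ≤ M) :
    ∀ l j : ℕ, j ≤ l → IsIntegral ℤ ((M : K) ^ (2 * l - j) * coeff l (w ^ j)) ∧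
      house (coeff l (w ^ j)) ≤ (M : ℝ) ^ (2 * l - j) * l.factorial := by
  have hM1 : (1 : ℝ) ≤ M := by exact_mod_cast hM
  intro l
  induction l using Nat.strong_induction_on with
  | _ l ih =>
  -- the powers `j ≥ 2`
  have h2 : ∀ j, 2 ≤ j → j ≤ l → IsIntegral ℤ ((M : K) ^ (2 * l - j) * coeff l (w ^ j)) ∧
      house (coeff l (w ^ j)) ≤ (M : ℝ) ^ (2 * l - j) * l.factorial := by
    intro j hj hjl
    obtain ⟨k, rfl⟩ : ∃ k, j = k + 1 := ⟨j - 1, by omega⟩
    have hk : 1 ≤ k := by omega
    rw [pow_succ, coeff_mul]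
    have hterm : ∀ x ∈ Finset.HasAntidiagonal.antidiagonal l,
        (x.1 < k ∨ x.2 = 0 → coeff x.1 (w ^ k) * coeff x.2 w = 0) ∧
        (¬ (x.1 < k ∨ x.2 = 0) → x.1 < l ∧ x.2 < l ∧ k ≤ x.1 ∧ 1 ≤ x.2) := by
      intro x hx
      rw [Finset.HasAntidiagonal.mem_antidiagonal] at hx
      constructor
      · rintro (h | h)
        · rw [eisA_pow_lt hw0 h, zero_mul]
        · rw [h, hw0, mul_zero]
      · intro h
        push Not at h
        omega
    constructor
    · rw [Finset.mul_sum]
      refine IsIntegral.sum _ fun x hx => ?_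
      by_cases hc : x.1 < k ∨ x.2 = 0
      · rw [(hterm x hx).1 hc, mul_zero]
        exact isIntegral_zero
      · obtain ⟨a1, a2, a3, a4⟩ := (hterm x hx).2 hc
        have b1 := (ih x.1 a1 k a3).1
        have b2 := (ih x.2 a2 1 a4).1
        rw [pow_one] at b2
        have := b1.mul b2
        rw [Finset.HasAntidiagonal.mem_antidiagonal] at hx
        have e : (M : K) ^ (2 * l - (k + 1)) * (coeff x.1 (w ^ k) * coeff x.2 w) =
            (M : K) ^ (2 * x.1 - k) * coeff x.1 (w ^ k) * ((M : K) ^ (2 * x.2 - 1) * coeff x.2 w) := by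
          rw [show 2 * l - (k + 1) = (2 * x.1 - k) + (2 * x.2 - 1) by omega, pow_add]
          ring
        rw [e]
        exact this
    · refine (house_sum_le_sum_house _ _).trans ?_
      have hs : ∀ x ∈ Finset.HasAntidiagonal.antidiagonal l, house (coeff x.1 (w ^ k) * coeff x.2 w) ≤
          (M : ℝ) ^ (2 * l - (k + 1)) * ((if x.1 = 0 ∨ x.2 = 0 then 0 else
            x.1.factorial * x.2.factorial : ℕ) : ℝ) := by
        intro x hx
        by_cases hc : x.1 < k ∨ x.2 = 0
        · rw [(hterm x hx).1 hc, eisA_house_zero]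
          positivity
        · obtain ⟨a1, a2, a3, a4⟩ := (hterm x hx).2 hc
          have b1 := (ih x.1 a1 k a3).2
          have b2 := (ih x.2 a2 1 a4).2
          rw [pow_one] at b2
          rw [if_neg (by omega)]
          rw [Finset.HasAntidiagonal.mem_antidiagonal] at hx
          calc house (coeff x.1 (w ^ k) * coeff x.2 w) ≤
                house (coeff x.1 (w ^ k)) * house (coeff x.2 w) := house_mul_le _ _
            _ ≤ ((M : ℝ) ^ (2 * x.1 - k) * x.1.factorial) *
                ((M : ℝ) ^ (2 * x.2 - 1) * x.2.factorial) :=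
              mul_le_mul b1 b2 (house_nonneg _) (by positivity)
            _ = _ := by
              rw [show 2 * l - (k + 1) = (2 * x.1 - k) + (2 * x.2 - 1) by omega, pow_add]
              push_cast
              ring
      refine (Finset.sum_le_sum hs).trans ?_
      rw [← Finset.mul_sum, ← Nat.cast_sum]
      refine mul_le_mul_of_nonneg_left ?_ (by positivity)
      exact_mod_cast eisA_sum l (by omega)
  -- the power `j = 1`
  have h1 : 1 ≤ l → IsIntegral ℤ ((M : K) ^ (2 * l - 1) * coeff l w) ∧
      house (coeff l w) ≤ (M : ℝ) ^ (2 * l - 1) * l.factorial := by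
    intro hl
    -- all terms
    have ht : ∀ i m, (i = 0 ∧ m ≤ 1 → coeff l (C (q i m) * PowerSeries.X ^ i * w ^ m) = 0) ∧
        (¬ (i = 0 ∧ m ≤ 1) → ∃ v : K, coeff l (C (q i m) * PowerSeries.X ^ i * w ^ m) = q i m * v ∧
          IsIntegral ℤ ((M : K) ^ (2 * l - 2) * v) ∧
          house v ≤ (M : ℝ) ^ (2 * l - 2) * l.factorial) := by
      intro i m
      constructor
      · rintro ⟨rfl, hm⟩
        have : q 0 m = 0 := by
          interval_cases m
          · exact h00
          · exact h01
        rw [this, map_zero, zero_mul, zero_mul, map_zero]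
      · intro hne
        refine ⟨coeff l (PowerSeries.X ^ i * w ^ m), by rw [mul_assoc, coeff_C_mul], ?_⟩
        rw [coeff_X_pow_mul']
        split_ifs with hil
        · by_cases hm : l - i < m
          · rw [eisA_pow_lt hw0 hm, mul_zero, eisA_house_zero]
            exact ⟨isIntegral_zero, by positivity⟩
          · push Not at hm
            have key : IsIntegral ℤ ((M : K) ^ (2 * (l - i) - m) * coeff (l - i) (w ^ m)) ∧
                house (coeff (l - i) (w ^ m)) ≤ (M : ℝ) ^ (2 * (l - i) - m) * (l - i).factorial := by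
              by_cases hi : i = 0
              · subst hi
                simp only [Nat.sub_zero] at hm ⊢
                exact h2 m (by omega) hm
              · exact ih (l - i) (by omega) m hm
            have hexp : 2 * (l - i) - m ≤ 2 * l - 2 := by
              by_cases hi : i = 0
              · subst hi
                omega
              · omega
            refine ⟨eisA_int_mono key.1 hexp, key.2.trans ?_⟩
            refine mul_le_mul (pow_le_pow_right₀ hM1 hexp) ?_ (by positivity) (by positivity)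
            exact_mod_cast Nat.factorial_le (by omega)
        · rw [mul_zero, eisA_house_zero]
          exact ⟨isIntegral_zero, by positivity⟩
    have hcw : coeff l w = ∑ i ∈ Finset.range d, ∑ m ∈ Finset.range d,
        coeff l (C (q i m) * PowerSeries.X ^ i * w ^ m) := by
      conv_lhs => rw [hw]
      rw [map_sum]
      refine Finset.sum_congr rfl fun i _ => ?_
      rw [map_sum]
    rw [hcw]
    constructor
    · rw [Finset.mul_sum]
      refine IsIntegral.sum _ fun i hi => ?_
      rw [Finset.mul_sum]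
      refine IsIntegral.sum _ fun m hm => ?_
      rw [Finset.mem_range] at hi hm
      by_cases hc : i = 0 ∧ m ≤ 1
      · rw [(ht i m).1 hc, mul_zero]
        exact isIntegral_zero
      · obtain ⟨v, hv, hv1, -⟩ := (ht i m).2 hc
        rw [hv]
        have e : (M : K) ^ (2 * l - 1) * (q i m * v) =
            ((M : K) * q i m) * ((M : K) ^ (2 * l - 2) * v) := by
          rw [show 2 * l - 1 = 1 + (2 * l - 2) by omega, pow_add, pow_one]
          ring
        rw [e]
        exact (hqi i m hi hm).mul hv1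
    · refine (house_sum_le_sum_house _ _).trans ?_
      calc ∑ i ∈ Finset.range d, house (∑ m ∈ Finset.range d,
            coeff l (C (q i m) * PowerSeries.X ^ i * w ^ m))
          ≤ ∑ i ∈ Finset.range d, ∑ m ∈ Finset.range d,
            house (q i m) * ((M : ℝ) ^ (2 * l - 2) * l.factorial) := by
            refine Finset.sum_le_sum fun i _ => (house_sum_le_sum_house _ _).trans ?_
            refine Finset.sum_le_sum fun m _ => ?_
            by_cases hc : i = 0 ∧ m ≤ 1
            · rw [(ht i m).1 hc, eisA_house_zero]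
              have := house_nonneg (q i m)
              positivity
            · obtain ⟨v, hv, -, hv2⟩ := (ht i m).2 hc
              rw [hv]
              exact (house_mul_le _ _).trans (mul_le_mul_of_nonneg_left hv2 (house_nonneg _))
        _ = (∑ i ∈ Finset.range d, ∑ m ∈ Finset.range d, house (q i m)) *
            ((M : ℝ) ^ (2 * l - 2) * l.factorial) := by
            rw [Finset.sum_mul]
            refine Finset.sum_congr rfl fun i _ => ?_
            rw [Finset.sum_mul]
        _ ≤ M * ((M : ℝ) ^ (2 * l - 2) * l.factorial) :=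
            mul_le_mul_of_nonneg_right hqh (by positivity)
        _ = (M : ℝ) ^ (2 * l - 1) * l.factorial := by
            rw [show 2 * l - 1 = 1 + (2 * l - 2) by omega, pow_add, pow_one]
            ring
  intro j hj
  rcases Nat.lt_or_ge j 2 with hj2 | hj2
  · interval_cases j
    · rw [pow_zero, coeff_one]
      split_ifs with hl
      · subst hl
        simp only [mul_zero, Nat.sub_zero, pow_zero, one_mul, Nat.factorial_zero, Nat.cast_one]
        exact ⟨isIntegral_one, eisA_house_one.le⟩
      · rw [mul_zero, eisA_house_zero]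
        exact ⟨isIntegral_zero, by positivity⟩
    · have := h1 hj
      rw [pow_one]
      exact this
  · exact h2 j hj2 hj

private theorem eisA_aux (s : Finset K) : ∃ y ≠ (0 : ℤ), ∀ z ∈ s, IsIntegral ℤ (y • z) := by
  have : Algebra.IsAlgebraic ℤ K :=
    (IsFractionRing.comap_isAlgebraic_iff (A := ℤ) (K := ℚ) (C := K)).2 inferInstance
  exact Algebra.IsAlgebraic.exists_integral_multiples ℤ s

private theorem eisA_den (s : Finset K) : ∃ N : ℕ, 0 < N ∧ ∀ z ∈ s, IsIntegral ℤ ((N : K) * z) := by
  obtain ⟨y, hy, h⟩ := eisA_aux s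
  refine ⟨y.natAbs, Int.natAbs_pos.2 hy, fun z hz => ?_⟩
  have h1 := h z hz
  rw [zsmul_eq_mul] at h1
  have h2 : ((y.natAbs : ℕ) : K) = ((y.natAbs : ℤ) : K) := by simp
  rw [h2]
  rcases Int.natAbs_eq y with h3 | h3
  · rw [← h3]
    exact h1
  · have h4 : ((y.natAbs : ℤ)) = -y := by omega
    rw [h4, Int.cast_neg, neg_mul]
    exact h1.neg

/-- PROOF. Let `w = G - g₀`, `e = ∑ j p 0 j g₀^(j-1)`. Expanding in powers of `w`: `w = ∑ q_ij X^i w^j`, finite sum over `(i,j)` with `2 i + j ≥ 2`,
`q_ij ∈ K`. Let `W_(j,l)` be the `l`-th coefficient of `w^j` (`= 0` for `l < j`). Denominators: choose `M` with `M q_ij`, `M g₀` integral; by strong induction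
`M^(2l-1) w_l`, `M^(2l-j) W_(j,l)` are integral (`l ≥ j ≥ 1`): the term `q_ij W_(j,l-i)` has the denominator `M^(1 + 2(l-i) - j)`, and `1 + 2l - 2i - j ≤ 2l - 1`. Houses:
with `ω(l) = l!`, `∑_(0<s<l) s! (l-s)! ≤ l!`, so `|W_(j,l)| ≤ M^(2l-j) l!` and `|w_l| ≤ M^(2l-1) l!` as soon as `M ≥ ∑ |q_ij|`. -/
theorem eis {d : ℕ} (p : ℕ → ℕ → K) (G : PowerSeries K)
    (hG : ∑ i ∈ Finset.range d, ∑ j ∈ Finset.range d, C (p i j) * PowerSeries.X ^ i * G ^ j = 0)
    (hreg : ∑ j ∈ Finset.range d, p 0 j * ((j : K) * coeff 0 G ^ (j - 1)) ≠ 0) :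
    ∃ M : ℕ, 0 < M ∧ ∀ l : ℕ, IsIntegral ℤ ((M : K) ^ (2 * l + 1) * coeff l G) ∧
      house (coeff l G) ≤ (M : ℝ) ^ (2 * l + 1) * l.factorial := by
  classical
  set g₀ : K := coeff 0 G with hg₀
  set w : PowerSeries K := G - C g₀ with hwdef
  have hw0 : coeff 0 w = 0 := by
    rw [hwdef, map_sub, coeff_C, if_pos rfl, ← hg₀, sub_self]
  have hd : 2 ≤ d := by
    by_contra hd
    apply hreg
    refine Finset.sum_eq_zero fun j hj => ?_
    rw [Finset.mem_range] at hj
    have : j = 0 := by omega
    subst this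
    simp
  set e : K := ∑ j ∈ Finset.range d, p 0 j * ((j : K) * g₀ ^ (j - 1)) with he
  set P : ℕ → ℕ → K := fun i m => ∑ j ∈ Finset.range d, p i j * (g₀ ^ (j - m) * (j.choose m : K))
    with hP
  -- expansion
  have hGj : ∀ j ∈ Finset.range d, G ^ j = ∑ m ∈ Finset.range d,
      C (g₀ ^ (j - m) * (j.choose m : K)) * w ^ m := by
    intro j hj
    rw [Finset.mem_range] at hj
    have hGw : G = w + C g₀ := by rw [hwdef]; ring
    conv_lhs => rw [hGw, add_pow]
    rw [← Finset.sum_subset (Finset.range_mono (by omega : j + 1 ≤ d))]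
    · refine Finset.sum_congr rfl fun m _ => ?_
      rw [map_mul, map_pow, map_natCast]
      ring
    · intro m _ hm
      rw [Finset.mem_range] at hm
      rw [Nat.choose_eq_zero_of_lt (by omega : j < m)]
      simp
  have hexp : ∑ i ∈ Finset.range d, ∑ m ∈ Finset.range d, C (P i m) * PowerSeries.X ^ i * w ^ m
      = 0 := by
    rw [← hG]
    refine Finset.sum_congr rfl fun i _ => ?_
    have h1 : ∀ j ∈ Finset.range d, C (p i j) * PowerSeries.X ^ i * G ^ j =
        ∑ m ∈ Finset.range d, C (p i j * (g₀ ^ (j - m) * (j.choose m : K))) *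
          PowerSeries.X ^ i * w ^ m := by
      intro j hj
      rw [hGj j hj, Finset.mul_sum]
      refine Finset.sum_congr rfl fun m _ => ?_
      rw [map_mul C (p i j)]
      ring
    rw [Finset.sum_congr rfl h1, Finset.sum_comm]
    refine Finset.sum_congr rfl fun m _ => ?_
    rw [hP]
    simp only
    rw [map_sum, Finset.sum_mul, Finset.sum_mul]
  have hP00 : P 0 0 = 0 := by
    have h1 := congrArg (coeff 0) hexp
    rw [map_zero, map_sum] at h1
    rw [← h1, Finset.sum_eq_single_of_mem 0 (Finset.mem_range.2 (by omega))]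
    · rw [map_sum, Finset.sum_eq_single_of_mem 0 (Finset.mem_range.2 (by omega))]
      · simp
      · intro m _ hm
        rw [pow_zero, mul_one, coeff_C_mul, eisA_pow_lt hw0 (Nat.pos_of_ne_zero hm), mul_zero]
    · intro i _ hi
      rw [map_sum]
      refine Finset.sum_eq_zero fun m _ => ?_
      rw [mul_assoc, coeff_C_mul, coeff_X_pow_mul', if_neg (by omega), mul_zero]
  have hP01 : P 0 1 = e := by
    rw [hP, he]
    refine Finset.sum_congr rfl fun j _ => ?_
    rw [Nat.choose_one_right]
    ring
  set q : ℕ → ℕ → K := fun i m => -(e⁻¹ * P i m) + (if i = 0 ∧ m = 1 then 1 else 0) with hq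
  have hq00 : q 0 0 = 0 := by
    simp [hq, hP00]
  have hq01 : q 0 1 = 0 := by
    simp only [hq, hP01]
    rw [inv_mul_cancel₀ hreg]
    simp
  have hw : w = ∑ i ∈ Finset.range d, ∑ m ∈ Finset.range d,
      C (q i m) * PowerSeries.X ^ i * w ^ m := by
    have h1 : ∀ i m, C (q i m) * PowerSeries.X ^ i * w ^ m =
        -(C e⁻¹ * (C (P i m) * PowerSeries.X ^ i * w ^ m)) +
          (if i = 0 ∧ m = 1 then w else 0) := by
      intro i m
      simp only [hq]
      rw [map_add, map_neg, map_mul]
      split_ifs with h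
      · obtain ⟨rfl, rfl⟩ := h
        rw [map_one]
        ring
      · rw [map_zero]
        ring
    have h2 : ∑ i ∈ Finset.range d, ∑ m ∈ Finset.range d,
        C (q i m) * PowerSeries.X ^ i * w ^ m =
        -(C e⁻¹ * ∑ i ∈ Finset.range d, ∑ m ∈ Finset.range d,
          C (P i m) * PowerSeries.X ^ i * w ^ m) +
        ∑ i ∈ Finset.range d, ∑ m ∈ Finset.range d, (if i = 0 ∧ m = 1 then w else 0) := by
      rw [Finset.mul_sum, ← Finset.sum_neg_distrib, ← Finset.sum_add_distrib]
      refine Finset.sum_congr rfl fun i _ => ?_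
      rw [Finset.mul_sum, ← Finset.sum_neg_distrib, ← Finset.sum_add_distrib]
      exact Finset.sum_congr rfl fun m _ => h1 i m
    rw [h2, hexp, mul_zero, neg_zero, zero_add,
      Finset.sum_eq_single_of_mem 0 (Finset.mem_range.2 (by omega)),
      Finset.sum_eq_single_of_mem 1 (Finset.mem_range.2 (by omega))]
    · simp
    · intro m _ hm
      rw [if_neg (by tauto)]
    · intro i _ hi
      exact Finset.sum_eq_zero fun m _ => if_neg (by tauto)
  -- denominators
  obtain ⟨N, hN, hNs⟩ := eisA_den (insert g₀ ((Finset.range d ×ˢ Finset.range d).image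
    fun x => q x.1 x.2))
  set T : ℕ := ⌈∑ i ∈ Finset.range d, ∑ m ∈ Finset.range d, house (q i m)⌉₊ + ⌈house g₀⌉₊ + 1
    with hT
  have hT1 : ∑ i ∈ Finset.range d, ∑ m ∈ Finset.range d, house (q i m) ≤ T := by
    rw [hT]
    push_cast
    have h1 := Nat.le_ceil (∑ i ∈ Finset.range d, ∑ m ∈ Finset.range d, house (q i m))
    have h2 : (0 : ℝ) ≤ (⌈house g₀⌉₊ : ℝ) := Nat.cast_nonneg _
    linarith
  have hT2 : house g₀ ≤ T := by
    rw [hT]
    push_cast
    have h1 := Nat.le_ceil (house g₀)
    have h2 : (0 : ℝ) ≤ (⌈∑ i ∈ Finset.range d, ∑ m ∈ Finset.range d, house (q i m)⌉₊ : ℝ) :=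
      Nat.cast_nonneg _
    linarith
  have hT0 : 0 < T := by omega
  have hMT : T ≤ N * T := Nat.le_mul_of_pos_left T hN
  have hMTr : (T : ℝ) ≤ ((N * T : ℕ) : ℝ) := by exact_mod_cast hMT
  have hM0 : 0 < N * T := Nat.mul_pos hN hT0
  have hM1 : (1 : ℝ) ≤ ((N * T : ℕ) : ℝ) := by exact_mod_cast hM0
  have hint : ∀ z : K, IsIntegral ℤ ((N : K) * z) → IsIntegral ℤ (((N * T : ℕ) : K) * z) := by
    intro z hz
    have e1 : (((N * T : ℕ) : K) * z) = (T : K) * ((N : K) * z) := by
      push_cast
      ring
    rw [e1]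
    refine IsIntegral.mul ?_ hz
    simpa using isIntegral_algebraMap (R := ℤ) (A := K) (x := (T : ℤ))
  have hcore := eisA_core q w hw0 hw hq00 hq01 (N * T) hM0
    (fun i m hi hm => hint _ (hNs _ (Finset.mem_insert_of_mem (Finset.mem_image.2
      ⟨(i, m), by simp [hi, hm], rfl⟩)))) (hT1.trans hMTr)
  refine ⟨N * T, hM0, fun l => ?_⟩
  rcases Nat.eq_zero_or_pos l with rfl | hl
  · rw [← hg₀]
    simp only [mul_zero, zero_add, pow_one, Nat.factorial_zero, Nat.cast_one, mul_one]
    exact ⟨hint _ (hNs _ (Finset.mem_insert_self _ _)), hT2.trans hMTr⟩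
  · have hcl : coeff l G = coeff l w := by
      rw [hwdef, map_sub, coeff_C, if_neg (by omega), sub_zero]
    have h1 := hcore l 1 hl
    rw [pow_one] at h1
    rw [hcl]
    refine ⟨eisA_int_mono h1.1 (by omega), h1.2.trans ?_⟩
    exact mul_le_mul_of_nonneg_right (pow_le_pow_right₀ hM1 (by omega)) (by positivity)

end Pool.Agent.Lib.MP_5d4057_al.T5
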