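import Pool.Agent.Lib.MP_5d4057_al.T5.Defs

/-!
# T5: the coefficients of `Y^j` (owner: helper11)
-/

set_option autoImplicit false

namespace Pool.Agent.Lib.MP_5d4057_al.T5

open Metric Filter Topology Pool.Agent.Lib.MP_5d4057_al Pool.Agent.Lib.MP_5d4057_al.HM

open NumberField

variable {K : Type} [Field K] [NumberField K]

/-- The solution of the recursion `(l + 1) c (l + 1) = j * ∑ G s * c (l - s)`. -/
noncomputable def recC {K : Type} [Field K] (G : ℕ → K) (j : ℕ) : ℕ → K
  | 0 => 1
  | l + 1 => (j : K) * (∑ s : Fin (l + 1), G s * recC G j (l - s)) / ((l : K) + 1)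
termination_by l => l
decreasing_by omega

/-- PROOF. The recursion defines `c`. With `C_jl = l! c_jl`: `C_j(l+1) = j ∑_(s ≤ l) G_s (l!/(l-s)!) C_j(l-s)`; denominators `M^(2l)` (`2(l+1) = (2s+1) + 2(l-s) + 1`),
houses `(M' (j+1) (l+1))^(3l)` (`l!/(l-s)! ≤ l^s`, `s! ≤ l^s`). -/
theorem exists_c (G : ℕ → K) {M : ℕ} (hM : 0 < M)
    (h₁ : ∀ l : ℕ, IsIntegral ℤ ((M : K) ^ (2 * l + 1) * G l))
    (h₂ : ∀ l : ℕ, house (G l) ≤ (M : ℝ) ^ (2 * l + 1) * l.factorial) :
    ∃ (c : ℕ → ℕ → K) (M' : ℕ), 0 < M' ∧ (∀ j, c j 0 = 1) ∧
      (∀ j l : ℕ, ((l : K) + 1) * c j (l + 1) =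
        (j : K) * ∑ s ∈ Finset.range (l + 1), G s * c j (l - s)) ∧
      (∀ j l : ℕ, IsIntegral ℤ ((M' : K) ^ (2 * l) * (l.factorial : K) * c j l)) ∧
      ∀ j l : ℕ, house ((l.factorial : K) * c j l) ≤ ((M' : ℝ) * (j + 1) * (l + 1)) ^ (3 * l) := by
  have hc0 : ∀ j, recC G j 0 = 1 := fun j => by rw [recC]
  have hc1 : ∀ j l : ℕ, ((l : K) + 1) * recC G j (l + 1) =
      (j : K) * ∑ s ∈ Finset.range (l + 1), G s * recC G j (l - s) := by
    intro j l
    have h0 : (l : K) + 1 ≠ 0 := by exact_mod_cast Nat.succ_ne_zero l
    rw [recC, mul_div_cancel₀ _ h0, Finset.sum_range]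
  -- the recursion for `l! c l`
  have hC : ∀ j l : ℕ, ((l + 1).factorial : K) * recC G j (l + 1) =
      (j : K) * ∑ s ∈ Finset.range (l + 1), (l.descFactorial s : K) *
        (G s * (((l - s).factorial : K) * recC G j (l - s))) := by
    intro j l
    rw [Nat.factorial_succ]
    push_cast
    rw [show ((l : K) + 1) * (l.factorial : K) * recC G j (l + 1)
      = (l.factorial : K) * (((l : K) + 1) * recC G j (l + 1)) by ring, hc1, ← mul_assoc,
      mul_comm (l.factorial : K), mul_assoc, Finset.mul_sum]
    congr 1
    apply Finset.sum_congr rfl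
    intro s hs
    have hs' : s ≤ l := Nat.lt_succ_iff.1 (Finset.mem_range.1 hs)
    have h3 : (l.factorial : K) = ((l - s).factorial : K) * (l.descFactorial s : K) := by
      rw [← Nat.factorial_mul_descFactorial hs']
      push_cast
      ring
    rw [h3]
    ring
  refine ⟨recC G, M, hM, hc0, hc1, ?_, ?_⟩
  · intro j l
    induction l using Nat.strong_induction_on with
    | _ l ih =>
      rcases l with _ | l
      · simpa [hc0] using isIntegral_one
      · rw [mul_assoc, hC, ← mul_assoc, mul_comm ((M : K) ^ _) (j : K), mul_assoc, Finset.mul_sum]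
        refine (isIntegral_natCast (R := ℤ) (B := K) j).mul (IsIntegral.sum _ fun s hs => ?_)
        have hs' : s ≤ l := Nat.lt_succ_iff.1 (Finset.mem_range.1 hs)
        have e : (M : K) ^ (2 * (l + 1)) * ((l.descFactorial s : K) *
            (G s * (((l - s).factorial : K) * recC G j (l - s))))
            = (M : K) * (l.descFactorial s : K) * ((M : K) ^ (2 * s + 1) * G s) *
              ((M : K) ^ (2 * (l - s)) * ((l - s).factorial : K) * recC G j (l - s)) := by
          have e1 : (M : K) ^ (2 * (l + 1))
              = (M : K) * (M : K) ^ (2 * s + 1) * (M : K) ^ (2 * (l - s)) := by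
            rw [← pow_succ', ← pow_add]
            congr 1
            omega
          rw [e1]
          ring
        rw [e]
        exact (((isIntegral_natCast (R := ℤ) (B := K) M).mul
          (isIntegral_natCast (R := ℤ) (B := K) _)).mul (h₁ s)).mul (ih (l - s) (by omega))
  · intro j l
    have hn : ∀ n : ℕ, house (n : K) = n := fun n => by
      have := house_intCast (K := K) (n : ℤ)
      simpa using this
    have hM1 : (1 : ℝ) ≤ M := by exact_mod_cast hM
    induction l using Nat.strong_induction_on with
    | _ l ih =>
      rcases l with _ | l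
      · have h1 : house (1 : K) = 1 := by simpa using hn 1
        simp [hc0, h1]
      · rw [hC]
        have hj0 : (0 : ℝ) ≤ j := Nat.cast_nonneg _
        have hl0 : (0 : ℝ) ≤ l := Nat.cast_nonneg _
        set A : ℝ := (M : ℝ) * (j + 1) * (((l + 1 : ℕ) : ℝ) + 1) with hA
        have hA' : A = (M : ℝ) * (j + 1) * (l + 2) := by
          rw [hA]
          push_cast
          ring
        have hjl : 1 ≤ ((j : ℝ) + 1) * (l + 2) := by nlinarith
        have hAM : (M : ℝ) ≤ A := by
          rw [hA', mul_assoc]
          exact le_mul_of_one_le_right (by linarith) hjl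
        have hA1 : 1 ≤ A := hM1.trans hAM
        have hAj : (j : ℝ) ≤ A := by
          rw [hA']
          have : (1 : ℝ) ≤ M * (l + 2) := by nlinarith
          nlinarith
        have hAl : (l : ℝ) + 2 ≤ A := by
          rw [hA']
          have : (1 : ℝ) ≤ M * (j + 1) := by nlinarith
          nlinarith
        have hterm : ∀ s ∈ Finset.range (l + 1), house ((l.descFactorial s : K) *
            (G s * (((l - s).factorial : K) * recC G j (l - s)))) ≤ A ^ (3 * l + 1) := by
          intro s hs
          have hs' : s ≤ l := Nat.lt_succ_iff.1 (Finset.mem_range.1 hs)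
          have b1 : house (l.descFactorial s : K) ≤ ((l : ℝ) + 2) ^ s := by
            rw [hn]
            have : (l.descFactorial s : ℝ) ≤ (l : ℝ) ^ s := by
              exact_mod_cast Nat.descFactorial_le_pow l s
            exact this.trans (pow_le_pow_left₀ hl0 (by linarith) _)
          have b2 : house (G s) ≤ (M : ℝ) ^ (2 * s + 1) * ((l : ℝ) + 2) ^ s := by
            refine (h₂ s).trans (mul_le_mul_of_nonneg_left ?_ (by positivity))
            have h3 : (s.factorial : ℝ) ≤ (s : ℝ) ^ s := by exact_mod_cast Nat.factorial_le_pow s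
            refine h3.trans (pow_le_pow_left₀ (Nat.cast_nonneg _) ?_ _)
            have : (s : ℝ) ≤ l := by exact_mod_cast hs'
            linarith
          have b3 : house (((l - s).factorial : K) * recC G j (l - s)) ≤
              ((M : ℝ) * (j + 1) * (l + 2)) ^ (3 * (l - s)) := by
            refine (ih (l - s) (by omega)).trans ?_
            apply pow_le_pow_left₀ (by positivity)
            have : (((l - s : ℕ) : ℝ)) ≤ l := by exact_mod_cast Nat.sub_le l s
            have h4 : 0 ≤ (M : ℝ) * (j + 1) := by positivity
            exact mul_le_mul_of_nonneg_left (by linarith) h4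
          rw [← hA'] at b3
          have hMl : (M : ℝ) * (l + 2) ≤ A := by
            rw [hA']
            have : (0 : ℝ) ≤ M * (l + 2) := by positivity
            nlinarith
          have hl1 : (1 : ℝ) ≤ (l : ℝ) + 2 := by linarith
          calc house ((l.descFactorial s : K) *
                (G s * (((l - s).factorial : K) * recC G j (l - s))))
              ≤ house (l.descFactorial s : K) * (house (G s) *
                house (((l - s).factorial : K) * recC G j (l - s))) :=
                (house_mul_le _ _).trans
                  (mul_le_mul_of_nonneg_left (house_mul_le _ _) (house_nonneg _))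
            _ ≤ ((l : ℝ) + 2) ^ s * (((M : ℝ) ^ (2 * s + 1) * ((l : ℝ) + 2) ^ s) *
                A ^ (3 * (l - s))) := by
                apply mul_le_mul b1 _ (mul_nonneg (house_nonneg _) (house_nonneg _))
                  (by positivity)
                exact mul_le_mul b2 b3 (house_nonneg _) (by positivity)
            _ ≤ ((M : ℝ) * (l + 2)) ^ (2 * s + 1) * A ^ (3 * (l - s)) := by
                rw [← mul_assoc]
                apply mul_le_mul_of_nonneg_right _ (by positivity)
                have e : ((M : ℝ) * (l + 2)) ^ (2 * s + 1) = ((l : ℝ) + 2) ^ s *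
                    ((M : ℝ) ^ (2 * s + 1) * ((l : ℝ) + 2) ^ s) * (l + 2) := by
                  rw [mul_pow]
                  ring
                rw [e]
                exact le_mul_of_one_le_right (by positivity) hl1
            _ ≤ A ^ (2 * s + 1) * A ^ (3 * (l - s)) := by
                apply mul_le_mul_of_nonneg_right _ (by positivity)
                exact pow_le_pow_left₀ (by positivity) hMl _
            _ = A ^ (2 * s + 1 + 3 * (l - s)) := (pow_add _ _ _).symm
            _ ≤ A ^ (3 * l + 1) := pow_le_pow_right₀ hA1 (by omega)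
        refine (house_mul_le _ _).trans ?_
        rw [hn]
        have hsum : house (∑ s ∈ Finset.range (l + 1), (l.descFactorial s : K) *
            (G s * (((l - s).factorial : K) * recC G j (l - s)))) ≤ A * A ^ (3 * l + 1) := by
          refine (house_sum_le_sum_house _ _).trans ((Finset.sum_le_sum hterm).trans ?_)
          rw [Finset.sum_const, Finset.card_range, nsmul_eq_mul]
          apply mul_le_mul_of_nonneg_right _ (by positivity)
          push_cast
          linarith
        calc (j : ℝ) * house (∑ s ∈ Finset.range (l + 1), (l.descFactorial s : K) *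
              (G s * (((l - s).factorial : K) * recC G j (l - s))))
            ≤ A * (A * A ^ (3 * l + 1)) :=
              mul_le_mul hAj hsum (house_nonneg _) (by positivity)
          _ = A ^ (3 * (l + 1)) := by ring

end Pool.Agent.Lib.MP_5d4057_al.T5
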