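import Pool.Agent.Lib.MP_5d4057_al.T5.SerC
import Pool.Agent.Lib.MP_5d4057_al.T5.EisA
import Pool.Agent.Lib.MP_5d4057_al.T5.EisB

/-!
# T5: the local statement at a regular algebraic point (owner: helper5)
-/

set_option autoImplicit false

namespace Pool.Agent.Lib.MP_5d4057_al.T5

open Metric Filter Topology Pool.Agent.Lib.MP_5d4057_al Pool.Agent.Lib.MP_5d4057_al.HM

open NumberField PowerSeries

variable {K : Type} [Field K] [NumberField K]

/-- The constant term of an expansion. -/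
private theorem ep_zero {u f : ℂ → ℂ} (u0 : u 0 = 0) {F : PowerSeries ℂ} (h : EP u f F) :
    coeff 0 F = f 0 := by
  obtain ⟨R, -, hR⟩ := h 1
  have h1 := hR.self_of_nhds
  rw [h1, u0]
  simp

/-- PROOF. `exists_EP` for `g`, the relation in `ℂ⟦X⟧` by `EP.unique`, `descend`, `eis`, `exists_c`; `exists_EP` for `Y^j`, its coefficients satisfy
the recursion of `exists_c` (`EP.deriv`, `(Y^j)' = j Y^j g u'`), so they are the `σ₀ (c j l)`. -/
theorem loc (σ₀ : K →+* ℂ) {u Y g : ℂ → ℂ} (hu : AnalyticAt ℂ u 0) (u0 : u 0 = 0)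
    (u1 : deriv u 0 ≠ 0) (hY : AnalyticAt ℂ Y 0) (Y0 : Y 0 = 1) (hg : AnalyticAt ℂ g 0)
    (ode : ∀ᶠ x in 𝓝 (0 : ℂ), deriv Y x = Y x * g x * deriv u x) {d : ℕ} (p : ℕ → ℕ → K)
    (hp : ∀ᶠ x in 𝓝 (0 : ℂ), ∑ i ∈ Finset.range d, ∑ j ∈ Finset.range d,
      σ₀ (p i j) * u x ^ i * g x ^ j = 0)
    (hreg : ∑ j ∈ Finset.range d, σ₀ (p 0 j) * ((j : ℂ) * g 0 ^ (j - 1)) ≠ 0)
    (hg0 : ∃ g₀ : K, σ₀ g₀ = g 0) :
    ∃ (c : ℕ → ℕ → K) (M : ℕ), 0 < M ∧ (∀ j, c j 0 = 1) ∧
      (∀ j l : ℕ, IsIntegral ℤ ((M : K) ^ (2 * l) * (l.factorial : K) * c j l)) ∧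
      (∀ j l : ℕ, house ((l.factorial : K) * c j l) ≤ ((M : ℝ) * (j + 1) * (l + 1)) ^ (3 * l)) ∧
      ∀ j, Exps u (fun x => Y x ^ j) fun l => σ₀ (c j l) := by
  obtain ⟨G, hG⟩ := exists_EP hu u0 u1 hg
  have hc0 : coeff 0 G = g 0 := ep_zero u0 hG
  -- the relation for the formal series
  have hrel : ∑ i ∈ Finset.range d, ∑ j ∈ Finset.range d,
      C (σ₀ (p i j)) * PowerSeries.X ^ i * G ^ j = 0 := by
    have h1 : EP u (fun x => ∑ i ∈ Finset.range d, ∑ j ∈ Finset.range d,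
        σ₀ (p i j) * u x ^ i * g x ^ j)
        (∑ i ∈ Finset.range d, ∑ j ∈ Finset.range d, C (σ₀ (p i j)) * PowerSeries.X ^ i * G ^ j) :=
      EP.sum _ fun i _ => EP.sum _ fun j _ =>
        EP.mul hu (EP.mul hu (EP.const _) (EP.pow hu (EP.self hu) i)) (EP.pow hu hG j)
    have h2 : EP u (fun _ => (0 : ℂ)) (C (0 : ℂ)) := EP.const 0
    have h3 : EP u (fun x => ∑ i ∈ Finset.range d, ∑ j ∈ Finset.range d,
        σ₀ (p i j) * u x ^ i * g x ^ j) (C (0 : ℂ)) := h2.congr (hp.mono fun x hx => hx.symm)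
    rw [EP.unique hu u0 u1 h1 h3, map_zero]
  obtain ⟨G₁, rfl⟩ := descend σ₀ p G hrel (by rw [hc0]; exact hreg) (by rw [hc0]; exact hg0)
  -- Eisenstein
  have hc1 : σ₀ (coeff 0 G₁) = g 0 := by
    rw [← hc0, coeff_map]
  obtain ⟨M, hM, hE⟩ := eis (d := d) p G₁ (by
    refine PowerSeries.map_injective σ₀ σ₀.injective ?_
    rw [map_zero, ← hrel]
    simp only [map_sum, map_mul, map_pow, PowerSeries.map_C, PowerSeries.map_X]) (by
    intro h
    refine hreg ?_
    have h2 := congrArg σ₀ h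
    rw [map_zero] at h2
    refine Eq.trans ?_ h2
    rw [← hc1]
    simp only [map_sum, map_mul, map_pow, map_natCast])
  obtain ⟨c, M', hM', c0, crec, cint, chouse⟩ := exists_c (fun l => coeff l G₁) hM
    (fun l => (hE l).1) fun l => (hE l).2
  refine ⟨c, M', hM', c0, cint, chouse, fun j => ?_⟩
  obtain ⟨H, hH⟩ := exists_EP hu u0 u1 (hY.pow j)
  have hH' : EP u (fun x => Y x ^ j) H := hH
  -- the differential equation
  have hode : ∀ᶠ x in 𝓝 (0 : ℂ), deriv (fun x => Y x ^ j) x =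
      ((j : ℂ) * Y x ^ j * g x) * deriv u x := by
    filter_upwards [ode, hY.eventually_analyticAt] with x hx hYx
    have h1 := (hYx.differentiableAt.hasDerivAt.pow j).deriv
    have h2 : deriv (fun x => Y x ^ j) x = (j : ℂ) * Y x ^ (j - 1) * deriv Y x := h1
    rw [h2, hx]
    rcases Nat.eq_zero_or_pos j with h0 | h0
    · subst h0
      simp
    · obtain ⟨k, rfl⟩ : ∃ k, j = k + 1 := ⟨j - 1, by omega⟩
      rw [Nat.add_sub_cancel, pow_succ]
      ring
  have hd := EP.deriv hu u1 hH' hode ((analyticAt_const.mul (hY.pow j)).mul hg)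
  have hd2 : EP u (fun x => (j : ℂ) * Y x ^ j * g x)
      (C (j : ℂ) * H * PowerSeries.map σ₀ G₁) := EP.mul hu (EP.mul hu (EP.const _) hH') hG
  have heq := EP.unique hu u0 u1 hd hd2
  have hz : coeff 0 H = 1 := by
    rw [ep_zero u0 hH', Y0, one_pow]
  have hcoef : ∀ l : ℕ, coeff l H = σ₀ (c j l) := by
    intro l
    induction l using Nat.strong_induction_on with
    | _ l ih =>
      rcases Nat.eq_zero_or_pos l with h0 | h0
      · subst h0
        rw [hz, c0, map_one]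
      · obtain ⟨k, rfl⟩ : ∃ k, l = k + 1 := ⟨l - 1, by omega⟩
        have h1 := congrArg (coeff k) heq
        rw [PowerSeries.coeff_mk, mul_assoc, PowerSeries.coeff_C_mul, mul_comm H,
          PowerSeries.coeff_mul] at h1
        have h2 := congrArg σ₀ (crec j k)
        rw [map_mul, map_add, map_natCast, map_one, map_mul, map_natCast, map_sum] at h2
        have h3 : ((k : ℂ) + 1) ≠ 0 := by
          exact_mod_cast Nat.succ_ne_zero k
        refine mul_left_cancel₀ h3 ?_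
        rw [h1, h2]
        congr 1
        rw [Finset.Nat.sum_antidiagonal_eq_sum_range_succ
          (fun a b => coeff a (PowerSeries.map σ₀ G₁) * coeff b H) k]
        refine Finset.sum_congr rfl fun s hs => ?_
        rw [map_mul, coeff_map, ih (k - s) (by omega)]
  intro L
  obtain ⟨R, hR, hR'⟩ := hH' L
  refine ⟨R, hR, hR'.mono fun x hx => ?_⟩
  rw [hx]
  congr 1
  refine Finset.sum_congr rfl fun l _ => ?_
  show coeff l H * u x ^ l = σ₀ (c j l) * u x ^ l
  rw [hcoef]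

end Pool.Agent.Lib.MP_5d4057_al.T5
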