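import Pool.Agent.Lib.MP_5d4057_al.T5.Core
import Pool.Agent.Lib.MP_5d4057_al.T5.SerB
import Pool.Agent.Lib.MP_5d4057_al.T5.Chr
import Pool.Agent.Lib.MP_5d4057_al.T5.Nf
import Pool.Agent.Lib.MP_5d4057_al.RG.FG

/-!
# T5: the theorem at a regular algebraic base point `0` (owner: helper37)
-/

set_option autoImplicit false

namespace Pool.Agent.Lib.MP_5d4057_al.T5

open Metric Filter Topology Pool.Agent.Lib.MP_5d4057_al Pool.Agent.Lib.MP_5d4057_al.HM
open NumberField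

variable {Γ : Subgroup (SUGroup 1)} {a b y₁ y₂ : ℂ → ℂ}

/-- The function `g = Y' / (Y t')` for `t = a / b`, `Y = y₁ / y₂`. -/
noncomputable def lg (a b y₁ y₂ : ℂ → ℂ) (x : ℂ) : ℂ :=
  (deriv y₁ x * y₂ x - y₁ x * deriv y₂ x) * b x ^ 2 /
    (y₁ x * y₂ x * (deriv a x * b x - a x * deriv b x))

/-- A root of a polynomial with algebraic coefficients is algebraic. -/
theorem alg_of_root {d : ℕ} (p : ℕ → ℂ) (hp : ∀ j, IsAlgebraic ℚ (p j)) {g : ℂ}
    (h : ∑ j ∈ Finset.range d, p j * g ^ j = 0) (h0 : ∃ j < d, p j ≠ 0) : IsAlgebraic ℚ g := by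
  classical
  let A := algebraicClosure ℚ ℂ
  have : Algebra.IsAlgebraic ℚ A := algebraicClosure.isAlgebraic ℚ ℂ
  have hA : ∀ j, p j ∈ A := fun j => mem_algebraicClosure_iff.2 (hp j)
  have h1 : IsAlgebraic A g := by
    refine ⟨∑ j ∈ Finset.range d, Polynomial.monomial j (⟨p j, hA j⟩ : A), ?_, ?_⟩
    · obtain ⟨j, hj, hpj⟩ := h0
      intro hcon
      have h2 := congrArg (fun P => Polynomial.coeff P j) hcon
      simp only [Polynomial.finsetSum_coeff, Polynomial.coeff_monomial, Polynomial.coeff_zero] at h2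
      rw [Finset.sum_eq_single j] at h2
      · rw [if_pos rfl] at h2
        exact hpj (congrArg Subtype.val h2)
      · intro i _ hi
        rw [if_neg hi]
      · intro hcon2
        exact absurd (Finset.mem_range.2 hj) hcon2
    · rw [map_sum]
      simp only [Polynomial.aeval_monomial]
      exact h
  exact h1.restrictScalars ℚ

private theorem pg_analytic {f : ℂ → ℂ} (h : PG f) : AnalyticAt ℂ f 0 :=
  h.diff.analyticAt (isOpen_ball.mem_nhds (mem_ball_self one_pos))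

/-- PROOF. `chr` with `fg_of_coc`; `y_i ↦ y_i^w` (`lg` is multiplied by `w`, `p i j ↦ p i j / w^j`), `y₁ ↦ y₁ / Y 0`; `exists_nf`, `lift_nu`, `loc`, `core`; so `r = 0` and `μ^w = 1`. -/
theorem at_zero (hΓ : Coc Γ) (ha : PG a) (hb : PG b) (h₁ : PG y₁) (h₂ : PG y₂)
    (a0 : a 0 = 0) (a1 : deriv a 0 ≠ 0) (b0 : b 0 ≠ 0) (y10 : y₁ 0 ≠ 0) (y20 : y₂ 0 ≠ 0)
    (hinv : ∀ γ ∈ Γ, ∀ x ∈ ball (0 : ℂ) 1, a (mb γ x) * b x = a x * b (mb γ x))
    (μ : Γ →* ℂ) (hμ : ∀ γ, ‖μ γ‖ = 1) (hμa : ∀ γ, IsAlgebraic ℚ (μ γ))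
    (hY : ∀ γ : Γ, ∀ x ∈ ball (0 : ℂ) 1, y₁ (mb γ x) * y₂ x = μ γ * (y₁ x * y₂ (mb γ x)))
    {d : ℕ} (p : ℕ → ℕ → ℂ) (hpa : ∀ i j, IsAlgebraic ℚ (p i j))
    (hp : ∀ᶠ x in 𝓝 (0 : ℂ), ∑ i ∈ Finset.range d, ∑ j ∈ Finset.range d,
      p i j * (a x / b x) ^ i * lg a b y₁ y₂ x ^ j = 0)
    (hreg : ∑ j ∈ Finset.range d, p 0 j * ((j : ℂ) * lg a b y₁ y₂ 0 ^ (j - 1)) ≠ 0) :
    ∃ N : ℕ, 0 < N ∧ ∀ γ, μ γ ^ N = 1 := by
  classical
  obtain ⟨w, hw, r, ex, ν, em, es, ν1, νm, νi, hνμ⟩ := chr (RG.fg_of_coc hΓ) μ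
  have hw0 : (w : ℂ) ≠ 0 := by exact_mod_cast hw.ne'
  suffices hr : r = 0 by
    refine ⟨w, hw, fun γ => ?_⟩
    subst hr
    rw [hνμ, Subsingleton.elim (ex γ) 0, ν1]
  have hd : 0 < d := by
    rcases Nat.eq_zero_or_pos d with h | h
    · subst h
      simp at hreg
    · exact h
  -- the value of `g`
  have hg0 : ∑ j ∈ Finset.range d, p 0 j * lg a b y₁ y₂ 0 ^ j = 0 := by
    have h1 := hp.self_of_nhds
    rw [a0, zero_div, Finset.sum_eq_single 0] at h1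
    · simpa using h1
    · intro i _ hi
      refine Finset.sum_eq_zero fun j _ => ?_
      rw [zero_pow hi, mul_zero, zero_mul]
    · intro h
      exact absurd (Finset.mem_range.2 hd) h
  have hga : IsAlgebraic ℚ (lg a b y₁ y₂ 0) := by
    refine alg_of_root (p 0) (hpa 0) hg0 ?_
    by_contra hcon
    push Not at hcon
    apply hreg
    refine Finset.sum_eq_zero fun j hj => ?_
    rw [hcon j (Finset.mem_range.1 hj), zero_mul]
  have hνa : ∀ z, IsAlgebraic ℚ (ν z) := by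
    intro z
    obtain ⟨γ, rfl⟩ := es z
    rw [← hνμ]
    exact (hμa γ).pow w
  -- the number field
  obtain ⟨K, _, _, σ₀, hσ⟩ := exists_nf
    (insert (lg a b y₁ y₂ 0) (Set.range (fun i : Fin r => ν (Pi.single i 1)) ∪
      Set.range fun ij : Fin d × Fin d => p ij.1 ij.2))
    ((Set.finite_range _).union (Set.finite_range _) |>.insert _) (by
      rintro x (rfl | ⟨i, rfl⟩ | ⟨ij, rfl⟩)
      · exact hga
      · exact hνa _
      · exact hpa _ _)
  obtain ⟨g₀, hg₀⟩ := hσ _ (Set.mem_insert _ _)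
  have hνK : ∀ i : Fin r, ∃ y, σ₀ y = ν (Pi.single i 1) := fun i =>
    hσ _ (Set.mem_insert_of_mem _ (Or.inl ⟨i, rfl⟩))
  have hpK : ∀ i j : ℕ, ∃ y : K, i < d → j < d → σ₀ y = p i j := by
    intro i j
    by_cases hi : i < d
    · by_cases hj : j < d
      · obtain ⟨y, hy⟩ := hσ (p i j) (Set.mem_insert_of_mem _ (Or.inr ⟨(⟨i, hi⟩, ⟨j, hj⟩), rfl⟩))
        exact ⟨y, fun _ _ => hy⟩
      · exact ⟨0, fun _ h => absurd h hj⟩
    · exact ⟨0, fun h => absurd h hi⟩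
  choose pK hpK using hpK
  obtain ⟨νK, M₂, hM₂, hνK1, hνK2, hνK3⟩ := lift_nu σ₀ ν1 νm hνK
  -- the functions
  obtain ⟨C, hC⟩ : ∃ C : ℂ, C = (y₂ 0 / y₁ 0) ^ w := ⟨_, rfl⟩
  have hC0 : C ≠ 0 := by
    rw [hC]
    exact pow_ne_zero _ (div_ne_zero y20 y10)
  have hY₁ : PG fun x => C * y₁ x ^ w := (h₁.pow w).const_mul C
  have hY₂ : PG fun x => y₂ x ^ w := h₂.pow w
  have haa := pg_analytic ha
  have hba := pg_analytic hb
  have h1a := pg_analytic h₁
  have h2a := pg_analytic h₂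
  have hu : AnalyticAt ℂ (fun x => a x / b x) 0 := haa.div hba b0
  have hYa : AnalyticAt ℂ (fun x => C * y₁ x ^ w / y₂ x ^ w) 0 :=
    (analyticAt_const.mul (h1a.pow w)).div (h2a.pow w) (pow_ne_zero _ y20)
  have hne0 : y₁ 0 * y₂ 0 * (deriv a 0 * b 0 - a 0 * deriv b 0) ≠ 0 := by
    rw [a0, zero_mul, sub_zero]
    exact mul_ne_zero (mul_ne_zero y10 y20) (mul_ne_zero a1 b0)
  have hlga : AnalyticAt ℂ (lg a b y₁ y₂) 0 := by
    refine AnalyticAt.div ?_ ?_ hne0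
    · exact ((h1a.deriv.mul h2a).sub (h1a.mul h2a.deriv)).mul (hba.pow 2)
    · exact (h1a.mul h2a).mul ((haa.deriv.mul hba).sub (haa.mul hba.deriv))
  have hga' : AnalyticAt ℂ (fun x => (w : ℂ) * lg a b y₁ y₂ x) 0 := analyticAt_const.mul hlga
  have hud : ∀ᶠ x in 𝓝 (0 : ℂ), deriv (fun x => a x / b x) x =
      (deriv a x * b x - a x * deriv b x) / b x ^ 2 := by
    filter_upwards [haa.eventually_analyticAt, hba.eventually_analyticAt,
      hba.continuousAt.eventually_ne b0] with x hx1 hx2 hx3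
    exact deriv_fun_div hx1.differentiableAt hx2.differentiableAt hx3
  have hu1 : deriv (fun x => a x / b x) 0 ≠ 0 := by
    rw [hud.self_of_nhds, a0, zero_mul, sub_zero]
    exact div_ne_zero (mul_ne_zero a1 b0) (pow_ne_zero _ b0)
  have hode : ∀ᶠ x in 𝓝 (0 : ℂ), deriv (fun x => C * y₁ x ^ w / y₂ x ^ w) x =
      (C * y₁ x ^ w / y₂ x ^ w) * ((w : ℂ) * lg a b y₁ y₂ x) *
        deriv (fun x => a x / b x) x := by
    have hden : AnalyticAt ℂ
        (fun x => y₁ x * y₂ x * (deriv a x * b x - a x * deriv b x)) 0 :=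
      (h1a.mul h2a).mul ((haa.deriv.mul hba).sub (haa.mul hba.deriv))
    filter_upwards [hud, h1a.eventually_analyticAt, h2a.eventually_analyticAt,
      hba.continuousAt.eventually_ne b0, hden.continuousAt.eventually_ne hne0] with
      x hx1 hx2 hx3 hx4 hx5
    have hy1 : y₁ x ≠ 0 := left_ne_zero_of_mul (left_ne_zero_of_mul hx5)
    have hy2 : y₂ x ≠ 0 := right_ne_zero_of_mul (left_ne_zero_of_mul hx5)
    have hab : deriv a x * b x - a x * deriv b x ≠ 0 := right_ne_zero_of_mul hx5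
    have e1 : deriv (fun x => C * y₁ x ^ w / y₂ x ^ w) x =
        (C * ((w : ℂ) * y₁ x ^ (w - 1) * deriv y₁ x) * y₂ x ^ w -
          C * y₁ x ^ w * ((w : ℂ) * y₂ x ^ (w - 1) * deriv y₂ x)) / (y₂ x ^ w) ^ 2 := by
      have f1 := hx2.differentiableAt.hasDerivAt
      have f2 := hx3.differentiableAt.hasDerivAt
      exact (((f1.fun_pow w).const_mul C).fun_div (f2.fun_pow w) (pow_ne_zero _ hy2)).deriv
    rw [hx1, e1, lg]
    generalize deriv a x * b x - a x * deriv b x = Δ at hab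
    obtain ⟨w', rfl⟩ : ∃ w', w = w' + 1 := ⟨w - 1, by omega⟩
    rw [Nat.add_sub_cancel]
    field_simp
    ring
  have hp' : ∀ᶠ x in 𝓝 (0 : ℂ), ∑ i ∈ Finset.range d, ∑ j ∈ Finset.range d,
      σ₀ (pK i j / (w : K) ^ j) * (a x / b x) ^ i * ((w : ℂ) * lg a b y₁ y₂ x) ^ j = 0 := by
    filter_upwards [hp] with x hx
    rw [← hx]
    refine Finset.sum_congr rfl fun i hi => Finset.sum_congr rfl fun j hj => ?_
    rw [map_div₀, map_pow, map_natCast, hpK i j (Finset.mem_range.1 hi) (Finset.mem_range.1 hj),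
      mul_pow]
    field_simp
  have hreg' : ∑ j ∈ Finset.range d, σ₀ (pK 0 j / (w : K) ^ j) *
      ((j : ℂ) * ((w : ℂ) * lg a b y₁ y₂ 0) ^ (j - 1)) ≠ 0 := by
    have e1 : ∑ j ∈ Finset.range d, σ₀ (pK 0 j / (w : K) ^ j) *
        ((j : ℂ) * ((w : ℂ) * lg a b y₁ y₂ 0) ^ (j - 1)) =
        (w : ℂ)⁻¹ * ∑ j ∈ Finset.range d, p 0 j * ((j : ℂ) * lg a b y₁ y₂ 0 ^ (j - 1)) := by
      rw [Finset.mul_sum]
      refine Finset.sum_congr rfl fun j hj => ?_
      rw [map_div₀, map_pow, map_natCast, hpK 0 j hd (Finset.mem_range.1 hj)]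
      rcases Nat.eq_zero_or_pos j with h | h
      · subst h
        simp
      · obtain ⟨j', rfl⟩ : ∃ j', j = j' + 1 := ⟨j - 1, by omega⟩
        rw [Nat.add_sub_cancel, mul_pow, pow_succ]
        field_simp
    rw [e1]
    exact mul_ne_zero (inv_ne_zero hw0) hreg
  obtain ⟨c, M₁, hM₁, hc0, hc1, hc2, hc3⟩ := loc σ₀ (u := fun x => a x / b x)
    (Y := fun x => C * y₁ x ^ w / y₂ x ^ w) (g := fun x => (w : ℂ) * lg a b y₁ y₂ x) (d := d)
    hu (by simp [a0]) hu1 hYa (by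
      show C * y₁ 0 ^ w / y₂ 0 ^ w = 1
      rw [hC, div_pow]
      field_simp) hga' hode (fun i j => pK i j / (w : K) ^ j) hp' hreg'
    ⟨(w : K) * g₀, by rw [map_mul, map_natCast, hg₀]⟩
  -- the arithmetic data
  have hA : Ar K r νK c (M₁ * M₂) := by
    have hM₁r : (1 : ℝ) ≤ M₁ := by exact_mod_cast hM₁
    have hM₂r : (1 : ℝ) ≤ M₂ := by exact_mod_cast hM₂
    refine ⟨Nat.mul_pos hM₁ hM₂, ?_, ?_, ?_, ?_, ?_, hc0, ?_, ?_⟩
    · apply σ₀.injective
      rw [hνK1, ν1, map_one]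
    · intro x y
      apply σ₀.injective
      rw [map_mul, hνK1, hνK1, hνK1, νm]
    · intro x y hxy
      apply νi
      rw [← hνK1, ← hνK1, hxy]
    · intro z
      have e1 : ((M₁ * M₂ : ℕ) : K) ^ l1 z * νK z =
          ((M₁ ^ l1 z : ℕ) : K) * ((M₂ : K) ^ l1 z * νK z) := by
        push_cast
        rw [mul_pow]
        ring
      rw [e1]
      exact (isIntegral_natCast _).mul (hνK2 z)
    · intro z
      refine (hνK3 z).trans (pow_le_pow_left₀ (by positivity) ?_ _)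
      push_cast
      nlinarith
    · intro j l
      have e1 : ((M₁ * M₂ : ℕ) : K) ^ (2 * l) * (l.factorial : K) * c j l =
          ((M₂ ^ (2 * l) : ℕ) : K) * ((M₁ : K) ^ (2 * l) * (l.factorial : K) * c j l) := by
        push_cast
        rw [mul_pow]
        ring
      rw [e1]
      exact (isIntegral_natCast _).mul (hc1 j l)
    · intro j l
      refine (hc2 j l).trans (pow_le_pow_left₀ (by positivity) ?_ _)
      push_cast
      have : (M₁ : ℝ) ≤ M₁ * M₂ := by nlinarith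
      gcongr
  -- the analytic data
  refine core hΓ hA σ₀ (a := a) (b := b) (y₁ := fun x => C * y₁ x ^ w) (y₂ := fun x => y₂ x ^ w)
    (ex := ex) ⟨ha, hb, hY₁, hY₂, a0, a1, b0, pow_ne_zero _ y20, hinv, em, es, ?_, ?_, ?_⟩
  · intro z
    rw [hνK1]
    obtain ⟨γ, rfl⟩ := es z
    rw [← hνμ, norm_pow, hμ, one_pow]
  · intro γ x hx
    show C * y₁ (mb γ x) ^ w * y₂ x ^ w = σ₀ (νK (ex γ)) * (C * y₁ x ^ w * y₂ (mb γ x) ^ w)
    rw [hνK1, ← hνμ, mul_assoc, ← mul_pow, hY γ x hx]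
    rw [mul_pow, mul_pow]
    ring
  · exact hc3

end Pool.Agent.Lib.MP_5d4057_al.T5
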