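import Mathlib

/-!
# T5: the maximum principle with Blaschke factors
-/

set_option autoImplicit false

namespace Pool.Agent.Lib.MP_5d4057_al.T5

open Filter Topology Metric

/-- Divide by a power. -/
theorem div_pow_of_order {U : Set ℂ} (hU : IsOpen U) {f : ℂ → ℂ} (hf : DifferentiableOn ℂ f U)
    {z : ℂ} (hz : z ∈ U) {T : ℕ} (h : (T : ℕ∞) ≤ analyticOrderAt f z) :
    ∃ g : ℂ → ℂ, DifferentiableOn ℂ g U ∧ ∀ x ∈ U, f x = (x - z) ^ T * g x := by
  classical
  have hfz : AnalyticAt ℂ f z := hf.analyticAt (hU.mem_nhds hz)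
  obtain ⟨g, hg, he⟩ := (natCast_le_analyticOrderAt hfz).1 h
  refine ⟨Function.update (fun x => f x / (x - z) ^ T) z (g z), fun x hx => ?_, fun x hx => ?_⟩
  · refine DifferentiableAt.differentiableWithinAt ?_
    by_cases hxz : x = z
    · subst hxz
      refine hg.differentiableAt.congr_of_eventuallyEq ?_
      filter_upwards [he] with y hy
      by_cases hyx : y = x
      · rw [hyx, Function.update_self]
      · rw [Function.update_of_ne hyx, hy, smul_eq_mul, mul_div_cancel_left₀]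
        exact pow_ne_zero _ (sub_ne_zero.2 hyx)
    · have h1 : DifferentiableAt ℂ (fun y => f y / (y - z) ^ T) x := by
        refine (hf.differentiableAt (hU.mem_nhds hx)).div (by fun_prop) ?_
        exact pow_ne_zero _ (sub_ne_zero.2 hxz)
      refine h1.congr_of_eventuallyEq ?_
      filter_upwards [isOpen_ne.mem_nhds hxz] with y hy
      rw [Function.update_of_ne hy]
  · by_cases hxz : x = z
    · subst hxz
      rw [Function.update_self, he.self_of_nhds, smul_eq_mul]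
    · rw [Function.update_of_ne hxz, mul_div_cancel₀]
      exact pow_ne_zero _ (sub_ne_zero.2 hxz)

/-- Divide by the zeros. -/
theorem exists_quot {U : Set ℂ} (hU : IsOpen U) {f : ℂ → ℂ} (hf : DifferentiableOn ℂ f U)
    {T : ℕ} (S : Finset ℂ) (hS : ∀ z ∈ S, z ∈ U)
    (h : ∀ z ∈ S, (T : ℕ∞) ≤ analyticOrderAt f z) :
    ∃ g : ℂ → ℂ, DifferentiableOn ℂ g U ∧ ∀ x ∈ U, f x = (∏ z ∈ S, (x - z) ^ T) * g x := by
  classical
  induction S using Finset.induction_on with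
  | empty => exact ⟨f, hf, fun x _ => by simp⟩
  | insert z S hzS ih =>
    obtain ⟨g, hg, he⟩ := ih (fun w hw => hS w (Finset.mem_insert_of_mem hw))
      (fun w hw => h w (Finset.mem_insert_of_mem hw))
    have hzU := hS z (Finset.mem_insert_self z S)
    have hga : AnalyticAt ℂ g z := hg.analyticAt (hU.mem_nhds hzU)
    have hPa : AnalyticAt ℂ (fun x => ∏ w ∈ S, (x - w) ^ T) z := by
      have h1 : DifferentiableOn ℂ (fun x : ℂ => ∏ w ∈ S, (x - w) ^ T) Set.univ := by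
        fun_prop
      exact h1.analyticAt univ_mem
    have hP0 : (∏ w ∈ S, (z - w) ^ T) ≠ 0 := by
      refine Finset.prod_ne_zero_iff.2 fun w hw => pow_ne_zero _ (sub_ne_zero.2 ?_)
      rintro rfl
      exact hzS hw
    have ho : (T : ℕ∞) ≤ analyticOrderAt g z := by
      have h1 := h z (Finset.mem_insert_self z S)
      have h2 : f =ᶠ[𝓝 z] (fun x => ∏ w ∈ S, (x - w) ^ T) * g := by
        filter_upwards [hU.mem_nhds hzU] with x hx
        exact he x hx
      rw [analyticOrderAt_congr h2, analyticOrderAt_mul hPa hga,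
        hPa.analyticOrderAt_eq_zero.2 hP0, zero_add] at h1
      exact h1
    obtain ⟨k, hk, hk'⟩ := div_pow_of_order hU hg hzU ho
    refine ⟨k, hk, fun x hx => ?_⟩
    rw [Finset.prod_insert hzS, he x hx, hk' x hx]
    ring

/-- The maximum principle for a function with zeros. -/
theorem bla {k : ℂ → ℂ} {ρ M : ℝ} {T m : ℕ} {S : Finset ℂ} (hρ : 0 < ρ) (hρ1 : ρ < 1)
    (hk : DifferentiableOn ℂ k (ball 0 1)) (hS : ∀ z ∈ S, z ≠ 0 ∧ ‖z‖ < ρ)
    (hz : ∀ z ∈ S, (T : ℕ∞) ≤ analyticOrderAt k z)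
    (hM : ∀ x : ℂ, ‖x‖ = ρ → ‖x ^ m * k x‖ ≤ M) :
    ‖k 0‖ * ∏ z ∈ S, (ρ / ‖z‖) ^ T ≤ M / ρ ^ m := by
  have hball : ∀ x : ℂ, ‖x‖ ≤ ρ → x ∈ ball (0 : ℂ) 1 := fun x hx => by
    rw [mem_ball_zero_iff]
    linarith
  obtain ⟨g, hg, he⟩ := exists_quot isOpen_ball hk S
    (fun z hz => hball z (hS z hz).2.le) hz
  -- the product of the inverse Blaschke factors
  obtain ⟨G, hG⟩ : ∃ G : ℂ → ℂ, G = fun x => g x * ∏ z ∈ S,
      (((ρ : ℂ) ^ 2 - star z * x) / (ρ : ℂ)) ^ T := ⟨_, rfl⟩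
  have hGd : DiffContOnCl ℂ G (ball 0 ρ) := by
    have h1 : DifferentiableOn ℂ G (ball 0 1) := by
      rw [hG]
      refine hg.mul ?_
      fun_prop
    refine (h1.mono ?_).diffContOnCl
    intro x hx
    rw [closure_ball _ hρ.ne', mem_closedBall_zero_iff] at hx
    exact hball x hx
  have hρ0 : (ρ : ℂ) ≠ 0 := by exact_mod_cast hρ.ne'
  have hfac : ∀ x z : ℂ, ‖x‖ = ρ → ‖((ρ : ℂ) ^ 2 - star z * x) / (ρ : ℂ)‖ = ‖x - z‖ := by
    intro x z hx
    have h1 : (ρ : ℂ) ^ 2 = x * star x := by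
      have h2 := Complex.mul_conj x
      rw [Complex.normSq_eq_norm_sq, hx] at h2
      rw [← Complex.ofReal_pow]
      exact h2.symm
    rw [h1, show x * star x - star z * x = x * star (x - z) by rw [star_sub]; ring, norm_div,
      norm_mul, norm_star, hx, Complex.norm_real, Real.norm_eq_abs, abs_of_pos hρ,
      mul_div_cancel_left₀ _ hρ.ne']
  have hMG : ∀ x ∈ frontier (ball (0 : ℂ) ρ), ‖G x‖ ≤ M / ρ ^ m := by
    intro x hx
    rw [frontier_ball _ hρ.ne', mem_sphere_zero_iff_norm] at hx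
    have h1 : ‖G x‖ = ‖k x‖ := by
      rw [hG, he x (hball x hx.le), norm_mul, norm_mul, norm_prod, norm_prod, mul_comm]
      congr 1
      refine Finset.prod_congr rfl fun z _ => ?_
      rw [norm_pow, norm_pow, hfac x z hx]
    have h2 := hM x hx
    rw [norm_mul, norm_pow, hx] at h2
    rw [h1, le_div_iff₀ (by positivity)]
    linarith
  have key : ‖G 0‖ ≤ M / ρ ^ m := Complex.norm_le_of_forall_mem_frontier_norm_le isBounded_ball
    hGd hMG (subset_closure (mem_ball_self hρ))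
  have e : ‖G 0‖ = ‖k 0‖ * ∏ z ∈ S, (ρ / ‖z‖) ^ T := by
    rw [hG, he 0 (mem_ball_self one_pos), norm_mul, norm_mul, norm_prod, norm_prod,
      mul_right_comm, ← Finset.prod_mul_distrib, mul_comm]
    congr 1
    refine Finset.prod_congr rfl fun z hz => ?_
    have h1 : ‖z‖ ≠ 0 := norm_ne_zero_iff.2 (hS z hz).1
    rw [mul_zero, sub_zero, zero_sub, norm_pow, norm_pow, norm_neg, norm_div, norm_pow,
      Complex.norm_real, Real.norm_eq_abs, abs_of_pos hρ, ← mul_pow]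
    congr 1
    field_simp
  rw [← e]
  exact key

/-- Abel summation for one point. -/
private theorem bla_pt (y : ℝ) (hy : 0 < y) (J : ℕ) :
    ((1 / 2 : ℝ) ^ J ≤ y → ∑ j ∈ Finset.range (J + 1), (if (1 / 2 : ℝ) ^ j ≤ y then
      (1 / 2 : ℝ) ^ (j + 2) else 0) ≤ y / 2 - (1 / 2 : ℝ) ^ (J + 2)) ∧
    (y < (1 / 2 : ℝ) ^ J → ∑ j ∈ Finset.range (J + 1), (if (1 / 2 : ℝ) ^ j ≤ y then
      (1 / 2 : ℝ) ^ (j + 2) else 0) = 0) := by
  induction J with
  | zero =>
    constructor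
    · intro h
      rw [zero_add, Finset.sum_range_one, if_pos h]
      rw [pow_zero] at h
      norm_num
      linarith
    · intro h
      rw [zero_add, Finset.sum_range_one, if_neg (not_le.2 h)]
  | succ J ih =>
    have e2 : (1 / 2 : ℝ) ^ (J + 2) = 1 / 2 * (1 / 2) * (1 / 2) ^ J := by ring
    have e3 : (1 / 2 : ℝ) ^ (J + 1 + 2) = 1 / 2 * (1 / 2) * (1 / 2) * (1 / 2) ^ J := by ring
    have e1 : (1 / 2 : ℝ) ^ (J + 1) = 1 / 2 * (1 / 2) ^ J := by ring
    have h0 : (0 : ℝ) < (1 / 2) ^ J := by positivity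
    rw [Finset.sum_range_succ]
    constructor
    · intro h
      rw [if_pos h]
      rcases le_or_gt ((1 / 2 : ℝ) ^ J) y with h1 | h1
      · have := ih.1 h1
        rw [e2] at this
        rw [e3]
        linarith
      · rw [ih.2 h1, e3]
        rw [e1] at h
        linarith
    · intro h
      rw [if_neg (not_le.2 h), add_zero]
      refine ih.2 (h.trans ?_)
      rw [e1]
      linarith

/-- If there are many points then the sum of the logarithms is large. -/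
theorem bla_sum {S : Finset ℂ} {c : ℝ} {j₀ J : ℕ} (hJ : j₀ ≤ J)
    (hS : ∀ z ∈ S, z ≠ 0 ∧ ‖z‖ ≤ 1 - (1 / 2) ^ J)
    (hN : ∀ j, j₀ ≤ j → j ≤ J →
      c * 2 ^ j ≤ ((S.filter fun z => ‖z‖ ≤ 1 - (1 / 2) ^ j).card : ℝ)) :
    c * (J - j₀ + 1) / 4 ≤ ∑ z ∈ S, Real.log ((1 - (1 / 2) ^ (J + 1)) / ‖z‖) := by
  have h0 : (0 : ℝ) < (1 / 2) ^ J := by positivity
  have e1 : (1 / 2 : ℝ) ^ (J + 1) = 1 / 2 * (1 / 2) ^ J := by ring
  have h1 : (1 / 2 : ℝ) ^ J ≤ 1 := pow_le_one₀ (by norm_num) (by norm_num)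
  have key : ∀ z ∈ S, ∑ j ∈ Finset.range (J + 1), (if ‖z‖ ≤ 1 - (1 / 2 : ℝ) ^ j then
      (1 / 2 : ℝ) ^ (j + 2) else 0) ≤ Real.log ((1 - (1 / 2) ^ (J + 1)) / ‖z‖) := by
    intro z hz
    obtain ⟨hz0, hz1⟩ := hS z hz
    have hn : 0 < ‖z‖ := norm_pos_iff.2 hz0
    have hp := (bla_pt (1 - ‖z‖) (by linarith) J).1 (by linarith)
    have he : ∀ j, (‖z‖ ≤ 1 - (1 / 2 : ℝ) ^ j) = ((1 / 2 : ℝ) ^ j ≤ 1 - ‖z‖) := fun j => by
      rw [eq_iff_iff]
      constructor <;> intro h <;> linarith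
    simp only [he]
    refine hp.trans ?_
    have hρ : 0 < 1 - (1 / 2 : ℝ) ^ (J + 1) := by
      rw [e1]
      linarith
    have hl := Real.one_sub_inv_le_log_of_pos (x := (1 - (1 / 2) ^ (J + 1)) / ‖z‖)
      (div_pos hρ hn)
    refine le_trans ?_ hl
    rw [inv_div]
    have h2 : ‖z‖ / (1 - (1 / 2 : ℝ) ^ (J + 1)) ≤ ‖z‖ + (1 / 2) ^ (J + 1) := by
      rw [div_le_iff₀ hρ]
      have h3 : (0 : ℝ) < (1 / 2) ^ (J + 1) := by positivity
      nlinarith
    have e2 : (1 / 2 : ℝ) ^ (J + 2) = 1 / 2 * (1 / 2) * (1 / 2) ^ J := by ring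
    have h5 : (1 - ‖z‖) / 2 - (1 / 2 : ℝ) ^ (J + 2) ≤ 1 - (‖z‖ + (1 / 2) ^ (J + 1)) := by
      rw [e1, e2]
      linarith
    linarith
  calc c * (J - j₀ + 1) / 4 = ∑ j ∈ Finset.Icc j₀ J, c / 4 := by
        rw [Finset.sum_const, Nat.card_Icc, nsmul_eq_mul, Nat.cast_sub (by omega)]
        push_cast
        ring
    _ ≤ ∑ j ∈ Finset.Icc j₀ J, (1 / 2 : ℝ) ^ (j + 2) *
        ((S.filter fun z => ‖z‖ ≤ 1 - (1 / 2) ^ j).card : ℝ) := by
        refine Finset.sum_le_sum fun j hj => ?_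
        rw [Finset.mem_Icc] at hj
        have h2 := mul_le_mul_of_nonneg_left (hN j hj.1 hj.2)
          (by positivity : (0 : ℝ) ≤ (1 / 2) ^ (j + 2))
        have h3 : (1 / 2 : ℝ) ^ (j + 2) * (c * 2 ^ j) = c / 4 := by
          have : (1 / 2 : ℝ) ^ j * 2 ^ j = 1 := by
            rw [← mul_pow]
            norm_num
          calc (1 / 2 : ℝ) ^ (j + 2) * (c * 2 ^ j) = c / 4 * ((1 / 2) ^ j * 2 ^ j) := by ring
            _ = c / 4 := by rw [this, mul_one]
        linarith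
    _ ≤ ∑ j ∈ Finset.range (J + 1), (1 / 2 : ℝ) ^ (j + 2) *
        ((S.filter fun z => ‖z‖ ≤ 1 - (1 / 2) ^ j).card : ℝ) := by
        refine Finset.sum_le_sum_of_subset_of_nonneg ?_ fun j _ _ => by positivity
        intro j hj
        rw [Finset.mem_Icc] at hj
        rw [Finset.mem_range]
        omega
    _ = ∑ z ∈ S, ∑ j ∈ Finset.range (J + 1), (if ‖z‖ ≤ 1 - (1 / 2 : ℝ) ^ j then
        (1 / 2 : ℝ) ^ (j + 2) else 0) := by
        rw [Finset.sum_comm]
        refine Finset.sum_congr rfl fun j _ => ?_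
        rw [← Finset.sum_filter, Finset.sum_const, nsmul_eq_mul, mul_comm]
    _ ≤ _ := Finset.sum_le_sum key

end Pool.Agent.Lib.MP_5d4057_al.T5
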