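import Pool.Agent.Lib.MP_5d4057_al.T5.Mob

/-!
# T5: orders of vanishing (owner: helper14)
-/

set_option autoImplicit false

namespace Pool.Agent.Lib.MP_5d4057_al.T5

open Metric Filter Topology Pool.Agent.Lib.MP_5d4057_al Pool.Agent.Lib.MP_5d4057_al.HM

/-- `b^D₀ y₂^D₁ ∑ a_ij λ^j u^i Y^j`, a holomorphic function on the disc. -/
noncomputable def Gf (a b y₁ y₂ : ℂ → ℂ) (D₀ D₁ : ℕ) (al : ℕ → ℕ → ℂ) (lam : ℂ) (x : ℂ) : ℂ :=
  ∑ i ∈ Finset.range (D₀ + 1), ∑ j ∈ Finset.range (D₁ + 1),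
    al i j * lam ^ j * (a x ^ i * b x ^ (D₀ - i) * (y₁ x ^ j * y₂ x ^ (D₁ - j)))

variable {Γ : Subgroup (SUGroup 1)} {a b y₁ y₂ : ℂ → ℂ} {r : ℕ} {ex : Γ → (Fin r → ℤ)}
  {ν : (Fin r → ℤ) → ℂ} {c : ℕ → ℕ → ℂ}

theorem Gf_diff (h : An Γ a b y₁ y₂ r ex ν c) (D₀ D₁ : ℕ) (al : ℕ → ℕ → ℂ) (lam : ℂ) :
    DifferentiableOn ℂ (Gf a b y₁ y₂ D₀ D₁ al lam) (ball 0 1) := by
  unfold Gf
  refine DifferentiableOn.fun_sum fun i _ => DifferentiableOn.fun_sum fun j _ => ?_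
  exact (differentiableOn_const _).mul (((h.pa.diff.pow i).mul (h.pb.diff.pow _)).mul
    ((h.p1.diff.pow j).mul (h.p2.diff.pow _)))

/-- A function of polynomial growth on the disc of radius `1 - exp (-R)`. -/
private theorem ord_pg {f : ℂ → ℂ} (hf : PG f) : ∃ Λ : ℝ, 1 ≤ Λ ∧ ∀ R : ℝ, 1 ≤ R →
    ∀ x : ℂ, ‖x‖ ≤ 1 - Real.exp (-R) → ‖f x‖ ≤ Real.exp (Λ * R) := by
  obtain ⟨C, N, hC0, hC⟩ := hf.exists_nonneg
  refine ⟨Real.log (C + 1) + N + 1, ?_, fun R hR x hx => ?_⟩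
  · have h1 : 0 ≤ Real.log (C + 1) := Real.log_nonneg (by linarith)
    have h2 : (0 : ℝ) ≤ N := Nat.cast_nonneg N
    linarith
  · have he : 0 < Real.exp (-R) := Real.exp_pos _
    have hx1 : ‖x‖ < 1 := by linarith
    have h1 := hC x (by simpa using hx1)
    have h2 : Real.exp (-R) ^ N ≤ (1 - ‖x‖) ^ N := by
      gcongr
      linarith
    have h3 : ‖f x‖ * Real.exp (-R) ^ N ≤ C + 1 := by
      have := mul_le_mul_of_nonneg_left h2 (norm_nonneg (f x))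
      linarith
    have h4 : Real.exp (-R) ^ N = (Real.exp (N * R))⁻¹ := by
      rw [← Real.exp_nat_mul, ← Real.exp_neg]
      congr 1
      ring
    rw [h4, ← div_eq_mul_inv, div_le_iff₀ (Real.exp_pos _)] at h3
    refine h3.trans ?_
    have h5 : C + 1 = Real.exp (Real.log (C + 1)) := (Real.exp_log (by linarith)).symm
    have h6 : 0 ≤ Real.log (C + 1) := Real.log_nonneg (by linarith)
    calc (C + 1) * Real.exp (N * R) = Real.exp (Real.log (C + 1)) * Real.exp (N * R) := by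
          rw [← h5]
      _ = Real.exp (Real.log (C + 1) + N * R) := (Real.exp_add _ _).symm
      _ ≤ Real.exp ((Real.log (C + 1) + N + 1) * R) := by
          refine Real.exp_le_exp.2 ?_
          nlinarith

/-- Growth. PROOF: `(1 - ‖x‖)^N ‖a x‖ ≤ C` etc., `1 - ‖x‖ ≥ exp (-R)`. -/
theorem Gf_growth (h : An Γ a b y₁ y₂ r ex ν c) : ∃ Λ : ℝ, 1 ≤ Λ ∧ ∀ R : ℝ, 1 ≤ R →
    ∀ (D₀ D₁ : ℕ) (al : ℕ → ℕ → ℂ) (lam : ℂ) (S : ℝ), ‖lam‖ = 1 →
      (∀ i ≤ D₀, ∀ j ≤ D₁, ‖al i j‖ ≤ S) → ∀ x : ℂ, ‖x‖ ≤ 1 - Real.exp (-R) →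
      ‖Gf a b y₁ y₂ D₀ D₁ al lam x‖ ≤
        (D₀ + 1) * (D₁ + 1) * S * Real.exp (Λ * (D₀ + D₁) * R) := by
  obtain ⟨La, hLa, ha⟩ := ord_pg h.pa
  obtain ⟨Lb, hLb, hb⟩ := ord_pg h.pb
  obtain ⟨L1, hL1, h1⟩ := ord_pg h.p1
  obtain ⟨L2, hL2, h2⟩ := ord_pg h.p2
  refine ⟨La + Lb + L1 + L2, by linarith, fun R hR D₀ D₁ al lam S hlam hal x hx => ?_⟩
  set E : ℝ := Real.exp ((La + Lb + L1 + L2) * R) with hE
  have hE1 : 0 < E := Real.exp_pos _
  have ha' : ‖a x‖ ≤ E := (ha R hR x hx).trans (Real.exp_le_exp.2 (by nlinarith))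
  have hb' : ‖b x‖ ≤ E := (hb R hR x hx).trans (Real.exp_le_exp.2 (by nlinarith))
  have h1' : ‖y₁ x‖ ≤ E := (h1 R hR x hx).trans (Real.exp_le_exp.2 (by nlinarith))
  have h2' : ‖y₂ x‖ ≤ E := (h2 R hR x hx).trans (Real.exp_le_exp.2 (by nlinarith))
  have hS : 0 ≤ S := (norm_nonneg _).trans (hal 0 (Nat.zero_le _) 0 (Nat.zero_le _))
  have hterm : ∀ i ∈ Finset.range (D₀ + 1), ∀ j ∈ Finset.range (D₁ + 1),
      ‖al i j * lam ^ j * (a x ^ i * b x ^ (D₀ - i) * (y₁ x ^ j * y₂ x ^ (D₁ - j)))‖ ≤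
        S * E ^ (D₀ + D₁) := by
    intro i hi j hj
    have hi' : i ≤ D₀ := by have := Finset.mem_range.1 hi; omega
    have hj' : j ≤ D₁ := by have := Finset.mem_range.1 hj; omega
    have e1 : E ^ (D₀ + D₁) = (E ^ i * E ^ (D₀ - i)) * (E ^ j * E ^ (D₁ - j)) := by
      rw [← pow_add, ← pow_add, ← pow_add]
      congr 1
      omega
    rw [e1, norm_mul, norm_mul, norm_pow, hlam, one_pow, mul_one, norm_mul, norm_mul, norm_mul,
      norm_pow, norm_pow, norm_pow, norm_pow]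
    have := hal i hi' j hj'
    gcongr
  calc ‖Gf a b y₁ y₂ D₀ D₁ al lam x‖
      ≤ ∑ i ∈ Finset.range (D₀ + 1), ∑ j ∈ Finset.range (D₁ + 1), S * E ^ (D₀ + D₁) := by
        refine (norm_sum_le _ _).trans (Finset.sum_le_sum fun i hi => ?_)
        exact (norm_sum_le _ _).trans (Finset.sum_le_sum fun j hj => hterm i hi j hj)
    _ = (D₀ + 1) * (D₁ + 1) * S * Real.exp ((La + Lb + L1 + L2) * (D₀ + D₁) * R) := by
        rw [Finset.sum_const, Finset.sum_const, Finset.card_range, Finset.card_range,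
          nsmul_eq_mul, nsmul_eq_mul, hE, ← Real.exp_nat_mul]
        push_cast
        have e2 : ((D₀ : ℝ) + D₁) * ((La + Lb + L1 + L2) * R) =
            (La + Lb + L1 + L2) * (D₀ + D₁) * R := by ring
        rw [e2]
        ring

/-- The expansion of one monomial. -/
private theorem ord_mono (h : An Γ a b y₁ y₂ r ex ν c) (i j m : ℕ) :
    ∃ S : ℂ → ℂ, AnalyticAt ℂ S 0 ∧ ∀ᶠ x in 𝓝 (0 : ℂ),
      (a x / b x) ^ i * (y₁ x / y₂ x) ^ j =
        ∑ k ∈ Finset.range m, (if i ≤ k then c j (k - i) else 0) * (a x / b x) ^ k +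
          (a x / b x) ^ m * S x := by
  have han : AnalyticAt ℂ (fun x => a x / b x) 0 := by
    have h0 : ball (0 : ℂ) 1 ∈ 𝓝 (0 : ℂ) := ball_mem_nhds _ one_pos
    exact (h.pa.diff.analyticAt h0).div (h.pb.diff.analyticAt h0) h.b0
  obtain ⟨R, hR, hR'⟩ := h.exps j (m - i)
  rcases le_or_gt i m with him | him
  · refine ⟨R, hR, hR'.mono fun x hx => ?_⟩
    simp only at hx
    rw [hx, mul_add, Finset.mul_sum, ← mul_assoc, ← pow_add, Nat.add_sub_cancel' him]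
    congr 1
    have e1 : Finset.range m = Finset.range (i + (m - i)) := by rw [Nat.add_sub_cancel' him]
    rw [e1, Finset.sum_range_add]
    rw [Finset.sum_eq_zero (s := Finset.range i) (fun k hk => by
      rw [if_neg (by have := Finset.mem_range.1 hk; omega), zero_mul]), zero_add]
    refine Finset.sum_congr rfl fun l _ => ?_
    rw [if_pos (Nat.le_add_right _ _), Nat.add_sub_cancel_left, pow_add]
    ring
  · refine ⟨fun x => (a x / b x) ^ (i - m) * R x, (han.pow _).mul hR, hR'.mono fun x hx => ?_⟩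
    simp only at hx
    have e0 : m - i = 0 := by omega
    rw [e0, Finset.range_zero, Finset.sum_empty, zero_add, pow_zero, one_mul] at hx
    rw [hx, Finset.sum_eq_zero (fun k hk => by
      rw [if_neg (by have := Finset.mem_range.1 hk; omega), zero_mul]), zero_add, ← mul_assoc,
      ← pow_add, Nat.add_sub_cancel' him.le]

/-- The expansion of the polynomial in `u` and `Y`. -/
private theorem ord_sum (h : An Γ a b y₁ y₂ r ex ν c) (D₀ D₁ : ℕ) (al : ℕ → ℕ → ℂ) (lam : ℂ)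
    (m : ℕ) : ∃ S : ℂ → ℂ, AnalyticAt ℂ S 0 ∧ ∀ᶠ x in 𝓝 (0 : ℂ),
      ∑ i ∈ Finset.range (D₀ + 1), ∑ j ∈ Finset.range (D₁ + 1),
        al i j * lam ^ j * ((a x / b x) ^ i * (y₁ x / y₂ x) ^ j) =
        ∑ k ∈ Finset.range m, bet c D₀ D₁ al lam k * (a x / b x) ^ k + (a x / b x) ^ m * S x := by
  choose S hS hS' using ord_mono h
  refine ⟨fun x => ∑ i ∈ Finset.range (D₀ + 1), ∑ j ∈ Finset.range (D₁ + 1),
    al i j * lam ^ j * S i j m x, ?_, ?_⟩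
  · refine Finset.analyticAt_fun_sum _ fun i _ => Finset.analyticAt_fun_sum _ fun j _ => ?_
    exact analyticAt_const.mul (hS i j m)
  · have h1 : ∀ᶠ x in 𝓝 (0 : ℂ), ∀ i ∈ Finset.range (D₀ + 1), ∀ j ∈ Finset.range (D₁ + 1),
        (a x / b x) ^ i * (y₁ x / y₂ x) ^ j =
        ∑ k ∈ Finset.range m, (if i ≤ k then c j (k - i) else 0) * (a x / b x) ^ k +
          (a x / b x) ^ m * S i j m x := by
      rw [Finset.eventually_all]
      intro i _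
      rw [Finset.eventually_all]
      intro j _
      exact hS' i j m
    filter_upwards [h1] with x hx
    have h2 : ∑ i ∈ Finset.range (D₀ + 1), ∑ j ∈ Finset.range (D₁ + 1),
        al i j * lam ^ j * ((a x / b x) ^ i * (y₁ x / y₂ x) ^ j) =
        ∑ i ∈ Finset.range (D₀ + 1), ∑ j ∈ Finset.range (D₁ + 1),
          (∑ k ∈ Finset.range m, (if i ≤ k then al i j * lam ^ j * c j (k - i) else 0) *
            (a x / b x) ^ k + (a x / b x) ^ m * (al i j * lam ^ j * S i j m x)) := by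
      refine Finset.sum_congr rfl fun i hi => Finset.sum_congr rfl fun j hj => ?_
      rw [hx i hi j hj, mul_add, Finset.mul_sum]
      congr 1
      · refine Finset.sum_congr rfl fun k _ => ?_
        split_ifs <;> ring
      · ring
    rw [h2]
    simp only [Finset.sum_add_distrib, ← Finset.mul_sum]
    congr 1
    have h3 : ∀ i ∈ Finset.range (D₀ + 1), (∑ j ∈ Finset.range (D₁ + 1), ∑ k ∈ Finset.range m,
        (if i ≤ k then al i j * lam ^ j * c j (k - i) else 0) * (a x / b x) ^ k) =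
        ∑ k ∈ Finset.range m, ∑ j ∈ Finset.range (D₁ + 1),
          (if i ≤ k then al i j * lam ^ j * c j (k - i) else 0) * (a x / b x) ^ k :=
      fun i _ => Finset.sum_comm
    rw [Finset.sum_congr rfl h3, Finset.sum_comm]
    refine Finset.sum_congr rfl fun k _ => ?_
    rw [bet, Finset.sum_mul]
    refine Finset.sum_congr rfl fun i _ => ?_
    rw [Finset.sum_mul]

/-- `u x = x v x` with `v` analytic. -/
private theorem ord_u (h : An Γ a b y₁ y₂ r ex ν c) : ∃ v : ℂ → ℂ, AnalyticAt ℂ v 0 ∧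
    v 0 = deriv a 0 / b 0 ∧ ∀ x, a x / b x = x * v x := by
  have h0 : ball (0 : ℂ) 1 ∈ 𝓝 (0 : ℂ) := ball_mem_nhds _ one_pos
  have ha : AnalyticAt ℂ a 0 := h.pa.diff.analyticAt h0
  have hb : AnalyticAt ℂ b 0 := h.pb.diff.analyticAt h0
  have hs : AnalyticAt ℂ (dslope a 0) 0 := by
    obtain ⟨p, hp⟩ := ha
    exact ⟨_, hp.has_fpower_series_dslope_fslope⟩
  refine ⟨fun x => dslope a 0 x / b x, hs.div hb h.b0, ?_, fun x => ?_⟩
  · simp only [dslope_same]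
  · have h1 := sub_smul_dslope a 0 x
    rw [sub_zero, h.a0, sub_zero, smul_eq_mul] at h1
    simp only
    rw [← mul_div_assoc, h1]

/-- The factorisation of `Gf` at points where `b` and `y₂` do not vanish. -/
private theorem ord_fac (D₀ D₁ : ℕ) (al : ℕ → ℕ → ℂ) (lam mu : ℂ) {x u Y : ℂ}
    (hu : a x = u * b x) (hY : y₁ x = mu * Y * y₂ x) :
    Gf a b y₁ y₂ D₀ D₁ al lam x = b x ^ D₀ * y₂ x ^ D₁ *
      ∑ i ∈ Finset.range (D₀ + 1), ∑ j ∈ Finset.range (D₁ + 1),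
        al i j * (lam * mu) ^ j * (u ^ i * Y ^ j) := by
  rw [Gf, Finset.mul_sum]
  refine Finset.sum_congr rfl fun i hi => ?_
  rw [Finset.mul_sum]
  refine Finset.sum_congr rfl fun j hj => ?_
  have hi' : i ≤ D₀ := by have := Finset.mem_range.1 hi; omega
  have hj' : j ≤ D₁ := by have := Finset.mem_range.1 hj; omega
  have e1 : b x ^ D₀ = b x ^ i * b x ^ (D₀ - i) := by rw [← pow_add, Nat.add_sub_cancel' hi']
  have e2 : y₂ x ^ D₁ = y₂ x ^ j * y₂ x ^ (D₁ - j) := by rw [← pow_add, Nat.add_sub_cancel' hj']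
  rw [hu, hY, e1, e2]
  simp only [mul_pow]
  ring

/-- The expansion at `0`. PROOF: near `0`, `Gf = b^D₀ y₂^D₁ ∑ al i j λ^j u^i Y^j` and `Exps` with `L = m + 1`. -/
theorem Gf_zero (h : An Γ a b y₁ y₂ r ex ν c) (D₀ D₁ : ℕ) (al : ℕ → ℕ → ℂ) (lam : ℂ) (m : ℕ)
    (hv : ∀ l < m, bet c D₀ D₁ al lam l = 0) : ∃ k : ℂ → ℂ, AnalyticAt ℂ k 0 ∧
      k 0 = b 0 ^ D₀ * y₂ 0 ^ D₁ * (deriv a 0 / b 0) ^ m * bet c D₀ D₁ al lam m ∧
      ∀ᶠ x in 𝓝 (0 : ℂ), Gf a b y₁ y₂ D₀ D₁ al lam x = x ^ m * k x := by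
  have h0 : ball (0 : ℂ) 1 ∈ 𝓝 (0 : ℂ) := ball_mem_nhds _ one_pos
  have hb : AnalyticAt ℂ b 0 := h.pb.diff.analyticAt h0
  have h2 : AnalyticAt ℂ y₂ 0 := h.p2.diff.analyticAt h0
  obtain ⟨S, hS, hS'⟩ := ord_sum h D₀ D₁ al lam (m + 1)
  obtain ⟨v, hv1, hv0, hv'⟩ := ord_u h
  refine ⟨fun x => b x ^ D₀ * y₂ x ^ D₁ * v x ^ m * (bet c D₀ D₁ al lam m + x * v x * S x),
    (((hb.pow _).mul (h2.pow _)).mul (hv1.pow _)).mul
      (analyticAt_const.add ((analyticAt_id.mul hv1).mul hS)), ?_, ?_⟩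
  · simp only [zero_mul, add_zero, hv0]
  · filter_upwards [hS', hb.continuousAt.eventually_ne h.b0, h2.continuousAt.eventually_ne h.y20]
      with x hx hbx h2x
    rw [ord_fac (u := a x / b x) (Y := y₁ x / y₂ x) D₀ D₁ al lam 1 (by field_simp)
      (by field_simp), mul_one, hx, Finset.sum_range_succ,
      Finset.sum_eq_zero (fun k hk => by rw [hv k (Finset.mem_range.1 hk), zero_mul]), zero_add,
      hv' x]
    ring

/-- The order at a point of the orbit. PROOF: near `0`: `a ∘ γ = u (b ∘ γ)`, `y₁ ∘ γ = ν (ex γ) Y (y₂ ∘ γ)`, so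
`Gf (ν z) ∘ γ = (b ∘ γ)^D₀ (y₂ ∘ γ)^D₁ ∑ al i j ν (z + ex γ)^j u^i Y^j = x^T (analytic)`; compose with `mb γ⁻¹`, which vanishes at `mb γ 0`. -/
theorem Gf_orbit (h : An Γ a b y₁ y₂ r ex ν c) (hν : ∀ x y, ν (x + y) = ν x * ν y) (D₀ D₁ : ℕ)
    (al : ℕ → ℕ → ℂ) (z : Fin r → ℤ) (γ : Γ) {T : ℕ}
    (hv : ∀ l < T, bet c D₀ D₁ al (ν (z + ex γ)) l = 0) :
    (T : ℕ∞) ≤ analyticOrderAt (Gf a b y₁ y₂ D₀ D₁ al (ν z)) (mb (γ : SUGroup 1) 0) := by
  have hm0 : (0 : ℂ) ∈ ball (0 : ℂ) 1 := mem_ball_self one_pos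
  have h0 : ball (0 : ℂ) 1 ∈ 𝓝 (0 : ℂ) := ball_mem_nhds _ one_pos
  set w₀ : ℂ := mb (γ : SUGroup 1) 0 with hw₀
  have hw : w₀ ∈ ball (0 : ℂ) 1 := mb_mem _ hm0
  have hwn : ball (0 : ℂ) 1 ∈ 𝓝 w₀ := isOpen_ball.mem_nhds hw
  have hmw : mb (γ : SUGroup 1)⁻¹ w₀ = 0 := by
    rw [hw₀, ← mb_mul _ _ hm0, inv_mul_cancel, mb_one]
  have hmm : ∀ w ∈ ball (0 : ℂ) 1, mb (γ : SUGroup 1) (mb (γ : SUGroup 1)⁻¹ w) = w := by
    intro w hw
    rw [← mb_mul _ _ hw, mul_inv_cancel, mb_one]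
  have hmb : AnalyticAt ℂ (mb (γ : SUGroup 1)) 0 := mb_analytic _ hm0
  have hmi : AnalyticAt ℂ (mb (γ : SUGroup 1)⁻¹) w₀ := mb_analytic _ hw
  have hF : AnalyticAt ℂ (Gf a b y₁ y₂ D₀ D₁ al (ν z)) w₀ :=
    (Gf_diff h D₀ D₁ al (ν z)).analyticAt hwn
  have hbγ : AnalyticAt ℂ (fun x => b (mb (γ : SUGroup 1) x)) 0 :=
    (h.pb.comp_mb (γ : SUGroup 1)).diff.analyticAt h0
  have h2γ : AnalyticAt ℂ (fun x => y₂ (mb (γ : SUGroup 1) x)) 0 :=
    (h.p2.comp_mb (γ : SUGroup 1)).diff.analyticAt h0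
  have hb : AnalyticAt ℂ b 0 := h.pb.diff.analyticAt h0
  have h2 : AnalyticAt ℂ y₂ 0 := h.p2.diff.analyticAt h0
  obtain ⟨S, hS, hS'⟩ := ord_sum h D₀ D₁ al (ν (z + ex γ)) T
  obtain ⟨v, hv1, hv0, hv'⟩ := ord_u h
  -- near `0`
  have hnear : ∀ᶠ x in 𝓝 (0 : ℂ), Gf a b y₁ y₂ D₀ D₁ al (ν z) (mb (γ : SUGroup 1) x) =
      x ^ T * (b (mb (γ : SUGroup 1) x) ^ D₀ * y₂ (mb (γ : SUGroup 1) x) ^ D₁ *
        (v x ^ T * S x)) := by
    filter_upwards [hS', hb.continuousAt.eventually_ne h.b0, h2.continuousAt.eventually_ne h.y20,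
      h0] with x hx hbx h2x hxb
    have e1 := h.inv γ.1 γ.2 x hxb
    have e2 := h.char γ x hxb
    have e3 : a (mb (γ : SUGroup 1) x) = a x / b x * b (mb (γ : SUGroup 1) x) := by
      field_simp
      exact e1
    have e4 : y₁ (mb (γ : SUGroup 1) x) =
        ν (ex γ) * (y₁ x / y₂ x) * y₂ (mb (γ : SUGroup 1) x) := by
      field_simp
      rw [e2]
      ring
    rw [ord_fac D₀ D₁ al (ν z) (ν (ex γ)) e3 e4, ← hν, hx,
      Finset.sum_eq_zero (fun k hk => by rw [hv k (Finset.mem_range.1 hk), zero_mul]), zero_add,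
      hv' x, mul_pow]
    ring
  -- the function `mb γ⁻¹` vanishes at `w₀`
  have hs : AnalyticAt ℂ (dslope (mb (γ : SUGroup 1)⁻¹) w₀) w₀ := by
    obtain ⟨p, hp⟩ := hmi
    exact ⟨_, hp.has_fpower_series_dslope_fslope⟩
  have hfac : ∀ w, mb (γ : SUGroup 1)⁻¹ w = (w - w₀) * dslope (mb (γ : SUGroup 1)⁻¹) w₀ w := by
    intro w
    have h1 := sub_smul_dslope (mb (γ : SUGroup 1)⁻¹) w₀ w
    rw [hmw, sub_zero, smul_eq_mul] at h1
    exact h1.symm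
  rw [natCast_le_analyticOrderAt hF]
  have hK : AnalyticAt ℂ (fun x => b (mb (γ : SUGroup 1) x) ^ D₀ *
      y₂ (mb (γ : SUGroup 1) x) ^ D₁ * (v x ^ T * S x)) 0 :=
    ((hbγ.pow _).mul (h2γ.pow _)).mul ((hv1.pow _).mul hS)
  have hK' : AnalyticAt ℂ ((fun x => b (mb (γ : SUGroup 1) x) ^ D₀ *
      y₂ (mb (γ : SUGroup 1) x) ^ D₁ * (v x ^ T * S x)) ∘ mb (γ : SUGroup 1)⁻¹) w₀ := by
    refine AnalyticAt.comp ?_ hmi
    rw [hmw]
    exact hK
  refine ⟨fun w => dslope (mb (γ : SUGroup 1)⁻¹) w₀ w ^ T *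
    ((fun x => b (mb (γ : SUGroup 1) x) ^ D₀ *
      y₂ (mb (γ : SUGroup 1) x) ^ D₁ * (v x ^ T * S x)) ∘ mb (γ : SUGroup 1)⁻¹) w,
    (hs.pow _).mul hK', ?_⟩
  have hten : Tendsto (mb (γ : SUGroup 1)⁻¹) (𝓝 w₀) (𝓝 0) := by
    have := hmi.continuousAt
    rw [ContinuousAt, hmw] at this
    exact this
  filter_upwards [hten.eventually hnear, hwn] with w hw1 hw2
  rw [hmm w hw2] at hw1
  rw [hw1, smul_eq_mul]
  simp only [Function.comp_apply]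
  rw [hmm w hw2]
  have e5 : mb (γ : SUGroup 1)⁻¹ w ^ T =
      (w - w₀) ^ T * dslope (mb (γ : SUGroup 1)⁻¹) w₀ w ^ T := by
    rw [← mul_pow, ← hfac w]
  rw [e5]
  ring

end Pool.Agent.Lib.MP_5d4057_al.T5
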