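import Mathlib

/-!
# Orbit count for T5 (project DER of MP_5d4057_al)

`G` acts isometrically on the disc (only the orbit map `z : G → ℂ` of the centre is used), the orbit
is cobounded, `a : G → ℤ ^ r` is additive and surjective.  Main result: `orb_step`.
-/

set_option autoImplicit false

namespace Pool.Agent.Lib.MP_5d4057_al.T5

open Complex ComplexConjugate

/-- `cosh ^ 2` of half the hyperbolic distance of two points of the disc. -/
noncomputable def bb (x y : ℂ) : ℝ :=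
  ‖1 - conj y * x‖ ^ 2 / ((1 - ‖x‖ ^ 2) * (1 - ‖y‖ ^ 2))

theorem one_sub_pos {x : ℂ} (hx : ‖x‖ < 1) : 0 < 1 - ‖x‖ ^ 2 := by
  have := norm_nonneg x
  nlinarith

theorem sq_norm_eq (x : ℂ) : ‖x‖ ^ 2 = x.re ^ 2 + x.im ^ 2 := by
  rw [← Complex.normSq_eq_norm_sq, Complex.normSq_apply]; ring

theorem bb_comm (x y : ℂ) : bb x y = bb y x := by
  unfold bb
  have : ‖1 - conj y * x‖ ^ 2 = ‖1 - conj x * y‖ ^ 2 := by
    rw [sq_norm_eq, sq_norm_eq]
    simp
    ring
  rw [this, mul_comm (1 - ‖x‖ ^ 2)]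

theorem bb_nonneg {x y : ℂ} (hx : ‖x‖ < 1) (hy : ‖y‖ < 1) : 0 ≤ bb x y :=
  div_nonneg (sq_nonneg _) (mul_pos (one_sub_pos hx) (one_sub_pos hy)).le

theorem num_eq (x y : ℂ) :
    ‖1 - conj y * x‖ ^ 2 = (1 - ‖x‖ ^ 2) * (1 - ‖y‖ ^ 2) + ‖x - y‖ ^ 2 := by
  rw [sq_norm_eq, sq_norm_eq, sq_norm_eq, sq_norm_eq]
  simp
  ring

theorem one_le_bb {x y : ℂ} (hx : ‖x‖ < 1) (hy : ‖y‖ < 1) : 1 ≤ bb x y := by
  unfold bb
  rw [le_div_iff₀ (mul_pos (one_sub_pos hx) (one_sub_pos hy)), num_eq]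
  nlinarith [sq_nonneg ‖x - y‖]

theorem bb_self {x : ℂ} (hx : ‖x‖ < 1) : bb x x = 1 := by
  unfold bb
  rw [num_eq, sub_self, norm_zero]
  have := one_sub_pos hx
  field_simp
  ring

theorem bb_zero (x : ℂ) : bb x 0 = (1 - ‖x‖ ^ 2)⁻¹ := by
  unfold bb
  simp

theorem bb_tri {x y z : ℂ} (hx : ‖x‖ < 1) (hy : ‖y‖ < 1) (hz : ‖z‖ < 1) :
    bb x y ≤ 4 * bb x z * bb z y := by
  have px := one_sub_pos hx
  have py := one_sub_pos hy
  have pz := one_sub_pos hz
  have h1 : ‖x - z‖ ≤ ‖1 - conj z * x‖ := by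
    have := num_eq x z
    have h2 : ‖x - z‖ ^ 2 ≤ ‖1 - conj z * x‖ ^ 2 := by nlinarith [mul_pos px pz]
    exact (sq_le_sq₀ (norm_nonneg _) (norm_nonneg _)).1 h2
  have h2 : ‖z - y‖ ≤ ‖1 - conj y * z‖ := by
    have := num_eq z y
    have h2 : ‖z - y‖ ^ 2 ≤ ‖1 - conj y * z‖ ^ 2 := by nlinarith [mul_pos pz py]
    exact (sq_le_sq₀ (norm_nonneg _) (norm_nonneg _)).1 h2
  have h3 : (1 - conj y * x) * ((1 - ‖z‖ ^ 2 : ℝ) : ℂ) =
      (1 - conj z * x) * (1 - conj y * z) - (x - z) * conj (y - z) := by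
    rw [← Complex.normSq_eq_norm_sq]
    push_cast
    rw [Complex.normSq_eq_conj_mul_self]
    simp only [map_sub]
    ring
  have h4 : ‖1 - conj y * x‖ * (1 - ‖z‖ ^ 2) ≤ 2 * (‖1 - conj z * x‖ * ‖1 - conj y * z‖) := by
    have h5 : ‖(1 - conj y * x) * ((1 - ‖z‖ ^ 2 : ℝ) : ℂ)‖ = ‖1 - conj y * x‖ * (1 - ‖z‖ ^ 2) := by
      rw [norm_mul, Complex.norm_real, Real.norm_of_nonneg pz.le]
    rw [← h5, h3]
    refine (norm_sub_le _ _).trans ?_
    rw [norm_mul, norm_mul, RCLike.norm_conj, norm_sub_rev y z]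
    have := mul_le_mul h1 h2 (norm_nonneg _) (norm_nonneg _)
    linarith
  have h6 : (‖1 - conj y * x‖ * (1 - ‖z‖ ^ 2)) ^ 2 ≤
      (2 * (‖1 - conj z * x‖ * ‖1 - conj y * z‖)) ^ 2 := by
    apply pow_le_pow_left₀ (by positivity) h4
  unfold bb
  rw [div_le_iff₀ (mul_pos px py)]
  have e : 4 * (‖1 - conj z * x‖ ^ 2 / ((1 - ‖x‖ ^ 2) * (1 - ‖z‖ ^ 2))) *
      (‖1 - conj y * z‖ ^ 2 / ((1 - ‖z‖ ^ 2) * (1 - ‖y‖ ^ 2))) * ((1 - ‖x‖ ^ 2) * (1 - ‖y‖ ^ 2)) =
      (2 * (‖1 - conj z * x‖ * ‖1 - conj y * z‖)) ^ 2 / (1 - ‖z‖ ^ 2) ^ 2 := by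
    field_simp
    ring
  rw [e, le_div_iff₀ (pow_pos pz 2)]
  nlinarith [h6]

/-- Points on one radius. -/
theorem bb_seg {e : ℂ} (he : ‖e‖ = 1) {s t : ℝ} (hs : 0 ≤ s) (hst : s ≤ t) (ht : t < 1) :
    bb (s * e) (t * e) ≤ (1 - s ^ 2) / (1 - t ^ 2) := by
  have hts : 0 < 1 - t ^ 2 := by nlinarith
  have hss : 0 < 1 - s ^ 2 := by nlinarith
  have he2 : conj e * e = 1 := by
    rw [← Complex.normSq_eq_conj_mul_self, Complex.normSq_eq_norm_sq, he]; norm_num
  have h1 : (1 : ℂ) - conj ((t : ℂ) * e) * ((s : ℂ) * e) = ((1 - s * t : ℝ) : ℂ) := by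
    rw [map_mul, Complex.conj_ofReal]
    push_cast
    linear_combination (-(s : ℂ) * t) * he2
  have n1 : ‖(s : ℂ) * e‖ = s := by
    rw [norm_mul, he, mul_one, Complex.norm_real, Real.norm_of_nonneg hs]
  have n2 : ‖(t : ℂ) * e‖ = t := by
    rw [norm_mul, he, mul_one, Complex.norm_real, Real.norm_of_nonneg (hs.trans hst)]
  unfold bb
  rw [h1, n1, n2, Complex.norm_real, Real.norm_eq_abs, sq_abs]
  rw [div_le_div_iff₀ (mul_pos hss hts) hts]
  have h2 : 1 - s * t ≤ 1 - s ^ 2 := by nlinarith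
  have h3 : 0 ≤ 1 - s * t := by nlinarith
  have h4 : (1 - s * t) ^ 2 ≤ (1 - s ^ 2) ^ 2 := pow_le_pow_left₀ h3 h2 2
  nlinarith [mul_le_mul_of_nonneg_right h4 hts.le]

/-- Points on one circle. -/
theorem bb_circ {s θ : ℝ} (hs : 0 ≤ s) (hs1 : s < 1) (hθ : 0 ≤ θ) (hθπ : θ ≤ Real.pi)
    (x y : ℂ) (hx : ‖x‖ = s) (hy : ‖y‖ = s) (hxy : conj y * x = s ^ 2 * exp (I * θ)) :
    (s * (2 * θ / Real.pi) / (1 - s ^ 2)) ^ 2 ≤ bb x y := by
  have hss : 0 < 1 - s ^ 2 := by nlinarith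
  unfold bb
  rw [hx, hy, hxy, div_pow]
  rw [show (1 - s ^ 2) * (1 - s ^ 2) = (1 - s ^ 2) ^ 2 by ring]
  apply div_le_div_of_nonneg_right _ (pow_pos hss 2).le
  have h1 : ‖1 - (s : ℂ) ^ 2 * exp (I * θ)‖ ^ 2 = (1 - s ^ 2) ^ 2 + s ^ 2 * ‖exp (I * θ) - 1‖ ^ 2 := by
    have hn : ‖exp (I * θ)‖ = 1 := by rw [mul_comm]; exact Complex.norm_exp_ofReal_mul_I θ
    have hn2 := sq_norm_eq (exp (I * θ))
    rw [hn] at hn2
    rw [sq_norm_eq, sq_norm_eq]
    have hr : ((s : ℂ) ^ 2).re = s ^ 2 := by rw [← Complex.ofReal_pow, Complex.ofReal_re]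
    have hi : ((s : ℂ) ^ 2).im = 0 := by rw [← Complex.ofReal_pow, Complex.ofReal_im]
    simp only [Complex.sub_re, Complex.sub_im, Complex.mul_re, Complex.mul_im, hr, hi,
      Complex.one_re, Complex.one_im]
    linear_combination (s ^ 2 - s ^ 4) * hn2
  rw [h1, Complex.norm_exp_I_mul_ofReal_sub_one]
  have h2 : 2 / Real.pi * (θ / 2) ≤ Real.sin (θ / 2) :=
    Real.mul_le_sin (by linarith) (by linarith)
  have h3 : 2 * θ / Real.pi ≤ 2 * Real.sin (θ / 2) := by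
    have : 2 * θ / Real.pi = 2 * (2 / Real.pi * (θ / 2)) := by ring
    rw [this]; linarith
  have h4 : 0 ≤ 2 * θ / Real.pi := by positivity
  have h5 : (2 * θ / Real.pi) ^ 2 ≤ ‖2 * Real.sin (θ / 2)‖ ^ 2 := by
    rw [Real.norm_eq_abs, sq_abs]
    exact pow_le_pow_left₀ h4 h3 2
  rw [mul_pow]
  nlinarith [mul_le_mul_of_nonneg_left h5 (sq_nonneg s), sq_nonneg (1 - s ^ 2)]


/-- Orbit count for a cobounded set of points. -/
theorem count {G : Type*} (z : G → ℂ) (hz : ∀ g, ‖z g‖ < 1) {κ : ℝ} (hκ1 : 1 ≤ κ)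
    (hκ : ∀ x : ℂ, ‖x‖ < 1 → ∃ g, bb x (z g) ≤ κ) :
    ∀ X : ℝ, 32 * κ ^ 2 ≤ X → ∃ S : Finset G, X / (32 * κ ^ 2) ≤ S.card ∧
      ∀ g ∈ S, (1 - ‖z g‖ ^ 2)⁻¹ ≤ X := by
  classical
  intro X hX
  have hXpos : 0 < X := by nlinarith
  set u : ℝ := 4 * κ / X with hu
  have hu0 : 0 < u := by positivity
  have hu1 : u ≤ 1 / 8 := by
    rw [hu, div_le_iff₀ hXpos]; nlinarith
  set s : ℝ := Real.sqrt (1 - u) with hs
  have hs2 : s ^ 2 = 1 - u := Real.sq_sqrt (by linarith)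
  have hs0 : 0 ≤ s := Real.sqrt_nonneg _
  have hs1 : s < 1 := by
    by_contra hc
    push Not at hc
    nlinarith
  have hsh : 1 / 2 ≤ s := by
    by_contra hc
    push Not at hc
    nlinarith
  set h : ℝ := 4 * Real.pi * κ * u with hh
  have hpi := Real.pi_pos
  have hh0 : 0 < h := by positivity
  set M : ℕ := ⌊(4 * κ * u)⁻¹⌋₊ with hM
  have hMle : (M : ℝ) ≤ (4 * κ * u)⁻¹ := Nat.floor_le (by positivity)
  have hMh : (M : ℝ) * h ≤ Real.pi := by
    have h1 : (M : ℝ) * h ≤ (4 * κ * u)⁻¹ * h := mul_le_mul_of_nonneg_right hMle hh0.le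
    have h2 : (4 * κ * u)⁻¹ * h = Real.pi := by rw [hh]; field_simp
    linarith
  have hMX : X / (32 * κ ^ 2) ≤ M := by
    have h1 : (4 * κ * u)⁻¹ = X / (16 * κ ^ 2) := by
      rw [hu]; field_simp; norm_num
    have h2 : (4 * κ * u)⁻¹ < M + 1 := Nat.lt_floor_add_one _
    have h3 : 1 ≤ X / (32 * κ ^ 2) := by
      rw [le_div_iff₀ (by positivity)]; linarith
    have h4 : X / (16 * κ ^ 2) = 2 * (X / (32 * κ ^ 2)) := by
      field_simp; norm_num
    rw [h1, h4] at h2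
    linarith
  set x : ℕ → ℂ := fun k => s * exp (I * (k * h : ℝ)) with hxd
  have hnx : ∀ k, ‖x k‖ = s := by
    intro k
    simp only [hxd]
    rw [norm_mul, Complex.norm_real, Real.norm_of_nonneg hs0, mul_comm I,
      Complex.norm_exp_ofReal_mul_I, mul_one]
  have hx1 : ∀ k, ‖x k‖ < 1 := fun k => (hnx k).trans_lt hs1
  choose g hg using fun k => hκ (x k) (hx1 k)
  have hfar : ∀ k l, l < k → k < M → 4 * κ ^ 2 < bb (x k) (x l) := by
    intro k l hlk hkM
    have hθ : (((k : ℝ) - l) * h) ≤ Real.pi := by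
      have h1 : ((k : ℝ) - l) ≤ M := by
        have : (k : ℝ) ≤ M := by exact_mod_cast hkM.le
        have h0 : (0 : ℝ) ≤ l := Nat.cast_nonneg l
        linarith
      exact (mul_le_mul_of_nonneg_right h1 hh0.le).trans hMh
    have hkl : (1 : ℝ) ≤ (k : ℝ) - l := by
      have : (l : ℝ) + 1 ≤ k := by exact_mod_cast hlk
      linarith
    have hθ0 : 0 ≤ ((k : ℝ) - l) * h := by nlinarith
    have hconj : conj (x l) * x k = (s : ℂ) ^ 2 * exp (I * ((((k : ℝ) - l) * h : ℝ) : ℂ)) := by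
      simp only [hxd]
      rw [map_mul, Complex.conj_ofReal, ← Complex.exp_conj, map_mul, Complex.conj_I,
        Complex.conj_ofReal]
      have : exp (I * ((((k : ℝ) - l) * h : ℝ) : ℂ)) =
          exp (-I * ((l * h : ℝ) : ℂ)) * exp (I * ((k * h : ℝ) : ℂ)) := by
        rw [← Complex.exp_add]
        congr 1
        push_cast
        ring
      rw [this]
      ring
    have hb := bb_circ hs0 hs1 hθ0 hθ (x k) (x l) (hnx k) (hnx l) hconj
    refine lt_of_lt_of_le ?_ hb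
    have h1 : 4 * κ ≤ s * (2 * (((k : ℝ) - l) * h) / Real.pi) / (1 - s ^ 2) := by
      have hue : 1 - s ^ 2 = u := by rw [hs2]; ring
      rw [hue, le_div_iff₀ hu0]
      have h2 : 2 * (((k : ℝ) - l) * h) / Real.pi = ((k : ℝ) - l) * (8 * κ * u) := by
        rw [hh]; field_simp; norm_num
      rw [h2]
      have h3 : 8 * κ * u ≤ ((k : ℝ) - l) * (8 * κ * u) := by
        have : 0 ≤ 8 * κ * u := by positivity
        nlinarith
      have h4 : 1 / 2 * (8 * κ * u) ≤ s * (((k : ℝ) - l) * (8 * κ * u)) :=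
        mul_le_mul hsh h3 (by positivity) hs0
      linarith
    have h5 : (4 * κ) ^ 2 ≤ (s * (2 * (((k : ℝ) - l) * h) / Real.pi) / (1 - s ^ 2)) ^ 2 :=
      pow_le_pow_left₀ (by linarith) h1 2
    nlinarith
  have hinj : ∀ k l, l < k → k < M → g k ≠ g l := by
    intro k l hlk hkM hkl
    have h1 := hfar k l hlk hkM
    have h2 := bb_tri (hx1 k) (hx1 l) (hz (g k))
    have h3 := hg k
    have h4 := hg l
    rw [← hkl, bb_comm] at h4
    have h5 : bb (x k) (z (g k)) * bb (z (g k)) (x l) ≤ κ * κ :=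
      mul_le_mul h3 h4 (bb_nonneg (hz _) (hx1 _)) (by linarith)
    nlinarith
  refine ⟨(Finset.range M).image g, ?_, ?_⟩
  · rw [Finset.card_image_of_injOn, Finset.card_range]
    · exact hMX
    · intro k hk l hl hkl
      simp only [Finset.coe_range, Set.mem_Iio] at hk hl
      rcases lt_trichotomy k l with h1 | h1 | h1
      · exact absurd hkl.symm (hinj l k h1 hl)
      · exact h1
      · exact absurd hkl (hinj k l h1 hk)
  · intro γ hγ
    obtain ⟨k, -, rfl⟩ := Finset.mem_image.1 hγ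
    rw [← bb_zero]
    have h1 := bb_tri (hz (g k)) (y := 0) (z := x k) (by simp) (hx1 k)
    have h2 : bb (x k) 0 = u⁻¹ := by
      rw [bb_zero, hnx, hs2]; congr 1; ring
    have h3 := hg k
    rw [bb_comm] at h3
    have h4 : bb (z (g k)) (x k) * bb (x k) 0 ≤ κ * u⁻¹ := by
      rw [h2]
      exact mul_le_mul_of_nonneg_right h3 (by positivity)
    have h5 : 4 * (κ * u⁻¹) = X := by rw [hu]; field_simp
    linarith

/-- Half of the orbit. -/
theorem half {G : Type*} [Group G] {r : ℕ} {A : G → ℝ} (hA : ∀ g, 1 ≤ A g)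
    (hinv : ∀ g, A g⁻¹ = A g) (hmul : ∀ g h, A (g * h) ≤ 4 * A g * A h) {c X₀ : ℝ} (hc : 0 < c)
    (hcount : ∀ X : ℝ, X₀ ≤ X → ∃ S : Finset G, c * X ≤ S.card ∧ ∀ g ∈ S, A g ≤ X)
    (a : G → Fin r → ℤ) (ha : ∀ g h, a (g * h) = a g + a h) (hsurj : Function.Surjective a) :
    ∃ c' : ℝ, 0 < c' ∧ ∃ X₁ : ℝ, ∀ u : Fin r → ℤ, ∀ X : ℝ, X₁ ≤ X → ∃ S : Finset G,
      c' * X ≤ S.card ∧ ∀ g ∈ S, A g ≤ X ∧ ∑ i, u i * a g i ≤ -(2 * ∑ i, |u i|) := by
  classical
  have ha1 : a 1 = 0 := by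
    have := ha 1 1
    rw [mul_one] at this
    exact left_eq_add.1 this
  have hainv : ∀ g, a g⁻¹ = -a g := by
    intro g
    have := ha g g⁻¹
    rw [mul_inv_cancel, ha1] at this
    exact (neg_eq_of_add_eq_zero_right this.symm).symm
  choose σ hσ using fun w : Fin r → ℤ => hsurj w
  -- for every `u` an element `τ` with `⟨u, a τ⟩ ≤ - 2 |u|`
  set F : Finset (Fin r → ℤ) := Fintype.piFinset fun _ => {-2, 0, 2} with hF
  obtain ⟨B, hB⟩ : ∃ B : ℝ, ∀ w ∈ F, A (σ w) ≤ B := by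
    obtain ⟨B, hB⟩ := (F.image fun w => A (σ w)).bddAbove
    exact ⟨B, fun w hw => hB (by simpa using Finset.mem_image_of_mem (fun w => A (σ w)) hw)⟩
  have hB1 : 1 ≤ B := by
    refine (hA _).trans (hB 0 ?_)
    rw [hF, Fintype.mem_piFinset]
    intro i; simp
  refine ⟨c / (8 * B), by positivity, 4 * B * max X₀ 0, fun u X hX => ?_⟩
  have hY : X₀ ≤ X / (4 * B) := by
    rw [le_div_iff₀ (by positivity)]
    nlinarith [le_max_left X₀ 0]
  obtain ⟨S, hS, hSA⟩ := hcount _ hY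
  set p : G → ℤ := fun g => ∑ i, u i * a g i with hp
  have hpinv : ∀ g, p g⁻¹ = -p g := by
    intro g
    simp only [hp, hainv, Pi.neg_apply, mul_neg, Finset.sum_neg_distrib]
  have hpmul : ∀ g h, p (g * h) = p g + p h := by
    intro g h
    simp only [hp, ha, Pi.add_apply, mul_add, Finset.sum_add_distrib]
  obtain ⟨S', hS', hS'A, hS'p⟩ : ∃ S' : Finset G, (S.card : ℝ) / 2 ≤ S'.card ∧
      (∀ g ∈ S', A g ≤ X / (4 * B)) ∧ ∀ g ∈ S', p g ≤ 0 := by
    have hcard := Finset.card_filter_add_card_filter_not (s := S) (fun g => p g ≤ 0)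
    by_cases h1 : (S.card : ℝ) / 2 ≤ (S.filter (fun g => p g ≤ 0)).card
    · exact ⟨_, h1, fun g hg => hSA g (Finset.mem_filter.1 hg).1,
        fun g hg => (Finset.mem_filter.1 hg).2⟩
    · refine ⟨(S.filter (fun g => ¬ p g ≤ 0)).image (fun g => g⁻¹), ?_, ?_, ?_⟩
      · rw [Finset.card_image_of_injective _ inv_injective]
        have h2 : ((S.filter (fun g => p g ≤ 0)).card : ℝ) +
            ((S.filter (fun g => ¬ p g ≤ 0)).card : ℝ) = S.card := by exact_mod_cast hcard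
        push Not at h1
        linarith
      · intro g hg
        obtain ⟨h, hh, rfl⟩ := Finset.mem_image.1 hg
        rw [hinv]
        exact hSA h (Finset.mem_filter.1 hh).1
      · intro g hg
        obtain ⟨h, hh, rfl⟩ := Finset.mem_image.1 hg
        rw [hpinv]
        have := (Finset.mem_filter.1 hh).2
        omega
  set w : Fin r → ℤ := fun i => -(2 * (u i).sign) with hw
  have hwF : w ∈ F := by
    rw [hF, Fintype.mem_piFinset]
    intro i
    simp only [hw]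
    rcases lt_trichotomy (u i) 0 with h | h | h
    · rw [Int.sign_eq_neg_one_of_neg h]; simp
    · rw [h]; simp
    · rw [Int.sign_eq_one_of_pos h]; simp
  have hpw : p (σ w) = -(2 * ∑ i, |u i|) := by
    simp only [hp, hσ, hw]
    rw [Finset.mul_sum, ← Finset.sum_neg_distrib]
    refine Finset.sum_congr rfl fun i _ => ?_
    have := Int.sign_mul_self_eq_abs (u i)
    linear_combination (-2) * this
  refine ⟨S'.image (fun g => g * σ w), ?_, ?_⟩
  · rw [Finset.card_image_of_injective _ (mul_left_injective _)]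
    refine le_trans ?_ hS'
    have h3 : c / (8 * B) * X = (c * (X / (4 * B))) / 2 := by
      field_simp
      ring
    rw [h3]
    linarith
  · intro g hg
    obtain ⟨h, hh, rfl⟩ := Finset.mem_image.1 hg
    constructor
    · refine (hmul _ _).trans ?_
      have h1 := hS'A h hh
      have h2 := hB w hwF
      have h3 : A h * A (σ w) ≤ X / (4 * B) * B :=
        mul_le_mul h1 h2 (by linarith [hA (σ w)]) (by linarith [hA h])
      have h4 : 4 * (X / (4 * B) * B) = X := by field_simp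
      linarith
    · have h1 := hpmul h (σ w)
      simp only [hp] at h1 hpw
      rw [h1, hpw]
      have h2 := hS'p h hh
      simp only [hp] at h2
      linarith


/-- Linear growth (Milnor - Schwarz). -/
theorem lin_growth {G : Type*} [Group G] (z : G → ℂ) (hz : ∀ g, ‖z g‖ < 1)
    (hiso : ∀ g h, bb (z g) (z h) = (1 - ‖z (g⁻¹ * h)‖ ^ 2)⁻¹) {κ : ℝ} (hκ1 : 1 ≤ κ)
    (hκ : ∀ x : ℂ, ‖x‖ < 1 → ∃ g, bb x (z g) ≤ κ)
    (hfin : ∀ X : ℝ, {g | (1 - ‖z g‖ ^ 2)⁻¹ ≤ X}.Finite)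
    (L : G → ℝ) (hL : ∀ g h, L (g * h) ≤ L g + L h) :
    ∃ C : ℝ, 0 ≤ C ∧ ∀ m : ℕ, ∀ g, (1 - ‖z g‖ ^ 2)⁻¹ ≤ 2 ^ m → L g ≤ C * (m + 1) := by
  classical
  obtain ⟨C₀, hC₀⟩ := ((hfin (32 * κ ^ 2)).image L).bddAbove
  have hC : ∀ g, (1 - ‖z g‖ ^ 2)⁻¹ ≤ 32 * κ ^ 2 → L g ≤ max C₀ 0 := fun g hg =>
    (hC₀ ⟨g, hg, rfl⟩).trans (le_max_left _ _)
  have hCp : 0 ≤ max C₀ 0 := le_max_right _ _
  generalize max C₀ 0 = C at hC hCp
  refine ⟨C, hCp, fun m => ?_⟩
  induction m with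
  | zero =>
    intro g hg
    have : L g ≤ C := hC g (hg.trans (by nlinarith))
    simpa using this
  | succ m ih =>
    intro g hg
    by_cases hs : (1 - ‖z g‖ ^ 2)⁻¹ ≤ 32 * κ ^ 2
    · have h1 := hC g hs
      push_cast
      nlinarith [mul_nonneg hCp (Nat.cast_nonneg (α := ℝ) m)]
    · push Not at hs
      set Ag : ℝ := (1 - ‖z g‖ ^ 2)⁻¹ with hAg
      have hAg0 : 0 < Ag := by nlinarith
      have hzg : 1 - ‖z g‖ ^ 2 = Ag⁻¹ := by rw [hAg, inv_inv]
      set t : ℝ := ‖z g‖ with ht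
      have ht1 : t < 1 := hz g
      have ht0 : 0 < t := by
        rcases (norm_nonneg (z g)).lt_or_eq with h | h
        · exact h
        · exfalso
          rw [← ht] at h
          rw [← h] at hzg
          have : Ag = 1 := by
            have h2 : Ag⁻¹ = 1 := by linarith
            rwa [inv_eq_one] at h2
          nlinarith
      set s : ℝ := Real.sqrt (1 - 8 * κ / Ag) with hsd
      have h8 : 8 * κ / Ag ≤ 1 := by
        rw [div_le_one hAg0]; nlinarith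
      have hs2 : s ^ 2 = 1 - 8 * κ / Ag := Real.sq_sqrt (by linarith)
      have hs0 : 0 ≤ s := Real.sqrt_nonneg _
      have hst : s ≤ t := by
        have h1 : s ^ 2 ≤ t ^ 2 := by
          rw [hs2]
          have h2 : Ag⁻¹ ≤ 8 * κ / Ag := by
            rw [div_eq_mul_inv]
            have := inv_pos.2 hAg0
            nlinarith
          linarith
        exact (sq_le_sq₀ hs0 ht0.le).1 h1
      set e : ℂ := z g / t with he
      have hte : (t : ℂ) ≠ 0 := by exact_mod_cast ht0.ne'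
      have hen : ‖e‖ = 1 := by
        rw [he, norm_div, Complex.norm_real, Real.norm_of_nonneg ht0.le, ← ht, div_self ht0.ne']
      have hze : z g = t * e := by rw [he]; field_simp
      have hxn : ‖(s : ℂ) * e‖ = s := by
        rw [norm_mul, hen, mul_one, Complex.norm_real, Real.norm_of_nonneg hs0]
      have hx1 : ‖(s : ℂ) * e‖ < 1 := by rw [hxn]; linarith
      obtain ⟨h, hh⟩ := hκ _ hx1
      have hA1 : (1 - ‖z h‖ ^ 2)⁻¹ ≤ Ag / 2 := by
        rw [← bb_zero]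
        have h1 := bb_tri (hz h) (y := 0) (z := (s : ℂ) * e) (by simp) hx1
        have h2 : bb ((s : ℂ) * e) 0 = Ag / (8 * κ) := by
          rw [bb_zero, hxn, hs2, show 1 - (1 - 8 * κ / Ag) = 8 * κ / Ag by ring, inv_div]
        rw [bb_comm] at hh
        have h3 : bb (z h) ((s : ℂ) * e) * bb ((s : ℂ) * e) 0 ≤ κ * (Ag / (8 * κ)) := by
          rw [h2]
          exact mul_le_mul_of_nonneg_right hh (by positivity)
        have h4 : κ * (Ag / (8 * κ)) = Ag / 8 := by field_simp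
        linarith
      have hA2 : (1 - ‖z (h⁻¹ * g)‖ ^ 2)⁻¹ ≤ 32 * κ ^ 2 := by
        rw [← hiso]
        rw [bb_comm] at hh
        have h1 := bb_tri (hz h) (hz g) hx1
        have h2 := bb_seg hen hs0 hst ht1
        rw [← hze] at h2
        have h3 : (1 - s ^ 2) / (1 - t ^ 2) = 8 * κ := by
          rw [hs2, hzg]; field_simp; ring
        rw [h3] at h2
        have h4 : bb (z h) ((s : ℂ) * e) * bb ((s : ℂ) * e) (z g) ≤ κ * (8 * κ) := by
          rw [bb_comm] at hh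
          rw [bb_comm] at hh
          exact mul_le_mul hh h2 (bb_nonneg hx1 (hz g)) (by linarith)
        nlinarith
      have h5 : L h ≤ C * (m + 1) := by
        apply ih h
        rw [pow_succ] at hg
        linarith
      have h6 := hC _ hA2
      have h7 := hL h (h⁻¹ * g)
      rw [mul_inv_cancel_left] at h7
      push_cast
      linarith

/-- The orbit points with bounded exponent vector. -/
theorem orb_step {G : Type*} [Group G] {r : ℕ} (z : G → ℂ) (hz : ∀ g, ‖z g‖ < 1)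
    (hiso : ∀ g h, bb (z g) (z h) = (1 - ‖z (g⁻¹ * h)‖ ^ 2)⁻¹) {κ : ℝ}
    (hκ : ∀ x : ℂ, ‖x‖ < 1 → ∃ g, bb x (z g) ≤ κ)
    (hfin : ∀ X : ℝ, {g | (1 - ‖z g‖ ^ 2)⁻¹ ≤ X}.Finite)
    (a : G → Fin r → ℤ) (ha : ∀ g h, a (g * h) = a g + a h) (hsurj : Function.Surjective a) :
    ∃ c : ℝ, 0 < c ∧ ∃ j₀ : ℕ, ∃ C : ℝ, 0 ≤ C ∧
      (∀ m : ℕ, ∀ g, (1 - ‖z g‖ ^ 2)⁻¹ ≤ 2 ^ m → ((∑ i, |a g i| : ℤ) : ℝ) ≤ C * (m + 1)) ∧
      ∀ J : ℕ, ∀ g₀ : G, ∀ N : ℝ, C ^ 2 * (J + 1) ^ 2 ≤ 2 * N + 1 → 3 ≤ N →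
      ((∑ i, a g₀ i ^ 2 : ℤ) : ℝ) ≤ (N + 1) ^ 2 → ∃ S : Finset ℂ,
      (∀ x ∈ S, ∃ g : G, z g = x ∧ x ≠ 0 ∧ ‖x‖ ≤ 1 - 2⁻¹ ^ J ∧
        ((∑ i, a (g₀ * g) i ^ 2 : ℤ) : ℝ) ≤ N ^ 2) ∧
      ∀ j : ℕ, j₀ ≤ j → j ≤ J → c * 2 ^ j ≤ (S.filter (fun x => ‖x‖ ≤ 1 - 2⁻¹ ^ j)).card := by
  classical
  have hκ1 : 1 ≤ κ := by
    obtain ⟨g, hg⟩ := hκ 0 (by simp)
    exact (one_le_bb (by simp) (hz g)).trans hg
  set A : G → ℝ := fun g => (1 - ‖z g‖ ^ 2)⁻¹ with hAd
  have hA : ∀ g, 1 ≤ A g := by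
    intro g
    simp only [hAd]
    rw [← bb_zero]
    exact one_le_bb (hz g) (by simp)
  have hz1 : z 1 = 0 := by
    have h1 := hiso 1 1
    rw [bb_self (hz 1), inv_one, one_mul] at h1
    have h2 : 1 - ‖z 1‖ ^ 2 = 1 := by
      have := congrArg (fun t => t⁻¹) h1
      simpa using this.symm
    have h3 : ‖z 1‖ = 0 := by
      have : ‖z 1‖ ^ 2 = 0 := by linarith
      exact pow_eq_zero_iff (two_ne_zero) |>.1 this
    exact norm_eq_zero.1 h3
  have hAinv : ∀ g, A g⁻¹ = A g := by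
    intro g
    have h1 := hiso g 1
    have h2 := hiso 1 g
    rw [bb_comm, h2] at h1
    simp only [hAd]
    simpa using h1.symm
  have hAmul : ∀ g h, A (g * h) ≤ 4 * A g * A h := by
    intro g h
    have h1 := bb_tri (hz g⁻¹) (hz h) (z := z 1) (hz 1)
    rw [hiso, hiso, hiso] at h1
    simpa using h1
  obtain ⟨c', hc', X₁, hhalf⟩ := half (c := (32 * κ ^ 2)⁻¹) hA hAinv hAmul (by positivity)
    (fun X hX => by
      obtain ⟨S, h1, h2⟩ := count z hz hκ1 hκ X hX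
      exact ⟨S, by rwa [inv_mul_eq_div], h2⟩) a ha hsurj
  obtain ⟨C, hC0, hC⟩ := lin_growth z hz hiso hκ1 hκ hfin (fun g => ((∑ i, |a g i| : ℤ) : ℝ))
    (fun g h => by
      have : ∑ i, |a (g * h) i| ≤ ∑ i, |a g i| + ∑ i, |a h i| := by
        rw [← Finset.sum_add_distrib]
        refine Finset.sum_le_sum fun i _ => ?_
        rw [ha]
        exact abs_add_le _ _
      exact_mod_cast this)
  -- the stabiliser
  have hstab : {g | z g = 0}.Finite := by
    refine (hfin 1).subset fun g hg => ?_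
    simp only [Set.mem_ofPred_eq] at hg ⊢
    rw [hg]; simp
  set e : ℕ := hstab.toFinset.card with he
  have he1 : 1 ≤ e := by
    rw [he, Nat.one_le_iff_ne_zero, Finset.card_ne_zero]
    exact ⟨1, by simp [hz1]⟩
  have hfib : ∀ g : G, ∀ T : Finset G, (T.filter (fun h => z h = z g)).card ≤ e := by
    intro g T
    rw [he]
    refine Finset.card_le_card_of_injOn (fun h => g⁻¹ * h) ?_ ?_
    · intro h hh
      have h1 := (Finset.mem_filter.1 hh).2
      have h2 := hiso g h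
      rw [h1, bb_self (hz g)] at h2
      have h3 : ‖z (g⁻¹ * h)‖ ^ 2 = 0 := by
        have := congrArg (fun t => t⁻¹) h2
        simp only [inv_inv, inv_one] at this
        linarith
      have h4 := norm_eq_zero.1 ((pow_eq_zero_iff two_ne_zero).1 h3)
      simpa using h4
    · intro x _ y _ hxy
      simpa using hxy
  obtain ⟨j₁, hj₁⟩ : ∃ j₁ : ℕ, max X₁ 0 + 4 * e / c' + 1 ≤ 2 ^ j₁ := by
    obtain ⟨k, hk⟩ := pow_unbounded_of_one_lt (max X₁ 0 + 4 * e / c' + 1) (one_lt_two : (1 : ℝ) < 2)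
    exact ⟨k, hk.le⟩
  refine ⟨c' / (4 * e), by positivity, j₁ + 1, C, hC0, hC, fun J g₀ N hN hN0 hg₀ => ?_⟩
  set T : Finset G := (hfin (2 ^ J)).toFinset.filter (fun g => z g ≠ 0 ∧ ‖z g‖ ≤ 1 - 2⁻¹ ^ J ∧
    ((∑ i, a (g₀ * g) i ^ 2 : ℤ) : ℝ) ≤ N ^ 2) with hT
  refine ⟨T.image z, ?_, ?_⟩
  · intro x hx
    obtain ⟨g, hg, rfl⟩ := Finset.mem_image.1 hx
    exact ⟨g, rfl, (Finset.mem_filter.1 hg).2⟩
  · intro j hj₀ hjJ
    obtain ⟨i, rfl⟩ : ∃ i, j = i + 1 := ⟨j - 1, by omega⟩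
    have hi : j₁ ≤ i := by omega
    have h2i : (2 : ℝ) ^ j₁ ≤ 2 ^ i := pow_le_pow_right₀ (by norm_num) hi
    have hX : X₁ ≤ 2 ^ i := by
      have h0 : 0 ≤ 4 * (e : ℝ) / c' := by positivity
      linarith [le_max_left X₁ 0]
    obtain ⟨S, hS, hSg⟩ := hhalf (a g₀) _ hX
    -- the points of `S` not fixing the centre lie in `T`
    have hsub : (S.filter (fun g => z g ≠ 0)).image z ⊆
        (T.image z).filter (fun x => ‖x‖ ≤ 1 - 2⁻¹ ^ (i + 1)) := by
      intro x hx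
      obtain ⟨g, hg, rfl⟩ := Finset.mem_image.1 hx
      obtain ⟨hgS, hg0⟩ := Finset.mem_filter.1 hg
      obtain ⟨hgA, hgu⟩ := hSg g hgS
      have hng : ‖z g‖ ≤ 1 - 2⁻¹ ^ (i + 1) := by
        have hp := one_sub_pos (hz g)
        have h1 : ((2 : ℝ) ^ i)⁻¹ ≤ 1 - ‖z g‖ ^ 2 := by
          rw [inv_le_comm₀ (by positivity) hp]
          exact hgA
        have h2 : 1 - ‖z g‖ ^ 2 ≤ 2 * (1 - ‖z g‖) := by
          nlinarith [norm_nonneg (z g), hz g]
        have h3 : (2 : ℝ)⁻¹ ^ (i + 1) = ((2 : ℝ) ^ i)⁻¹ / 2 := by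
          rw [pow_succ, inv_pow]; ring
        rw [h3]; linarith
      have hJi : (2 : ℝ)⁻¹ ^ J ≤ 2⁻¹ ^ (i + 1) :=
        pow_le_pow_of_le_one (by norm_num) (by norm_num) hjJ
      have hiJ : i ≤ J := by omega
      rw [Finset.mem_filter]
      refine ⟨Finset.mem_image_of_mem _ ?_, hng⟩
      rw [hT, Finset.mem_filter]
      refine ⟨?_, hg0, by linarith, ?_⟩
      · rw [Set.Finite.mem_toFinset]
        exact hgA.trans (pow_le_pow_right₀ (by norm_num) hiJ)
      · -- the exponent vector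
        have hl1 : ((∑ i, |a g i| : ℤ) : ℝ) ≤ C * (J + 1) := by
          refine (hC i g hgA).trans ?_
          have : (i : ℝ) ≤ J := by exact_mod_cast hiJ
          nlinarith
        have hl0 : (0 : ℤ) ≤ ∑ i, |a g i| := Finset.sum_nonneg fun i _ => abs_nonneg _
        have hsq : ∀ u : Fin r → ℤ, ∑ i, u i ^ 2 ≤ (∑ i, |u i|) ^ 2 := by
          intro u
          have hn : ∀ i ∈ Finset.univ, (0 : ℤ) ≤ |u i| := fun i _ => abs_nonneg _
          have h1 : ∑ i, |u i| ^ 2 ≤ (∑ i, |u i|) ^ 2 := by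
            rw [pow_two (∑ i, |u i|), Finset.sum_mul]
            refine Finset.sum_le_sum fun i hi => ?_
            rw [pow_two]
            exact mul_le_mul_of_nonneg_left (Finset.single_le_sum hn hi) (abs_nonneg _)
          simpa only [sq_abs] using h1
        have hl2 : ((∑ i, a g i ^ 2 : ℤ) : ℝ) ≤ C ^ 2 * (J + 1) ^ 2 := by
          have h1 : ((∑ i, a g i ^ 2 : ℤ) : ℝ) ≤ (((∑ i, |a g i|) ^ 2 : ℤ) : ℝ) := by
            exact_mod_cast hsq (a g)
          rw [Int.cast_pow] at h1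
          have h2 : (((∑ i, |a g i| : ℤ) : ℝ)) ^ 2 ≤ (C * (J + 1)) ^ 2 :=
            pow_le_pow_left₀ (by exact_mod_cast hl0) hl1 2
          rw [mul_pow] at h2
          linarith
        have hexp : ∑ i, a (g₀ * g) i ^ 2 = ∑ i, a g₀ i ^ 2 + 2 * ∑ i, a g₀ i * a g i +
            ∑ i, a g i ^ 2 := by
          rw [ha, Finset.mul_sum, ← Finset.sum_add_distrib, ← Finset.sum_add_distrib]
          refine Finset.sum_congr rfl fun i _ => ?_
          simp only [Pi.add_apply]; ring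
        set U : ℝ := ((∑ i, |a g₀ i| : ℤ) : ℝ) with hU
        have hU0 : 0 ≤ U := by
          rw [hU]; exact_mod_cast Finset.sum_nonneg fun i _ => abs_nonneg _
        set V : ℝ := ((∑ i, a g₀ i ^ 2 : ℤ) : ℝ) with hV
        have hV0 : 0 ≤ V := by
          rw [hV]
          have : (0 : ℤ) ≤ ∑ i, a g₀ i ^ 2 := Finset.sum_nonneg fun i _ => sq_nonneg _
          exact_mod_cast this
        have hVU : V ≤ U ^ 2 := by
          rw [hV, hU, ← Int.cast_pow]
          exact_mod_cast hsq (a g₀)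
        have hsV : Real.sqrt V ≤ U := (Real.sqrt_le_left hU0).2 hVU
        have hgu' : ((∑ i, a g₀ i * a g i : ℤ) : ℝ) ≤ -(2 * U) := by
          rw [hU]; exact_mod_cast hgu
        rw [hexp]
        push_cast
        push_cast at hgu' hl2 hV
        have hfin1 : V + 2 * (-(2 * U)) + C ^ 2 * (J + 1) ^ 2 ≤ N ^ 2 := by
          have hs1 : Real.sqrt V ^ 2 = V := Real.sq_sqrt hV0
          have hs2 : Real.sqrt V ≤ N + 1 := by
            rw [Real.sqrt_le_left (by linarith)]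
            exact hg₀
          have hs0 := Real.sqrt_nonneg V
          have h1 : Real.sqrt V * (Real.sqrt V - 4) ≤ (N + 1) * (N - 3) := by
            rcases le_total (Real.sqrt V) 4 with h | h
            · nlinarith
            · nlinarith
          nlinarith
        rw [← hV]
        linarith
    have hcard1 : ((S.filter (fun g => z g ≠ 0)).card : ℝ) ≤
        e * (((T.image z).filter (fun x => ‖x‖ ≤ 1 - 2⁻¹ ^ (i + 1))).card : ℝ) := by
      have h1 : (S.filter (fun g => z g ≠ 0)).card ≤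
          e * ((S.filter (fun g => z g ≠ 0)).image z).card := by
        apply Finset.card_le_mul_card_image
        intro x hx
        obtain ⟨g, -, rfl⟩ := Finset.mem_image.1 hx
        exact hfib g _
      have h2 := Finset.card_le_card hsub
      exact_mod_cast h1.trans (Nat.mul_le_mul_left e h2)
    have hcard2 : (S.card : ℝ) ≤ (S.filter (fun g => z g ≠ 0)).card + e := by
      have h1 := Finset.card_filter_add_card_filter_not (s := S) (fun g => z g ≠ 0)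
      have h2 : (S.filter (fun g => ¬ z g ≠ 0)).card ≤ e := by
        have := hfib 1 S
        rw [hz1] at this
        simpa using this
      have h3 : S.card ≤ (S.filter (fun g => z g ≠ 0)).card + e := by omega
      exact_mod_cast h3
    have h5 : 4 * e / c' ≤ 2 ^ i := by
      linarith [le_max_right X₁ 0]
    rw [div_le_iff₀ hc'] at h5
    have hepos : (0 : ℝ) < e := by exact_mod_cast he1
    have h6 : c' * 2 ^ i ≤ e * (((T.image z).filter
        (fun x => ‖x‖ ≤ 1 - 2⁻¹ ^ (i + 1))).card : ℝ) + e := by linarith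
    rw [pow_succ, div_mul_eq_mul_div, div_le_iff₀ (by positivity)]
    nlinarith

end Pool.Agent.Lib.MP_5d4057_al.T5
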