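import Pool.Agent.Lib.MP_5d4057_al.T5.MobA
import Pool.Agent.Lib.MP_5d4057_al.T5.Orb
import Pool.Agent.Lib.MP_5d4057_al.HM.Cut

/-!
# T5: many zeros (owner: helper20)
-/

set_option autoImplicit false

namespace Pool.Agent.Lib.MP_5d4057_al.T5

open Metric Filter Topology Pool.Agent.Lib.MP_5d4057_al Pool.Agent.Lib.MP_5d4057_al.HM

open Matrix ComplexConjugate Pool.Agent.Lib.MP_5d4057_al.Hyb

variable {Γ : Subgroup (SUGroup 1)}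

private theorem zr_mb0 (g : SUGroup 1) : mb g 0 = g.toMatrix 0 1 / g.toMatrix 1 1 := by
  simp [mb]

private theorem zr_lt (g : SUGroup 1) : ‖mb g 0‖ < 1 := by
  have h := mb_mem g (x := 0) (by simp)
  simpa using h

private theorem zr_ch (g : SUGroup 1) : ch g = ‖g.toMatrix 1 1‖ := rfl

private theorem zr_one_sub (g : SUGroup 1) : 1 - ‖mb g 0‖ ^ 2 = 1 / ch g ^ 2 := by
  rw [mb_zero]
  ring

private theorem zr_inv (g : SUGroup 1) : (1 - ‖mb g 0‖ ^ 2)⁻¹ = ch g ^ 2 := by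
  rw [zr_one_sub, one_div, inv_inv]

private theorem zr_J_mul_J : J 1 * J 1 = 1 := by
  rw [J, diagonal_mul_diagonal]
  rw [← diagonal_one]
  congr 1
  funext i
  split_ifs <;> norm_num

private theorem zr_toMatrix_inv (x : SUGroup 1) :
    (x⁻¹).toMatrix = J 1 * x.toMatrixᴴ * J 1 := by
  calc (x⁻¹).toMatrix = (J 1 * J 1) * (x⁻¹).toMatrix := by rw [zr_J_mul_J, Matrix.one_mul]
    _ = (J 1 * (x.toMatrixᴴ * J 1 * x.toMatrix)) * (x⁻¹).toMatrix := by rw [pres]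
    _ = J 1 * x.toMatrixᴴ * J 1 * (x.toMatrix * (x⁻¹).toMatrix) := by
        simp only [Matrix.mul_assoc]
    _ = _ := by rw [toMatrix_mul_inv, Matrix.mul_one]

/-- `(h⁻¹ g)_11`. -/
private theorem zr_entry (g h : SUGroup 1) : (h⁻¹ * g).toMatrix 1 1 =
    conj (h.toMatrix 1 1) * g.toMatrix 1 1 - conj (h.toMatrix 0 1) * g.toMatrix 0 1 := by
  rw [toMatrix_mul, zr_toMatrix_inv, Matrix.mul_apply, Fin.sum_univ_two]
  have hJ0 : J 1 0 0 = 1 := by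
    simp [J]
  have hJ1 : J 1 1 1 = -1 := by
    simp [J, Fin.last]
  have e : ∀ i j : Fin 2, (J 1 * h.toMatrixᴴ * J 1) i j =
      J 1 i i * conj (h.toMatrix j i) * J 1 j j := by
    intro i j
    have hd : J 1 = Matrix.diagonal fun i => J 1 i i := by
      ext a b
      by_cases hab : a = b
      · subst hab
        simp
      · rw [Matrix.diagonal_apply_ne _ hab]
        simp only [J]
        rw [Matrix.diagonal_apply_ne _ hab]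
    rw [hd, Matrix.mul_diagonal, Matrix.diagonal_mul, Matrix.conjTranspose_apply]
    simp
  rw [e, e, hJ0, hJ1]
  ring

private theorem zr_bb (g h : SUGroup 1) : bb (mb g 0) (mb h 0) = ch (g⁻¹ * h) ^ 2 := by
  have hg : g.toMatrix 1 1 ≠ 0 := by
    have := one_le_ch g
    rw [zr_ch] at this
    intro h0
    rw [h0, norm_zero] at this
    linarith
  have hh : h.toMatrix 1 1 ≠ 0 := by
    have := one_le_ch h
    rw [zr_ch] at this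
    intro h0
    rw [h0, norm_zero] at this
    linarith
  have hh' : conj (h.toMatrix 1 1) ≠ 0 := by simpa using hh
  have e1 : (1 : ℂ) - conj (mb h 0) * mb g 0 =
      (h⁻¹ * g).toMatrix 1 1 / (conj (h.toMatrix 1 1) * g.toMatrix 1 1) := by
    rw [zr_entry, zr_mb0, zr_mb0, map_div₀]
    field_simp
  have e2 : ch (g⁻¹ * h) = ch (h⁻¹ * g) := by
    rw [← ch_inv (g⁻¹ * h), _root_.mul_inv_rev, inv_inv]
  have p1 : 0 < ch g := lt_of_lt_of_le one_pos (one_le_ch g)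
  have p2 : 0 < ch h := lt_of_lt_of_le one_pos (one_le_ch h)
  rw [bb, e1, zr_one_sub, zr_one_sub, norm_div, norm_mul, RCLike.norm_conj, ← zr_ch, ← zr_ch,
    ← zr_ch, e2]
  field_simp

private theorem zr_iso (g h : SUGroup 1) :
    bb (mb g 0) (mb h 0) = (1 - ‖mb (g⁻¹ * h) 0‖ ^ 2)⁻¹ := by
  rw [zr_bb, zr_inv]

private theorem zr_cobounded (hΓ : Coc Γ) : ∃ κ : ℝ, ∀ x : ℂ, ‖x‖ < 1 →
    ∃ γ : Γ, bb x (mb (γ : SUGroup 1) 0) ≤ κ := by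
  obtain ⟨F, hF, hc⟩ := hΓ.cpt
  obtain ⟨C, hC⟩ := (hF.image continuous_ch).bddAbove
  refine ⟨C ^ 2, fun x hx => ?_⟩
  obtain ⟨g, rfl⟩ := exists_mb (x := x) (by simpa using hx)
  obtain ⟨γ, hγ, hgF⟩ := hc g
  refine ⟨⟨γ, hγ⟩⁻¹, ?_⟩
  rw [Subgroup.coe_inv, zr_bb, ← ch_inv, _root_.mul_inv_rev, inv_inv, inv_inv]
  have h1 : ch (γ * g) ≤ C := hC ⟨_, hgF, rfl⟩
  have h2 : 0 ≤ ch (γ * g) := norm_nonneg _
  exact pow_le_pow_left₀ h2 h1 2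

private theorem zr_fin (hΓ : Coc Γ) (X : ℝ) :
    {γ : Γ | (1 - ‖mb (γ : SUGroup 1) 0‖ ^ 2)⁻¹ ≤ X}.Finite := by
  refine (finite_inter hΓ (isCompact_ball X)).subset fun γ hγ => ?_
  have h1 : ch (γ : SUGroup 1) ^ 2 ≤ X := by
    rw [← zr_inv]
    exact hγ
  have h2 := one_le_ch (γ : SUGroup 1)
  change ch (γ : SUGroup 1) ≤ X
  nlinarith

private theorem zr_dyadic {x R : ℝ} {J j₀ : ℕ} (hR : 2 * Real.exp (-R) ≤ 2⁻¹ ^ J)
    (hx : x ≤ 1 - 2⁻¹ ^ J) :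
    ∑ j ∈ (Finset.Icc j₀ J).filter (fun j => x ≤ 1 - 2⁻¹ ^ j), (2⁻¹ : ℝ) ^ j ≤
      4 * (1 - Real.exp (-R) - x) := by
  set F := (Finset.Icc j₀ J).filter (fun j => x ≤ 1 - 2⁻¹ ^ j) with hF
  have h1 : 1 - x ≤ 2 * (1 - Real.exp (-R) - x) := by linarith
  have hp : (0 : ℝ) < 2⁻¹ ^ J := by positivity
  by_cases hne : F.Nonempty
  · have hm := F.min'_mem hne
    set j₁ := F.min' hne with hj
    have hm' := (Finset.mem_filter.1 hm).2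
    have hsub : F ⊆ Finset.Ico j₁ (J + 1) := by
      intro j hj'
      rw [Finset.mem_Ico]
      refine ⟨F.min'_le j hj', ?_⟩
      have := (Finset.mem_Icc.1 (Finset.mem_filter.1 hj').1).2
      omega
    calc ∑ j ∈ F, (2⁻¹ : ℝ) ^ j ≤ ∑ j ∈ Finset.Ico j₁ (J + 1), (2⁻¹ : ℝ) ^ j :=
          Finset.sum_le_sum_of_subset_of_nonneg hsub fun i _ _ => by positivity
      _ ≤ 2⁻¹ ^ j₁ / (1 - 2⁻¹) := geom_sum_Ico_le_of_lt_one (by norm_num) (by norm_num)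
      _ = 2 * 2⁻¹ ^ j₁ := by ring
      _ ≤ 4 * (1 - Real.exp (-R) - x) := by linarith
  · rw [Finset.not_nonempty_iff_eq_empty.1 hne, Finset.sum_empty]
    linarith

private theorem zr_exp {R : ℝ} (hR : 2 ≤ R) : 2 * Real.exp (-R) ≤ 2⁻¹ ^ ⌊R / 2⌋₊ := by
  have h0 : (⌊R / 2⌋₊ : ℝ) ≤ R / 2 := Nat.floor_le (by linarith)
  have h1 : (2 : ℝ) ^ (⌊R / 2⌋₊ + 1) ≤ Real.exp R := by
    calc (2 : ℝ) ^ (⌊R / 2⌋₊ + 1) ≤ Real.exp 1 ^ (⌊R / 2⌋₊ + 1) := by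
          apply pow_le_pow_left₀ (by norm_num)
          have := Real.exp_one_gt_d9
          linarith
      _ = Real.exp (⌊R / 2⌋₊ + 1 : ℕ) := by
          rw [← Real.exp_nat_mul, mul_one]
      _ ≤ Real.exp R := by
          apply Real.exp_le_exp.2
          push_cast
          linarith
  rw [Real.exp_neg, inv_pow]
  rw [pow_succ] at h1
  have h2 : (0 : ℝ) < 2 ^ ⌊R / 2⌋₊ := by positivity
  have h3 := Real.exp_pos R
  rw [← div_eq_mul_inv, div_le_iff₀ h3, inv_mul_eq_div, le_div_iff₀ h2]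
  linarith

/-- Many zeros. -/
theorem zeros (hΓ : Coc Γ) {r : ℕ} {ex : Γ → (Fin r → ℤ)}
    (hm : ∀ γ δ : Γ, ex (γ * δ) = ex γ + ex δ) (hs : Function.Surjective ex) :
    ∃ κ Λ : ℝ, 0 < κ ∧ 1 ≤ Λ ∧ ∀ R : ℝ, Λ ≤ R → ∀ N : ℕ, Λ * R ^ 2 ≤ N → ∀ z : Fin r → ℤ,
      (N : ℤ) ^ 2 < n2 z → n2 z ≤ ((N : ℤ) + 1) ^ 2 → ∃ S : Finset ℂ,
        (∀ w ∈ S, w ≠ 0 ∧ ‖w‖ < 1 - Real.exp (-R) ∧
          ∃ γ : Γ, mb (γ : SUGroup 1) 0 = w ∧ n2 (z + ex γ) ≤ (N : ℤ) ^ 2) ∧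
        κ * R ≤ ∑ w ∈ S, Real.log ((1 - Real.exp (-R)) / ‖w‖) := by
  obtain ⟨K, hK⟩ := zr_cobounded hΓ
  obtain ⟨c, hc, j₀, C, hC, -, hstep⟩ := orb_step (G := Γ) (fun γ : Γ => mb (γ : SUGroup 1) 0)
    (fun g => zr_lt _) (fun g h => by
      have := zr_iso (g : SUGroup 1) (h : SUGroup 1)
      simpa using this) hK (zr_fin hΓ) ex hm hs
  have hj0 : (0 : ℝ) ≤ j₀ := Nat.cast_nonneg _
  refine ⟨c / 16, 3 + 2 * C ^ 2 + 4 * j₀, by positivity, by nlinarith [sq_nonneg C], ?_⟩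
  intro R hR N hN z hz1 hz2
  have hC2 := sq_nonneg C
  have hR3 : 3 ≤ R := by linarith
  have hRj : 4 * (j₀ : ℝ) ≤ R := by linarith
  set J := ⌊R / 2⌋₊ with hJ
  have hJ1 : (J : ℝ) ≤ R / 2 := Nat.floor_le (by linarith)
  have hJ2 : R / 2 < J + 1 := Nat.lt_floor_add_one _
  have hexp := zr_exp (R := R) (by linarith)
  rw [← hJ] at hexp
  obtain ⟨g₀, rfl⟩ := hs z
  have hN3 : (3 : ℝ) ≤ N := by nlinarith
  have hCN : C ^ 2 * ((J : ℝ) + 1) ^ 2 ≤ 2 * N + 1 := by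
    have h1 : (J : ℝ) + 1 ≤ R := by linarith
    have h2 : ((J : ℝ) + 1) ^ 2 ≤ R ^ 2 := by
      have : (0 : ℝ) ≤ J := Nat.cast_nonneg _
      nlinarith
    have h3 : C ^ 2 * ((J : ℝ) + 1) ^ 2 ≤ C ^ 2 * R ^ 2 := mul_le_mul_of_nonneg_left h2 hC2
    nlinarith [sq_nonneg R, mul_nonneg hC2 (sq_nonneg R), mul_nonneg hj0 (sq_nonneg R)]
  have hz2' : ((∑ i, ex g₀ i ^ 2 : ℤ) : ℝ) ≤ ((N : ℝ) + 1) ^ 2 := by
    exact_mod_cast hz2
  obtain ⟨S, hS1, hS2⟩ := hstep J g₀ N hCN hN3 hz2'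
  have hρ1 : 1 - Real.exp (-R) ≤ 1 := by
    have := Real.exp_pos (-R)
    linarith
  have hpos : ∀ x ∈ S, x ≠ 0 ∧ ‖x‖ ≤ 1 - 2⁻¹ ^ J := by
    intro x hx
    obtain ⟨g, h1, h2, h3, h4⟩ := hS1 x hx
    exact ⟨h2, h3⟩
  have hp : (0 : ℝ) < 2⁻¹ ^ J := by positivity
  have hlt : ∀ x ∈ S, ‖x‖ < 1 - Real.exp (-R) := by
    intro x hx
    have := (hpos x hx).2
    have := Real.exp_pos (-R)
    linarith
  refine ⟨S, fun w hw => ?_, ?_⟩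
  · obtain ⟨g, h1, h2, h3, h4⟩ := hS1 w hw
    refine ⟨h2, hlt w hw, g, h1, ?_⟩
    rw [← hm]
    exact_mod_cast h4
  have hlog : ∀ w ∈ S, 1 - Real.exp (-R) - ‖w‖ ≤ Real.log ((1 - Real.exp (-R)) / ‖w‖) := by
    intro w hw
    have h1 := hlt w hw
    have h2 : 0 < ‖w‖ := norm_pos_iff.2 (hpos w hw).1
    have h3 : 0 < 1 - Real.exp (-R) := h2.trans h1
    refine le_trans ?_ (Real.one_sub_inv_le_log_of_pos (div_pos h3 h2))
    rw [inv_div, le_sub_iff_add_le, ← le_sub_iff_add_le', div_le_iff₀ h3]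
    nlinarith
  have hsum1 : c * ((J : ℝ) + 1 - j₀) ≤ ∑ j ∈ Finset.Icc j₀ J,
      (2⁻¹ : ℝ) ^ j * (S.filter (fun x => ‖x‖ ≤ 1 - 2⁻¹ ^ j)).card := by
    have h1 : c * ((J : ℝ) + 1 - j₀) ≤ ∑ j ∈ Finset.Icc j₀ J, c := by
      rw [Finset.sum_const, Nat.card_Icc, nsmul_eq_mul, mul_comm]
      refine mul_le_mul_of_nonneg_right ?_ hc.le
      have : ((J + 1 : ℕ) : ℝ) ≤ ((J + 1 - j₀ : ℕ) : ℝ) + j₀ := by
        rw [← Nat.cast_add]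
        exact_mod_cast (by omega)
      push_cast at this
      linarith
    refine h1.trans (Finset.sum_le_sum fun j hj => ?_)
    obtain ⟨ha, hb⟩ := Finset.mem_Icc.1 hj
    have h2 := hS2 j ha hb
    calc c = 2⁻¹ ^ j * (c * 2 ^ j) := by
          rw [inv_pow]
          field_simp
      _ ≤ _ := mul_le_mul_of_nonneg_left h2 (by positivity)
  have hsum2 : ∑ j ∈ Finset.Icc j₀ J, (2⁻¹ : ℝ) ^ j * (S.filter (fun x => ‖x‖ ≤ 1 - 2⁻¹ ^ j)).card =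
      ∑ x ∈ S, ∑ j ∈ (Finset.Icc j₀ J).filter (fun j => ‖x‖ ≤ 1 - 2⁻¹ ^ j), (2⁻¹ : ℝ) ^ j := by
    have h1 : ∀ j ∈ Finset.Icc j₀ J, (2⁻¹ : ℝ) ^ j * (S.filter (fun x => ‖x‖ ≤ 1 - 2⁻¹ ^ j)).card =
        ∑ x ∈ S, if ‖x‖ ≤ 1 - 2⁻¹ ^ j then (2⁻¹ : ℝ) ^ j else 0 := by
      intro j _
      rw [← Finset.sum_filter, Finset.sum_const, nsmul_eq_mul, mul_comm]
    rw [Finset.sum_congr rfl h1, Finset.sum_comm]
    refine Finset.sum_congr rfl fun x _ => ?_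
    rw [Finset.sum_filter]
  have hsum3 : ∑ x ∈ S, ∑ j ∈ (Finset.Icc j₀ J).filter (fun j => ‖x‖ ≤ 1 - 2⁻¹ ^ j), (2⁻¹ : ℝ) ^ j ≤
      ∑ x ∈ S, 4 * (1 - Real.exp (-R) - ‖x‖) :=
    Finset.sum_le_sum fun x hx => zr_dyadic hexp (hpos x hx).2
  have hsum4 := Finset.sum_le_sum hlog
  rw [← Finset.mul_sum] at hsum3
  have h5 : c * (R / 4) ≤ c * ((J : ℝ) + 1 - j₀) := mul_le_mul_of_nonneg_left (by linarith) hc.le
  linarith

end Pool.Agent.Lib.MP_5d4057_al.T5
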