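import Pool.Agent.Lib.MP_5d4057_al.T5.Bla
import Pool.Agent.Lib.MP_5d4057_al.T5.Zer
import Pool.Agent.Lib.MP_5d4057_al.T5.Ord

/-!
# T5: the analytic upper bound (owner: helper26)
-/

set_option autoImplicit false

namespace Pool.Agent.Lib.MP_5d4057_al.T5

open Metric Filter Topology Pool.Agent.Lib.MP_5d4057_al Pool.Agent.Lib.MP_5d4057_al.HM

variable {Γ : Subgroup (SUGroup 1)} {a b y₁ y₂ : ℂ → ℂ} {r : ℕ} {ex : Γ → (Fin r → ℤ)}
  {ν : (Fin r → ℤ) → ℂ} {c : ℕ → ℕ → ℂ}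

private theorem ba_exp_pos (x : ℝ) (hx : 0 < x) : ∃ c : ℝ, 0 ≤ c ∧ Real.exp (-c) ≤ x := by
  refine ⟨max 0 (-Real.log x), le_max_left _ _, ?_⟩
  calc Real.exp (-max 0 (-Real.log x)) ≤ Real.exp (Real.log x) := by
        refine Real.exp_le_exp.2 ?_
        have := le_max_right 0 (-Real.log x)
        linarith
    _ = x := Real.exp_log hx

private theorem ba_pow {x c : ℝ} (hx : Real.exp (-c) ≤ x) (k : ℕ) :
    Real.exp (-(c * k)) ≤ x ^ k := by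
  calc Real.exp (-(c * k)) = Real.exp (-c) ^ k := by
        rw [← Real.exp_nat_mul]
        ring_nf
    _ ≤ x ^ k := pow_le_pow_left₀ (Real.exp_pos _).le hx k

/-- PROOF. `bla` for `Gf .. (ν z)` with `ρ = 1 - exp (-R)`, the zeros of `zeros`, `Gf_orbit`, `Gf_growth`, `Gf_zero`. -/
theorem boxA (hΓ : Coc Γ) (h : An Γ a b y₁ y₂ r ex ν c) (hν : ∀ x y, ν (x + y) = ν x * ν y) :
    ∃ κ Λ : ℝ, 0 < κ ∧ 1 ≤ Λ ∧ ∀ R : ℝ, Λ ≤ R → ∀ N : ℕ, Λ * R ^ 2 ≤ N → ∀ z : Fin r → ℤ,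
      (N : ℤ) ^ 2 < n2 z → n2 z ≤ ((N : ℤ) + 1) ^ 2 → ∀ (D₀ D₁ T m : ℕ) (al : ℕ → ℕ → ℂ) (S : ℝ),
      (∀ i ≤ D₀, ∀ j ≤ D₁, ‖al i j‖ ≤ S) → m < T →
      (∀ z' : Fin r → ℤ, n2 z' ≤ (N : ℤ) ^ 2 → ∀ l < T, bet c D₀ D₁ al (ν z') l = 0) →
      (∀ l < m, bet c D₀ D₁ al (ν z) l = 0) →
      ‖bet c D₀ D₁ al (ν z) m‖ ≤ S * Real.exp (Λ * (D₀ + D₁ + 1) * R + Λ * T - κ * T * R) := by
  obtain ⟨κ, Λ₀, hκ, hΛ₀, hzer⟩ := zeros hΓ h.ex_mul h.ex_surj
  obtain ⟨Λ₁, hΛ₁, hgr⟩ := Gf_growth h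
  obtain ⟨c₁, hc₁, hb⟩ := ba_exp_pos ‖b 0‖ (norm_pos_iff.2 h.b0)
  obtain ⟨c₂, hc₂, hy⟩ := ba_exp_pos ‖y₂ 0‖ (norm_pos_iff.2 h.y20)
  obtain ⟨c₃, hc₃, ha⟩ := ba_exp_pos ‖deriv a 0 / b 0‖ (norm_pos_iff.2 (div_ne_zero h.a1 h.b0))
  refine ⟨κ, Λ₀ + Λ₁ + c₁ + c₂ + c₃ + 1, hκ, by linarith, ?_⟩
  set Λ := Λ₀ + Λ₁ + c₁ + c₂ + c₃ + 1 with hΛ
  intro R hR N hN z hz1 hz2 D₀ D₁ T m al S hal hm hbox hl
  have hR1 : 1 ≤ R := by linarith
  have hR2 : 0 ≤ R ^ 2 := sq_nonneg R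
  obtain ⟨Z, hZ, hsum⟩ := hzer R (by linarith) N (by nlinarith) z hz1 hz2
  have hS0 : 0 ≤ S := (norm_nonneg _).trans (hal 0 (Nat.zero_le _) 0 (Nat.zero_le _))
  set H : ℂ → ℂ := Gf a b y₁ y₂ D₀ D₁ al (ν z) with hH
  set ρ : ℝ := 1 - Real.exp (-R) with hρ
  have hexp0 := Real.exp_pos (-R)
  have hρ1 : ρ < 1 := by rw [hρ]; linarith
  have hρe : Real.exp (-1) ≤ ρ := by
    have h1 : Real.exp (-R) ≤ Real.exp (-1) := Real.exp_le_exp.2 (by linarith)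
    have h2 : Real.exp (-1) ≤ 1 / 2 := by
      rw [Real.exp_neg, one_div]
      exact inv_anti₀ (by norm_num) (by linarith [Real.add_one_le_exp (1 : ℝ)])
    rw [hρ]
    linarith
  have hρ0 : 0 < ρ := (Real.exp_pos _).trans_le hρe
  have hHd : DifferentiableOn ℂ H (ball 0 1) := Gf_diff h D₀ D₁ al (ν z)
  have hsub : closedBall (0 : ℂ) ρ ⊆ ball 0 1 := closedBall_subset_ball hρ1
  obtain ⟨k, hk, hk0, hkH⟩ := Gf_zero h D₀ D₁ al (ν z) m hl
  -- the quotient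
  set K : ℂ → ℂ := fun x => if x = 0 then k 0 else H x / x ^ m with hK
  have hKH : ∀ x, x ≠ 0 → H x = x ^ m * K x := by
    intro x hx
    rw [hK]
    simp only [if_neg hx]
    rw [mul_div_cancel₀ _ (pow_ne_zero m hx)]
  have hKk : ∀ᶠ x in 𝓝 (0 : ℂ), K x = k x := by
    filter_upwards [hkH] with x hx
    rw [hK]
    by_cases h0 : x = 0
    · show (if x = 0 then k 0 else H x / x ^ m) = k x
      rw [if_pos h0, h0]
    · simp only [if_neg h0]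
      rw [hH, hx, mul_div_cancel_left₀ _ (pow_ne_zero m h0)]
  have hH0 : H 0 = 0 ^ m * K 0 := by
    have h1 := hkH.self_of_nhds
    have h2 := hKk.self_of_nhds
    rw [h2]
    exact h1
  have hKd : DifferentiableOn ℂ K (ball 0 1) := by
    intro x hx
    refine DifferentiableAt.differentiableWithinAt ?_
    by_cases h0 : x = 0
    · rw [h0]
      exact hk.differentiableAt.congr_of_eventuallyEq hKk
    · have h1 : DifferentiableAt ℂ (fun x => H x / x ^ m) x :=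
        ((hHd x hx).differentiableAt (isOpen_ball.mem_nhds hx)).div
          (differentiableAt_id.pow m) (pow_ne_zero m h0)
      refine h1.congr_of_eventuallyEq ?_
      filter_upwards [isOpen_ne.mem_nhds h0] with y hy
      rw [hK]
      simp only [if_neg hy]
  set M : ℝ := (D₀ + 1) * (D₁ + 1) * S * Real.exp (Λ₁ * (D₀ + D₁) * R) with hM
  have hKo : ∀ w ∈ Z, (T : ℕ∞) ≤ analyticOrderAt K w := by
    intro w hw
    have hw0 : w ≠ 0 := (hZ w hw).1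
    have hwb : w ∈ ball (0 : ℂ) 1 := by
      rw [mem_ball_zero_iff]
      exact (hZ w hw).2.1.trans hρ1
    have hKa : AnalyticAt ℂ K w := hKd.analyticAt (isOpen_ball.mem_nhds hwb)
    have hpa : AnalyticAt ℂ (fun x : ℂ => x ^ m) w := analyticAt_id.pow m
    have h1 : analyticOrderAt H w = analyticOrderAt (fun x : ℂ => x ^ m) w +
        analyticOrderAt K w := by
      rw [← analyticOrderAt_mul hpa hKa]
      refine analyticOrderAt_congr ?_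
      filter_upwards [isOpen_ne.mem_nhds hw0] with x hx
      exact hKH x hx
    have h2 : analyticOrderAt (fun x : ℂ => x ^ m) w = 0 :=
      hpa.analyticOrderAt_eq_zero.2 (pow_ne_zero m hw0)
    rw [h2, zero_add] at h1
    rw [← h1]
    obtain ⟨γ, hγ, hγ2⟩ := (hZ w hw).2.2
    rw [← hγ]
    exact Gf_orbit h hν D₀ D₁ al z γ (fun l hl => hbox _ hγ2 l hl)
  have key := bla (k := K) (ρ := ρ) (M := M) (T := T) (m := m) (S := Z) hρ0 hρ1 hKd
    (fun w hw => ⟨(hZ w hw).1, (hZ w hw).2.1⟩) hKo (fun x hx => by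
      have hx0 : x ≠ 0 := by
        intro h0
        rw [h0, norm_zero] at hx
        exact hρ0.ne hx
      rw [← hKH x hx0]
      exact hgr R hR1 D₀ D₁ al (ν z) S (h.nrm z) hal x hx.le)
  -- the product
  have hprod : Real.exp (κ * T * R) ≤ ∏ w ∈ Z, (ρ / ‖w‖) ^ T := by
    have hpos : ∀ w ∈ Z, 0 < ρ / ‖w‖ := fun w hw => div_pos hρ0 (norm_pos_iff.2 (hZ w hw).1)
    have h1 : ∏ w ∈ Z, (ρ / ‖w‖) ^ T = Real.exp (T * ∑ w ∈ Z, Real.log (ρ / ‖w‖)) := by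
      rw [Finset.prod_pow, mul_comm, Real.exp_mul, Real.exp_sum, Real.rpow_natCast]
      congr 1
      exact Finset.prod_congr rfl fun w hw => (Real.exp_log (hpos w hw)).symm
    rw [h1]
    refine Real.exp_le_exp.2 ?_
    have h2 : (0 : ℝ) ≤ T := Nat.cast_nonneg T
    nlinarith [mul_le_mul_of_nonneg_left hsum h2]
  have hK0 : K 0 = k 0 := by rw [hK]; simp
  have hbet0 := norm_nonneg (bet c D₀ D₁ al (ν z) m)
  have hnk : ‖bet c D₀ D₁ al (ν z) m‖ * Real.exp (-((c₁ + c₂ + c₃) * (D₀ + D₁ + T))) ≤ ‖K 0‖ := by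
    rw [hK0, hk0, norm_mul, norm_mul, norm_mul, norm_pow, norm_pow, norm_pow, mul_comm]
    refine mul_le_mul_of_nonneg_right ?_ hbet0
    have e1 := ba_pow hb D₀
    have e2 := ba_pow hy D₁
    have e3 := ba_pow ha m
    have hmT : (m : ℝ) ≤ T := by exact_mod_cast hm.le
    have hD0 : (0 : ℝ) ≤ D₀ := Nat.cast_nonneg _
    have hD1 : (0 : ℝ) ≤ D₁ := Nat.cast_nonneg _
    have hm0 : (0 : ℝ) ≤ m := Nat.cast_nonneg _
    calc Real.exp (-((c₁ + c₂ + c₃) * (D₀ + D₁ + T)))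
        ≤ Real.exp (-(c₁ * D₀)) * Real.exp (-(c₂ * D₁)) * Real.exp (-(c₃ * m)) := by
          rw [← Real.exp_add, ← Real.exp_add]
          refine Real.exp_le_exp.2 ?_
          have f1 := mul_nonneg hc₁ hD1
          have f2 := mul_nonneg hc₁ (hm0.trans hmT)
          have f3 := mul_nonneg hc₂ hD0
          have f4 := mul_nonneg hc₂ (hm0.trans hmT)
          have f5 := mul_nonneg hc₃ hD0
          have f6 := mul_nonneg hc₃ hD1
          have f7 := mul_le_mul_of_nonneg_left hmT hc₃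
          nlinarith
      _ ≤ _ := by
          gcongr
  have hρm : Real.exp (-(T : ℝ)) ≤ ρ ^ m := by
    have h1 := ba_pow hρe m
    rw [one_mul] at h1
    refine le_trans (Real.exp_le_exp.2 ?_) h1
    have : (m : ℝ) ≤ T := by exact_mod_cast hm.le
    linarith
  have hρm0 : 0 < ρ ^ m := pow_pos hρ0 m
  have hdd : ((D₀ : ℝ) + 1) * (D₁ + 1) ≤ Real.exp (D₀ + D₁) := by
    rw [Real.exp_add]
    exact mul_le_mul (Real.add_one_le_exp _) (Real.add_one_le_exp _) (by positivity)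
      (Real.exp_pos _).le
  have hM0 : 0 ≤ M := by rw [hM]; positivity
  have hMρ : M / ρ ^ m ≤ S * Real.exp (D₀ + D₁ + Λ₁ * (D₀ + D₁) * R + T) := by
    rw [div_le_iff₀ hρm0]
    calc M ≤ Real.exp (D₀ + D₁) * S * Real.exp (Λ₁ * (D₀ + D₁) * R) := by
          rw [hM]
          gcongr
      _ = S * Real.exp (D₀ + D₁ + Λ₁ * (D₀ + D₁) * R + T) * Real.exp (-(T : ℝ)) := by
          have e : Real.exp (D₀ + D₁ + Λ₁ * (D₀ + D₁) * R + T) * Real.exp (-(T : ℝ)) =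
              Real.exp (D₀ + D₁) * Real.exp (Λ₁ * (D₀ + D₁) * R) := by
            rw [← Real.exp_add, ← Real.exp_add]
            congr 1
            ring
          rw [mul_assoc S, e]
          ring
      _ ≤ _ := mul_le_mul_of_nonneg_left hρm (mul_nonneg hS0 (Real.exp_pos _).le)
  have hP0 : 0 < Real.exp (κ * T * R) := Real.exp_pos _
  have h1 : ‖bet c D₀ D₁ al (ν z) m‖ * Real.exp (-((c₁ + c₂ + c₃) * (D₀ + D₁ + T))) *
      Real.exp (κ * T * R) ≤ S * Real.exp (D₀ + D₁ + Λ₁ * (D₀ + D₁) * R + T) :=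
    (mul_le_mul hnk hprod hP0.le (norm_nonneg _)).trans (key.trans hMρ)
  have h2 : ‖bet c D₀ D₁ al (ν z) m‖ =
      (‖bet c D₀ D₁ al (ν z) m‖ * Real.exp (-((c₁ + c₂ + c₃) * (D₀ + D₁ + T))) *
      Real.exp (κ * T * R)) * Real.exp ((c₁ + c₂ + c₃) * (D₀ + D₁ + T) - κ * T * R) := by
    rw [mul_assoc, mul_assoc, ← Real.exp_add, ← Real.exp_add]
    rw [show -((c₁ + c₂ + c₃) * (D₀ + D₁ + T)) +
      (κ * T * R + ((c₁ + c₂ + c₃) * (D₀ + D₁ + T) - κ * T * R)) = 0 by ring]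
    rw [Real.exp_zero, mul_one]
  rw [h2]
  refine (mul_le_mul_of_nonneg_right h1 (Real.exp_pos _).le).trans ?_
  rw [mul_assoc, ← Real.exp_add]
  refine mul_le_mul_of_nonneg_left (Real.exp_le_exp.2 ?_) hS0
  have hD : (0 : ℝ) ≤ (D₀ : ℝ) + D₁ := by positivity
  have hT : (0 : ℝ) ≤ T := Nat.cast_nonneg _
  have g1 : (D₀ : ℝ) + D₁ ≤ (D₀ + D₁) * R := by nlinarith
  have g2 : (c₁ + c₂ + c₃) * ((D₀ : ℝ) + D₁) ≤ (c₁ + c₂ + c₃) * ((D₀ + D₁) * R) :=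
    mul_le_mul_of_nonneg_left g1 (by positivity)
  have g3 : 0 ≤ Λ₀ * ((D₀ : ℝ) + D₁) * R := by positivity
  have g4 : 0 ≤ Λ * R := by positivity
  have g5 : 0 ≤ (Λ₀ + Λ₁) * T := by positivity
  rw [hΛ] at g4 ⊢
  nlinarith

end Pool.Agent.Lib.MP_5d4057_al.T5
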