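import Pool.Agent.Lib.MP_5d4057_al.T5.Defs
import Pool.Agent.Lib.MP_5d4057_al.HM.Cut

/-!
# T5: growth of exponents (owner: helper74)
-/

set_option autoImplicit false

namespace Pool.Agent.Lib.MP_5d4057_al.T5

open Metric Filter Topology Pool.Agent.Lib.MP_5d4057_al Pool.Agent.Lib.MP_5d4057_al.HM

variable {Γ : Subgroup (SUGroup 1)}

section

open scoped Matrix.Norms.L2Operator

/-- The representation of rank one `γ ↦ exp (κ γ)`. -/
noncomputable def rkz (κ : Γ → ℤ) (hm : ∀ γ δ : Γ, κ (γ * δ) = κ γ + κ δ) : Γ →* Mat 1 where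
  toFun γ := ((Real.exp (κ γ) : ℝ) : ℂ) • (1 : Mat 1)
  map_one' := by
    have h : κ 1 = 0 := by
      have h1 := hm 1 1
      rw [mul_one] at h1
      omega
    rw [h]
    simp
  map_mul' a b := by
    rw [hm, Int.cast_add, Real.exp_add, Complex.ofReal_mul, smul_mul_smul_comm, mul_one]

theorem growth_one (hΓ : Coc Γ) {κ : Γ → ℤ} (hm : ∀ γ δ : Γ, κ (γ * δ) = κ γ + κ δ) :
    ∃ C : ℝ, 0 < C ∧ ∀ γ : Γ, (κ γ : ℝ) ≤ C * (1 + Real.log (ch (γ : SUGroup 1))) := by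
  obtain ⟨N, C, hC, h⟩ := rho_growth le_rfl hΓ (rkz κ hm)
  refine ⟨|Real.log C| + N + 1, by positivity, fun γ => ?_⟩
  have h1 := h γ
  have h2 : ‖rkz κ hm γ‖ = Real.exp (κ γ) := by
    change ‖((Real.exp (κ γ) : ℝ) : ℂ) • (1 : Mat 1)‖ = _
    rw [norm_smul, norm_one, mul_one, Complex.norm_real, Real.norm_of_nonneg (Real.exp_pos _).le]
  have hch : 1 ≤ ch (γ : SUGroup 1) := one_le_ch _
  have hl : 0 ≤ Real.log (ch (γ : SUGroup 1)) := Real.log_nonneg hch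
  rw [h2] at h1
  have h3 := Real.log_le_log (Real.exp_pos _) h1
  rw [Real.log_exp, Real.log_mul hC.ne' (by positivity), Real.log_pow] at h3
  have h4 : Real.log C ≤ |Real.log C| := le_abs_self _
  have h5 : (0 : ℝ) ≤ N := Nat.cast_nonneg N
  have h6 : 0 ≤ |Real.log C| := abs_nonneg _
  nlinarith [mul_nonneg h6 hl]

end

/-- Homomorphisms to `ℤ^r` grow like the distance. PROOF: `rho_growth` (HM/Cut) for the diagonal representations with entries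
`exp (± ex γ i)`. -/
theorem ex_growth (hΓ : Coc Γ) {r : ℕ} {ex : Γ → (Fin r → ℤ)}
    (hm : ∀ γ δ : Γ, ex (γ * δ) = ex γ + ex δ) :
    ∃ C : ℝ, 0 < C ∧ ∀ γ : Γ, Real.sqrt (n2 (ex γ) : ℝ) ≤ C * (1 + Real.log (ch (γ : SUGroup 1))) := by
  have h1 : ∀ i : Fin r, ∃ C : ℝ, 0 < C ∧ ∀ γ : Γ,
      |(ex γ i : ℝ)| ≤ C * (1 + Real.log (ch (γ : SUGroup 1))) := by
    intro i
    obtain ⟨C, hC, h⟩ := growth_one hΓ (κ := fun γ => ex γ i) (fun γ δ => by rw [hm]; rfl)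
    obtain ⟨C', hC', h'⟩ := growth_one hΓ (κ := fun γ => - ex γ i)
      (fun γ δ => by rw [hm, Pi.add_apply]; ring)
    refine ⟨C + C', by positivity, fun γ => ?_⟩
    have hl : 0 ≤ Real.log (ch (γ : SUGroup 1)) := Real.log_nonneg (one_le_ch _)
    have a1 := h γ
    have a2 := h' γ
    rw [Int.cast_neg] at a2
    rw [abs_le]
    constructor <;> nlinarith [mul_nonneg hC.le hl, mul_nonneg hC'.le hl]
  choose C hC hCb using h1
  refine ⟨1 + ∑ i, C i, by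
    have := Finset.sum_nonneg (fun i (_ : i ∈ Finset.univ) => (hC i).le)
    linarith, fun γ => ?_⟩
  have hl : 0 ≤ Real.log (ch (γ : SUGroup 1)) := Real.log_nonneg (one_le_ch _)
  have h2 : (n2 (ex γ) : ℝ) ≤ (∑ i, |(ex γ i : ℝ)|) ^ 2 := by
    rw [n2, Int.cast_sum]
    have h3 : ∀ i, ((ex γ i ^ 2 : ℤ) : ℝ) = |(ex γ i : ℝ)| ^ 2 := by
      intro i
      rw [Int.cast_pow, sq_abs]
    simp_rw [h3]
    exact Finset.sum_sq_le_sq_sum_of_nonneg fun i _ => abs_nonneg _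
  have h4 : 0 ≤ ∑ i, |(ex γ i : ℝ)| := Finset.sum_nonneg fun i _ => abs_nonneg _
  have h5 : Real.sqrt (n2 (ex γ) : ℝ) ≤ ∑ i, |(ex γ i : ℝ)| := by
    rw [← Real.sqrt_sq h4]
    exact Real.sqrt_le_sqrt h2
  refine h5.trans ((Finset.sum_le_sum fun i _ => hCb i γ).trans ?_)
  rw [← Finset.sum_mul]
  have h6 : 0 ≤ ∑ i, C i := Finset.sum_nonneg fun i _ => (hC i).le
  nlinarith

end Pool.Agent.Lib.MP_5d4057_al.T5
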