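import Pool.Agent.Lib.MP_5d4057_al.T5.Defs

/-!
# T5: Liouville's inequality (owner: helper45)
-/

set_option autoImplicit false

namespace Pool.Agent.Lib.MP_5d4057_al.T5

open Metric Filter Topology Pool.Agent.Lib.MP_5d4057_al Pool.Agent.Lib.MP_5d4057_al.HM

open NumberField

variable {K : Type} [Field K] [NumberField K] {r : ℕ} {ν : (Fin r → ℤ) → K} {c : ℕ → ℕ → K} {M : ℕ}

/-- A nonzero algebraic integer of house at most `B` is at least `B ^ (-(d - 1))`. -/
private theorem liou_int (σ₀ : K →+* ℂ) {X : K} (hX : IsIntegral ℤ X) (hX0 : X ≠ 0) {B : ℝ}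
    (hB : 1 ≤ B) (hXB : house X ≤ B) : (B ^ Module.finrank ℚ K)⁻¹ ≤ ‖σ₀ X‖ * B⁻¹ := by
  have hd : 0 < Module.finrank ℚ K := Module.finrank_pos
  have h1 := norm_norm_le_norm_mul_house_pow X σ₀
  have h2 : (1 : ℝ) ≤ ‖Algebra.norm ℚ X‖ := by
    obtain ⟨x, hx⟩ : ∃ x : 𝓞 K, (x : K) = X := ⟨⟨X, hX⟩, rfl⟩
    have h3 : Algebra.norm ℚ X = ((Algebra.norm ℤ x : ℤ) : ℚ) := by
      rw [← hx, Algebra.coe_norm_int]
    have h4 : Algebra.norm ℤ x ≠ 0 := by
      rw [Algebra.norm_ne_zero_iff]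
      rintro rfl
      exact hX0 hx.symm
    have h5 : (1 : ℤ) ≤ |Algebra.norm ℤ x| := Int.one_le_abs h4
    rw [h3]
    have h6 : ‖((Algebra.norm ℤ x : ℤ) : ℚ)‖ = ((|Algebra.norm ℤ x| : ℤ) : ℝ) := by
      rw [← Rat.norm_cast_real, Rat.cast_intCast, Real.norm_eq_abs, Int.cast_abs]
    rw [h6]
    exact_mod_cast h5
  have h3 : house X ^ (Module.finrank ℚ K - 1) ≤ B ^ (Module.finrank ℚ K - 1) :=
    pow_le_pow_left₀ (house_nonneg X) hXB _
  have h4 : (1 : ℝ) ≤ ‖σ₀ X‖ * B ^ (Module.finrank ℚ K - 1) :=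
    h2.trans (h1.trans (mul_le_mul_of_nonneg_left h3 (norm_nonneg _)))
  have hB0 : 0 < B := by linarith
  have h5 : B ^ Module.finrank ℚ K = B ^ (Module.finrank ℚ K - 1) * B := by
    rw [← pow_succ, Nat.sub_add_cancel hd]
  rw [h5, mul_inv]
  refine mul_le_mul_of_nonneg_right ?_ (inv_nonneg.2 hB0.le)
  rw [inv_le_iff_one_le_mul₀ (by positivity)]
  exact h4

omit [NumberField K] in
/-- The term with the indices `i`, `j`, multiplied by the denominator. -/
private theorem term_eq {m i j D₁ l : ℕ} (hi : i ≤ m) (hj : j ≤ D₁) (a n s : K) :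
    (M : K) ^ (2 * m) * (m.factorial : K) * (M : K) ^ (D₁ * l) * (a * n ^ j * s) =
      (M : K) ^ (2 * i) * (m.descFactorial i : K) * (M : K) ^ ((D₁ - j) * l) *
        (a * ((M : K) ^ l * n) ^ j * ((M : K) ^ (2 * (m - i)) * ((m - i).factorial : K) * s)) := by
  have h1 : m.factorial = (m - i).factorial * m.descFactorial i :=
    (Nat.factorial_mul_descFactorial hi).symm
  have h2 : 2 * m = 2 * i + 2 * (m - i) := by omega
  have h3 : D₁ * l = (D₁ - j) * l + l * j := by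
    rw [mul_comm l j, ← add_mul, Nat.sub_add_cancel hj]
  rw [h2, pow_add, h1, h3, pow_add, Nat.cast_mul, mul_pow, ← pow_mul]
  ring

/-- The final inequality. -/
private theorem final_ineq {H A D l m L μ : ℝ} (hH : 0 ≤ H) (hA : 0 ≤ A) (hD : 0 ≤ D) (hl : 0 ≤ l)
    (hm : 0 ≤ m) (hL : 1 / 2 ≤ L) (hμ : 0 ≤ μ) :
    H + A + D + 2 * (m * μ) + 2 * (D * l * μ) + m * L + 3 * m * (μ + 2 * L) ≤
      (10 * μ + 7) * (H + A + (D + 1) * (l + 1) + m * L) := by
  have k1 : m ≤ 2 * (m * L) := by nlinarith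
  have k2 : D * l ≤ (D + 1) * (l + 1) := by nlinarith
  have k3 : D ≤ (D + 1) * (l + 1) := by nlinarith
  have k4 : 0 ≤ m * L := mul_nonneg hm (by linarith)
  have k5 : m * μ ≤ 2 * (m * L) * μ := mul_le_mul_of_nonneg_right k1 hμ
  have k6 : D * l * μ ≤ (D + 1) * (l + 1) * μ := mul_le_mul_of_nonneg_right k2 hμ
  have k7 : 0 ≤ H * μ := mul_nonneg hH hμ
  have k8 : 0 ≤ A * μ := mul_nonneg hA hμ
  have k9 : 0 ≤ (D + 1) * (l + 1) * μ := mul_nonneg (by positivity) hμ
  have k10 : 0 ≤ (D + 1) * (l + 1) := by positivity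
  have k11 : 0 ≤ m * L * μ := mul_nonneg k4 hμ
  have e1 : (10 * μ + 7) * (H + A + (D + 1) * (l + 1) + m * L) = 10 * (H * μ) + 10 * (A * μ) +
      10 * ((D + 1) * (l + 1) * μ) + 10 * (m * L * μ) + 7 * H + 7 * A +
      7 * ((D + 1) * (l + 1)) + 7 * (m * L) := by ring
  have e2 : H + A + D + 2 * (m * μ) + 2 * (D * l * μ) + m * L + 3 * m * (μ + 2 * L) =
      H + A + D + 5 * (m * μ) + 2 * (D * l * μ) + 7 * (m * L) := by ring
  rw [e1, e2]
  linarith

/-- PROOF. `X = M^(2m) m! M^(D₁ l1 z) bet` is a nonzero algebraic integer (`c_int`, `nu_int`), all its conjugates are at most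
`(D₀+1)(D₁+1) exp H M^(2m + 2 D₁ l1 z) m^m (M (D₁+1) (m+1))^(3m)`, and `1 ≤ ‖σ₀ X‖ house X^(d-1)` (`norm_norm_le_norm_mul_house_pow`). -/
theorem liou (hA : Ar K r ν c M) (σ₀ : K →+* ℂ) : ∃ Λ : ℝ, 1 ≤ Λ ∧ ∀ (D₀ D₁ : ℕ)
    (a : ℕ → ℕ → 𝓞 K) (H : ℝ), 0 ≤ H → (∀ i ≤ D₀, ∀ j ≤ D₁, house (a i j : K) ≤ Real.exp H) →
    ∀ (z : Fin r → ℤ) (m : ℕ), bet c D₀ D₁ (fun i j => (a i j : K)) (ν z) m ≠ 0 →
      Real.exp (-(Λ * (H + D₀ + (D₁ + 1) * (l1 z + 1) + m * Real.log (m + D₁ + 2)))) ≤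
        ‖σ₀ (bet c D₀ D₁ (fun i j => (a i j : K)) (ν z) m)‖ := by
  classical
  have hM1 : (1 : ℝ) ≤ M := by exact_mod_cast hA.pos
  have hM0 : (0 : ℝ) < M := by linarith
  have hμ : 0 ≤ Real.log M := Real.log_nonneg hM1
  obtain ⟨d, hd⟩ : ∃ d : ℕ, d = Module.finrank ℚ K := ⟨_, rfl⟩
  have hd1 : 1 ≤ d := by
    rw [hd]
    exact Module.finrank_pos
  refine ⟨d * (10 * Real.log M + 7), ?_, ?_⟩
  · have h1 : (1 : ℝ) ≤ d := by exact_mod_cast hd1
    nlinarith
  intro D₀ D₁ a H hH ha z m hne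
  obtain ⟨l, hl⟩ : ∃ l : ℕ, l = l1 z := ⟨_, rfl⟩
  obtain ⟨S, hS⟩ : ∃ S : K, S = bet c D₀ D₁ (fun i j => (a i j : K)) (ν z) m := ⟨_, rfl⟩
  rw [← hS] at hne ⊢
  rw [← hl]
  obtain ⟨X, hX⟩ : ∃ X : K, X = (M : K) ^ (2 * m) * (m.factorial : K) * (M : K) ^ (D₁ * l) * S :=
    ⟨_, rfl⟩
  -- `X` as a sum
  have hXsum : X = ∑ i ∈ Finset.range (D₀ + 1), ∑ j ∈ Finset.range (D₁ + 1),
      if i ≤ m then (M : K) ^ (2 * i) * (m.descFactorial i : K) * (M : K) ^ ((D₁ - j) * l) *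
        ((a i j : K) * ((M : K) ^ l * ν z) ^ j *
          ((M : K) ^ (2 * (m - i)) * ((m - i).factorial : K) * c j (m - i))) else 0 := by
    rw [hX, hS, bet, Finset.mul_sum]
    refine Finset.sum_congr rfl fun i _ => ?_
    rw [Finset.mul_sum]
    refine Finset.sum_congr rfl fun j hj => ?_
    split_ifs with h
    · exact term_eq h (Nat.lt_succ_iff.1 (Finset.mem_range.1 hj)) _ _ _
    · rw [mul_zero]
  have hMint : IsIntegral ℤ (M : K) := by
    have := isIntegral_algebraMap (R := ℤ) (A := K) (x := (M : ℤ))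
    simpa using this
  have hNint : ∀ n : ℕ, IsIntegral ℤ (n : K) := by
    intro n
    have := isIntegral_algebraMap (R := ℤ) (A := K) (x := (n : ℤ))
    simpa using this
  have hXint : IsIntegral ℤ X := by
    rw [hXsum]
    refine IsIntegral.sum _ fun i _ => IsIntegral.sum _ fun j _ => ?_
    split_ifs with h
    · refine IsIntegral.mul (((hMint.pow _).mul (hNint _)).mul (hMint.pow _))
        (((RingOfIntegers.isIntegral_coe (a i j)).mul ?_).mul (hA.c_int j (m - i)))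
      rw [hl]
      exact (hA.nu_int z).pow j
    · exact isIntegral_zero
  have hMK : (M : K) ≠ 0 := Nat.cast_ne_zero.2 hA.pos.ne'
  have hfK : (m.factorial : K) ≠ 0 := Nat.cast_ne_zero.2 (Nat.factorial_ne_zero m)
  have hX0 : X ≠ 0 := by
    rw [hX]
    exact mul_ne_zero (mul_ne_zero (mul_ne_zero (pow_ne_zero _ hMK) hfK) (pow_ne_zero _ hMK)) hne
  -- the bound
  obtain ⟨L, hL⟩ : ∃ L : ℝ, L = Real.log (m + D₁ + 2) := ⟨_, rfl⟩
  have hpos : (0 : ℝ) < m + D₁ + 2 := by positivity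
  have hexpL : Real.exp L = m + D₁ + 2 := by rw [hL, Real.exp_log hpos]
  have hL0 : (1 : ℝ) / 2 ≤ L := by
    have h1 : Real.log 2 ≤ L := by
      rw [hL]
      refine Real.log_le_log (by norm_num) ?_
      have h2 : (0 : ℝ) ≤ m := Nat.cast_nonneg _
      have h3 : (0 : ℝ) ≤ D₁ := Nat.cast_nonneg _
      linarith
    have h2 := Real.log_two_gt_d9
    linarith
  obtain ⟨G, hG⟩ : ∃ G : ℝ, G = H + D₀ + (D₁ + 1) * (l + 1) + m * L := ⟨_, rfl⟩
  obtain ⟨B, hB⟩ : ∃ B : ℝ, B = Real.exp (H + D₀ + D₁ + 2 * (m * Real.log M) +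
    2 * (D₁ * l * Real.log M) + m * L + 3 * m * (Real.log M + 2 * L)) := ⟨_, rfl⟩
  have hm0 : (0 : ℝ) ≤ m := Nat.cast_nonneg _
  have hl0 : (0 : ℝ) ≤ l := Nat.cast_nonneg _
  have hD0 : (0 : ℝ) ≤ D₀ := Nat.cast_nonneg _
  have hD1 : (0 : ℝ) ≤ D₁ := Nat.cast_nonneg _
  have hexpM : Real.exp (Real.log M) = M := Real.exp_log hM0
  -- each term
  have hterm : ∀ i ≤ D₀, ∀ j ≤ D₁, i ≤ m → house ((M : K) ^ (2 * i) * (m.descFactorial i : K) *
      (M : K) ^ ((D₁ - j) * l) * ((a i j : K) * ((M : K) ^ l * ν z) ^ j *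
      ((M : K) ^ (2 * (m - i)) * ((m - i).factorial : K) * c j (m - i)))) ≤
      Real.exp H * (M : ℝ) ^ (2 * m + 2 * (D₁ * l)) * ((m : ℝ) ^ m) *
        ((M : ℝ) * (D₁ + 1) * (m + 1)) ^ (3 * m) := by
    intro i hi j hj him
    have h1 : (M : K) ^ (2 * i) * (m.descFactorial i : K) * (M : K) ^ ((D₁ - j) * l) *
        ((a i j : K) * ((M : K) ^ l * ν z) ^ j *
          ((M : K) ^ (2 * (m - i)) * ((m - i).factorial : K) * c j (m - i))) =
        ((M ^ (2 * m + D₁ * l) * m.descFactorial i : ℕ) : K) *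
          ((a i j : K) * ν z ^ j * (((m - i).factorial : K) * c j (m - i))) := by
      have h2 : 2 * m + D₁ * l = 2 * i + (D₁ - j) * l + l * j + 2 * (m - i) := by
        have h3 : (D₁ - j) * l + l * j = D₁ * l := by
          rw [mul_comm l j, ← add_mul, Nat.sub_add_cancel hj]
        omega
      rw [h2]
      push_cast
      rw [pow_add, pow_add, pow_add, mul_pow, ← pow_mul]
      ring
    rw [h1, house_nat_mul]
    have h3 : house ((a i j : K) * ν z ^ j * (((m - i).factorial : K) * c j (m - i))) ≤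
        Real.exp H * (M : ℝ) ^ (D₁ * l) * ((M : ℝ) * (D₁ + 1) * (m + 1)) ^ (3 * m) := by
      refine (house_mul_le _ _).trans (mul_le_mul ?_ ?_ (house_nonneg _) (by positivity))
      · refine (house_mul_le _ _).trans (mul_le_mul (ha i hi j hj) ?_ (house_nonneg _)
          (Real.exp_pos _).le)
        refine (house_pow_le _ _).trans ?_
        refine (pow_le_pow_left₀ (house_nonneg _) (hA.nu_house z) j).trans ?_
        rw [← hl, ← pow_mul]
        exact pow_le_pow_right₀ hM1 (by rw [mul_comm D₁]; exact Nat.mul_le_mul_left _ hj)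
      · refine (hA.c_house j (m - i)).trans ?_
        have h4 : (1 : ℝ) ≤ (M : ℝ) * (D₁ + 1) * (m + 1) := by
          have h5 : (1 : ℝ) ≤ (M : ℝ) * (D₁ + 1) := by nlinarith
          nlinarith
        refine (pow_le_pow_left₀ (by positivity) (?_ :
          (M : ℝ) * (j + 1) * ((m - i : ℕ) + 1) ≤ (M : ℝ) * (D₁ + 1) * (m + 1)) _).trans
          (pow_le_pow_right₀ h4 (by omega))
        have h5 : (j : ℝ) ≤ D₁ := by exact_mod_cast hj
        have h6 : ((m - i : ℕ) : ℝ) ≤ m := by exact_mod_cast Nat.sub_le m i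
        refine mul_le_mul (mul_le_mul_of_nonneg_left (by linarith) hM0.le) (by linarith)
          (by positivity) (by positivity)
    have h4 : ((M ^ (2 * m + D₁ * l) * m.descFactorial i : ℕ) : ℝ) ≤
        (M : ℝ) ^ (2 * m + D₁ * l) * (m : ℝ) ^ m := by
      push_cast
      refine mul_le_mul_of_nonneg_left ?_ (by positivity)
      have h5 : m.descFactorial i ≤ m ^ m := by
        rcases Nat.eq_zero_or_pos m with h0 | h0
        · subst h0
          rw [Nat.le_zero.1 him]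
          simp
        · exact (Nat.descFactorial_le_pow m i).trans (Nat.pow_le_pow_right h0 him)
      exact_mod_cast h5
    refine (mul_le_mul h4 h3 (house_nonneg _) (by positivity)).trans (le_of_eq ?_)
    have h5 : 2 * m + 2 * (D₁ * l) = (2 * m + D₁ * l) + D₁ * l := by ring
    rw [h5, pow_add _ (2 * m + D₁ * l)]
    ring
  have hXB : house X ≤ B := by
    have h1 : house X ≤ ∑ i ∈ Finset.range (D₀ + 1), ∑ j ∈ Finset.range (D₁ + 1),
        Real.exp H * (M : ℝ) ^ (2 * m + 2 * (D₁ * l)) * ((m : ℝ) ^ m) *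
        ((M : ℝ) * (D₁ + 1) * (m + 1)) ^ (3 * m) := by
      rw [hXsum]
      refine (house_sum_le_sum_house _ _).trans (Finset.sum_le_sum fun i hi => ?_)
      refine (house_sum_le_sum_house _ _).trans (Finset.sum_le_sum fun j hj => ?_)
      split_ifs with h
      · exact hterm i (Nat.lt_succ_iff.1 (Finset.mem_range.1 hi)) j
          (Nat.lt_succ_iff.1 (Finset.mem_range.1 hj)) h
      · have h2 : house (0 : K) = 0 := by
          have := house_intCast (K := K) 0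
          simpa using this
        rw [h2]
        positivity
    refine h1.trans ?_
    rw [Finset.sum_const, Finset.sum_const, Finset.card_range, Finset.card_range, nsmul_eq_mul,
      nsmul_eq_mul]
    push_cast
    have e1 : (D₀ : ℝ) + 1 ≤ Real.exp D₀ := Real.add_one_le_exp _
    have e2 : (D₁ : ℝ) + 1 ≤ Real.exp D₁ := Real.add_one_le_exp _
    have e3 : (M : ℝ) ^ (2 * m + 2 * (D₁ * l)) =
        Real.exp (2 * (m * Real.log M) + 2 * (D₁ * l * Real.log M)) := by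
      rw [show 2 * (m * Real.log M) + 2 * (D₁ * l * Real.log M) =
        ((2 * m + 2 * (D₁ * l) : ℕ) : ℝ) * Real.log M by push_cast; ring, Real.exp_nat_mul, hexpM]
    have e4 : (m : ℝ) ^ m ≤ Real.exp (m * L) := by
      rw [Real.exp_nat_mul, hexpL]
      exact pow_le_pow_left₀ hm0 (by linarith) m
    have e5 : ((M : ℝ) * (D₁ + 1) * (m + 1)) ^ (3 * m) ≤
        Real.exp (3 * m * (Real.log M + 2 * L)) := by
      rw [show 3 * (m : ℝ) * (Real.log M + 2 * L) = ((3 * m : ℕ) : ℝ) * (Real.log M + L + L) by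
        push_cast; ring, Real.exp_nat_mul, Real.exp_add, Real.exp_add, hexpM, hexpL]
      refine pow_le_pow_left₀ (by positivity) ?_ _
      refine mul_le_mul (mul_le_mul_of_nonneg_left (by linarith) hM0.le) (by linarith)
        (by positivity) (by positivity)
    have e6 : Real.exp H * (M : ℝ) ^ (2 * m + 2 * (D₁ * l)) * ((m : ℝ) ^ m) *
        ((M : ℝ) * (D₁ + 1) * (m + 1)) ^ (3 * m) ≤
        Real.exp H * Real.exp (2 * (m * Real.log M) + 2 * (D₁ * l * Real.log M)) *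
          Real.exp (m * L) * Real.exp (3 * m * (Real.log M + 2 * L)) := by
      rw [e3]
      refine mul_le_mul (mul_le_mul_of_nonneg_left e4 (by positivity)) e5 (by positivity)
        (by positivity)
    have e7 := mul_le_mul e1 (mul_le_mul e2 e6 (by positivity) (by positivity)) (by positivity)
      (by positivity)
    refine e7.trans (le_of_eq ?_)
    rw [hB, ← Real.exp_add, ← Real.exp_add, ← Real.exp_add, ← Real.exp_add, ← Real.exp_add]
    congr 1
    ring
  have hB1 : 1 ≤ B := by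
    rw [hB]
    refine Real.one_le_exp ?_
    have h1 : 0 ≤ (m : ℝ) * Real.log M := mul_nonneg hm0 hμ
    have h2 : 0 ≤ (D₁ : ℝ) * l * Real.log M := mul_nonneg (mul_nonneg hD1 hl0) hμ
    have h3 : 0 ≤ (m : ℝ) * L := mul_nonneg hm0 (by linarith)
    have h4 : 0 ≤ 3 * (m : ℝ) * (Real.log M + 2 * L) :=
      mul_nonneg (by linarith) (by linarith)
    linarith
  have hfin := liou_int σ₀ hXint hX0 hB1 hXB
  rw [← hd] at hfin
  -- the denominator
  have hden : ‖σ₀ X‖ ≤ B * ‖σ₀ S‖ := by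
    rw [hX, map_mul, norm_mul]
    refine mul_le_mul_of_nonneg_right ?_ (norm_nonneg _)
    rw [map_mul, map_mul, map_pow, map_pow, map_natCast, map_natCast, norm_mul, norm_mul,
      norm_pow, norm_pow, Complex.norm_natCast, Complex.norm_natCast]
    have h1 : (m.factorial : ℝ) ≤ (m : ℝ) ^ m := by exact_mod_cast Nat.factorial_le_pow m
    have h2 : (m : ℝ) ^ m ≤ Real.exp (m * L) := by
      rw [Real.exp_nat_mul, hexpL]
      exact pow_le_pow_left₀ hm0 (by linarith) m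
    have h3 : (M : ℝ) ^ (2 * m) = Real.exp (2 * (m * Real.log M)) := by
      rw [show 2 * (m * Real.log M) = ((2 * m : ℕ) : ℝ) * Real.log M by push_cast; ring,
        Real.exp_nat_mul, hexpM]
    have h4 : (M : ℝ) ^ (D₁ * l) = Real.exp (D₁ * l * Real.log M) := by
      rw [show D₁ * l * Real.log M = ((D₁ * l : ℕ) : ℝ) * Real.log M by push_cast; ring,
        Real.exp_nat_mul, hexpM]
    rw [h3, h4]
    refine (mul_le_mul_of_nonneg_right (mul_le_mul_of_nonneg_left (h1.trans h2) (by positivity))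
      (by positivity)).trans ?_
    rw [← Real.exp_add, ← Real.exp_add, hB, Real.exp_le_exp]
    have h5 : 0 ≤ (D₁ : ℝ) * l * Real.log M := mul_nonneg (mul_nonneg hD1 hl0) hμ
    have h6 : 0 ≤ 3 * (m : ℝ) * (Real.log M + 2 * L) :=
      mul_nonneg (by linarith) (by linarith)
    linarith
  have hB0 : 0 < B := by linarith
  have h1 : (B ^ d)⁻¹ ≤ ‖σ₀ S‖ := by
    refine hfin.trans ?_
    rw [mul_inv_le_iff₀ hB0]
    linarith
  refine le_trans ?_ h1
  rw [hB, ← Real.exp_nat_mul, ← Real.exp_neg, Real.exp_le_exp, neg_le_neg_iff, ← hL]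
  have hd0 : (0 : ℝ) ≤ d := Nat.cast_nonneg _
  rw [mul_assoc (d : ℝ) (10 * Real.log M + 7)]
  refine mul_le_mul_of_nonneg_left ?_ hd0
  exact final_ineq hH hD0 hD1 hl0 hm0 hL0 hμ

end Pool.Agent.Lib.MP_5d4057_al.T5
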