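import Pool.Agent.Lib.MP_5d4057_al.T5.SiegA

/-!
# T5: the auxiliary function (owner: helper15)
-/

set_option autoImplicit false

namespace Pool.Agent.Lib.MP_5d4057_al.T5

open Metric Filter Topology Pool.Agent.Lib.MP_5d4057_al Pool.Agent.Lib.MP_5d4057_al.HM

open NumberField

variable {K : Type} [Field K] [NumberField K] {r : ℕ} {ν : (Fin r → ℤ) → K} {c : ℕ → ℕ → K} {M : ℕ}

theorem house_one' : house (1 : K) = 1 := by
  have := house_intCast (K := K) 1
  simpa using this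

theorem house_zero' : house (0 : K) = 0 := by
  have := house_intCast (K := K) 0
  simpa using this

theorem house_pow_le_of_le {α : K} {B : ℝ} (hB : 1 ≤ B) (h : house α ≤ B) {i k : ℕ} (hik : i ≤ k) :
    house (α ^ i) ≤ B ^ k := by
  rcases Nat.eq_zero_or_pos i with rfl | _
  · rw [pow_zero, house_one']; exact one_le_pow₀ hB
  · exact (house_pow_le α i).trans ((pow_le_pow_left₀ (house_nonneg α) h i).trans
      (pow_le_pow_right₀ hB hik))

/-- The entries of the matrix. -/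
def ent (ν : (Fin r → ℤ) → K) (c : ℕ → ℕ → K) (M D₁ L : ℕ) (z : Fin r → ℤ) (l i j : ℕ) : K :=
  if i ≤ l then (M : K) ^ (2 * l) * (l.factorial : K) * (M : K) ^ (D₁ * L) *
    (ν z ^ j * c j (l - i)) else 0

/-- The natural number part and the integral parts of an entry. -/
theorem ent_eq (M D₁ L : ℕ) {z : Fin r → ℤ} {l i j : ℕ} (hz : l1 z ≤ L) (hj : j ≤ D₁)
    (hi : i ≤ l) : ent ν c M D₁ L z l i j =
      ((M ^ (2 * i) * (l.factorial / (l - i).factorial) * M ^ (D₁ * L - j * l1 z) : ℕ) : K) *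
        (((M : K) ^ l1 z * ν z) ^ j *
          ((M : K) ^ (2 * (l - i)) * ((l - i).factorial : K) * c j (l - i))) := by
  rw [ent, if_pos hi]
  have h1 : M ^ (2 * l) = M ^ (2 * i) * M ^ (2 * (l - i)) := by
    rw [← pow_add]; congr 1; omega
  have h2 : l.factorial = (l.factorial / (l - i).factorial) * (l - i).factorial :=
    (Nat.div_mul_cancel (Nat.factorial_dvd_factorial (Nat.sub_le l i))).symm
  have h3 : j * l1 z ≤ D₁ * L := Nat.mul_le_mul hj hz
  have h4 : M ^ (D₁ * L) = M ^ (D₁ * L - j * l1 z) * (M ^ l1 z) ^ j := by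
    rw [← pow_mul, ← pow_add]; congr 1
    rw [mul_comm (l1 z) j]; omega
  have e1 : (M : K) ^ (2 * l) = (M : K) ^ (2 * i) * (M : K) ^ (2 * (l - i)) := by
    exact_mod_cast h1
  have e2 : (l.factorial : K) = ((l.factorial / (l - i).factorial : ℕ) : K) *
      ((l - i).factorial : K) := by
    rw [← Nat.cast_mul, ← h2]
  have e4 : (M : K) ^ (D₁ * L) = (M : K) ^ (D₁ * L - j * l1 z) * ((M : K) ^ l1 z) ^ j := by
    exact_mod_cast h4
  rw [e1, e2, e4]
  push_cast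
  rw [mul_pow]
  ring

omit [NumberField K] in
theorem isIntegral_natCast' (a : ℕ) : IsIntegral ℤ (a : K) := by
  have : (a : K) = algebraMap ℤ K (a : ℤ) := by simp
  rw [this]; exact isIntegral_algebraMap

theorem ent_int (hA : Ar K r ν c M) (D₁ L : ℕ) {z : Fin r → ℤ} {l i j : ℕ} (hz : l1 z ≤ L)
    (hj : j ≤ D₁) : IsIntegral ℤ (ent ν c M D₁ L z l i j) := by
  by_cases hi : i ≤ l
  · rw [ent_eq M D₁ L hz hj hi]
    exact (isIntegral_natCast' _).mul (((hA.nu_int z).pow j).mul (hA.c_int j (l - i)))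
  · rw [ent, if_neg hi]; exact isIntegral_zero

/-- The bound for the houses of the entries. -/
theorem ent_house (hA : Ar K r ν c M) {D₁ L T : ℕ} {z : Fin r → ℤ} {l i j : ℕ} (hz : l1 z ≤ L)
    (hj : j ≤ D₁) (hl : l < T) : house (ent ν c M D₁ L z l i j) ≤
      (M : ℝ) ^ (2 * T) * (T : ℝ) ^ T * (M : ℝ) ^ (2 * (D₁ * L)) *
        ((M : ℝ) * (D₁ + 1) * T) ^ (3 * T) := by
  have hM : (1 : ℝ) ≤ M := by exact_mod_cast hA.pos
  have hT : (1 : ℝ) ≤ T := by exact_mod_cast (Nat.zero_le l).trans_lt hl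
  have hD : (1 : ℝ) ≤ (D₁ : ℝ) + 1 := by linarith [Nat.cast_nonneg (α := ℝ) D₁]
  have hMD : (1 : ℝ) ≤ (M : ℝ) * (D₁ + 1) * T := by
    have := mul_le_mul hM hD zero_le_one (by linarith)
    have := mul_le_mul this hT zero_le_one (by positivity)
    simpa using this
  by_cases hi : i ≤ l
  · have e : ent ν c M D₁ L z l i j =
        ((M ^ (2 * l) * (l.factorial / (l - i).factorial) * M ^ (D₁ * L) : ℕ) : K) *
        (ν z ^ j * (((l - i).factorial : K) * c j (l - i))) := by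
      rw [ent, if_pos hi]
      have h2 : l.factorial = (l.factorial / (l - i).factorial) * (l - i).factorial :=
        (Nat.div_mul_cancel (Nat.factorial_dvd_factorial (Nat.sub_le l i))).symm
      have e2 : (l.factorial : K) = ((l.factorial / (l - i).factorial : ℕ) : K) *
          ((l - i).factorial : K) := by
        rw [← Nat.cast_mul, ← h2]
      rw [e2]; push_cast; ring
    rw [e, house_nat_mul]
    have hd : ((l.factorial / (l - i).factorial : ℕ) : ℝ) ≤ (T : ℝ) ^ T := by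
      have h5 : l.factorial / (l - i).factorial ≤ T ^ T := by
        rw [← Nat.descFactorial_eq_div hi]
        calc l.descFactorial i ≤ l ^ i := Nat.descFactorial_le_pow l i
          _ ≤ T ^ i := Nat.pow_le_pow_left hl.le i
          _ ≤ T ^ T := Nat.pow_le_pow_right (by omega) (by omega)
      exact_mod_cast h5
    have h1 : house (ν z ^ j) ≤ (M : ℝ) ^ (D₁ * L) := by
      have h6 : (1 : ℝ) ≤ (M : ℝ) ^ l1 z := one_le_pow₀ hM
      calc house (ν z ^ j) ≤ ((M : ℝ) ^ l1 z) ^ D₁ := house_pow_le_of_le h6 (hA.nu_house z) hj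
        _ = (M : ℝ) ^ (D₁ * l1 z) := by rw [← pow_mul, mul_comm]
        _ ≤ (M : ℝ) ^ (D₁ * L) := pow_le_pow_right₀ hM (Nat.mul_le_mul_left _ hz)
    have h2 : house (((l - i).factorial : K) * c j (l - i)) ≤
        ((M : ℝ) * (D₁ + 1) * T) ^ (3 * T) := by
      refine (hA.c_house j (l - i)).trans ?_
      have h7 : (M : ℝ) * (j + 1) * ((l - i : ℕ) + 1) ≤ (M : ℝ) * (D₁ + 1) * T := by
        have a1 : (j : ℝ) + 1 ≤ D₁ + 1 := by
          have : (j : ℝ) ≤ D₁ := by exact_mod_cast hj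
          linarith
        have a2 : ((l - i : ℕ) : ℝ) + 1 ≤ T := by
          have : (l - i) + 1 ≤ T := by omega
          exact_mod_cast this
        exact mul_le_mul (mul_le_mul_of_nonneg_left a1 (by positivity)) a2 (by positivity)
          (by positivity)
      calc ((M : ℝ) * (j + 1) * ((l - i : ℕ) + 1)) ^ (3 * (l - i))
          ≤ ((M : ℝ) * (D₁ + 1) * T) ^ (3 * (l - i)) :=
            pow_le_pow_left₀ (by positivity) h7 _
        _ ≤ ((M : ℝ) * (D₁ + 1) * T) ^ (3 * T) := pow_le_pow_right₀ hMD (by omega)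
    have h3 : house (ν z ^ j * (((l - i).factorial : K) * c j (l - i))) ≤
        (M : ℝ) ^ (D₁ * L) * ((M : ℝ) * (D₁ + 1) * T) ^ (3 * T) :=
      (house_mul_le _ _).trans (mul_le_mul h1 h2 (house_nonneg _) (by positivity))
    have h4 : ((M ^ (2 * l) * (l.factorial / (l - i).factorial) * M ^ (D₁ * L) : ℕ) : ℝ) ≤
        (M : ℝ) ^ (2 * T) * (T : ℝ) ^ T * (M : ℝ) ^ (D₁ * L) := by
      rw [Nat.cast_mul, Nat.cast_mul, Nat.cast_pow, Nat.cast_pow]
      have h8 : (M : ℝ) ^ (2 * l) ≤ (M : ℝ) ^ (2 * T) := pow_le_pow_right₀ hM (by omega)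
      exact mul_le_mul_of_nonneg_right (mul_le_mul h8 hd (Nat.cast_nonneg _) (by positivity))
        (by positivity)
    calc _ ≤ ((M : ℝ) ^ (2 * T) * (T : ℝ) ^ T * (M : ℝ) ^ (D₁ * L)) *
          ((M : ℝ) ^ (D₁ * L) * ((M : ℝ) * (D₁ + 1) * T) ^ (3 * T)) :=
          mul_le_mul h4 h3 (house_nonneg _) (by positivity)
      _ = _ := by rw [two_mul (D₁ * L), pow_add]; ring
  · rw [ent, if_neg hi, house_zero']; positivity

/-- The logarithm of the bound. -/
theorem bound_log {C : ℝ} (hC : 1 ≤ C) {M D₀ D₁ L T : ℕ} (hM : 0 < M) (hT : 0 < T) :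
    C * ((D₀ + 1) * (D₁ + 1) : ℕ) * ((M : ℝ) ^ (2 * T) * (T : ℝ) ^ T * (M : ℝ) ^ (2 * (D₁ * L)) *
        ((M : ℝ) * (D₁ + 1) * T) ^ (3 * T)) ≤
      Real.exp ((Real.log C + 5 * Real.log M + 8) *
        (D₀ + (D₁ + 1) * (L + 1) + T * Real.log (T + D₁ + 2))) := by
  have hM1 : (1 : ℝ) ≤ M := by exact_mod_cast hM
  have hT1 : (1 : ℝ) ≤ T := by exact_mod_cast hT
  have hD0 : (0 : ℝ) ≤ D₀ := Nat.cast_nonneg _
  have hD1 : (0 : ℝ) ≤ D₁ := Nat.cast_nonneg _
  have hL : (0 : ℝ) ≤ L := Nat.cast_nonneg _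
  set m := Real.log M with hm
  set s := Real.log (T + D₁ + 2) with hs
  have hm0 : 0 ≤ m := Real.log_nonneg hM1
  have hc0 : 0 ≤ Real.log C := Real.log_nonneg hC
  have hs1 : 1 ≤ s := by
    have h3 : (3 : ℝ) ≤ T + D₁ + 2 := by linarith
    have h4 : Real.exp 1 ≤ T + D₁ + 2 := by
      have := Real.exp_one_lt_d9
      linarith
    rw [hs, Real.le_log_iff_exp_le (by linarith)]
    exact h4
  have hlT : Real.log T ≤ s := Real.log_le_log (by linarith) (by linarith)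
  have hlD : Real.log (D₁ + 1) ≤ s := Real.log_le_log (by linarith) (by linarith)
  have hD0' : Real.log (D₀ + 1) ≤ D₀ := by
    have := Real.log_le_sub_one_of_pos (show (0 : ℝ) < D₀ + 1 by linarith); linarith
  have hD1' : Real.log (D₁ + 1) ≤ D₁ := by
    have := Real.log_le_sub_one_of_pos (show (0 : ℝ) < D₁ + 1 by linarith); linarith
  have hpos : 0 < C * ((D₀ + 1) * (D₁ + 1) : ℕ) * ((M : ℝ) ^ (2 * T) * (T : ℝ) ^ T *
      (M : ℝ) ^ (2 * (D₁ * L)) * ((M : ℝ) * (D₁ + 1) * T) ^ (3 * T)) := by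
    push_cast; positivity
  rw [← Real.log_le_iff_le_exp hpos]
  have hlog : Real.log (C * ((D₀ + 1) * (D₁ + 1) : ℕ) * ((M : ℝ) ^ (2 * T) * (T : ℝ) ^ T *
      (M : ℝ) ^ (2 * (D₁ * L)) * ((M : ℝ) * (D₁ + 1) * T) ^ (3 * T))) =
      Real.log C + (Real.log (D₀ + 1) + Real.log (D₁ + 1)) + (2 * T * m + T * Real.log T +
        2 * (D₁ * L) * m + 3 * T * (m + Real.log (D₁ + 1) + Real.log T)) := by
    have hC0 : C ≠ 0 := by linarith
    have a1 : ((D₀ : ℝ) + 1) ≠ 0 := by positivity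
    have a2 : ((D₁ : ℝ) + 1) ≠ 0 := by positivity
    have a3 : (M : ℝ) ≠ 0 := by positivity
    have a4 : (T : ℝ) ≠ 0 := by positivity
    push_cast
    rw [Real.log_mul (by positivity) (by positivity), Real.log_mul hC0 (by positivity),
      Real.log_mul a1 a2, Real.log_mul (by positivity) (by positivity),
      Real.log_mul (by positivity) (by positivity), Real.log_mul (by positivity) (by positivity),
      Real.log_pow, Real.log_pow, Real.log_pow, Real.log_pow,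
      Real.log_mul (by positivity) a4, Real.log_mul a3 a2]
    push_cast
    ring
  rw [hlog]
  have b1 : Real.log C ≤ Real.log C * ((D₁ + 1) * (L + 1)) := by
    have : (1 : ℝ) ≤ (D₁ + 1) * (L + 1) := by nlinarith
    nlinarith
  have b2 : (T : ℝ) * m ≤ m * (T * s) := by nlinarith [mul_nonneg hm0 (show (0:ℝ) ≤ T by linarith)]
  have b3 : (T : ℝ) * Real.log T ≤ T * s := mul_le_mul_of_nonneg_left hlT (by linarith)
  have b4 : (T : ℝ) * Real.log (D₁ + 1) ≤ T * s := mul_le_mul_of_nonneg_left hlD (by linarith)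
  have b5 : (D₁ : ℝ) * L * m ≤ m * ((D₁ + 1) * (L + 1)) := by nlinarith [mul_nonneg hD1 hL]
  have b6 : (D₁ : ℝ) ≤ (D₁ + 1) * (L + 1) := by nlinarith [mul_nonneg hD1 hL]
  have c1 : 0 ≤ (D₁ + 1 : ℝ) * (L + 1) := by positivity
  have c2 : 0 ≤ (T : ℝ) * s := by positivity
  nlinarith [mul_nonneg hm0 c1, mul_nonneg hm0 c2, mul_nonneg hc0 c1, mul_nonneg hc0 c2,
    mul_nonneg hm0 hD0, mul_nonneg hc0 hD0]

/-- PROOF. The equations `M^(2l) l! M^(D₁ L) bet = 0`, `z ∈ Z`, `l < T` in the unknowns `a i j`. -/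
theorem sieg (hA : Ar K r ν c M) : ∃ Λ : ℝ, 1 ≤ Λ ∧ ∀ (D₀ D₁ T L : ℕ) (Z : Finset (Fin r → ℤ)),
    0 < T → Z.Nonempty → (∀ z ∈ Z, l1 z ≤ L) → 2 * (T * Z.card) ≤ (D₀ + 1) * (D₁ + 1) →
    ∃ a : ℕ → ℕ → 𝓞 K, (∃ i ≤ D₀, ∃ j ≤ D₁, a i j ≠ 0) ∧
      (∀ i ≤ D₀, ∀ j ≤ D₁, house (a i j : K) ≤
        Real.exp (Λ * (D₀ + (D₁ + 1) * (L + 1) + T * Real.log (T + D₁ + 2)))) ∧
      ∀ z ∈ Z, ∀ l < T, bet c D₀ D₁ (fun i j => (a i j : K)) (ν z) l = 0 := by
  obtain ⟨C, hC1, hC⟩ := siegel K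
  have hM1 : (1 : ℝ) ≤ M := by exact_mod_cast hA.pos
  refine ⟨Real.log C + 5 * Real.log M + 8, by
    linarith [Real.log_nonneg hC1, Real.log_nonneg hM1], ?_⟩
  intro D₀ D₁ T L Z hT hZ hL hcard
  have hcα : Fintype.card ({z // z ∈ Z} × Fin T) = Z.card * T := by
    rw [Fintype.card_prod, Fintype.card_coe, Fintype.card_fin]
  have hcβ : Fintype.card (Fin (D₀ + 1) × Fin (D₁ + 1)) = (D₀ + 1) * (D₁ + 1) := by
    rw [Fintype.card_prod, Fintype.card_fin, Fintype.card_fin]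
  set A : Matrix ({z // z ∈ Z} × Fin T) (Fin (D₀ + 1) × Fin (D₁ + 1)) (𝓞 K) := fun p q =>
    ⟨ent ν c M D₁ L p.1.1 p.2 q.1 q.2, ent_int hA D₁ L (hL _ p.1.2) (by omega)⟩ with hAdef
  set B : ℝ := (M : ℝ) ^ (2 * T) * (T : ℝ) ^ T * (M : ℝ) ^ (2 * (D₁ * L)) *
        ((M : ℝ) * (D₁ + 1) * T) ^ (3 * T) with hB
  have hT1 : (1 : ℝ) ≤ T := by exact_mod_cast hT
  have hB1 : 1 ≤ B := by
    have hD : (1 : ℝ) ≤ (D₁ : ℝ) + 1 := by linarith [Nat.cast_nonneg (α := ℝ) D₁]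
    have hMD : (1 : ℝ) ≤ (M : ℝ) * (D₁ + 1) * T := by
      have h1 := mul_le_mul hM1 hD zero_le_one (by linarith)
      have h2 := mul_le_mul h1 hT1 zero_le_one (by positivity)
      simpa using h2
    have e1 : (1 : ℝ) ≤ (M : ℝ) ^ (2 * T) := one_le_pow₀ hM1
    have e2 : (1 : ℝ) ≤ (T : ℝ) ^ T := one_le_pow₀ hT1
    have e3 : (1 : ℝ) ≤ (M : ℝ) ^ (2 * (D₁ * L)) := one_le_pow₀ hM1
    have e4 : (1 : ℝ) ≤ ((M : ℝ) * (D₁ + 1) * T) ^ (3 * T) := one_le_pow₀ hMD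
    exact one_le_mul_of_one_le_of_one_le (one_le_mul_of_one_le_of_one_le
      (one_le_mul_of_one_le_of_one_le e1 e2) e3) e4
  obtain ⟨ξ, hξ0, hξ, hξh⟩ := hC (Z.card * T) ((D₀ + 1) * (D₁ + 1))
    (Nat.mul_pos (Finset.card_pos.2 hZ) hT) (by rw [mul_comm Z.card T]; exact hcard) _ _ hcα hcβ
    A B hB1 (fun p q => by
      rw [hAdef]
      exact ent_house hA (hL _ p.1.2) (by omega) p.2.2)
  set a : ℕ → ℕ → 𝓞 K := fun i j => if h : i < D₀ + 1 ∧ j < D₁ + 1 then ξ (⟨i, h.1⟩, ⟨j, h.2⟩)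
    else 0 with ha
  have haξ : ∀ (i : Fin (D₀ + 1)) (j : Fin (D₁ + 1)), a i j = ξ (i, j) := by
    intro i j
    rw [ha]; simp only; rw [dif_pos ⟨i.2, j.2⟩]
  refine ⟨a, ?_, ?_, ?_⟩
  · by_contra hne
    push Not at hne
    apply hξ0
    funext ⟨i, j⟩
    rw [← haξ i j]
    exact hne i (by omega) j (by omega)
  · intro i hi j hj
    have := hξh (⟨i, by omega⟩, ⟨j, by omega⟩)
    rw [← haξ] at this
    exact this.trans (bound_log hC1 hA.pos hT)
  · intro z hz l hl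
    have h1 : (A.mulVec ξ) (⟨z, hz⟩, ⟨l, hl⟩) = 0 := by rw [hξ]; rfl
    have h2 : ∑ q : Fin (D₀ + 1) × Fin (D₁ + 1),
        ent ν c M D₁ L z l q.1 q.2 * ((ξ q : 𝓞 K) : K) = 0 := by
      have h3 : (algebraMap (𝓞 K) K) (∑ q, A (⟨z, hz⟩, ⟨l, hl⟩) q * ξ q) = 0 := by
        have h4 : ∑ q, A (⟨z, hz⟩, ⟨l, hl⟩) q * ξ q = 0 := h1
        rw [h4, map_zero]
      rw [map_sum] at h3
      rw [← h3]
      refine Finset.sum_congr rfl fun q _ => ?_
      rw [map_mul]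
      rfl
    rw [Fintype.sum_prod_type] at h2
    have h4 : ∑ i ∈ Finset.range (D₀ + 1), ∑ j ∈ Finset.range (D₁ + 1),
        ent ν c M D₁ L z l i j * ((a i j : 𝓞 K) : K) = 0 := by
      rw [← h2, Finset.sum_range]
      refine Finset.sum_congr rfl fun i _ => ?_
      rw [Finset.sum_range]
      refine Finset.sum_congr rfl fun j _ => ?_
      rw [haξ]
    have h5 : ((M : K) ^ (2 * l) * (l.factorial : K) * (M : K) ^ (D₁ * L)) *
        bet c D₀ D₁ (fun i j => (a i j : K)) (ν z) l = 0 := by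
      rw [← h4, bet, Finset.mul_sum]
      refine Finset.sum_congr rfl fun i _ => ?_
      rw [Finset.mul_sum]
      refine Finset.sum_congr rfl fun j _ => ?_
      rw [ent]
      by_cases hil : i ≤ l
      · rw [if_pos hil, if_pos hil]; ring
      · rw [if_neg hil, if_neg hil]; ring
    have hM0 : (M : K) ≠ 0 := Nat.cast_ne_zero.2 hA.pos.ne'
    have hl0 : (l.factorial : K) ≠ 0 := Nat.cast_ne_zero.2 l.factorial_ne_zero
    exact (mul_eq_zero.1 h5).resolve_left (mul_ne_zero (mul_ne_zero (pow_ne_zero _ hM0) hl0)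
      (pow_ne_zero _ hM0))

end Pool.Agent.Lib.MP_5d4057_al.T5
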