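import Pool.Agent.Lib.MP_5d4057_al.T5.Defs

/-!
# T5: the last step (helper7)
-/

set_option autoImplicit false

namespace Pool.Agent.Lib.MP_5d4057_al.T5

open Metric Filter Topology Pool.Agent.Lib.MP_5d4057_al Pool.Agent.Lib.MP_5d4057_al.HM

/-- PROOF. For every `l < T` the polynomial `∑_j X^j (∑_(i ≤ l) a_ij c_j(l-i))` of degree `≤ D₁` has the `> D₁` zeros `ν z`; so its coefficients
vanish; induction on `l` with `c j 0 = 1`. -/
theorem vdm {R : Type} [CommRing R] [IsDomain R] {r : ℕ} {ν : (Fin r → ℤ) → R}
    (hν : Function.Injective ν) {c : ℕ → ℕ → R} (hc : ∀ j, c j 0 = 1) {D₀ D₁ T : ℕ} {a : ℕ → ℕ → R}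
    {Z : Finset (Fin r → ℤ)} (hZ : D₁ < Z.card) (hT : D₀ < T)
    (h : ∀ z ∈ Z, ∀ l < T, bet c D₀ D₁ a (ν z) l = 0) : ∀ i ≤ D₀, ∀ j ≤ D₁, a i j = 0 := by
  classical
  -- the coefficients
  have key : ∀ l < T, ∀ j ≤ D₁, ∑ i ∈ Finset.range (D₀ + 1),
      (if i ≤ l then a i j * c j (l - i) else 0) = 0 := by
    intro l hl
    set e : ℕ → R := fun j => ∑ i ∈ Finset.range (D₀ + 1),
      (if i ≤ l then a i j * c j (l - i) else 0) with he
    set p : Polynomial R := ∑ j ∈ Finset.range (D₁ + 1), Polynomial.monomial j (e j) with hp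
    have hcoef : ∀ j ≤ D₁, p.coeff j = e j := by
      intro j hj
      rw [hp, Polynomial.finsetSum_coeff]
      simp only [Polynomial.coeff_monomial]
      rw [Finset.sum_ite_eq' (Finset.range (D₁ + 1)) j e]
      rw [if_pos (Finset.mem_range.2 (by omega))]
    have hdeg : p.natDegree ≤ D₁ := by
      rw [hp]
      refine Polynomial.natDegree_sum_le_of_forall_le _ _ fun j hj => ?_
      exact (Polynomial.natDegree_monomial_le _).trans
        (by have := Finset.mem_range.1 hj; omega)
    have hroot : ∀ z ∈ Z, p.eval (ν z) = 0 := by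
      intro z hz
      rw [← h z hz l hl, hp, Polynomial.eval_finsetSum]
      unfold bet
      rw [Finset.sum_comm]
      refine Finset.sum_congr rfl fun j _ => ?_
      rw [Polynomial.eval_monomial, he, Finset.sum_mul]
      refine Finset.sum_congr rfl fun i _ => ?_
      split_ifs
      · ring
      · simp
    have hp0 : p = 0 := by
      by_contra hne
      have h1 : (Z.image ν).card ≤ p.natDegree := by
        refine (Polynomial.card_le_degree_of_subset_roots ?_)
        intro x hx
        rw [Finset.mem_val] at hx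
        obtain ⟨z, hz, rfl⟩ := Finset.mem_image.1 hx
        exact (Polynomial.mem_roots hne).2 (hroot z hz)
      rw [Finset.card_image_of_injective _ hν] at h1
      omega
    intro j hj
    have := hcoef j hj
    rw [hp0, Polynomial.coeff_zero] at this
    exact this.symm
  intro i
  induction i using Nat.strong_induction_on with
  | _ i ih =>
    intro hi j hj
    have h1 := key i (by omega) j hj
    rw [Finset.sum_eq_single i] at h1
    · simpa [hc] using h1
    · intro k hk hki
      split_ifs with hle
      · rw [ih k (by omega) (by have := Finset.mem_range.1 hk; omega) j hj, zero_mul]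
      · rfl
    · intro h2
      exact absurd (Finset.mem_range.2 (by omega)) h2

end Pool.Agent.Lib.MP_5d4057_al.T5
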