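import Pool.Agent.Lib.MP_5d4057_al.T5.Defs

/-!
# T5: lattice points (owner: helper20)
-/

set_option autoImplicit false

namespace Pool.Agent.Lib.MP_5d4057_al.T5

open Metric Filter Topology Pool.Agent.Lib.MP_5d4057_al Pool.Agent.Lib.MP_5d4057_al.HM

private theorem vb_sq_le {r : ℕ} (z : Fin r → ℤ) (i : Fin r) : z i ^ 2 ≤ n2 z :=
  Finset.single_le_sum (f := fun i => z i ^ 2) (fun j _ => sq_nonneg (z j)) (Finset.mem_univ i)

/-- Balls in `ℤ^r`. -/
theorem fin_n2 (r : ℕ) (N : ℤ) : {z : Fin r → ℤ | n2 z ≤ N}.Finite := by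
  refine (Set.finite_Icc (fun _ : Fin r => -|N|) (fun _ : Fin r => |N|)).subset fun z hz => ?_
  have h1 : ∀ i, -|N| ≤ z i ∧ z i ≤ |N| := by
    intro i
    have h2 : z i ^ 2 ≤ N := (vb_sq_le z i).trans hz
    have h3 : N ≤ |N| := le_abs_self N
    rw [← abs_le]
    have h4 : |z i| ≤ |z i| ^ 2 := by
      rcases eq_or_ne (z i) 0 with h | h
      · rw [h]
        simp
      · have : 1 ≤ |z i| := Int.one_le_abs h
        nlinarith
    rw [sq_abs] at h4
    linarith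
  exact ⟨fun i => (h1 i).1, fun i => (h1 i).2⟩

/-- The ball of radius `N`. -/
noncomputable def Bz (r : ℕ) (N : ℕ) : Finset (Fin r → ℤ) := (fin_n2 r ((N : ℤ) ^ 2)).toFinset

theorem mem_Bz {r N : ℕ} {z : Fin r → ℤ} : z ∈ Bz r N ↔ n2 z ≤ (N : ℤ) ^ 2 := by
  rw [Bz, Set.Finite.mem_toFinset]
  exact Iff.rfl

private theorem vb_abs_le {r N : ℕ} {z : Fin r → ℤ} (h : z ∈ Bz r N) (i : Fin r) :
    |z i| ≤ N := by
  have h1 := (vb_sq_le z i).trans (mem_Bz.1 h)
  exact abs_le_of_sq_le_sq h1 (by positivity)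

theorem l1_le_of_mem {r N : ℕ} {z : Fin r → ℤ} (h : z ∈ Bz r N) : l1 z ≤ r * N := by
  calc l1 z = ∑ i, (z i).natAbs := rfl
    _ ≤ ∑ _i : Fin r, N := by
        refine Finset.sum_le_sum fun i _ => ?_
        have h1 := vb_abs_le h i
        rw [Int.abs_eq_natAbs] at h1
        exact_mod_cast h1
    _ = r * N := by
        rw [Finset.sum_const, Finset.card_univ, Fintype.card_fin, smul_eq_mul]

private theorem vb_card_box (r k : ℕ) :
    (Finset.Icc (fun _ : Fin r => -(k : ℤ)) (fun _ : Fin r => (k : ℤ))).card = (2 * k + 1) ^ r := by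
  rw [Pi.card_Icc]
  simp only [Int.card_Icc, Finset.prod_const, Finset.card_univ, Fintype.card_fin]
  congr 1
  omega

/-- The number of points. PROOF: `|z_i| ≤ N` for the upper bound, `|z_i| ≤ ⌊N/r⌋` for the lower bound. -/
theorem card_Bz_le (r N : ℕ) (hN : 0 < N) : (Bz r N).card ≤ (3 * N) ^ r := by
  have h1 : Bz r N ⊆ Finset.Icc (fun _ : Fin r => -(N : ℤ)) (fun _ : Fin r => (N : ℤ)) := by
    intro z hz
    rw [Finset.mem_Icc]
    exact ⟨fun i => (abs_le.1 (vb_abs_le hz i)).1, fun i => (abs_le.1 (vb_abs_le hz i)).2⟩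
  have h2 := Finset.card_le_card h1
  rw [vb_card_box] at h2
  exact h2.trans (Nat.pow_le_pow_left (by omega) r)

theorem le_card_Bz (r N : ℕ) (hr : 0 < r) : N ^ r ≤ r ^ r * (Bz r N).card := by
  have hk : r * (N / r) ≤ N := Nat.mul_div_le N r
  have hk' : N < r * (N / r + 1) := by
    have := Nat.lt_div_mul_add (a := N) hr
    rw [mul_add, mul_one, mul_comm]
    exact this
  obtain ⟨k, hkk⟩ : ∃ k, k = N / r := ⟨_, rfl⟩
  rw [← hkk] at hk hk'
  have h1 : Finset.Icc (fun _ : Fin r => -(k : ℤ)) (fun _ : Fin r => (k : ℤ)) ⊆ Bz r N := by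
    intro z hz
    rw [Finset.mem_Icc] at hz
    rw [mem_Bz]
    have h2 : n2 z ≤ ∑ _i : Fin r, (k : ℤ) ^ 2 := by
      refine Finset.sum_le_sum fun i _ => ?_
      exact sq_le_sq' (hz.1 i) (hz.2 i)
    rw [Finset.sum_const, Finset.card_univ, Fintype.card_fin, nsmul_eq_mul] at h2
    refine h2.trans ?_
    have h3 : (r : ℤ) * k ≤ N := by exact_mod_cast hk
    have h4 : (1 : ℤ) ≤ r := by exact_mod_cast hr
    have h5 : (0 : ℤ) ≤ k := Int.natCast_nonneg k
    have h6 : (k : ℤ) ≤ r * k := by nlinarith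
    nlinarith
  have h2 := Finset.card_le_card h1
  rw [vb_card_box] at h2
  calc N ^ r ≤ (r * (2 * k + 1)) ^ r := by
        refine Nat.pow_le_pow_left (hk'.le.trans ?_) r
        exact Nat.mul_le_mul_left r (by omega)
    _ = r ^ r * (2 * k + 1) ^ r := mul_pow _ _ _
    _ ≤ r ^ r * (Bz r N).card := Nat.mul_le_mul_left _ h2

end Pool.Agent.Lib.MP_5d4057_al.T5
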