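import Pool.Agent.Lib.MP_5d4057_al.T5.BoxA
import Pool.Agent.Lib.MP_5d4057_al.T5.Liou
import Pool.Agent.Lib.MP_5d4057_al.T5.Sieg
import Pool.Agent.Lib.MP_5d4057_al.T5.VdmA
import Pool.Agent.Lib.MP_5d4057_al.T5.VdmB

/-!
# T5: the core of the proof (owner: helper37)
-/

set_option autoImplicit false

namespace Pool.Agent.Lib.MP_5d4057_al.T5

open Metric Filter Topology Pool.Agent.Lib.MP_5d4057_al Pool.Agent.Lib.MP_5d4057_al.HM
open NumberField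

variable {Γ : Subgroup (SUGroup 1)} {a b y₁ y₂ : ℂ → ℂ} {r : ℕ} {ex : Γ → (Fin r → ℤ)}
  {K : Type} [Field K] [NumberField K] {ν : (Fin r → ℤ) → K} {c : ℕ → ℕ → K} {M : ℕ}

theorem bet_map {R S : Type} [CommRing R] [CommRing S] (φ : R →+* S) (c : ℕ → ℕ → R) (D₀ D₁ : ℕ)
    (a : ℕ → ℕ → R) (lam : R) (l : ℕ) :
    φ (bet c D₀ D₁ a lam l) =
      bet (fun j l => φ (c j l)) D₀ D₁ (fun i j => φ (a i j)) (φ lam) l := by
  rw [bet, bet, map_sum]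
  refine Finset.sum_congr rfl fun i _ => ?_
  rw [map_sum]
  refine Finset.sum_congr rfl fun j _ => ?_
  split_ifs
  · rw [map_mul, map_mul, map_pow]
  · rw [map_zero]

/-- Powers of the logarithm are small. -/
private theorem exists_T (E : ℝ) (n T₀ : ℕ) :
    ∃ T : ℕ, T₀ ≤ T ∧ E * Real.log T ^ n ≤ T ∧ E ≤ Real.log T := by
  have h1 := (Real.isLittleO_pow_log_id_atTop (n := n)).bound (c := 1 / (|E| + 1)) (by positivity)
  have h2 := tendsto_natCast_atTop_atTop (R := ℝ)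
  have h3 := h2.eventually h1
  have h4 := (Real.tendsto_log_atTop.comp h2).eventually (eventually_ge_atTop (max E 0))
  have h5 : ∀ᶠ T : ℕ in atTop, T₀ ≤ T := eventually_ge_atTop T₀
  obtain ⟨T, h3, h4, h5⟩ := (h3.and (h4.and h5)).exists
  refine ⟨T, h5, ?_, (le_max_left _ _).trans h4⟩
  have h6 : 0 ≤ Real.log T := (le_max_right _ _).trans h4
  have h7 : ‖Real.log (T : ℝ) ^ n‖ = Real.log T ^ n := by
    rw [Real.norm_eq_abs, abs_of_nonneg (pow_nonneg h6 n)]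
  have h9 : ‖id (T : ℝ)‖ = T := by
    rw [id, Real.norm_eq_abs, abs_of_nonneg (Nat.cast_nonneg T)]
  rw [h7, h9, div_mul_eq_mul_div, one_mul, le_div_iff₀ (by positivity)] at h3
  have h8 : 0 ≤ Real.log T ^ n := pow_nonneg h6 n
  nlinarith [le_abs_self E]

/-- The real inequality behind the induction step. -/
private theorem core_real {κ Λ T ell R D0 D1 H P m L C₁ : ℝ} (hκ : 0 < κ) (hΛ : 1 ≤ Λ)
    (hT : 1 ≤ T) (hell : 1 ≤ ell) (hC : C₁ = 32 * Λ ^ 2 / κ) (hR : R = C₁ * ell)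
    (hD0 : Λ * D0 ≤ κ / 8 * T) (hD0' : D0 ≤ T) (hD1 : (D1 + 1) * R ≤ T) (hP : P ≤ T)
    (hH : H = Λ * (D0 + P + T * L)) (hL : L ≤ 2 * ell) (_hL0 : 0 ≤ L) (_hD00 : 0 ≤ D0)
    (hm : m ≤ T * L) (_hPm : 0 ≤ P) :
    H + Λ * (D0 + D1 + 1) * R + Λ * T + Λ * (H + D0 + P + m) < κ * T * R := by
  have hR0 : 0 < R := by
    rw [hR, hC]
    positivity
  have h1 : T * L ≤ 2 * (T * ell) := by nlinarith
  have hTe : T ≤ T * ell := by nlinarith
  have hH1 : H ≤ Λ * (4 * (T * ell)) := by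
    rw [hH]
    have : D0 + P + T * L ≤ 4 * (T * ell) := by linarith
    exact mul_le_mul_of_nonneg_left this (by linarith)
  have hH2 : Λ * H ≤ Λ * (Λ * (4 * (T * ell))) := mul_le_mul_of_nonneg_left hH1 (by linarith)
  have h2 : Λ * (D0 + D1 + 1) * R ≤ κ / 8 * T * R + Λ * T := by
    have e1 : Λ * (D0 + D1 + 1) * R = (Λ * D0) * R + Λ * ((D1 + 1) * R) := by ring
    rw [e1]
    have e2 := mul_le_mul_of_nonneg_right hD0 hR0.le
    have e3 := mul_le_mul_of_nonneg_left hD1 (by linarith : (0 : ℝ) ≤ Λ)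
    linarith
  have h3 : Λ * (H + D0 + P + m) ≤ Λ * H + Λ * (4 * (T * ell)) := by
    have : D0 + P + m ≤ 4 * (T * ell) := by linarith
    have := mul_le_mul_of_nonneg_left this (by linarith : (0 : ℝ) ≤ Λ)
    linarith
  have h4 : κ * T * R = 32 * Λ ^ 2 * (T * ell) := by
    rw [hR, hC]
    field_simp
  have h5 : κ / 8 * T * R = 4 * Λ ^ 2 * (T * ell) := by
    rw [hR, hC]
    field_simp
    ring
  have h6 : Λ ≤ Λ ^ 2 := by nlinarith
  have h7 : 0 < T * ell := by positivity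
  have h8 : Λ * (T * ell) ≤ Λ ^ 2 * (T * ell) := mul_le_mul_of_nonneg_right h6 h7.le
  have h9 : Λ * T ≤ Λ * (T * ell) := mul_le_mul_of_nonneg_left hTe (by linarith)
  have h10 : 0 < Λ ^ 2 * (T * ell) := by positivity
  rw [h4]
  rw [h5] at h2
  nlinarith

/-- The choice of the parameters: `D₀ = ⌊T/C'⌋`, `R = C₁ log T`, `N₀ = ⌈Λ R²⌉`, `N₁ = 6 C' r N₀`, `D₁ + 1 = #B(N₁)`. -/
theorem core (hΓ : Coc Γ) (hA : Ar K r ν c M) (σ₀ : K →+* ℂ)
    (h : An Γ a b y₁ y₂ r ex (fun z => σ₀ (ν z)) (fun j l => σ₀ (c j l))) : r = 0 := by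
  by_contra hr0
  have hr : 0 < r := Nat.pos_of_ne_zero hr0
  obtain ⟨κ, Λ₁, hκ, hΛ₁, hbox⟩ := boxA hΓ h fun x y => by rw [hA.mul, map_mul]
  obtain ⟨Λ₂, hΛ₂, hliou⟩ := liou hA σ₀
  obtain ⟨Λ₃, hΛ₃, hsieg⟩ := sieg hA
  obtain ⟨Λ, hΛ⟩ : ∃ Λ : ℝ, Λ = max Λ₁ (max Λ₂ Λ₃) := ⟨_, rfl⟩
  have h1Λ : Λ₁ ≤ Λ := hΛ ▸ le_max_left _ _
  have h2Λ : Λ₂ ≤ Λ := hΛ ▸ (le_max_left _ _).trans (le_max_right _ _)
  have h3Λ : Λ₃ ≤ Λ := hΛ ▸ (le_max_right _ _).trans (le_max_right _ _)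
  have hΛ1 : 1 ≤ Λ := hΛ₁.trans h1Λ
  obtain ⟨C₁, hC₁⟩ : ∃ C₁ : ℝ, C₁ = 32 * Λ ^ 2 / κ := ⟨_, rfl⟩
  have hC₁0 : 0 < C₁ := by
    rw [hC₁]
    positivity
  obtain ⟨C', hC'⟩ : ∃ C' : ℕ, 8 * Λ / κ + 2 ≤ C' := exists_nat_ge _
  have hC'2 : 2 ≤ C' := by
    have : (2 : ℝ) ≤ C' := by
      have : 0 < 8 * Λ / κ := by positivity
      linarith
    exact_mod_cast this
  have hC'0 : (0 : ℝ) < C' := by
    have : (2 : ℝ) ≤ C' := by exact_mod_cast hC'2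
    linarith
  -- the constants
  obtain ⟨A, hA0, hA1⟩ : ∃ A : ℝ, 1 ≤ A ∧ ∀ ell : ℝ, 1 ≤ ell → ∀ N₀ : ℕ,
      (N₀ : ℝ) ≤ Λ * (C₁ * ell) ^ 2 + 1 →
      (3 * (6 * C' * r * N₀) : ℝ) ≤ A * ell ^ 2 ∧
      ((r : ℝ) * (6 * C' * r * N₀) + 1 ≤ A * ell ^ 2) ∧ C₁ * ell ≤ A * ell ^ 2 := by
    refine ⟨3 * (6 * C' * r * (Λ * C₁ ^ 2 + 1)) + ((r : ℝ) * (6 * C' * r * (Λ * C₁ ^ 2 + 1)) + 1) +
      C₁, ?_, ?_⟩
    · have : 0 ≤ 3 * (6 * C' * r * (Λ * C₁ ^ 2 + 1)) := by positivity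
      have : 0 ≤ (r : ℝ) * (6 * C' * r * (Λ * C₁ ^ 2 + 1)) := by positivity
      linarith
    · intro ell hell N₀ hN₀
      have e1 : (1 : ℝ) ≤ ell ^ 2 := by nlinarith
      have e2 : (N₀ : ℝ) ≤ (Λ * C₁ ^ 2 + 1) * ell ^ 2 := by nlinarith
      have e3 : (6 * C' * r * N₀ : ℝ) ≤ 6 * C' * r * (Λ * C₁ ^ 2 + 1) * ell ^ 2 := by
        have := mul_le_mul_of_nonneg_left e2 (by positivity : (0 : ℝ) ≤ 6 * C' * r)
        linarith
      have e4 : (r : ℝ) * (6 * C' * r * N₀) ≤ r * (6 * C' * r * (Λ * C₁ ^ 2 + 1)) * ell ^ 2 := by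
        have := mul_le_mul_of_nonneg_left e3 (by positivity : (0 : ℝ) ≤ r)
        linarith
      have p1 : 0 ≤ 6 * C' * r * (Λ * C₁ ^ 2 + 1) * ell ^ 2 := by positivity
      have p2 : 0 ≤ (r : ℝ) * (6 * C' * r * (Λ * C₁ ^ 2 + 1)) * ell ^ 2 := by positivity
      have p3 : C₁ * ell ≤ C₁ * ell ^ 2 := mul_le_mul_of_nonneg_left (by nlinarith) hC₁0.le
      have p4 : 0 ≤ C₁ * ell ^ 2 := by positivity
      refine ⟨?_, ?_, ?_⟩
      · nlinarith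
      · nlinarith
      · nlinarith
  obtain ⟨T, hT0, hT1, hT2⟩ := exists_T (A ^ (r + 3) + Λ / C₁ + 1) (2 * (r + 3)) (C' + 4)
  obtain ⟨ell, hell⟩ : ∃ ell : ℝ, ell = Real.log T := ⟨_, rfl⟩
  rw [← hell] at hT1 hT2
  have hAp : 1 ≤ A ^ (r + 3) := one_le_pow₀ hA0
  have hΛC : 0 < Λ / C₁ := by positivity
  have hell1 : 1 ≤ ell := by linarith
  have hTr : (4 : ℝ) ≤ T := by
    have : 4 ≤ T := by omega
    exact_mod_cast this
  have hbig : (A * ell ^ 2) ^ (r + 3) ≤ T := by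
    have e1 : (A * ell ^ 2) ^ (r + 3) = A ^ (r + 3) * ell ^ (2 * (r + 3)) := by
      rw [mul_pow, ← pow_mul]
    rw [e1]
    have e2 : (1 : ℝ) ≤ ell ^ (2 * (r + 3)) := one_le_pow₀ hell1
    nlinarith
  obtain ⟨R, hR⟩ : ∃ R : ℝ, R = C₁ * ell := ⟨_, rfl⟩
  have hRΛ : Λ ≤ R := by
    have e1 : Λ / C₁ ≤ ell := by linarith
    rw [div_le_iff₀ hC₁0] at e1
    rw [hR]
    linarith
  obtain ⟨N₀, hN₀, hN₀'⟩ : ∃ N₀ : ℕ, Λ * R ^ 2 ≤ N₀ ∧ (N₀ : ℝ) ≤ Λ * R ^ 2 + 1 :=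
    ⟨⌈Λ * R ^ 2⌉₊, Nat.le_ceil _, (Nat.ceil_lt_add_one (by positivity)).le⟩
  have hN₀1 : 0 < N₀ := by
    have : (0 : ℝ) < N₀ := by
      have : 0 < Λ * R ^ 2 := by
        have : 0 < R := by linarith
        positivity
      linarith
    exact_mod_cast this
  obtain ⟨N₁, hN₁⟩ : ∃ N₁ : ℕ, N₁ = 6 * C' * r * N₀ := ⟨_, rfl⟩
  rw [hR] at hN₀'
  obtain ⟨hA2, hA3, hA4⟩ := hA1 ell hell1 N₀ hN₀'
  have hN₁c : (N₁ : ℝ) = 6 * C' * r * N₀ := by
    rw [hN₁]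
    push_cast
    ring
  rw [← hN₁c] at hA2 hA3
  rw [← hR] at hA4
  have hN₁0 : 0 < N₁ := by
    rw [hN₁]
    positivity
  have hN01 : N₀ ≤ N₁ := by
    rw [hN₁]
    have : 1 ≤ 6 * C' * r := by
      have : 0 < 6 * C' * r := by positivity
      omega
    nlinarith
  -- the number of points
  have hc1 : 2 * C' * (Bz r N₀).card ≤ (Bz r N₁).card := by
    have e1 := card_Bz_le r N₀ hN₀1
    have e2 := le_card_Bz r N₁ hr
    have e3 : N₁ ^ r = r ^ r * (6 * C' * N₀) ^ r := by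
      rw [← mul_pow, hN₁]
      congr 1
      ring
    rw [e3] at e2
    have e4 := Nat.le_of_mul_le_mul_left e2 (by positivity)
    refine le_trans ?_ e4
    have e5 : (6 * C' * N₀) ^ r = (2 * C') ^ r * (3 * N₀) ^ r := by
      rw [← mul_pow]
      congr 1
      ring
    rw [e5]
    refine Nat.mul_le_mul ?_ e1
    exact Nat.le_self_pow hr0 _
  have hcB : 0 < (Bz r N₁).card := by
    have e2 := le_card_Bz r N₁ hr
    by_contra hcon
    rw [not_lt, Nat.le_zero] at hcon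
    rw [hcon, mul_zero] at e2
    have : 0 < N₁ ^ r := by positivity
    omega
  obtain ⟨D₁, hD₁⟩ : ∃ D₁ : ℕ, D₁ + 1 = (Bz r N₁).card :=
    ⟨(Bz r N₁).card - 1, by omega⟩
  obtain ⟨D₀, hD₀⟩ : ∃ D₀ : ℕ, D₀ = T / C' := ⟨_, rfl⟩
  have hT00 : 0 < T := by omega
  have hD₀T : D₀ < T := by
    rw [hD₀]
    exact Nat.div_lt_self hT00 (by omega)
  -- Siegel
  have hcs : 2 * (T * (Bz r N₀).card) ≤ (D₀ + 1) * (D₁ + 1) := by
    have e1 : T ≤ C' * (D₀ + 1) := by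
      rw [hD₀]
      have := Nat.lt_mul_div_succ T (by omega : 0 < C')
      have e : C' * (T / C').succ = C' * (T / C' + 1) := rfl
      omega
    rw [hD₁]
    calc 2 * (T * (Bz r N₀).card) ≤ 2 * ((C' * (D₀ + 1)) * (Bz r N₀).card) := by
          gcongr
      _ = (D₀ + 1) * (2 * C' * (Bz r N₀).card) := by ring
      _ ≤ (D₀ + 1) * (Bz r N₁).card := Nat.mul_le_mul_left _ hc1
  have h0B : (0 : Fin r → ℤ) ∈ Bz r N₀ := by
    rw [mem_Bz]
    have : n2 (0 : Fin r → ℤ) = 0 := by simp [n2]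
    rw [this]
    positivity
  obtain ⟨al, ⟨i₀, hi₀, j₀, hj₀, hne⟩, hal, hvan⟩ := hsieg D₀ D₁ T (r * N₀) (Bz r N₀) hT00
    ⟨0, h0B⟩ (fun z hz => l1_le_of_mem hz) hcs
  obtain ⟨Lg, hLg⟩ : ∃ Lg : ℝ, Lg = Real.log (T + D₁ + 2) := ⟨_, rfl⟩
  obtain ⟨P, hP⟩ : ∃ P : ℝ, P = (D₁ + 1) * (r * N₁ + r + 1) := ⟨_, rfl⟩
  obtain ⟨H, hH⟩ : ∃ H : ℝ, H = Λ * (D₀ + P + T * Lg) := ⟨_, rfl⟩
  have hLg0 : 0 ≤ Lg := by
    rw [hLg]
    refine Real.log_nonneg ?_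
    have : (0 : ℝ) ≤ D₁ := Nat.cast_nonneg _
    linarith
  have hP0 : 0 ≤ P := by
    rw [hP]
    positivity
  have hH0 : 0 ≤ H := by
    rw [hH]
    positivity
  have hal' : ∀ i ≤ D₀, ∀ j ≤ D₁, house (al i j : K) ≤ Real.exp H := by
    intro i hi j hj
    refine (hal i hi j hj).trans (Real.exp_le_exp.2 ?_)
    rw [hH, ← hLg]
    have e1 : ((D₁ : ℝ) + 1) * ((r * N₀ : ℕ) + 1) ≤ P := by
      rw [hP]
      push_cast
      have e3 : (N₀ : ℝ) ≤ N₁ := by exact_mod_cast hN01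
      have e4 : (r : ℝ) * N₀ ≤ r * N₁ := mul_le_mul_of_nonneg_left e3 (Nat.cast_nonneg _)
      have e5 : (0 : ℝ) ≤ r := Nat.cast_nonneg _
      gcongr
      linarith
    have e2 : (D₀ : ℝ) + (D₁ + 1) * ((r * N₀ : ℕ) + 1) + T * Lg ≤ D₀ + P + T * Lg := by linarith
    have e3 : 0 ≤ (D₀ : ℝ) + P + T * Lg := by positivity
    calc Λ₃ * ((D₀ : ℝ) + (D₁ + 1) * ((r * N₀ : ℕ) + 1) + T * Lg)
        ≤ Λ₃ * (D₀ + P + T * Lg) := mul_le_mul_of_nonneg_left e2 (by linarith)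
      _ ≤ Λ * (D₀ + P + T * Lg) := mul_le_mul_of_nonneg_right h3Λ e3
  -- sizes
  have hD₁r : ((D₁ : ℝ) + 1) ≤ (A * ell ^ 2) ^ r := by
    have e1 := card_Bz_le r N₁ hN₁0
    rw [← hD₁] at e1
    have e2 : ((D₁ : ℝ) + 1) ≤ (3 * N₁) ^ r := by exact_mod_cast e1
    exact e2.trans (pow_le_pow_left₀ (by positivity) hA2 r)
  have hAe : 1 ≤ A * ell ^ 2 := by
    have : (1 : ℝ) ≤ ell ^ 2 := one_le_pow₀ hell1
    nlinarith
  have hAr : 0 ≤ (A * ell ^ 2) ^ r := by positivity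
  have hs1 : (A * ell ^ 2) ^ r * (A * ell ^ 2) ≤ T := by
    refine le_trans ?_ hbig
    rw [← pow_succ]
    exact pow_le_pow_right₀ hAe (by omega)
  have hs2 : ((D₁ : ℝ) + 1) * R ≤ T := by
    refine le_trans ?_ hs1
    exact mul_le_mul hD₁r hA4 (by linarith) hAr
  have hr1 : (1 : ℝ) ≤ r := by exact_mod_cast hr
  have hs3 : P ≤ T := by
    rw [hP]
    have e1 : (r : ℝ) * N₁ + r + 1 ≤ 2 * (A * ell ^ 2) := by
      have e2 : (1 : ℝ) ≤ N₁ := by exact_mod_cast hN₁0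
      nlinarith
    have e2 : 2 * (A * ell ^ 2) ≤ (A * ell ^ 2) ^ 3 := by
      have e3 : (2 : ℝ) ≤ A * ell ^ 2 := by
        have e4 : (1 : ℝ) ≤ N₁ := by exact_mod_cast hN₁0
        linarith
      have e4 : (A * ell ^ 2) ^ 3 = (A * ell ^ 2) * (A * ell ^ 2) * (A * ell ^ 2) := by ring
      rw [e4]
      have e5 : 2 ≤ (A * ell ^ 2) * (A * ell ^ 2) := by nlinarith
      exact mul_le_mul_of_nonneg_right e5 (by linarith)
    calc ((D₁ : ℝ) + 1) * (r * N₁ + r + 1) ≤ (A * ell ^ 2) ^ r * (A * ell ^ 2) ^ 3 :=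
          mul_le_mul hD₁r (e1.trans e2) (by positivity) hAr
      _ = (A * ell ^ 2) ^ (r + 3) := by rw [← pow_add]
      _ ≤ T := hbig
  have hs4 : Lg ≤ 2 * ell := by
    have e1 : ((D₁ : ℝ) + 1) ≤ T := by
      refine hD₁r.trans (le_trans ?_ hs1)
      nlinarith
    have e2 : (T : ℝ) + D₁ + 2 ≤ T ^ 2 := by nlinarith
    have e3 : (0 : ℝ) < T + D₁ + 2 := by positivity
    rw [hLg, hell]
    have e4 := Real.log_le_log e3 e2
    rw [Real.log_pow] at e4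
    exact_mod_cast e4
  have hD₀r : (D₀ : ℝ) ≤ T / C' := by
    rw [hD₀]
    exact Nat.cast_div_le
  have hs5 : Λ * D₀ ≤ κ / 8 * T := by
    have e1 : 8 * Λ / κ ≤ C' := by linarith
    rw [div_le_iff₀ hκ] at e1
    have e2 : Λ * (D₀ : ℝ) ≤ Λ * (T / C') := mul_le_mul_of_nonneg_left hD₀r (by linarith)
    refine e2.trans ?_
    rw [mul_div_assoc', div_le_iff₀ hC'0]
    nlinarith
  have hs6 : (D₀ : ℝ) ≤ T := by exact_mod_cast hD₀T.le
  -- the induction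
  have key : ∀ N : ℕ, N₀ ≤ N → N ≤ N₁ → ∀ z : Fin r → ℤ, n2 z ≤ (N : ℤ) ^ 2 → ∀ l < T,
      bet c D₀ D₁ (fun i j => (al i j : K)) (ν z) l = 0 := by
    intro N hN
    induction N, hN using Nat.le_induction with
    | base =>
      intro _ z hz l hl
      exact hvan z (mem_Bz.2 hz) l hl
    | succ N hN ih =>
      intro hN1 z hz l hl
      have ih' := ih (by omega)
      by_cases hzN : n2 z ≤ (N : ℤ) ^ 2
      · exact ih' z hzN l hl
      rw [not_le] at hzN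
      by_contra hcon
      classical
      have hex : ∃ m, m < T ∧ bet c D₀ D₁ (fun i j => (al i j : K)) (ν z) m ≠ 0 := ⟨l, hl, hcon⟩
      obtain ⟨m, ⟨hm, hbm⟩, hmin⟩ : ∃ m, (m < T ∧
          bet c D₀ D₁ (fun i j => (al i j : K)) (ν z) m ≠ 0) ∧ ∀ l < m,
          bet c D₀ D₁ (fun i j => (al i j : K)) (ν z) l = 0 := by
        refine ⟨Nat.find hex, Nat.find_spec hex, fun l hl => ?_⟩
        have := Nat.find_min hex hl
        by_contra h0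
        exact this ⟨hl.trans (Nat.find_spec hex).1, h0⟩
      have hup := hbox R (h1Λ.trans hRΛ) N (le_trans (le_trans
        (mul_le_mul_of_nonneg_right h1Λ (sq_nonneg R)) hN₀) (by exact_mod_cast hN)) z hzN
        (by exact_mod_cast hz) D₀ D₁ T m (fun i j => σ₀ (al i j : K)) (Real.exp H)
        (fun i hi j hj => (norm_embedding_le_house _ σ₀).trans (hal' i hi j hj)) hm
        (fun z' hz' l hl => by
          rw [← bet_map, ih' z' hz' l hl, map_zero])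
        (fun l hl => by rw [← bet_map, hmin l hl, map_zero])
      rw [← bet_map] at hup
      have hlow := hliou D₀ D₁ al H hH0 hal' z m hbm
      have hcomp := hlow.trans hup
      rw [← Real.exp_add, Real.exp_le_exp] at hcomp
      -- sizes
      have hl1 : (l1 z : ℝ) ≤ r * N₁ := by
        have e1 : z ∈ Bz r N₁ := by
          rw [mem_Bz]
          refine hz.trans ?_
          have : ((N + 1 : ℕ) : ℤ) ≤ N₁ := by exact_mod_cast hN1
          have h0 : (0 : ℤ) ≤ ((N + 1 : ℕ) : ℤ) := by positivity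
          nlinarith
        exact_mod_cast l1_le_of_mem e1
      have hm1 : (m : ℝ) * Real.log (m + D₁ + 2) ≤ T * Lg := by
        have e1 : (m : ℝ) ≤ T := by exact_mod_cast hm.le
        have e2 : Real.log (m + D₁ + 2) ≤ Lg := by
          rw [hLg]
          exact Real.log_le_log (by positivity) (by linarith)
        have e3 : 0 ≤ Real.log ((m : ℝ) + D₁ + 2) := by
          refine Real.log_nonneg ?_
          have : (0 : ℝ) ≤ m := Nat.cast_nonneg _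
          have : (0 : ℝ) ≤ D₁ := Nat.cast_nonneg _
          linarith
        exact mul_le_mul e1 e2 e3 (Nat.cast_nonneg _)
      have hP1 : ((D₁ : ℝ) + 1) * (l1 z + 1) ≤ P := by
        rw [hP]
        have : (0 : ℝ) ≤ D₁ + 1 := by positivity
        refine mul_le_mul_of_nonneg_left ?_ this
        linarith
      have hreal := core_real (m := (m : ℝ) * Real.log (m + D₁ + 2)) (D1 := (D₁ : ℝ)) hκ hΛ1
        (by linarith : (1 : ℝ) ≤ T) hell1 hC₁ hR hs5 hs6 hs2 hs3 hH hs4 hLg0 (Nat.cast_nonneg _)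
        hm1 hP0
      have e1 : Λ₂ * (H + D₀ + (D₁ + 1) * (l1 z + 1) + m * Real.log (m + D₁ + 2)) ≤
          Λ * (H + D₀ + P + m * Real.log (m + D₁ + 2)) := by
        have e3 : 0 ≤ (m : ℝ) * Real.log (m + D₁ + 2) := by
          refine mul_nonneg (Nat.cast_nonneg _) (Real.log_nonneg ?_)
          have : (0 : ℝ) ≤ m := Nat.cast_nonneg _
          have : (0 : ℝ) ≤ D₁ := Nat.cast_nonneg _
          linarith
        have e4 : (0 : ℝ) ≤ (D₁ + 1) * (l1 z + 1) := by positivity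
        have e5 : (0 : ℝ) ≤ D₀ := Nat.cast_nonneg _
        refine mul_le_mul h2Λ (by linarith) (by linarith) (by linarith)
      have e2 : Λ₁ * (D₀ + D₁ + 1) * R + Λ₁ * T ≤ Λ * (D₀ + D₁ + 1) * R + Λ * T := by
        have e3 : (0 : ℝ) ≤ D₀ + D₁ + 1 := by positivity
        have e4 : 0 ≤ R := by linarith
        have e5 : Λ₁ * (D₀ + D₁ + 1) * R ≤ Λ * (D₀ + D₁ + 1) * R :=
          mul_le_mul_of_nonneg_right (mul_le_mul_of_nonneg_right h1Λ e3) e4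
        have e6 : Λ₁ * (T : ℝ) ≤ Λ * T := mul_le_mul_of_nonneg_right h1Λ (Nat.cast_nonneg _)
        linarith
      linarith
  -- the end
  have hfin := vdm (ν := ν) (c := c) (a := fun i j => (al i j : K)) hA.inj hA.c_zero
    (Z := Bz r N₁) (D₁ := D₁) (D₀ := D₀) (T := T) (by omega) hD₀T
    (fun z hz l hl => key N₁ hN01 le_rfl z (mem_Bz.1 hz) l hl) i₀ hi₀ j₀ hj₀
  apply hne
  exact_mod_cast hfin

end Pool.Agent.Lib.MP_5d4057_al.T5
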