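import Pool.Agent.Lib.MP_5d4057_al.T5.Dat

/-!
# T5: the whole argument from the Siegel lemma, the Liouville inequality and the orbit count
-/

set_option autoImplicit false

namespace Pool.Agent.Lib.MP_5d4057_al.T5

open Filter Topology Metric

variable {K : Type*} [Field K] [NumberField K] {G : Type*} [Group G]
  {ι : K →+* ℂ} {t Y α b y₁ y₂ : ℂ → ℂ} {act : G → ℂ → ℂ} {r : ℕ}
  {e : G → Fin r → ℤ} {x : (Fin r → ℤ) → K} {M : ℝ} {E : ℕ}

/-- The step from `N` to `N + 1`. -/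
theorem Dat.step (H : Dat ι t Y α b y₁ y₂ act r e x M E) {a : ℕ → ℕ → K} {D0 D1 T J j₁ N : ℕ}
    {C CL Ch c A l Hh : ℝ} (hCL : 1 ≤ CL) (hC1 : CL ≤ C) (hC2 : -Real.log ‖b 0‖ ≤ C)
    (hC3 : -Real.log ‖y₂ 0‖ ≤ C) (hC4 : Real.log M ≤ C) (hC5 : (E : ℝ) ≤ C)
    (hLio : ∀ (D0 D1 m : ℕ) (a : ℕ → ℕ → K) (x : K) (h A : ℝ) (k : ℂ → ℂ), 0 ≤ A →
      (∀ i j, IsIntegral ℤ (a i j) ∧ NumberField.house (a i j) ≤ Real.exp A) → Ht K x h →
      AnalyticAt ℂ k 0 → k 0 ≠ 0 →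
      (∀ᶠ z in nhds 0, Fz ι t Y a x D0 D1 z = (z - 0) ^ m * k z) →
      Real.exp (-(CL * (A + m * Real.log (D0 + D1 + m + 1) + D0 + D1 * (h + 1)))) ≤ ‖k 0‖)
    (hA : 0 ≤ A) (ha : ∀ i j, IsIntegral ℤ (a i j) ∧ NumberField.house (a i j) ≤ Real.exp A)
    (hl : l = Real.log (D0 + D1 + T + 1)) (hCh : 0 ≤ Ch) (hHh : Ch * (N + 1) + 1 ≤ Hh)
    (hht : ∀ n : ℕ, ∀ u : Fin r → ℤ, ∑ i, u i ^ 2 ≤ (n : ℤ) ^ 2 → Ht K (x u) (Ch * n))
    (hP : ∀ g, ∑ i, e g i ^ 2 ≤ (N : ℤ) ^ 2 →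
      (T : ℕ∞) ≤ analyticOrderAt (Fz ι t Y a (x (e g)) D0 D1) 0)
    (hJ : j₁ ≤ J) {g₀ : G} (hg : ∑ i, e g₀ i ^ 2 ≤ ((N : ℤ) + 1) ^ 2) {S : Finset ℂ}
    (hS : ∀ z ∈ S, (z ≠ 0 ∧ ‖z‖ ≤ 1 - (1 / 2) ^ J) ∧ ∃ g, z = act g 0 ∧
      ∑ i, e (g₀ * g) i ^ 2 ≤ (N : ℤ) ^ 2)
    (hSN : ∀ j, j₁ ≤ j → j ≤ J →
      c * 2 ^ j ≤ ((S.filter fun z => ‖z‖ ≤ 1 - (1 / 2) ^ j).card : ℝ))
    (hfin : C * (A + T * l + D0 + D1 * Hh) + C * (D0 + D1) + (A + Real.log (D0 + 1) +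
      Real.log (D1 + 1) + (D0 + D1) * C) + C * (D0 + D1) * (J + 1) + T <
        T * (c * (J - j₁ + 1) / 4)) :
    (T : ℕ∞) ≤ analyticOrderAt (Fz ι t Y a (x (e g₀)) D0 D1) 0 := by
  by_contra hcon
  rw [not_le] at hcon
  set f := Fz ι t Y a (x (e g₀)) D0 D1 with hf
  obtain ⟨m, hm⟩ : ∃ m : ℕ, analyticOrderAt f 0 = m := by
    have h1 : analyticOrderAt f 0 ≠ ⊤ := ne_top_of_lt hcon
    exact ⟨(analyticOrderAt f 0).toNat, (ENat.natCast_toNat h1).symm⟩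
  have hmT : m < T := by
    rw [hm] at hcon
    exact_mod_cast hcon
  obtain ⟨k0, hk0a, hk0, hke⟩ := ((H.F_an a _ D0 D1).analyticOrderAt_eq_natCast).1 hm
  have hke' : ∀ᶠ z in 𝓝 (0 : ℂ), Fz ι t Y a (x (e g₀)) D0 D1 z = (z - 0) ^ m * k0 z := by
    filter_upwards [hke] with z hz
    exact hz
  have hht0 : Ht K (x (e g₀)) (Ch * (N + 1 : ℕ)) := hht (N + 1) _ (by push_cast; exact hg)
  have hLi := hLio D0 D1 m a (x (e g₀)) _ A k0 hA ha hht0 hk0a hk0 hke'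
  have hgrow : ∀ z : ℂ, ‖z‖ < 1 → ‖Ph ι α b y₁ y₂ a (x (e g₀)) D0 D1 z‖ ≤
      Real.exp (A + Real.log (D0 + 1) + Real.log (D1 + 1) + (D0 + D1) * Real.log M) *
        ((1 - ‖z‖)⁻¹) ^ (E * (D0 + D1)) := by
    intro z hz
    obtain ⟨g1, g2, g3, g4⟩ := H.hgr z hz
    exact ph_growth H.hM hz g1 g2 g3 g4 (fun i j =>
      (NumberField.norm_embedding_le_house _ ι).trans (ha i j).2) (H.hx1 _)
  have hord : ∀ z ∈ S, (T : ℕ∞) ≤
      analyticOrderAt (Ph ι α b y₁ y₂ a (x (e g₀)) D0 D1) z := by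
    intro z hz
    obtain ⟨-, g, rfl, hg2⟩ := hS z hz
    have h1 := H.F_to_Ph (hP (g₀ * g) hg2)
    rw [H.he, H.hx] at h1
    exact ph_order H.hα H.hb H.h1 H.h2 (H.hactd g) (H.hact g) (H.hact' g) H.hb0 H.hy0
      (H.hαact g) (H.hyact g) h1
  have key := step_ineq (t := t) (Y := Y) H.hα H.hb H.h1 H.h2 H.hb0 H.hy0 H.ht H.hY hk0a hk0
    hke' hJ hgrow (fun z hz => (hS z hz).1) hord hSN
  have hk0n : 0 < ‖k0 0‖ := norm_pos_iff.2 hk0
  have hLi' : -(CL * (A + m * Real.log (D0 + D1 + m + 1) + D0 + D1 *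
      (Ch * (N + 1 : ℕ) + 1))) ≤ Real.log ‖k0 0‖ := by
    rw [← Real.log_exp (-(CL * (A + m * Real.log (D0 + D1 + m + 1) + D0 + D1 *
      (Ch * (N + 1 : ℕ) + 1))))]
    exact Real.log_le_log (Real.exp_pos _) hLi
  have hD0 : (0 : ℝ) ≤ D0 := Nat.cast_nonneg _
  have hD1 : (0 : ℝ) ≤ D1 := Nat.cast_nonneg _
  have hm0 : (0 : ℝ) ≤ m := Nat.cast_nonneg _
  have hJ0 : (0 : ℝ) ≤ J := Nat.cast_nonneg _
  have hN0 : (0 : ℝ) ≤ N := Nat.cast_nonneg _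
  have hmT' : (m : ℝ) ≤ T := by exact_mod_cast hmT.le
  have hl0 : 0 ≤ l := by
    rw [hl]
    exact Real.log_nonneg (by linarith)
  have hml : (m : ℝ) * Real.log (D0 + D1 + m + 1) ≤ T * l := by
    refine mul_le_mul hmT' ?_ (Real.log_nonneg (by linarith)) (by linarith)
    rw [hl]
    exact Real.log_le_log (by linarith) (by linarith)
  have hHn : (D1 : ℝ) * (Ch * (N + 1 : ℕ) + 1) ≤ D1 * Hh := by
    refine mul_le_mul_of_nonneg_left ?_ hD1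
    push_cast
    exact hHh
  have hin : CL * (A + m * Real.log (D0 + D1 + m + 1) + D0 + D1 * (Ch * (N + 1 : ℕ) + 1)) ≤
      C * (A + T * l + D0 + D1 * Hh) := by
    refine mul_le_mul hC1 (by linarith) ?_ (by linarith)
    have g1 : 0 ≤ (m : ℝ) * Real.log (D0 + D1 + m + 1) :=
      mul_nonneg hm0 (Real.log_nonneg (by linarith))
    have g2 : 0 ≤ (D1 : ℝ) * (Ch * (N + 1 : ℕ) + 1) := by positivity
    linarith
  have hb1 : -(C * (D0 + D1)) ≤ D0 * Real.log ‖b 0‖ + D1 * Real.log ‖y₂ 0‖ := by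
    have g1 : -(D0 * C) ≤ D0 * Real.log ‖b 0‖ := by
      have := mul_le_mul_of_nonneg_left hC2 hD0
      linarith
    have g2 : -(D1 * C) ≤ D1 * Real.log ‖y₂ 0‖ := by
      have := mul_le_mul_of_nonneg_left hC3 hD1
      linarith
    linarith
  have hb2 : ((D0 : ℝ) + D1) * Real.log M ≤ (D0 + D1) * C :=
    mul_le_mul_of_nonneg_left hC4 (by linarith)
  have hb3 : ((E * (D0 + D1) : ℕ) : ℝ) * (J + 1) ≤ C * (D0 + D1) * (J + 1) := by
    push_cast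
    refine mul_le_mul_of_nonneg_right ?_ (by linarith)
    exact mul_le_mul_of_nonneg_right hC5 (by linarith)
  linarith

/-- **The core of T5.** -/
theorem Dat.core (H : Dat ι t Y α b y₁ y₂ act r e x M E) (hSg : SiegelAt ι t Y 0)
    (hLi : LiouvilleAt ι t Y 0) {c : ℝ} {CO j₀ : ℕ} (hc : 0 < c)
    (horb : ∀ J ≥ j₀, ∀ N : ℕ, CO * J ^ 2 ≤ N → ∀ g₀ : G, (N : ℤ) ^ 2 < ∑ i, e g₀ i ^ 2 →
      ∑ i, e g₀ i ^ 2 ≤ ((N : ℤ) + 1) ^ 2 → ∃ S : Finset ℂ, (∀ z ∈ S, ‖z‖ ≤ 1 - (1 / 2) ^ J ∧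
        ∃ g, z = act g 0 ∧ ∑ i, e (g₀ * g) i ^ 2 ≤ (N : ℤ) ^ 2) ∧ c * 2 ^ J ≤ (S.card : ℝ)) :
    False := by
  classical
  obtain ⟨CS, hCS, hSg⟩ := hSg
  obtain ⟨CL, hCL, hLi⟩ := hLi
  obtain ⟨j₁, horb'⟩ := orbit_union hc horb
  have hx0 : x 0 = 1 := by
    have h1 := H.hx 0 0
    rw [add_zero] at h1
    have h2 : x 0 ≠ 0 := by
      intro h3
      have h4 := H.hx1 0
      rw [h3, map_zero, norm_zero] at h4
      exact zero_ne_one h4
    exact (mul_right_cancel₀ h2 (by rw [one_mul]; exact h1)).symm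
  obtain ⟨Ch0, hCh0, hht0⟩ := ht_hom H.hx hx0
  set Ch : ℝ := Ch0 * r with hChd
  have hCh : 0 ≤ Ch := mul_nonneg hCh0 (Nat.cast_nonneg _)
  have hht : ∀ n : ℕ, ∀ u : Fin r → ℤ, ∑ i, u i ^ 2 ≤ (n : ℤ) ^ 2 → Ht K (x u) (Ch * n) := by
    intro n u hu
    refine (hht0 u).mono ?_
    rw [hChd, mul_assoc]
    refine mul_le_mul_of_nonneg_left ?_ hCh0
    calc ∑ i, |(u i : ℝ)| ≤ ∑ _i : Fin r, (n : ℝ) := by
          refine Finset.sum_le_sum fun i _ => ?_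
          have h1 := abs_le_of_sum hu i
          have h2 : ((|u i| : ℤ) : ℝ) ≤ (n : ℤ) := by exact_mod_cast h1
          rw [Int.cast_abs] at h2
          exact_mod_cast h2
      _ = r * n := by simp
  -- the constant
  set C : ℝ := CS + CL + |Real.log ‖b 0‖| + |Real.log ‖y₂ 0‖| + Real.log M + E with hCd
  have hlM : 0 ≤ Real.log M := Real.log_nonneg H.hM
  have hE0 : (0 : ℝ) ≤ E := Nat.cast_nonneg _
  have a1 := abs_nonneg (Real.log ‖b 0‖)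
  have a2 := abs_nonneg (Real.log ‖y₂ 0‖)
  have hC1 : 1 ≤ C := by linarith
  have hCSC : CS ≤ C := by linarith
  have hCLC : CL ≤ C := by linarith
  have hC2 : -Real.log ‖b 0‖ ≤ C := by
    have := neg_abs_le (Real.log ‖b 0‖)
    linarith
  have hC3 : -Real.log ‖y₂ 0‖ ≤ C := by
    have := neg_abs_le (Real.log ‖y₂ 0‖)
    linarith
  have hC4 : Real.log M ≤ C := by linarith
  have hC5 : (E : ℝ) ≤ C := by linarith
  obtain ⟨ex, J, D0, N0, D1, N1, T, hJ, hN0, hex, hD0, hT, hD1, hN1, hpar⟩ :=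
    params (half_pos hc) hC1 hCh r CO j₁
  have hpar := hpar _ _ _ rfl rfl rfl
  set Hh : ℝ := Ch * (N1 + 1) + 1 with hHh
  set l : ℝ := Real.log (D0 + D1 + T + 1) with hl
  set A : ℝ := C * (T * l + D0 + D1 * Hh) with hA
  have hr1 : 1 ≤ r := H.hr
  have hN01 : N0 ≤ N1 := by
    rw [hN1]
    calc N0 ≤ 2 * N0 + 1 := by omega
      _ ≤ 2 ^ (ex + 2) * (2 * N0 + 1) := Nat.le_mul_of_pos_left _ (by positivity)
      _ ≤ r * (2 ^ (ex + 2) * (2 * N0 + 1)) := Nat.le_mul_of_pos_left _ H.hr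
  have hD0r : (0 : ℝ) ≤ D0 := Nat.cast_nonneg _
  have hD1r : (0 : ℝ) ≤ D1 := Nat.cast_nonneg _
  have hTr : (0 : ℝ) ≤ T := Nat.cast_nonneg _
  have hl0 : 0 ≤ l := Real.log_nonneg (by linarith)
  have hHh1 : 1 ≤ Hh := by
    rw [hHh]
    have : 0 ≤ Ch * ((N1 : ℝ) + 1) := by positivity
    linarith
  have hA0 : 0 ≤ A := by positivity
  have hT1 : 1 ≤ T := by
    rw [hT]
    exact Nat.mul_pos (by positivity) hD0
  -- Siegel
  set X : Finset K := (Lat r N0).image x with hX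
  have hXc : X.card ≤ (2 * N0 + 1) ^ r := Finset.card_image_le.trans (card_lat r N0)
  have hXh : ∀ y ∈ X, Ht K y (Ch * N0) := by
    intro y hy
    obtain ⟨u, hu, rfl⟩ := Finset.mem_image.1 hy
    exact hht N0 u (mem_lat.1 hu)
  have hcount : 2 * T * X.card ≤ (D0 + 1) * (D1 + 1) := by
    calc 2 * T * X.card ≤ 2 * T * (2 * N0 + 1) ^ r := Nat.mul_le_mul_left _ hXc
      _ = D0 * D1 := by
          rw [hT, hD1]
          ring
      _ ≤ (D0 + 1) * (D1 + 1) := Nat.mul_le_mul (by omega) (by omega)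
  obtain ⟨a, hane, haint, haord⟩ := hSg D0 D1 T hT1 X (Ch * N0) (by positivity) hXh hcount
  have ha : ∀ i j, IsIntegral ℤ (a i j) ∧ NumberField.house (a i j) ≤ Real.exp A := by
    intro i j
    refine ⟨(haint i j).1, (haint i j).2.trans (Real.exp_le_exp.2 ?_)⟩
    rw [hA, ← hl]
    have g0 : Ch * (N0 : ℝ) + 1 ≤ Hh := by
      rw [hHh]
      have g1 : (N0 : ℝ) ≤ N1 + 1 := by
        have : (N0 : ℝ) ≤ N1 := by exact_mod_cast hN01
        linarith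
      have := mul_le_mul_of_nonneg_left g1 hCh
      linarith
    have g2 : (D1 : ℝ) * (Ch * N0 + 1) ≤ D1 * Hh := mul_le_mul_of_nonneg_left g0 hD1r
    refine mul_le_mul hCSC (by linarith) ?_ (by linarith)
    positivity
  -- the induction
  have hind : ∀ N : ℕ, N0 ≤ N → N ≤ N1 → ∀ g, ∑ i, e g i ^ 2 ≤ (N : ℤ) ^ 2 →
      (T : ℕ∞) ≤ analyticOrderAt (Fz ι t Y a (x (e g)) D0 D1) 0 := by
    intro N hN
    induction N, hN using Nat.le_induction with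
    | base =>
      intro _ g hg
      exact haord _ (Finset.mem_image_of_mem x (mem_lat.2 hg))
    | succ N hN ih =>
      intro hN1' g hg
      have ih' := ih (by omega)
      by_cases hgN : ∑ i, e g i ^ 2 ≤ (N : ℤ) ^ 2
      · exact ih' g hgN
      · rw [not_le] at hgN
        push_cast at hg
        obtain ⟨S, hS, hSN⟩ := horb' J hJ N (by rw [← hN0]; exact hN) g hgN hg
        have hHN : Ch * ((N : ℝ) + 1) + 1 ≤ Hh := by
          rw [hHh]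
          have g1 : (N : ℝ) + 1 ≤ N1 + 1 := by
            have : (N : ℝ) ≤ N1 := by exact_mod_cast (by omega : N ≤ N1)
            linarith
          have := mul_le_mul_of_nonneg_left g1 hCh
          linarith
        exact H.step hCL hCLC hC2 hC3 hC4 hC5 hLi hA0 ha hl hCh hHN hht ih' hJ hg hS hSN hpar
  -- the end
  have hbig : D1 + 1 ≤ (Lat r N1).card := by
    rw [hN1]
    refine le_trans ?_ (le_card_lat H.hr _)
    have g1 : D1 + 1 ≤ 2 * D1 := by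
      have : 1 ≤ D1 := by
        rw [hD1]
        exact Nat.mul_pos (by positivity) (by positivity)
      omega
    refine g1.trans ?_
    have g2 : 2 * D1 = 2 ^ (ex + 2) * (2 * N0 + 1) ^ r := by
      rw [hD1]
      ring
    rw [g2]
    calc 2 ^ (ex + 2) * (2 * N0 + 1) ^ r ≤ (2 ^ (ex + 2)) ^ r * (2 * N0 + 1) ^ r :=
          Nat.mul_le_mul_right _ (Nat.le_self_pow (by omega) _)
      _ = (2 ^ (ex + 2) * (2 * N0 + 1)) ^ r := (mul_pow _ _ _).symm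
      _ ≤ (2 * (2 ^ (ex + 2) * (2 * N0 + 1)) + 1) ^ r := Nat.pow_le_pow_left (by omega) _
  obtain ⟨L, hL, hLc⟩ := Finset.exists_subset_card_eq hbig
  let φ : Fin (D1 + 1) ≃ L := (Finset.equivFinOfCardEq hLc).symm
  have hinj : Function.Injective fun k : Fin (D1 + 1) => ι (x (φ k : Fin r → ℤ)) := by
    intro k k' hk
    exact φ.injective (Subtype.ext (H.hxi (ι.injective hk)))
  have hD0T : D0 < T := by
    rw [hT]
    have g1 : 2 ≤ 2 ^ ex := by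
      calc 2 = 2 ^ 1 := rfl
        _ ≤ 2 ^ ex := Nat.pow_le_pow_right (by norm_num) hex
    nlinarith
  have hend := van_final H.t_an H.ht' H.Y_an H.hY0 hD0T (a := fun i j => ι (a i j)) hinj
    (fun k => by
      obtain ⟨g, hg⟩ := H.hes (φ k : Fin r → ℤ)
      have g1 := hind N1 hN01 le_rfl g (by
        rw [hg]
        exact mem_lat.1 (hL (φ k).2))
      rw [hg] at g1
      exact g1)
  obtain ⟨i, hi, j, hj, hij⟩ := hane
  exact hij ((map_eq_zero ι).1 (hend i hi j hj))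

end Pool.Agent.Lib.MP_5d4057_al.T5
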