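import Pool.Agent.Lib.MP_5d4057_al.T5.HtD

/-!
# T5: heights of the values of the multiplier, lattice points
-/

set_option autoImplicit false

namespace Pool.Agent.Lib.MP_5d4057_al.T5

variable {K : Type*} [Field K] [NumberField K]

theorem Ht.mono {x : K} {h h' : ℝ} (H : Ht K x h) (hh : h ≤ h') : Ht K x h' := by
  obtain ⟨h0, q, hq, hqh, hi, hx⟩ := H
  exact ⟨h0.trans hh, q, hq, hqh.trans (Real.exp_le_exp.2 hh), hi,
    hx.trans (Real.exp_le_exp.2 hh)⟩

theorem Ht.mul {x y : K} {h h' : ℝ} (H : Ht K x h) (H' : Ht K y h') :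
    Ht K (x * y) (h + h') := by
  obtain ⟨h0, q, hq, hqh, hi, hx⟩ := H
  obtain ⟨h0', q', hq', hqh', hi', hx'⟩ := H'
  refine ⟨add_nonneg h0 h0', q * q', Nat.mul_pos hq hq', ?_, ?_, ?_⟩
  · rw [Real.exp_add]
    push_cast
    exact mul_le_mul hqh hqh' (Nat.cast_nonneg _) (Real.exp_pos _).le
  · have h1 := hi.mul hi'
    have h2 : ((q * q' : ℕ) : K) * (x * y) = (q : K) * x * ((q' : K) * y) := by
      push_cast
      ring
    rw [h2]
    exact h1
  · rw [Real.exp_add]
    exact (NumberField.house_mul_le x y).trans (mul_le_mul hx hx' (NumberField.house_nonneg _)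
      (Real.exp_pos _).le)

theorem ht_one : Ht K (1 : K) 0 := by
  refine ⟨le_rfl, 1, one_pos, by simp, ?_, ?_⟩
  · simpa using (isIntegral_one : IsIntegral ℤ (1 : K))
  · have h1 := NumberField.house_intCast (K := K) 1
    simp only [Int.cast_one, abs_one] at h1
    rw [h1]
    simp

theorem ht_exists (x : K) : ∃ h, Ht K x h := by
  obtain ⟨q, hq, hi⟩ : ∃ q : ℕ, 0 < q ∧ IsIntegral ℤ ((q : K) * x) := by
    have h1 : IsAlgebraic ℤ x := by
      have h2 : IsAlgebraic ℚ x := Algebra.IsAlgebraic.isAlgebraic x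
      exact (IsFractionRing.isAlgebraic_iff ℤ ℚ K).2 h2
    obtain ⟨y, hy0, hy⟩ := h1.exists_integral_multiple
    refine ⟨y.natAbs, Int.natAbs_pos.2 hy0, ?_⟩
    rw [zsmul_eq_mul] at hy
    rcases Int.natAbs_eq y with h | h
    · have h3 : ((y.natAbs : ℕ) : K) = (y : K) := by
        conv_rhs => rw [h]
        simp
      rw [h3]
      exact hy
    · have h3 : ((y.natAbs : ℕ) : K) = -(y : K) := by
        conv_rhs => rw [h]
        simp
      rw [h3, neg_mul]
      exact hy.neg
  refine ⟨max 0 (max (Real.log q) (Real.log (NumberField.house x + 1))), le_max_left _ _, q, hq,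
    ?_, hi, ?_⟩
  · have h1 : (0 : ℝ) < q := by exact_mod_cast hq
    calc (q : ℝ) = Real.exp (Real.log q) := (Real.exp_log h1).symm
      _ ≤ _ := Real.exp_le_exp.2 ((le_max_left _ _).trans (le_max_right _ _))
  · have h1 : 0 ≤ NumberField.house x := NumberField.house_nonneg x
    calc NumberField.house x ≤ NumberField.house x + 1 := by linarith
      _ = Real.exp (Real.log (NumberField.house x + 1)) :=
          (Real.exp_log (by linarith)).symm
      _ ≤ _ := Real.exp_le_exp.2 ((le_max_right _ _).trans (le_max_right _ _))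

/-- The heights of the values of a homomorphism. -/
theorem ht_hom {r : ℕ} {x : (Fin r → ℤ) → K} (hx : ∀ u v, x (u + v) = x u * x v)
    (h0 : x 0 = 1) : ∃ C : ℝ, 0 ≤ C ∧ ∀ u, Ht K (x u) (C * ∑ i, |(u i : ℝ)|) := by
  classical
  choose h hh using fun y : K => ht_exists y
  set C : ℝ := ∑ i : Fin r, (h (x (Pi.single i 1)) + h (x (Pi.single i (-1)))) with hC
  have hpos : ∀ y, 0 ≤ h y := fun y => (hh y).1
  have hC0 : 0 ≤ C := Finset.sum_nonneg fun i _ => add_nonneg (hpos _) (hpos _)
  have hle : ∀ i, h (x (Pi.single i 1)) ≤ C ∧ h (x (Pi.single i (-1))) ≤ C := by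
    intro i
    have h1 : h (x (Pi.single i 1)) + h (x (Pi.single i (-1))) ≤ C :=
      Finset.single_le_sum (f := fun i : Fin r =>
        h (x (Pi.single i 1)) + h (x (Pi.single i (-1))))
        (fun i _ => add_nonneg (hpos _) (hpos _)) (Finset.mem_univ i)
    have h2 := hpos (x (Pi.single i 1))
    have h3 := hpos (x (Pi.single i (-1)))
    constructor <;> linarith
  refine ⟨C, hC0, ?_⟩
  have key : ∀ n : ℕ, ∀ u : Fin r → ℤ, ∑ i, (u i).natAbs = n → Ht K (x u) (C * n) := by
    intro n
    induction n with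
    | zero =>
      intro u hu
      have h1 : u = 0 := by
        funext i
        have := (Finset.sum_eq_zero_iff.1 hu) i (Finset.mem_univ i)
        exact Int.natAbs_eq_zero.1 this
      rw [h1, h0]
      simpa using (ht_one (K := K))
    | succ n ih =>
      intro u hu
      obtain ⟨i, hi⟩ : ∃ i, u i ≠ 0 := by
        by_contra hcon
        push Not at hcon
        have : ∑ i, (u i).natAbs = 0 := Finset.sum_eq_zero fun i _ => by rw [hcon i]; rfl
        omega
      obtain ⟨s, hs1, hs2⟩ : ∃ s : ℤ, (s = 1 ∨ s = -1) ∧ (u i - s).natAbs + 1 =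
          (u i).natAbs := by
        rcases lt_or_gt_of_ne hi with h1 | h1
        · exact ⟨-1, Or.inr rfl, by omega⟩
        · exact ⟨1, Or.inl rfl, by omega⟩
      have hu' : u = (u - Pi.single i s) + Pi.single i s := by simp
      have hsum : ∑ j, ((u - Pi.single i s : Fin r → ℤ) j).natAbs = n := by
        have h2 : ∑ j, (u j).natAbs = (u i).natAbs + ∑ j ∈ Finset.univ.erase i, (u j).natAbs :=
          (Finset.add_sum_erase _ _ (Finset.mem_univ i)).symm
        have h3 : ∑ j, ((u - Pi.single i s : Fin r → ℤ) j).natAbs = (u i - s).natAbs +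
            ∑ j ∈ Finset.univ.erase i, (u j).natAbs := by
          rw [← Finset.add_sum_erase _ _ (Finset.mem_univ i)]
          congr 1
          · simp
          · refine Finset.sum_congr rfl fun j hj => ?_
            have hji : j ≠ i := (Finset.mem_erase.1 hj).1
            simp [Pi.single_eq_of_ne hji]
        omega
      have h4 := ih _ hsum
      have h5 : Ht K (x (Pi.single i s)) C := by
        rcases hs1 with h6 | h6
        · rw [h6]
          exact (hh _).mono (hle i).1
        · rw [h6]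
          exact (hh _).mono (hle i).2
      have h7 := h4.mul h5
      rw [← hx, ← hu'] at h7
      convert h7 using 1
      push_cast
      ring
  intro u
  have h1 := key _ u rfl
  convert h1 using 2
  push_cast
  refine Finset.sum_congr rfl fun i _ => ?_
  rw [Nat.cast_natAbs, Int.cast_abs]

/-- The lattice points in a ball. -/
noncomputable def Lat (r N : ℕ) : Finset (Fin r → ℤ) :=
  (Fintype.piFinset fun _ : Fin r => Finset.Icc (-(N : ℤ)) N).filter
    fun u => ∑ i, u i ^ 2 ≤ (N : ℤ) ^ 2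

theorem abs_le_of_sum {r N : ℕ} {u : Fin r → ℤ} (h : ∑ i, u i ^ 2 ≤ (N : ℤ) ^ 2) (i : Fin r) :
    |u i| ≤ N := by
  have h1 : u i ^ 2 ≤ ∑ i, u i ^ 2 :=
    Finset.single_le_sum (f := fun i => u i ^ 2) (fun i _ => sq_nonneg _) (Finset.mem_univ i)
  have h2 := abs_le_of_sq_le_sq (h1.trans h) (Int.natCast_nonneg N)
  exact h2

theorem mem_lat {r N : ℕ} {u : Fin r → ℤ} : u ∈ Lat r N ↔ ∑ i, u i ^ 2 ≤ (N : ℤ) ^ 2 := by
  unfold Lat
  rw [Finset.mem_filter, Fintype.mem_piFinset]
  refine ⟨fun h => h.2, fun h => ⟨fun i => ?_, h⟩⟩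
  have h1 := abs_le.1 (abs_le_of_sum h i)
  exact Finset.mem_Icc.2 h1

theorem card_lat (r N : ℕ) : (Lat r N).card ≤ (2 * N + 1) ^ r := by
  refine (Finset.card_filter_le _ _).trans ?_
  rw [Fintype.card_piFinset]
  simp only [Int.card_Icc, Finset.prod_const, Finset.card_univ, Fintype.card_fin]
  refine Nat.pow_le_pow_left ?_ r
  omega

theorem le_card_lat {r : ℕ} (hr : 0 < r) (B : ℕ) : (2 * B + 1) ^ r ≤ (Lat r (r * B)).card := by
  have h1 : (Fintype.piFinset fun _ : Fin r => Finset.Icc (-(B : ℤ)) B) ⊆ Lat r (r * B) := by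
    intro u hu
    rw [Fintype.mem_piFinset] at hu
    rw [mem_lat]
    have h2 : ∀ i, u i ^ 2 ≤ (B : ℤ) ^ 2 := by
      intro i
      have h3 := Finset.mem_Icc.1 (hu i)
      exact sq_le_sq' h3.1 h3.2
    calc ∑ i, u i ^ 2 ≤ ∑ _i : Fin r, (B : ℤ) ^ 2 := Finset.sum_le_sum fun i _ => h2 i
      _ = r * (B : ℤ) ^ 2 := by simp
      _ ≤ ((r * B : ℕ) : ℤ) ^ 2 := by
          push_cast
          have h4 : (1 : ℤ) ≤ r := by exact_mod_cast hr
          nlinarith [sq_nonneg (B : ℤ)]
  refine le_trans (le_of_eq ?_) (Finset.card_le_card h1)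
  rw [Fintype.card_piFinset]
  simp only [Int.card_Icc, Finset.prod_const, Finset.card_univ, Fintype.card_fin]
  congr 1
  omega

end Pool.Agent.Lib.MP_5d4057_al.T5
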