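import Mathlib

/-!
# T5: the parameters
-/

set_option autoImplicit false

namespace Pool.Agent.Lib.MP_5d4057_al.T5

open Filter Topology

theorem pow_le_two_pow (B : ℝ) (k : ℕ) : ∀ᶠ s : ℕ in atTop, B * (s : ℝ) ^ k ≤ 2 ^ s := by
  have h1 : Tendsto (fun s : ℕ => (s : ℝ) ^ k / (2 : ℝ) ^ s) atTop (𝓝 0) :=
    tendsto_pow_const_div_const_pow_of_one_lt k (by norm_num)
  have h2 : Tendsto (fun s : ℕ => B * ((s : ℝ) ^ k / (2 : ℝ) ^ s)) atTop (𝓝 (B * 0)) :=
    h1.const_mul B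
  rw [mul_zero] at h2
  filter_upwards [h2.eventually (gt_mem_nhds (show (0 : ℝ) < 1 by norm_num))] with s hs
  have h3 : (0 : ℝ) < 2 ^ s := by positivity
  have h4 : B * (s : ℝ) ^ k / 2 ^ s < 1 := by rwa [mul_div_assoc]
  exact ((div_lt_one h3).1 h4).le

theorem params {c C Ch : ℝ} (hc : 0 < c) (hC : 1 ≤ C) (hCh : 0 ≤ Ch) (r CO j₀ : ℕ) :
    ∃ e J D0 N0 D1 N1 T : ℕ, j₀ ≤ J ∧ N0 = CO * J ^ 2 ∧ 1 ≤ e ∧ 1 ≤ D0 ∧ T = 2 ^ e * D0 ∧
      D1 = 2 ^ (e + 1) * (2 * N0 + 1) ^ r ∧ N1 = r * (2 ^ (e + 2) * (2 * N0 + 1)) ∧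
      ∀ (H l A : ℝ), H = Ch * (N1 + 1) + 1 → l = Real.log (D0 + D1 + T + 1) →
        A = C * (T * l + D0 + D1 * H) →
        C * (A + T * l + D0 + D1 * H) + C * (D0 + D1) + (A + Real.log (D0 + 1) +
          Real.log (D1 + 1) + (D0 + D1) * C) + C * (D0 + D1) * (J + 1) + T <
          T * (c * (J - j₀ + 1) / 4) := by
  obtain ⟨e, he⟩ : ∃ e : ℕ, 64 * C / c ≤ 2 ^ e := by
    obtain ⟨e, he⟩ := pow_unbounded_of_one_lt (64 * C / c) (show (1 : ℝ) < 2 by norm_num)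
    exact ⟨e, he.le⟩
  -- make it positive
  obtain ⟨e, he, he1⟩ : ∃ e : ℕ, 64 * C / c ≤ 2 ^ e ∧ 1 ≤ e := by
    refine ⟨e + 1, he.trans ?_, by omega⟩
    exact pow_le_pow_right₀ (by norm_num) (by omega)
  obtain ⟨κ, hκ⟩ := exists_nat_gt (16 * (4 * C ^ 2 + 12 * C + 3) / c + 1)
  have hκ0 : (1 : ℝ) < κ := by
    refine lt_of_le_of_lt ?_ hκ
    have : 0 ≤ 16 * (4 * C ^ 2 + 12 * C + 3) / c := by positivity
    linarith
  have hκc : 4 * C ^ 2 + 12 * C + 3 < c * κ / 16 := by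
    have h1 : 16 * (4 * C ^ 2 + 12 * C + 3) / c < κ := by linarith
    rw [div_lt_iff₀ hc] at h1
    linarith
  -- the polynomial bound
  set a : ℝ := 2 * CO * κ ^ 2 + 1 with ha
  have ha1 : 1 ≤ a := by
    rw [ha]
    have : (0 : ℝ) ≤ 2 * CO * κ ^ 2 := by positivity
    linarith
  set B : ℝ := 2 ^ (e + 1) * a ^ r * (Ch * (r * (2 ^ (e + 2) * a) + 1) + 1) * (κ + 1) with hB
  obtain ⟨s, hsB, hs1, hs2⟩ := ((pow_le_two_pow B (2 * r + 3)).and
    ((eventually_ge_atTop (e + 2)).and (eventually_ge_atTop (2 * j₀)))).exists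
  have hs0 : (1 : ℝ) ≤ s := by
    have : 1 ≤ s := by omega
    exact_mod_cast this
  set J := κ * s with hJ
  have hκn : 1 ≤ κ := by
    have : (1 : ℝ) ≤ κ := hκ0.le
    exact_mod_cast this
  refine ⟨e, J, 2 ^ s, CO * J ^ 2, 2 ^ (e + 1) * (2 * (CO * J ^ 2) + 1) ^ r,
    r * (2 ^ (e + 2) * (2 * (CO * J ^ 2) + 1)), 2 ^ e * 2 ^ s, ?_, rfl, he1, Nat.one_le_two_pow,
    rfl, rfl, rfl, ?_⟩
  · calc j₀ ≤ s := by omega
      _ = 1 * s := (one_mul s).symm
      _ ≤ κ * s := Nat.mul_le_mul_right s hκn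
  intro H l A hH hl hA
  push_cast at hH hl hA ⊢
  set n0 : ℝ := 2 * (CO * (J : ℝ) ^ 2) + 1 with hn0
  have hJc : (J : ℝ) = κ * s := by rw [hJ]; push_cast; ring
  have hs2' : (1 : ℝ) ≤ (s : ℝ) ^ 2 := one_le_pow₀ hs0
  have hn0a : n0 ≤ a * s ^ 2 := by
    rw [hn0, ha, hJc]
    linarith
  have hn01 : 1 ≤ n0 := by
    rw [hn0]
    have : (0 : ℝ) ≤ 2 * (CO * (J : ℝ) ^ 2) := by positivity
    linarith
  set d1 : ℝ := 2 ^ (e + 1) * n0 ^ r with hd1
  have hd10 : 1 ≤ d1 := by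
    rw [hd1]
    exact one_le_mul_of_one_le_of_one_le (one_le_pow₀ (by norm_num)) (one_le_pow₀ hn01)
  have hd1a : d1 ≤ 2 ^ (e + 1) * a ^ r * (s : ℝ) ^ (2 * r) := by
    rw [hd1, mul_assoc, pow_mul, ← mul_pow]
    gcongr
  have hH1 : 1 ≤ H := by
    rw [hH]
    have : (0 : ℝ) ≤ Ch * (r * (2 ^ (e + 2) * n0) + 1) := by positivity
    linarith
  have hHa : H ≤ (Ch * (r * (2 ^ (e + 2) * a) + 1) + 1) * (s : ℝ) ^ 2 := by
    rw [hH]
    have h1 : (r : ℝ) * (2 ^ (e + 2) * n0) + 1 ≤ (r * (2 ^ (e + 2) * a) + 1) * (s : ℝ) ^ 2 := by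
      have h2 : (r : ℝ) * (2 ^ (e + 2) * n0) ≤ r * (2 ^ (e + 2) * (a * s ^ 2)) := by gcongr
      linarith
    have h3 : Ch * (r * (2 ^ (e + 2) * n0) + 1) ≤
        Ch * ((r * (2 ^ (e + 2) * a) + 1) * (s : ℝ) ^ 2) := by gcongr
    linarith
  have hJa : (J : ℝ) + 1 ≤ (κ + 1) * s := by
    rw [hJc]
    linarith
  have hJ1 : (1 : ℝ) ≤ J + 1 := by
    have : (0 : ℝ) ≤ J := Nat.cast_nonneg J
    linarith
  set D : ℝ := 2 ^ s with hD
  have hX : d1 * H * (J + 1) ≤ D := by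
    calc d1 * H * (J + 1) ≤ (2 ^ (e + 1) * a ^ r * (s : ℝ) ^ (2 * r)) *
          ((Ch * (r * (2 ^ (e + 2) * a) + 1) + 1) * (s : ℝ) ^ 2) * ((κ + 1) * s) := by
          have g1 : 0 ≤ H := by linarith
          have g2 : 0 ≤ d1 := by linarith
          gcongr
      _ = B * (s : ℝ) ^ (2 * r + 3) := by
          rw [hB]
          ring
      _ ≤ D := hsB
  have hD1 : 1 ≤ D := one_le_pow₀ (by norm_num)
  have hX1 : d1 * H ≤ D := by
    refine le_trans ?_ hX
    exact le_mul_of_one_le_right (by positivity) hJ1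
  have hX2 : d1 ≤ D := by
    refine le_trans ?_ hX1
    exact le_mul_of_one_le_right (by positivity) hH1
  have hX3 : d1 * (J + 1) ≤ D := by
    refine le_trans ?_ hX
    rw [mul_right_comm d1 H]
    exact le_mul_of_one_le_right (by positivity) hH1
  set T : ℝ := 2 ^ e * D with hT
  have he2 : (1 : ℝ) ≤ 2 ^ e := one_le_pow₀ (by norm_num)
  have hDT : D ≤ T := by
    rw [hT]
    exact le_mul_of_one_le_left (by linarith) he2
  have hT1 : 1 ≤ T := hD1.trans hDT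
  have hl2 : l ≤ 2 * s := by
    have h1 : D + d1 + T + 1 ≤ 2 ^ (s + e + 2) := by
      have : (2 : ℝ) ^ (s + e + 2) = 4 * T := by
        rw [hT, hD]
        ring
      rw [this]
      linarith
    have h2 : l ≤ Real.log (2 ^ (s + e + 2)) := by
      rw [hl]
      exact Real.log_le_log (by linarith) h1
    rw [Real.log_pow] at h2
    have h3 : Real.log 2 ≤ 1 := by
      have := Real.log_two_lt_d9
      linarith
    have h4 : ((s + e + 2 : ℕ) : ℝ) ≤ 2 * s := by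
      have : s + e + 2 ≤ 2 * s := by omega
      exact_mod_cast this
    have h5 : (0 : ℝ) ≤ ((s + e + 2 : ℕ) : ℝ) := Nat.cast_nonneg _
    exact (h2.trans (mul_le_of_le_one_right h5 h3)).trans h4
  have hT0 : 0 ≤ T := by linarith
  have hC0 : 0 ≤ C := by linarith
  have hTs : T ≤ s * T := le_mul_of_one_le_left hT0 hs0
  have hTl : T * l ≤ 2 * (s * T) := by
    have := mul_le_mul_of_nonneg_left hl2 hT0
    linarith
  have hA4 : A ≤ 4 * C * (s * T) := by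
    rw [hA]
    have : T * l + D + d1 * H ≤ 4 * (s * T) := by linarith
    have := mul_le_mul_of_nonneg_left this hC0
    linarith
  have e1 : C * (A + T * l + D + d1 * H) ≤ (4 * C ^ 2 + 4 * C) * (s * T) := by
    have : A + T * l + D + d1 * H ≤ (4 * C + 4) * (s * T) := by linarith
    have := mul_le_mul_of_nonneg_left this hC0
    linarith
  have e2 : C * (D + d1) ≤ 2 * C * (s * T) := by
    have : D + d1 ≤ 2 * (s * T) := by linarith
    have := mul_le_mul_of_nonneg_left this hC0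
    linarith
  have e3 : Real.log (D + 1) ≤ s * T := by
    have := Real.log_le_sub_one_of_pos (show 0 < D + 1 by linarith)
    linarith
  have e4 : Real.log (d1 + 1) ≤ s * T := by
    have := Real.log_le_sub_one_of_pos (show 0 < d1 + 1 by linarith)
    linarith
  have e5 : C * (D + d1) * (J + 1) ≤ 4 * C * (D * J) := by
    have g1 : (1 : ℝ) ≤ J := by
      rw [hJc]
      exact one_le_mul_of_one_le_of_one_le hκ0.le hs0
    have g2 : (D + d1) * (J + 1) ≤ 4 * (D * J) := by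
      have : D ≤ D * J := le_mul_of_one_le_right (by linarith) g1
      linarith
    have := mul_le_mul_of_nonneg_left g2 hC0
    linarith
  have e6 : 4 * C * (D * J) ≤ c * κ / 16 * (s * T) := by
    have g1 : 64 * C ≤ 2 ^ e * c := by rwa [div_le_iff₀ hc] at he
    have g2 : 0 ≤ D * J := by positivity
    have g3 : 64 * C * (D * J) ≤ 2 ^ e * c * (D * J) := mul_le_mul_of_nonneg_right g1 g2
    have g4 : 2 ^ e * c * (D * J) = 16 * (c * κ / 16 * (s * T)) := by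
      rw [hT, hJc]
      ring
    linarith
  have e7 : c * κ / 8 * (s * T) ≤ T * (c * (J - j₀ + 1) / 4) := by
    have g1 : (j₀ : ℝ) ≤ κ * s / 2 := by
      have g2 : (2 * j₀ : ℝ) ≤ s := by exact_mod_cast hs2
      have g3 : (s : ℝ) ≤ κ * s := le_mul_of_one_le_left (by linarith) hκ0.le
      linarith
    have g3 : (κ : ℝ) * s / 2 ≤ J - j₀ + 1 := by
      rw [hJc]
      linarith
    have g4 : 0 ≤ T * c := by positivity
    have g5 := mul_le_mul_of_nonneg_left g3 g4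
    rw [hJc] at g5 ⊢
    linarith
  have e8 : (4 * C ^ 2 + 12 * C + 3) * (s * T) < c * κ / 16 * (s * T) :=
    mul_lt_mul_of_pos_right hκc (by positivity)
  have e9 : (D + d1) * C ≤ 2 * C * (s * T) := by rw [mul_comm]; exact e2
  linarith

end Pool.Agent.Lib.MP_5d4057_al.T5
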