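import Pool.Agent.Lib.MP_5d4057_al.T5.StpB
import Pool.Agent.Lib.MP_5d4057_al.T5.Par
import Pool.Agent.Lib.MP_5d4057_al.T5.Hgt

/-!
# T5: the data of the final argument
-/

set_option autoImplicit false

namespace Pool.Agent.Lib.MP_5d4057_al.T5

open Filter Topology Metric

variable {K : Type*} [Field K] {G : Type*} [Group G]

/-- The data of the final argument, at the origin of the disc. -/
structure Dat (ι : K →+* ℂ) (t Y α b y₁ y₂ : ℂ → ℂ) (act : G → ℂ → ℂ) (r : ℕ)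
    (e : G → Fin r → ℤ) (x : (Fin r → ℤ) → K) (M : ℝ) (E : ℕ) : Prop where
  hr : 0 < r
  he : ∀ g h, e (g * h) = e g + e h
  hes : Function.Surjective e
  hx : ∀ u v, x (u + v) = x u * x v
  hxi : Function.Injective x
  hx1 : ∀ u, ‖ι (x u)‖ = 1
  hact : ∀ g, ∀ z ∈ ball (0 : ℂ) 1, act g z ∈ ball (0 : ℂ) 1
  hactd : ∀ g, DifferentiableOn ℂ (act g) (ball 0 1)
  hact' : ∀ g, deriv (act g) 0 ≠ 0
  hα : DifferentiableOn ℂ α (ball 0 1)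
  hb : DifferentiableOn ℂ b (ball 0 1)
  h1 : DifferentiableOn ℂ y₁ (ball 0 1)
  h2 : DifferentiableOn ℂ y₂ (ball 0 1)
  hM : 1 ≤ M
  hgr : ∀ z : ℂ, ‖z‖ < 1 → ‖α z‖ ≤ M * ((1 - ‖z‖)⁻¹) ^ E ∧ ‖b z‖ ≤ M * ((1 - ‖z‖)⁻¹) ^ E ∧
    ‖y₁ z‖ ≤ M * ((1 - ‖z‖)⁻¹) ^ E ∧ ‖y₂ z‖ ≤ M * ((1 - ‖z‖)⁻¹) ^ E
  hb0 : b 0 ≠ 0
  hy0 : y₂ 0 ≠ 0
  ht : ∀ᶠ z in 𝓝 (0 : ℂ), t z = α z / b z
  hY : ∀ᶠ z in 𝓝 (0 : ℂ), Y z = y₁ z / y₂ z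
  ht' : deriv t 0 ≠ 0
  hY0 : Y 0 ≠ 0
  hαact : ∀ g, ∀ z ∈ ball (0 : ℂ) 1, α (act g z) * b z = α z * b (act g z)
  hyact : ∀ g, ∀ z ∈ ball (0 : ℂ) 1, y₁ (act g z) * y₂ z = ι (x (e g)) * y₁ z * y₂ (act g z)

section

variable {ι : K →+* ℂ} {t Y α b y₁ y₂ : ℂ → ℂ} {act : G → ℂ → ℂ} {r : ℕ}
  {e : G → Fin r → ℤ} {x : (Fin r → ℤ) → K} {M : ℝ} {E : ℕ}

theorem Dat.n0 : ball (0 : ℂ) 1 ∈ 𝓝 (0 : ℂ) := isOpen_ball.mem_nhds (mem_ball_self one_pos)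

theorem Dat.t_an (H : Dat ι t Y α b y₁ y₂ act r e x M E) : AnalyticAt ℂ t 0 :=
  ((H.hα.analyticAt Dat.n0).div (H.hb.analyticAt Dat.n0) H.hb0).congr
    (by filter_upwards [H.ht] with z hz using hz.symm)

theorem Dat.Y_an (H : Dat ι t Y α b y₁ y₂ act r e x M E) : AnalyticAt ℂ Y 0 :=
  ((H.h1.analyticAt Dat.n0).div (H.h2.analyticAt Dat.n0) H.hy0).congr
    (by filter_upwards [H.hY] with z hz using hz.symm)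

theorem Dat.F_an (H : Dat ι t Y α b y₁ y₂ act r e x M E) (a : ℕ → ℕ → K) (ξ : K)
    (D0 D1 : ℕ) : AnalyticAt ℂ (Fz ι t Y a ξ D0 D1) 0 :=
  Finset.analyticAt_fun_sum _ fun i _ => Finset.analyticAt_fun_sum _ fun j _ =>
    (analyticAt_const.mul (H.t_an.pow i)).mul (H.Y_an.pow j)

theorem Dat.F_to_Ph (H : Dat ι t Y α b y₁ y₂ act r e x M E) {a : ℕ → ℕ → K} {ξ : K}
    {D0 D1 T : ℕ} (hT : (T : ℕ∞) ≤ analyticOrderAt (Fz ι t Y a ξ D0 D1) 0) :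
    (T : ℕ∞) ≤ analyticOrderAt (Ph ι α b y₁ y₂ a ξ D0 D1) 0 := by
  have hba : AnalyticAt ℂ b 0 := H.hb.analyticAt Dat.n0
  have hya : AnalyticAt ℂ y₂ 0 := H.h2.analyticAt Dat.n0
  have hbe : ∀ᶠ z in 𝓝 (0 : ℂ), b z ≠ 0 := hba.continuousAt.eventually_ne H.hb0
  have hye : ∀ᶠ z in 𝓝 (0 : ℂ), y₂ z ≠ 0 := hya.continuousAt.eventually_ne H.hy0
  have e1 : Ph ι α b y₁ y₂ a ξ D0 D1 =ᶠ[𝓝 0]
      (Fz ι t Y a ξ D0 D1) * fun z => b z ^ D0 * y₂ z ^ D1 := by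
    filter_upwards [hbe, hye, H.ht, H.hY] with z g1 g2 g3 g4
    rw [Pi.mul_apply, ph_eq g1 g2 g3 g4]
  have hv : AnalyticAt ℂ (fun z => b z ^ D0 * y₂ z ^ D1) 0 := (hba.pow D0).mul (hya.pow D1)
  rw [analyticOrderAt_congr e1, analyticOrderAt_mul (H.F_an a ξ D0 D1) hv]
  exact hT.trans le_self_add

/-- The set of zeros used in the step. -/
theorem orbit_union {act : G → ℂ → ℂ} {e : G → Fin r → ℤ} {c : ℝ} {CO j₀ : ℕ} (hc : 0 < c)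
    (horb : ∀ J ≥ j₀, ∀ N : ℕ, CO * J ^ 2 ≤ N → ∀ g₀ : G, (N : ℤ) ^ 2 < ∑ i, e g₀ i ^ 2 →
      ∑ i, e g₀ i ^ 2 ≤ ((N : ℤ) + 1) ^ 2 → ∃ S : Finset ℂ, (∀ z ∈ S, ‖z‖ ≤ 1 - (1 / 2) ^ J ∧
        ∃ g, z = act g 0 ∧ ∑ i, e (g₀ * g) i ^ 2 ≤ (N : ℤ) ^ 2) ∧ c * 2 ^ J ≤ (S.card : ℝ)) :
    ∃ j₁, ∀ J ≥ j₁, ∀ N : ℕ, CO * J ^ 2 ≤ N → ∀ g₀ : G, (N : ℤ) ^ 2 < ∑ i, e g₀ i ^ 2 →
      ∑ i, e g₀ i ^ 2 ≤ ((N : ℤ) + 1) ^ 2 → ∃ S : Finset ℂ, (∀ z ∈ S, (z ≠ 0 ∧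
        ‖z‖ ≤ 1 - (1 / 2) ^ J) ∧ ∃ g, z = act g 0 ∧ ∑ i, e (g₀ * g) i ^ 2 ≤ (N : ℤ) ^ 2) ∧
        ∀ j, j₁ ≤ j → j ≤ J →
          c / 2 * 2 ^ j ≤ ((S.filter fun z => ‖z‖ ≤ 1 - (1 / 2) ^ j).card : ℝ) := by
  classical
  obtain ⟨j₂, hj₂⟩ : ∃ j₂ : ℕ, 2 / c ≤ 2 ^ j₂ := by
    obtain ⟨n, hn⟩ := pow_unbounded_of_one_lt (2 / c) (show (1 : ℝ) < 2 by norm_num)
    exact ⟨n, hn.le⟩
  refine ⟨max j₀ j₂, fun J hJ N hN g₀ hg hg' => ?_⟩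
  have hsub : ∀ j : ℕ, ∃ S : Finset ℂ, max j₀ j₂ ≤ j → j ≤ J → ((∀ z ∈ S,
      ‖z‖ ≤ 1 - (1 / 2) ^ j ∧ ∃ g, z = act g 0 ∧ ∑ i, e (g₀ * g) i ^ 2 ≤ (N : ℤ) ^ 2) ∧
        c * 2 ^ j ≤ (S.card : ℝ)) := by
    intro j
    by_cases hj : max j₀ j₂ ≤ j ∧ j ≤ J
    · have h1 : CO * j ^ 2 ≤ N :=
        le_trans (Nat.mul_le_mul_left _ (Nat.pow_le_pow_left hj.2 2)) hN
      obtain ⟨S, hS⟩ := horb j ((le_max_left _ _).trans hj.1) N h1 g₀ hg hg'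
      exact ⟨S, fun _ _ => hS⟩
    · exact ⟨∅, fun h1 h2 => absurd ⟨h1, h2⟩ hj⟩
  choose S hS using hsub
  refine ⟨(Finset.Icc (max j₀ j₂) J).biUnion fun j => (S j).erase 0, ?_, ?_⟩
  · intro z hz
    obtain ⟨j, hj, hz⟩ := Finset.mem_biUnion.1 hz
    obtain ⟨hj1, hj2⟩ := Finset.mem_Icc.1 hj
    obtain ⟨hz0, hz⟩ := Finset.mem_erase.1 hz
    obtain ⟨h3, h4⟩ := (hS j hj1 hj2).1 z hz
    refine ⟨⟨hz0, h3.trans ?_⟩, h4⟩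
    have h5 : (1 / 2 : ℝ) ^ J ≤ (1 / 2) ^ j :=
      pow_le_pow_of_le_one (by norm_num) (by norm_num) hj2
    linarith
  · intro j hj1 hj2
    have h6 : (S j).erase 0 ⊆ ((Finset.Icc (max j₀ j₂) J).biUnion fun j =>
        (S j).erase 0).filter fun z => ‖z‖ ≤ 1 - (1 / 2) ^ j := by
      intro z hz
      refine Finset.mem_filter.2 ⟨Finset.mem_biUnion.2 ⟨j, Finset.mem_Icc.2 ⟨hj1, hj2⟩, hz⟩, ?_⟩
      exact ((hS j hj1 hj2).1 z (Finset.mem_of_mem_erase hz)).1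
    have h7 : ((S j).card : ℝ) - 1 ≤ ((S j).erase 0).card := by
      have := Finset.pred_card_le_card_erase (s := S j) (a := (0 : ℂ))
      have h8 : (S j).card ≤ ((S j).erase 0).card + 1 := by omega
      have h9 : ((S j).card : ℝ) ≤ ((S j).erase 0).card + 1 := by exact_mod_cast h8
      linarith
    have h10 := (hS j hj1 hj2).2
    have h11 : 1 ≤ c / 2 * 2 ^ j := by
      have h12 : (2 : ℝ) ^ j₂ ≤ 2 ^ j :=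
        pow_le_pow_right₀ (by norm_num) ((le_max_right _ _).trans hj1)
      have h13 : 2 / c ≤ 2 ^ j := hj₂.trans h12
      rw [div_le_iff₀ hc] at h13
      linarith
    have h14 : (((S j).erase 0).card : ℝ) ≤ _ := Nat.cast_le.2 (Finset.card_le_card h6)
    linarith

end

end Pool.Agent.Lib.MP_5d4057_al.T5
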