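import Pool.Agent.Lib.MP_5d4057_al.HM.Defs
import Mathlib.NumberTheory.NumberField.House

/-!
# T5: characters of cocompact groups on functions of one variable with an algebraic logarithmic derivative

Notation: `t = a / b` is invariant, `Y = y₁ / y₂` has the character `μ`, `g = Y' / (Y t')` and `P (t, g) = 0` over the
algebraic numbers. Then `μ` has finite order.
-/

set_option autoImplicit false

namespace Pool.Agent.Lib.MP_5d4057_al.T5

open Metric Filter Topology Pool.Agent.Lib.MP_5d4057_al Pool.Agent.Lib.MP_5d4057_al.HM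

/-- The action of `SU(1,1)` on the disc: `x` stands for the line of the vector `(x, 1)`. -/
noncomputable def mb (g : SUGroup 1) (x : ℂ) : ℂ :=
  (g.toMatrix 0 0 * x + g.toMatrix 0 1) / (g.toMatrix 1 0 * x + g.toMatrix 1 1)

/-- Holomorphic functions of polynomial growth on the unit disc. -/
structure PG (f : ℂ → ℂ) : Prop where
  diff : DifferentiableOn ℂ f (ball 0 1)
  growth : ∃ (C : ℝ) (N : ℕ), ∀ x ∈ ball (0 : ℂ) 1, ‖f x‖ * (1 - ‖x‖) ^ N ≤ C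

/-- The length of an exponent vector. -/
def l1 {r : ℕ} (z : Fin r → ℤ) : ℕ := ∑ i, (z i).natAbs

/-- The square of the euclidean norm of an exponent vector. -/
def n2 {r : ℕ} (z : Fin r → ℤ) : ℤ := ∑ i, z i ^ 2

/-- The coefficient of `u^l` in `∑ a_ij λ^j u^i Y^j`, if `Y^j = ∑ c_jl u^l`. -/
def bet {R : Type} [CommRing R] (c : ℕ → ℕ → R) (D₀ D₁ : ℕ) (a : ℕ → ℕ → R) (lam : R) (l : ℕ) : R :=
  ∑ i ∈ Finset.range (D₀ + 1), ∑ j ∈ Finset.range (D₁ + 1),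
    if i ≤ l then a i j * lam ^ j * c j (l - i) else 0

/-- The arithmetic data: `ν : ℤ^r → K^×` is injective, `c j l` are the Taylor coefficients of `Y^j`, with bounds for
denominators and conjugates. -/
structure Ar (K : Type) [Field K] [NumberField K] (r : ℕ) (ν : (Fin r → ℤ) → K) (c : ℕ → ℕ → K)
    (M : ℕ) : Prop where
  pos : 0 < M
  one : ν 0 = 1
  mul : ∀ x y, ν (x + y) = ν x * ν y
  inj : Function.Injective ν
  nu_int : ∀ z, IsIntegral ℤ ((M : K) ^ l1 z * ν z)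
  nu_house : ∀ z, NumberField.house (ν z) ≤ (M : ℝ) ^ l1 z
  c_zero : ∀ j, c j 0 = 1
  c_int : ∀ j l, IsIntegral ℤ ((M : K) ^ (2 * l) * (l.factorial : K) * c j l)
  c_house : ∀ j l, NumberField.house ((l.factorial : K) * c j l) ≤
    ((M : ℝ) * (j + 1) * (l + 1)) ^ (3 * l)

/-- Expansions: `f = ∑_(l < L) f_l u^l + u^L (analytic)` for all `L`. -/
def Exps (u f : ℂ → ℂ) (c : ℕ → ℂ) : Prop :=
  ∀ L : ℕ, ∃ R : ℂ → ℂ, AnalyticAt ℂ R 0 ∧
    ∀ᶠ x in 𝓝 (0 : ℂ), f x = ∑ l ∈ Finset.range L, c l * u x ^ l + u x ^ L * R x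

/-- The analytic data at the base point `0`. -/
structure An (Γ : Subgroup (SUGroup 1)) (a b y₁ y₂ : ℂ → ℂ) (r : ℕ) (ex : Γ → (Fin r → ℤ))
    (ν : (Fin r → ℤ) → ℂ) (c : ℕ → ℕ → ℂ) : Prop where
  pa : PG a
  pb : PG b
  p1 : PG y₁
  p2 : PG y₂
  a0 : a 0 = 0
  a1 : deriv a 0 ≠ 0
  b0 : b 0 ≠ 0
  y20 : y₂ 0 ≠ 0
  inv : ∀ γ ∈ Γ, ∀ x ∈ ball (0 : ℂ) 1, a (mb γ x) * b x = a x * b (mb γ x)
  ex_mul : ∀ γ δ : Γ, ex (γ * δ) = ex γ + ex δ
  ex_surj : Function.Surjective ex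
  nrm : ∀ z, ‖ν z‖ = 1
  char : ∀ (γ : Γ), ∀ x ∈ ball (0 : ℂ) 1,
    y₁ (mb γ x) * y₂ x = ν (ex γ) * (y₁ x * y₂ (mb γ x))
  exps : ∀ j : ℕ, Exps (fun x => a x / b x) (fun x => (y₁ x / y₂ x) ^ j) (c j)

end Pool.Agent.Lib.MP_5d4057_al.T5
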