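import Mathlib

/-!
# T5, the arithmetic estimate

Height of the Taylor coefficients of `t ^ i * Y ^ j`, where `Y' = g Y` and the system
`x_s' = G_s (x)` is polynomial over a number field: pure algebra (a derivation of a polynomial
ring, the L1 norm of the houses of the coefficients), no power series.
-/

set_option autoImplicit false

namespace Pool.Agent.Lib.MP_5d4057_al.T5

open MvPolynomial NumberField

variable {K : Type*} [Field K] [NumberField K] {r : ℕ}

/-- The sum of the houses of the coefficients. -/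
noncomputable def nm (F : MvPolynomial (Fin r) K) : ℝ := ∑ m ∈ F.support, house (F.coeff m)

/-- Degree at most `d`, integral coefficients, norm at most `N`. -/
def Bd (d : ℕ) (N : ℝ) (F : MvPolynomial (Fin r) K) : Prop :=
  F.totalDegree ≤ d ∧ (∀ m, IsIntegral ℤ (F.coeff m)) ∧ nm F ≤ N

theorem house_zero' : house (0 : K) = 0 := by simp [house]

theorem house_natCast (n : ℕ) : house (n : K) = n := by
  have := house_intCast (K := K) (n : ℤ)
  simpa using this

theorem house_one' : house (1 : K) = 1 := by simpa using house_natCast (K := K) 1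

theorem nm_eq {F : MvPolynomial (Fin r) K} {S : Finset (Fin r →₀ ℕ)} (h : F.support ⊆ S) :
    nm F = ∑ m ∈ S, house (F.coeff m) := by
  unfold nm
  apply Finset.sum_subset h
  intro m _ hm
  rw [MvPolynomial.notMem_support_iff.1 hm, house_zero']

theorem nm_nonneg (F : MvPolynomial (Fin r) K) : 0 ≤ nm F :=
  Finset.sum_nonneg fun _ _ => house_nonneg _

theorem nm_zero : nm (0 : MvPolynomial (Fin r) K) = 0 := by simp [nm]

theorem nm_add (F G : MvPolynomial (Fin r) K) : nm (F + G) ≤ nm F + nm G := by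
  classical
  rw [nm_eq (S := F.support ∪ G.support) (MvPolynomial.support_add),
    nm_eq (F := F) (S := F.support ∪ G.support) Finset.subset_union_left,
    nm_eq (F := G) (S := F.support ∪ G.support) Finset.subset_union_right,
    ← Finset.sum_add_distrib]
  apply Finset.sum_le_sum
  intro m _
  rw [MvPolynomial.coeff_add]
  exact house_add_le _ _

theorem nm_monomial (m : Fin r →₀ ℕ) (c : K) : nm (monomial m c) ≤ house c := by
  classical
  rw [nm_eq (S := {m}) (MvPolynomial.support_monomial_subset)]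
  simp

theorem Bd.mono {d d' : ℕ} {N N' : ℝ} {F : MvPolynomial (Fin r) K} (h : Bd d N F) (hd : d ≤ d')
    (hN : N ≤ N') : Bd d' N' F :=
  ⟨h.1.trans hd, h.2.1, h.2.2.trans hN⟩

theorem Bd.zero {d : ℕ} {N : ℝ} (hN : 0 ≤ N) : Bd d N (0 : MvPolynomial (Fin r) K) :=
  ⟨by simp, fun m => by simpa using isIntegral_zero, by rw [nm_zero]; exact hN⟩

theorem Bd.add {d : ℕ} {N N' : ℝ} {F G : MvPolynomial (Fin r) K} (h : Bd d N F) (h' : Bd d N' G) :
    Bd d (N + N') (F + G) := by
  refine ⟨(MvPolynomial.totalDegree_add _ _).trans (max_le h.1 h'.1), fun m => ?_,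
    (nm_add _ _).trans (add_le_add h.2.2 h'.2.2)⟩
  rw [MvPolynomial.coeff_add]
  exact (h.2.1 m).add (h'.2.1 m)

theorem Bd.sum {κ : Type*} (s : Finset κ) {d : ℕ} {N : κ → ℝ} {F : κ → MvPolynomial (Fin r) K}
    (h : ∀ i ∈ s, Bd d (N i) (F i)) : Bd d (∑ i ∈ s, N i) (∑ i ∈ s, F i) := by
  classical
  induction s using Finset.induction_on with
  | empty => simpa using Bd.zero (K := K) (r := r) (d := d) (N := 0) le_rfl
  | insert a s ha ih =>
    rw [Finset.sum_insert ha, Finset.sum_insert ha]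
    exact (h a (Finset.mem_insert_self _ _)).add
      (ih fun i hi => h i (Finset.mem_insert_of_mem hi))

theorem Bd.monomial {m : Fin r →₀ ℕ} {c : K} {d : ℕ} (hm : m.degree ≤ d) (hc : IsIntegral ℤ c) :
    Bd d (house c) (MvPolynomial.monomial m c) := by
  classical
  refine ⟨?_, fun m' => ?_, nm_monomial m c⟩
  · refine (MvPolynomial.totalDegree_monomial_le _ _).trans ?_
    exact hm
  · rw [MvPolynomial.coeff_monomial]
    split_ifs
    · exact hc
    · exact isIntegral_zero

theorem Bd.degree_le {d : ℕ} {N : ℝ} {F : MvPolynomial (Fin r) K} (h : Bd d N F)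
    {m : Fin r →₀ ℕ} (hm : m ∈ F.support) : m.degree ≤ d :=
  (MvPolynomial.le_totalDegree hm).trans h.1

theorem Bd.mul {d d' : ℕ} {N N' : ℝ} {F G : MvPolynomial (Fin r) K} (h : Bd d N F)
    (h' : Bd d' N' G) : Bd (d + d') (N * N') (F * G) := by
  classical
  have e : F * G = ∑ m ∈ F.support, ∑ m' ∈ G.support,
      MvPolynomial.monomial (m + m') (F.coeff m * G.coeff m') := by
    conv_lhs => rw [MvPolynomial.as_sum F, MvPolynomial.as_sum G]
    rw [Finset.sum_mul_sum]
    simp only [MvPolynomial.monomial_mul]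
  rw [e]
  have hb : Bd (d + d') (∑ m ∈ F.support, ∑ m' ∈ G.support, house (F.coeff m * G.coeff m'))
      (∑ m ∈ F.support, ∑ m' ∈ G.support,
        MvPolynomial.monomial (m + m') (F.coeff m * G.coeff m')) := by
    apply Bd.sum
    intro m hm
    apply Bd.sum
    intro m' hm'
    apply Bd.monomial
    · rw [map_add]
      exact add_le_add (h.degree_le hm) (h'.degree_le hm')
    · exact (h.2.1 m).mul (h'.2.1 m')
  refine hb.mono le_rfl ?_
  calc ∑ m ∈ F.support, ∑ m' ∈ G.support, house (F.coeff m * G.coeff m')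
      ≤ ∑ m ∈ F.support, ∑ m' ∈ G.support, house (F.coeff m) * house (G.coeff m') :=
        Finset.sum_le_sum fun m _ => Finset.sum_le_sum fun m' _ => house_mul_le _ _
    _ = nm F * nm G := by rw [nm, nm, Finset.sum_mul_sum]
    _ ≤ N * N' := mul_le_mul h.2.2 h'.2.2 (nm_nonneg _) ((nm_nonneg _).trans h.2.2)

/-- The derivation increases the norm by the factor `d * B`. -/
theorem Bd.deriv {e : ℕ} {B : ℝ} {G : Fin r → MvPolynomial (Fin r) K} (hG : ∀ s, Bd e B (G s))
    (hB : 0 ≤ B) {d : ℕ} {N : ℝ} {F : MvPolynomial (Fin r) K} (h : Bd d N F) :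
    Bd (d + e) (N * (d * B)) (mkDerivation K G F) := by
  classical
  have e1 : mkDerivation K G F = ∑ m ∈ F.support,
      mkDerivation K G (MvPolynomial.monomial m (F.coeff m)) := by
    conv_lhs => rw [MvPolynomial.as_sum F]
    rw [map_sum]
  rw [e1]
  have hb : Bd (d + e) (∑ m ∈ F.support, house (F.coeff m) * (d * B))
      (∑ m ∈ F.support, mkDerivation K G (MvPolynomial.monomial m (F.coeff m))) := by
    apply Bd.sum
    intro m hm
    rw [mkDerivation_monomial, Finsupp.sum, Finset.smul_sum]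
    have hd := h.degree_le hm
    have hb2 : Bd (d + e) (∑ i ∈ m.support, house (F.coeff m) * ((m i : ℝ) * B))
        (∑ i ∈ m.support, F.coeff m •
          ((MvPolynomial.monomial (m - Finsupp.single i 1)) (m i : K) • G i)) := by
      apply Bd.sum
      intro i hi
      have e2 : F.coeff m • ((MvPolynomial.monomial (m - Finsupp.single i 1)) (m i : K) • G i)
          = MvPolynomial.monomial (m - Finsupp.single i 1) (F.coeff m * (m i : K)) * G i := by
        rw [smul_eq_mul, ← smul_mul_assoc, MvPolynomial.smul_monomial, smul_eq_mul]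
      rw [e2]
      have hm1 : Bd d (house (F.coeff m * (m i : K)))
          (MvPolynomial.monomial (m - Finsupp.single i 1) (F.coeff m * (m i : K))) := by
        apply Bd.monomial
        · refine le_trans ?_ hd
          exact Finsupp.degree_mono (tsub_le_self)
        · exact (h.2.1 m).mul (isIntegral_natCast _)
      refine (hm1.mul (hG i)).mono le_rfl ?_
      calc house (F.coeff m * (m i : K)) * B ≤ (house (F.coeff m) * house (m i : K)) * B :=
            mul_le_mul_of_nonneg_right (house_mul_le _ _) hB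
        _ = house (F.coeff m) * ((m i : ℝ) * B) := by rw [house_natCast]; ring
    refine hb2.mono le_rfl ?_
    rw [← Finset.mul_sum, ← Finset.sum_mul]
    apply mul_le_mul_of_nonneg_left _ (house_nonneg _)
    apply mul_le_mul_of_nonneg_right _ hB
    have : (∑ i ∈ m.support, (m i : ℝ)) = (m.degree : ℝ) := by
      rw [Finsupp.degree_apply]
      push_cast
      rfl
    rw [this]
    exact_mod_cast hd
  refine hb.mono le_rfl ?_
  rw [← Finset.sum_mul]
  exact mul_le_mul_of_nonneg_right h.2.2 (by positivity)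

/-- The operator `F ↦ D F + j g F`. -/
noncomputable def Tj (G : Fin r → MvPolynomial (Fin r) K) (g : MvPolynomial (Fin r) K) (j : ℕ)
    (F : MvPolynomial (Fin r) K) : MvPolynomial (Fin r) K :=
  mkDerivation K G F + (j : K) • (g * F)

theorem Bd.nsmul {d : ℕ} {N : ℝ} {F : MvPolynomial (Fin r) K} (h : Bd d N F) (j : ℕ) :
    Bd d (j * N) ((j : K) • F) := by
  have e : (j : K) • F = ∑ _i ∈ Finset.range j, F := by
    rw [Finset.sum_const, Finset.card_range, Nat.cast_smul_eq_nsmul]
  have e2 : (j : ℝ) * N = ∑ _i ∈ Finset.range j, N := by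
    rw [Finset.sum_const, Finset.card_range, nsmul_eq_mul]
  rw [e, e2]
  exact Bd.sum _ fun _ _ => h

theorem Bd.tj {e : ℕ} {B : ℝ} {G : Fin r → MvPolynomial (Fin r) K} (hG : ∀ s, Bd e B (G s))
    {g : MvPolynomial (Fin r) K} (hg : Bd e B g) (hB : 0 ≤ B) (j : ℕ)
    {d : ℕ} {N : ℝ} {F : MvPolynomial (Fin r) K} (h : Bd d N F) :
    Bd (d + e) (N * ((d + j) * B)) (Tj G g j F) := by
  have h1 := Bd.deriv hG hB h
  have h2 := (hg.mul h).nsmul j
  rw [add_comm e d] at h2
  refine (h1.add h2).mono le_rfl (le_of_eq ?_)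
  ring

theorem Bd.tj_iter {e : ℕ} {B : ℝ} {G : Fin r → MvPolynomial (Fin r) K} (hG : ∀ s, Bd e B (G s))
    {g : MvPolynomial (Fin r) K} (hg : Bd e B g) (hB : 0 ≤ B) (j : ℕ)
    {d : ℕ} {N : ℝ} {F : MvPolynomial (Fin r) K} (h : Bd d N F) (l : ℕ) :
    Bd (d + l * e) (N * ((d + l * e + j) * B) ^ l) ((Tj G g j)^[l] F) := by
  have hN : 0 ≤ N := (nm_nonneg _).trans h.2.2
  induction l with
  | zero => simpa using h
  | succ l ih =>
    rw [Function.iterate_succ_apply']
    refine (Bd.tj hG hg hB j ih).mono (le_of_eq (by ring)) ?_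
    have h1 : ((d : ℝ) + l * e + j) * B ≤ (d + ((l + 1 : ℕ) : ℝ) * e + j) * B := by
      apply mul_le_mul_of_nonneg_right _ hB
      push_cast
      nlinarith [Nat.cast_nonneg (α := ℝ) e]
    have h0 : 0 ≤ ((d : ℝ) + l * e + j) * B := by positivity
    push_cast at h1 ⊢
    have h2 : N * (((d : ℝ) + l * e + j) * B) ^ l ≤ N * (((d : ℝ) + (l + 1) * e + j) * B) ^ l :=
      mul_le_mul_of_nonneg_left (pow_le_pow_left₀ h0 h1 _) hN
    rw [pow_succ, ← mul_assoc N]
    exact mul_le_mul h2 h1 h0 (by positivity)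

/-- Evaluation at a point. -/
theorem Bd.house_eval {a : Fin r → K} {H : ℝ} (hH : 1 ≤ H) (ha : ∀ s, house (a s) ≤ H)
    {d : ℕ} {N : ℝ} {F : MvPolynomial (Fin r) K} (h : Bd d N F) :
    house (eval a F) ≤ N * H ^ d := by
  rw [MvPolynomial.eval_eq]
  refine (house_sum_le_sum_house _ _).trans ?_
  have key : ∀ m ∈ F.support, house (F.coeff m * ∏ i ∈ m.support, a i ^ m i)
      ≤ house (F.coeff m) * H ^ d := by
    intro m hm
    refine (house_mul_le _ _).trans (mul_le_mul_of_nonneg_left ?_ (house_nonneg _))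
    have h1 : ∀ s : Finset (Fin r), house (∏ i ∈ s, a i ^ m i) ≤ H ^ (∑ i ∈ s, m i) := by
      classical
      intro s
      induction s using Finset.induction_on with
      | empty => simp [house_one']
      | insert b s hb ih =>
        rw [Finset.prod_insert hb, Finset.sum_insert hb, pow_add]
        refine (house_mul_le _ _).trans ?_
        apply mul_le_mul _ ih (house_nonneg _) (by positivity)
        exact (house_pow_le _ _).trans (pow_le_pow_left₀ (house_nonneg _) (ha b) _)
    refine (h1 _).trans (pow_le_pow_right₀ hH ?_)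
    exact h.degree_le hm
  refine (Finset.sum_le_sum key).trans ?_
  rw [← Finset.sum_mul]
  exact mul_le_mul_of_nonneg_right h.2.2 (by positivity)

theorem Bd.int_eval {a : Fin r → K} {q : ℕ} (ha : ∀ s, IsIntegral ℤ ((q : K) * a s))
    {d : ℕ} {N : ℝ} {F : MvPolynomial (Fin r) K} (h : Bd d N F) :
    IsIntegral ℤ ((q : K) ^ d * eval a F) := by
  classical
  rw [MvPolynomial.eval_eq, Finset.mul_sum]
  apply IsIntegral.sum
  intro m hm
  have hd : ∑ i ∈ m.support, m i ≤ d := h.degree_le hm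
  have e : (q : K) ^ d * (F.coeff m * ∏ i ∈ m.support, a i ^ m i)
      = (q : K) ^ (d - ∑ i ∈ m.support, m i) * F.coeff m *
        ∏ i ∈ m.support, ((q : K) * a i) ^ m i := by
    have h1 : (q : K) ^ d = (q : K) ^ (d - ∑ i ∈ m.support, m i) * ∏ i ∈ m.support, (q : K) ^ m i := by
      rw [Finset.prod_pow_eq_pow_sum, ← pow_add, Nat.sub_add_cancel hd]
    simp only [mul_pow, Finset.prod_mul_distrib]
    rw [h1]
    ring
  rw [e]
  refine ((((isIntegral_natCast _).pow _)).mul (h.2.1 m)).mul ?_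
  exact IsIntegral.prod _ fun i _ => (ha i).pow _

/-- Common denominator of finitely many elements. -/
theorem exists_den (S : Finset K) : ∃ q : ℕ, 0 < q ∧ ∀ x ∈ S, IsIntegral ℤ ((q : K) * x) := by
  obtain ⟨y, hy, h⟩ := exists_integral_multiples ℤ ℚ S
  refine ⟨y.natAbs, Int.natAbs_pos.2 hy, fun x hx => ?_⟩
  have h1 := h x hx
  rw [zsmul_eq_mul] at h1
  rcases Int.natAbs_eq y with h2 | h2
  · rw [h2] at h1
    simpa using h1
  · rw [h2] at h1
    have := h1.neg
    simpa using this

theorem exists_bd (S : Finset (MvPolynomial (Fin r) K)) : ∃ q : ℕ, 0 < q ∧ ∃ e : ℕ, ∃ B : ℝ,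
    1 ≤ B ∧ ∀ F ∈ S, ∀ q' : ℕ, 0 < q' → q ∣ q' → Bd e (q' * B) ((q' : K) • F) := by
  classical
  induction S using Finset.induction_on with
  | empty => exact ⟨1, one_pos, 0, 1, le_rfl, by simp⟩
  | insert F S hF ih =>
    obtain ⟨q, hq, e, B, hB, ih⟩ := ih
    obtain ⟨q1, hq1, h1⟩ := exists_den (F.support.image fun m => F.coeff m)
    refine ⟨q * q1, Nat.mul_pos hq hq1, max e F.totalDegree, max B (nm F),
      le_max_of_le_left hB, ?_⟩
    intro F' hF' q' hq' hd
    rcases Finset.mem_insert.1 hF' with rfl | h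
    · have hb : Bd F'.totalDegree (q' * nm F') ((q' : K) • F') := by
        refine ⟨MvPolynomial.totalDegree_smul_le _ _, fun m => ?_, ?_⟩
        · rw [MvPolynomial.coeff_smul, smul_eq_mul]
          by_cases hm : m ∈ F'.support
          · obtain ⟨k, hk⟩ := dvd_trans (dvd_mul_left q1 q) hd
            rw [hk]
            push_cast
            have := (h1 _ (Finset.mem_image_of_mem _ hm)).mul (isIntegral_natCast (R := ℤ) (B := K) k)
            rw [show (q1 : K) * (k : K) * F'.coeff m = (q1 : K) * F'.coeff m * (k : K) by ring]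
            exact this
          · rw [MvPolynomial.notMem_support_iff.1 hm, mul_zero]
            exact isIntegral_zero
        · have hs : ((q' : K) • F').support ⊆ F'.support := MvPolynomial.support_smul
          rw [nm_eq hs, nm, Finset.mul_sum]
          apply Finset.sum_le_sum
          intro m _
          rw [MvPolynomial.coeff_smul, smul_eq_mul, house_nat_mul]
      exact hb.mono (le_max_right _ _)
        (mul_le_mul_of_nonneg_left (le_max_right _ _) (Nat.cast_nonneg _))
    · exact (ih F' h q' hq' (dvd_trans (dvd_mul_right q q1) hd)).mono (le_max_left _ _)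
        (mul_le_mul_of_nonneg_left (le_max_left _ _) (Nat.cast_nonneg _))

/-- The analytic meaning of the derivation. -/
theorem hasDerivAt_eval (ι : K →+* ℂ) {G : Fin r → MvPolynomial (Fin r) K} {x : Fin r → ℂ → ℂ}
    {z w : ℂ} (h : ∀ s, HasDerivAt (x s) (eval₂ ι (fun s => x s z) (G s) * w) z)
    (F : MvPolynomial (Fin r) K) :
    HasDerivAt (fun z => eval₂ ι (fun s => x s z) F)
      (eval₂ ι (fun s => x s z) (mkDerivation K G F) * w) z := by
  induction F using MvPolynomial.induction_on with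
  | C a =>
    simp only [eval₂_C, derivation_C, eval₂_zero, zero_mul]
    exact hasDerivAt_const _ _
  | add p q hp hq =>
    simp only [eval₂_add, map_add, add_mul]
    exact hp.add hq
  | mul_X p i hp =>
    simp only [eval₂_mul, eval₂_X, Derivation.leibniz, mkDerivation_X, eval₂_add, smul_eq_mul]
    have := hp.mul (h i)
    refine this.congr_deriv ?_
    ring

theorem hasDerivAt_tj (ι : K →+* ℂ) {G : Fin r → MvPolynomial (Fin r) K}
    {g : MvPolynomial (Fin r) K} {x : Fin r → ℂ → ℂ} {Y : ℂ → ℂ}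
    {z w : ℂ} (h : ∀ s, HasDerivAt (x s) (eval₂ ι (fun s => x s z) (G s) * w) z)
    (hY : HasDerivAt Y (eval₂ ι (fun s => x s z) g * w * Y z) z) (j : ℕ)
    (F : MvPolynomial (Fin r) K) :
    HasDerivAt (fun z => eval₂ ι (fun s => x s z) F * Y z ^ j)
      (eval₂ ι (fun s => x s z) (Tj G g j F) * Y z ^ j * w) z := by
  have h1 := (hasDerivAt_eval ι h F).mul (hY.pow j)
  refine h1.congr_deriv ?_
  have h2 : eval₂ ι (fun s => x s z) ((j : K) • (g * F))
      = (j : ℂ) * (eval₂ ι (fun s => x s z) g * eval₂ ι (fun s => x s z) F) := by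
    rw [MvPolynomial.smul_eq_C_mul, eval₂_mul, eval₂_C, eval₂_mul, map_natCast]
  rw [Tj, eval₂_add, h2]
  rcases j with _ | j
  · simp
  · simp only [Nat.add_sub_cancel, Pi.pow_apply]
    push_cast
    ring

/-- The derivation `d / dt` in the variable `z`. -/
noncomputable def Dt (t f : ℂ → ℂ) : ℂ → ℂ := fun z => deriv f z / deriv t z

theorem Dt_congr {t f g : ℂ → ℂ} {p : ℂ} (h : f =ᶠ[nhds p] g) : Dt t f =ᶠ[nhds p] Dt t g := by
  filter_upwards [h.deriv] with z hz
  rw [Dt, Dt, hz]

theorem Dt_iter_congr {t f g : ℂ → ℂ} {p : ℂ} (h : f =ᶠ[nhds p] g) (l : ℕ) :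
    (Dt t)^[l] f =ᶠ[nhds p] (Dt t)^[l] g := by
  induction l with
  | zero => exact h
  | succ l ih =>
    rw [Function.iterate_succ_apply', Function.iterate_succ_apply']
    exact Dt_congr ih

theorem Dt_iter_tj (ι : K →+* ℂ) {G : Fin r → MvPolynomial (Fin r) K}
    {g : MvPolynomial (Fin r) K} {x : Fin r → ℂ → ℂ} {t Y : ℂ → ℂ}
    {p : ℂ} (ht : ∀ᶠ z in nhds p, deriv t z ≠ 0)
    (h : ∀ᶠ z in nhds p, ∀ s, HasDerivAt (x s) (eval₂ ι (fun s => x s z) (G s) * deriv t z) z)
    (hY : ∀ᶠ z in nhds p, HasDerivAt Y (eval₂ ι (fun s => x s z) g * deriv t z * Y z) z) (j : ℕ)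
    (F : MvPolynomial (Fin r) K) (l : ℕ) :
    (Dt t)^[l] (fun z => eval₂ ι (fun s => x s z) F * Y z ^ j) =ᶠ[nhds p]
      fun z => eval₂ ι (fun s => x s z) ((Tj G g j)^[l] F) * Y z ^ j := by
  induction l with
  | zero => simp
  | succ l ih =>
    rw [Function.iterate_succ_apply']
    refine (Dt_congr ih).trans ?_
    filter_upwards [h, hY, ht] with z hz hYz htz
    rw [Dt, (hasDerivAt_tj ι hz hYz j _).deriv, Function.iterate_succ_apply']
    field_simp

theorem tj_smul (G : Fin r → MvPolynomial (Fin r) K) (g : MvPolynomial (Fin r) K) (j : ℕ)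
    (q : K) (F : MvPolynomial (Fin r) K) :
    Tj (fun s => q • G s) (q • g) j F = q • Tj G g j F := by
  have h1 : mkDerivation K (fun s => q • G s) = q • mkDerivation K G := by
    apply MvPolynomial.derivation_ext
    intro i
    rw [mkDerivation_X, Derivation.smul_apply, mkDerivation_X]
  rw [Tj, Tj, h1, Derivation.smul_apply, smul_add, smul_mul_assoc, smul_comm q (j : K)]

theorem tj_smul_iter (G : Fin r → MvPolynomial (Fin r) K) (g : MvPolynomial (Fin r) K) (j : ℕ)
    (q : K) (F : MvPolynomial (Fin r) K) (l : ℕ) :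
    (Tj (fun s => q • G s) (q • g) j)^[l] F = q ^ l • (Tj G g j)^[l] F := by
  induction l with
  | zero => simp
  | succ l ih =>
    rw [Function.iterate_succ_apply', ih, tj_smul, Function.iterate_succ_apply', pow_succ]
    have h1 : ∀ (c : K) (F : MvPolynomial (Fin r) K), Tj G g j (c • F) = c • Tj G g j F := by
      intro c F
      rw [Tj, Tj, Derivation.map_smul, smul_add, mul_smul_comm, smul_comm c (j : K)]
    rw [h1, smul_smul, mul_comm]

/-- **The arithmetic estimate**: `(d/dt) ^ l (x_s ^ i * Y ^ j)` at an algebraic point. -/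
theorem eis0 (ι : K →+* ℂ) (G : Fin r → MvPolynomial (Fin r) K) (g : MvPolynomial (Fin r) K)
    (a : Fin r → K) : ∃ C : ℝ, 1 ≤ C ∧ ∃ q : ℕ, 0 < q ∧
      ∀ (x : Fin r → ℂ → ℂ) (t Y : ℂ → ℂ) (p : ℂ), (∀ s, x s p = ι (a s)) →
      (∀ᶠ z in nhds p, deriv t z ≠ 0) →
      (∀ᶠ z in nhds p, ∀ s, HasDerivAt (x s) (eval₂ ι (fun s => x s z) (G s) * deriv t z) z) →
      (∀ᶠ z in nhds p, HasDerivAt Y (eval₂ ι (fun s => x s z) g * deriv t z * Y z) z) →
      ∀ (s₀ : Fin r) (i j l : ℕ), ∃ c : K,
        (Dt t)^[l] (fun z => x s₀ z ^ i * Y z ^ j) p = ι c * Y p ^ j ∧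
        IsIntegral ℤ ((q : K) ^ (i + l) * c) ∧
        house c ≤ C ^ (i + l) * ((i : ℝ) + j + l) ^ l := by
  classical
  obtain ⟨q1, hq1, e, B, hB, hb⟩ := exists_bd (insert g (Finset.univ.image G))
  obtain ⟨q2, hq2, ha⟩ := exists_den (Finset.univ.image a)
  set q : ℕ := q1 * q2 with hqdef
  have hq : 0 < q := Nat.mul_pos hq1 hq2
  have hq' : (1 : ℝ) ≤ q := by exact_mod_cast hq
  have hq1d : q1 ∣ q := dvd_mul_right _ _
  have hg : Bd e (q * B) ((q : K) • g) := hb g (Finset.mem_insert_self _ _) q hq hq1d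
  have hG : ∀ s, Bd e (q * B) ((q : K) • G s) := fun s =>
    hb (G s) (Finset.mem_insert_of_mem (Finset.mem_image_of_mem _ (Finset.mem_univ _))) q hq hq1d
  have ha' : ∀ s, IsIntegral ℤ ((q : K) * a s) := by
    intro s
    have h1 := ha (a s) (Finset.mem_image_of_mem _ (Finset.mem_univ _))
    have h2 := (isIntegral_natCast (R := ℤ) (B := K) q1).mul h1
    rw [← mul_assoc] at h2
    rw [hqdef]
    push_cast
    exact h2
  obtain ⟨H, hH1, hH⟩ : ∃ H : ℝ, 1 ≤ H ∧ ∀ s, house (a s) ≤ H := by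
    refine ⟨1 + ∑ s, house (a s), ?_, fun s => ?_⟩
    · have : 0 ≤ ∑ s, house (a s) := Finset.sum_nonneg fun _ _ => house_nonneg _
      linarith
    · have := Finset.single_le_sum (f := fun s => house (a s)) (fun _ _ => house_nonneg _)
        (Finset.mem_univ s)
      linarith
  have hqB : 0 ≤ (q : ℝ) * B := by positivity
  refine ⟨q * B * (e + 1) * H ^ (e + 1), ?_, q ^ (e + 1), by positivity, ?_⟩
  · have h1 : 1 ≤ H ^ (e + 1) := one_le_pow₀ hH1
    have h2 : (1 : ℝ) ≤ (e : ℝ) + 1 := by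
      have := Nat.cast_nonneg (α := ℝ) e
      linarith
    calc (1 : ℝ) = 1 * 1 * 1 * 1 := by ring
      _ ≤ q * B * (e + 1) * H ^ (e + 1) := by gcongr
  intro x t Y p hx ht hd hY s₀ i j l
  have hX : Bd i (1 : ℝ) (X s₀ ^ i : MvPolynomial (Fin r) K) := by
    rw [MvPolynomial.X_pow_eq_monomial]
    have := Bd.monomial (K := K) (m := Finsupp.single s₀ i) (c := 1) (d := i)
      (by rw [Finsupp.degree_single]) isIntegral_one
    rwa [house_one'] at this
  have hTl := Bd.tj_iter hG hg hqB j hX l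
  refine ⟨eval a ((Tj G g j)^[l] (X s₀ ^ i)), ?_, ?_, ?_⟩
  · have h1 := (Dt_iter_tj ι ht hd hY j (X s₀ ^ i) l).self_of_nhds
    simp only [eval₂_pow, eval₂_X] at h1
    rw [h1]
    congr 1
    have h2 : (fun s => x s p) = fun s => ι (a s) := funext hx
    rw [h2]
    have h3 := MvPolynomial.eval₂_comp_left ι (RingHom.id K) a ((Tj G g j)^[l] (X s₀ ^ i))
    rw [RingHom.comp_id] at h3
    exact h3.symm
  · have e1 : (((q ^ (e + 1) : ℕ) : K)) ^ (i + l) * eval a ((Tj G g j)^[l] (X s₀ ^ i))
        = (q : K) ^ ((e + 1) * (i + l) - (i + l * e) - l) * ((q : K) ^ (i + l * e) *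
          eval a ((Tj (fun s => (q : K) • G s) ((q : K) • g) j)^[l] (X s₀ ^ i))) := by
      rw [tj_smul_iter, MvPolynomial.smul_eval, Nat.cast_pow, ← pow_mul]
      have e2 : (e + 1) * (i + l) = ((e + 1) * (i + l) - (i + l * e) - l) + (i + l * e) + l := by
        have : i + l * e + l ≤ (e + 1) * (i + l) := by nlinarith [Nat.zero_le (e * i)]
        omega
      conv_lhs => rw [e2]
      rw [pow_add, pow_add]
      ring
    rw [e1]
    exact ((isIntegral_natCast (R := ℤ) (B := K) q).pow _).mul (hTl.int_eval ha')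
  · have e1 : house (eval a ((Tj G g j)^[l] (X s₀ ^ i)))
        ≤ house (eval a ((Tj (fun s => (q : K) • G s) ((q : K) • g) j)^[l] (X s₀ ^ i))) := by
      rw [tj_smul_iter, MvPolynomial.smul_eval, ← Nat.cast_pow, house_nat_mul]
      refine le_mul_of_one_le_left (house_nonneg _) ?_
      push_cast
      exact one_le_pow₀ hq'
    refine e1.trans ((hTl.house_eval hH1 hH).trans ?_)
    rw [one_mul]
    have hx0 : (0 : ℝ) ≤ (i : ℝ) + j + l := by positivity
    have h1 : ((i : ℝ) + l * e + j) ≤ (e + 1) * ((i : ℝ) + j + l) := by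
      nlinarith [Nat.cast_nonneg (α := ℝ) e, Nat.cast_nonneg (α := ℝ) i,
        Nat.cast_nonneg (α := ℝ) j, Nat.cast_nonneg (α := ℝ) l,
        mul_nonneg (Nat.cast_nonneg (α := ℝ) e) (Nat.cast_nonneg (α := ℝ) i),
        mul_nonneg (Nat.cast_nonneg (α := ℝ) e) (Nat.cast_nonneg (α := ℝ) j)]
    have h2 : (((i : ℝ) + l * e + j) * (q * B)) ^ l
        ≤ (q * B * (e + 1)) ^ l * ((i : ℝ) + j + l) ^ l := by
      rw [← mul_pow]
      apply pow_le_pow_left₀ (by positivity)
      calc ((i : ℝ) + l * e + j) * (q * B) ≤ ((e + 1) * ((i : ℝ) + j + l)) * (q * B) :=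
            mul_le_mul_of_nonneg_right h1 hqB
        _ = q * B * (e + 1) * ((i : ℝ) + j + l) := by ring
    have he1 : (1 : ℝ) ≤ (e : ℝ) + 1 := by
      have := Nat.cast_nonneg (α := ℝ) e
      linarith
    have hC1 : (1 : ℝ) ≤ q * B * (e + 1) := by
      calc (1 : ℝ) = 1 * 1 * 1 := by ring
        _ ≤ q * B * (e + 1) := by gcongr
    have h3 : H ^ (i + l * e) ≤ H ^ ((e + 1) * (i + l)) := by
      apply pow_le_pow_right₀ hH1
      nlinarith [Nat.zero_le (e * i), Nat.zero_le l]
    have h4 : (q * B * ((e : ℝ) + 1)) ^ l ≤ (q * B * (e + 1)) ^ (i + l) :=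
      pow_le_pow_right₀ hC1 (Nat.le_add_left _ _)
    calc (((i : ℝ) + l * e + j) * (q * B)) ^ l * H ^ (i + l * e)
        ≤ ((q * B * (e + 1)) ^ l * ((i : ℝ) + j + l) ^ l) * H ^ ((e + 1) * (i + l)) := by
          gcongr
      _ ≤ ((q * B * (e + 1)) ^ (i + l) * ((i : ℝ) + j + l) ^ l) * H ^ ((e + 1) * (i + l)) := by
          gcongr
      _ = (q * B * (e + 1) * H ^ (e + 1)) ^ (i + l) * ((i : ℝ) + j + l) ^ l := by
          rw [mul_pow _ (H ^ (e + 1)), ← pow_mul]
          ring

end Pool.Agent.Lib.MP_5d4057_al.T5
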