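import Pool.Agent.Lib.MP_5d4057_al.T5.Defs

/-!
# T5: the action on the disc
-/

set_option autoImplicit false

namespace Pool.Agent.Lib.MP_5d4057_al.T5

open Metric Filter Topology Matrix Pool.Agent.Lib.MP_5d4057_al Pool.Agent.Lib.MP_5d4057_al.HM

/-- The form: `|c x + d|² - |a x + b|² = 1 - |x|²`. -/
theorem mb_form (g : SUGroup 1) (x : ℂ) :
    ‖g.toMatrix 1 0 * x + g.toMatrix 1 1‖ ^ 2 - ‖g.toMatrix 0 0 * x + g.toMatrix 0 1‖ ^ 2 =
      1 - ‖x‖ ^ 2 := by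
  have h : g.toMatrixᴴ * J 1 * g.toMatrix = J 1 := g.2
  have h00 := congrFun (congrFun h 0) 0
  have h01 := congrFun (congrFun h 0) 1
  have h10 := congrFun (congrFun h 1) 0
  have h11 := congrFun (congrFun h 1) 1
  have j00 : J 1 0 0 = 1 := by simp [J]
  have j11 : J 1 1 1 = -1 := by simp [J, Fin.last]
  have j01 : J 1 0 1 = 0 := by simp [J]
  have j10 : J 1 1 0 = 0 := by simp [J]
  have hs : ∀ f : Fin (1 + 1) → ℂ, ∑ j, f j = f 0 + f 1 := fun f => Fin.sum_univ_two f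
  simp only [Matrix.mul_apply, hs, conjTranspose_apply, j00, j11, j01, j10] at h00 h01 h10 h11
  generalize g.toMatrix 0 0 = a at *
  generalize g.toMatrix 0 1 = b at *
  generalize g.toMatrix 1 0 = c at *
  generalize g.toMatrix 1 1 = d at *
  have e : ∀ z : ℂ, ((‖z‖ ^ 2 : ℝ) : ℂ) = star z * z := by
    intro z
    rw [← Complex.normSq_eq_norm_sq, Complex.normSq_eq_conj_mul_self]
    rfl
  have : (((‖c * x + d‖ ^ 2 - ‖a * x + b‖ ^ 2 : ℝ)) : ℂ) = ((1 - ‖x‖ ^ 2 : ℝ) : ℂ) := by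
    rw [Complex.ofReal_sub, Complex.ofReal_sub, e, e, e, Complex.ofReal_one]
    simp only [star_add, star_mul']
    linear_combination (-(star x * x)) * h00 - star x * h01 - x * h10 - h11
  exact_mod_cast this

/-- `g (x, 1) = (denominator) (mb g x, 1)`, the denominator is not zero, and the norm of the image. -/
theorem mb_den (g : SUGroup 1) {x : ℂ} (hx : x ∈ ball (0 : ℂ) 1) :
    g.toMatrix 1 0 * x + g.toMatrix 1 1 ≠ 0 := by
  intro h
  have hx1 : ‖x‖ < 1 := by simpa using hx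
  have hf := mb_form g x
  rw [h, norm_zero] at hf
  nlinarith [norm_nonneg x, sq_nonneg ‖g.toMatrix 0 0 * x + g.toMatrix 0 1‖]

theorem mb_mem (g : SUGroup 1) {x : ℂ} (hx : x ∈ ball (0 : ℂ) 1) : mb g x ∈ ball (0 : ℂ) 1 := by
  have hx1 : ‖x‖ < 1 := by simpa using hx
  have hd : 0 < ‖g.toMatrix 1 0 * x + g.toMatrix 1 1‖ := norm_pos_iff.2 (mb_den g hx)
  have hf := mb_form g x
  rw [mem_ball_zero_iff, mb, norm_div, div_lt_one hd]
  refine lt_of_pow_lt_pow_left₀ 2 hd.le ?_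
  nlinarith [norm_nonneg x]

theorem mb_one (x : ℂ) : mb 1 x = x := by
  have h : (1 : SUGroup 1).toMatrix = 1 := rfl
  rw [mb, h]
  simp

theorem mb_mul (g h : SUGroup 1) {x : ℂ} (hx : x ∈ ball (0 : ℂ) 1) :
    mb (g * h) x = mb g (mb h x) := by
  have hd := mb_den h hx
  have hm := mb_den g (mb_mem h hx)
  have hgh := mb_den (g * h) hx
  have e : (g * h).toMatrix = g.toMatrix * h.toMatrix := rfl
  have hs : ∀ f : Fin (1 + 1) → ℂ, ∑ j, f j = f 0 + f 1 := fun f => Fin.sum_univ_two f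
  rw [mb] at hm ⊢
  rw [e] at hgh ⊢
  simp only [Matrix.mul_apply, hs] at hgh ⊢
  rw [mb, mb, div_eq_div_iff hgh hm]
  field_simp
  ring

theorem mb_analytic (g : SUGroup 1) {x : ℂ} (hx : x ∈ ball (0 : ℂ) 1) : AnalyticAt ℂ (mb g) x := by
  have h1 : AnalyticAt ℂ (fun x : ℂ => g.toMatrix 0 0 * x + g.toMatrix 0 1) x :=
    (analyticAt_const.mul analyticAt_id).add analyticAt_const
  have h2 : AnalyticAt ℂ (fun x : ℂ => g.toMatrix 1 0 * x + g.toMatrix 1 1) x :=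
    (analyticAt_const.mul analyticAt_id).add analyticAt_const
  exact h1.div h2 (mb_den g hx)

/-- `|mb g 0|² = 1 - 1/ch² g`. -/
theorem mb_zero (g : SUGroup 1) : ‖mb g 0‖ ^ 2 = 1 - 1 / ch g ^ 2 := by
  have hf := mb_form g 0
  have hd := mb_den g (x := 0) (by simp)
  simp only [mul_zero, zero_add, norm_zero] at hf hd
  have hn : ‖g.toMatrix 1 1‖ ≠ 0 := norm_ne_zero_iff.2 hd
  have hc : ch g = ‖g.toMatrix 1 1‖ := rfl
  rw [mb, mul_zero, mul_zero, zero_add, zero_add, norm_div, div_pow, hc, eq_sub_iff_add_eq,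
    ← add_div, div_eq_one_iff_eq (pow_ne_zero 2 hn)]
  linarith

/-- Transitivity. -/
theorem exists_mb {x : ℂ} (hx : x ∈ ball (0 : ℂ) 1) : ∃ g : SUGroup 1, mb g 0 = x := by
  have hx1 : ‖x‖ < 1 := by simpa using hx
  have hp : 0 < 1 - ‖x‖ ^ 2 := by nlinarith [norm_nonneg x]
  obtain ⟨s, hs0, hs⟩ : ∃ s : ℝ, 0 < s ∧ s ^ 2 * (1 - ‖x‖ ^ 2) = 1 := by
    refine ⟨Real.sqrt (1 - ‖x‖ ^ 2)⁻¹, Real.sqrt_pos.2 (inv_pos.2 hp), ?_⟩
    rw [Real.sq_sqrt (inv_nonneg.2 hp.le), inv_mul_cancel₀ hp.ne']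
  have hsC : (s : ℂ) ^ 2 * (1 - star x * x) = 1 := by
    have e : star x * x = ((‖x‖ ^ 2 : ℝ) : ℂ) := by
      rw [← Complex.normSq_eq_norm_sq, Complex.normSq_eq_conj_mul_self]
      rfl
    rw [e]
    exact_mod_cast hs
  have hsC' : (s : ℂ) ^ 2 * (1 - (starRingEnd ℂ) x * x) = 1 := hsC
  have hJ : J 1 = !![1, 0; 0, -1] := by
    ext i j
    fin_cases i <;> fin_cases j <;> simp [J]
  have hdet : (!![(s : ℂ), s * x; s * star x, s] : Matrix (Fin 2) (Fin 2) ℂ).det = 1 := by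
    rw [det_fin_two_of]
    linear_combination hsC
  have hform : (!![(s : ℂ), s * x; s * star x, s] : Matrix (Fin 2) (Fin 2) ℂ)ᴴ * !![1, 0; 0, -1] *
      !![(s : ℂ), s * x; s * star x, s] = !![1, 0; 0, -1] := by
    ext i j
    fin_cases i <;> fin_cases j <;>
      simp [Matrix.mul_apply, Fin.sum_univ_two, conjTranspose_apply]
    · linear_combination hsC'
    · ring
    · ring
    · linear_combination -hsC'
  have hmem : (!![(s : ℂ), s * x; s * star x, s] : Matrix (Fin 2) (Fin 2) ℂ)ᴴ * J 1 *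
      !![(s : ℂ), s * x; s * star x, s] = J 1 := by
    rw [hJ]
    exact hform
  refine ⟨⟨⟨!![(s : ℂ), s * x; s * star x, s], hdet⟩, hmem⟩, ?_⟩
  show ((s : ℂ) * 0 + s * x) / (s * star x * 0 + s) = x
  have hs1 : (s : ℂ) ≠ 0 := by exact_mod_cast hs0.ne'
  rw [mul_zero, mul_zero, zero_add, zero_add, mul_div_cancel_left₀ _ hs1]

end Pool.Agent.Lib.MP_5d4057_al.T5
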