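import Pool.Agent.Lib.MP_5d4057_al.T5.Van
import Pool.Agent.Lib.MP_5d4057_al.T5.Bla

/-!
# T5: the analytic step
-/

set_option autoImplicit false

namespace Pool.Agent.Lib.MP_5d4057_al.T5

open Filter Topology Metric

/-- Jensen: many zeros of high order force a small leading coefficient. -/
theorem stp {k : ℂ → ℂ} {A c : ℝ} {B m T j₀ J : ℕ} {S : Finset ℂ}
    (hk : DifferentiableOn ℂ k (ball 0 1)) (hk0 : k 0 ≠ 0) (hJ : j₀ ≤ J)
    (hgr : ∀ z : ℂ, ‖z‖ < 1 → ‖z ^ m * k z‖ ≤ Real.exp A * ((1 - ‖z‖)⁻¹) ^ B)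
    (hS : ∀ z ∈ S, z ≠ 0 ∧ ‖z‖ ≤ 1 - (1 / 2) ^ J)
    (hz : ∀ z ∈ S, (T : ℕ∞) ≤ analyticOrderAt k z)
    (hN : ∀ j, j₀ ≤ j → j ≤ J →
      c * 2 ^ j ≤ ((S.filter fun z => ‖z‖ ≤ 1 - (1 / 2) ^ j).card : ℝ)) :
    Real.log ‖k 0‖ + T * (c * (J - j₀ + 1) / 4) ≤ A + B * (J + 1) + m := by
  have h2 : (0 : ℝ) < (1 / 2) ^ (J + 1) := by positivity
  have h3 : (1 / 2 : ℝ) ^ (J + 1) = 1 / 2 * (1 / 2) ^ J := by ring
  have h4 : (1 / 2 : ℝ) ^ J ≤ 1 := pow_le_one₀ (by norm_num) (by norm_num)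
  set ρ : ℝ := 1 - (1 / 2) ^ (J + 1) with hρd
  have hρ : 1 / 2 ≤ ρ := by rw [hρd]; linarith
  have hρ1 : ρ < 1 := by rw [hρd]; linarith
  have hρ0 : 0 < ρ := by linarith
  have hM : ∀ x : ℂ, ‖x‖ = ρ → ‖x ^ m * k x‖ ≤ Real.exp A * 2 ^ ((J + 1) * B) := by
    intro x hx
    refine (hgr x (by rw [hx]; exact hρ1)).trans (le_of_eq ?_)
    rw [hx]
    have h5 : (1 - ρ)⁻¹ = 2 ^ (J + 1) := by
      rw [hρd, sub_sub_cancel, one_div, inv_pow, inv_inv]
    rw [h5, ← pow_mul]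
  have h6 := bla hρ0 hρ1 hk (S := S) (fun z hzS => ⟨(hS z hzS).1, lt_of_le_of_lt (hS z hzS).2
    (by rw [hρd]; linarith [show (0 : ℝ) < (1 / 2) ^ J by positivity])⟩) hz hM
  have hkn : 0 < ‖k 0‖ := norm_pos_iff.2 hk0
  have hpos : ∀ z ∈ S, 0 < (ρ / ‖z‖) ^ T := fun z hzS =>
    pow_pos (div_pos hρ0 (norm_pos_iff.2 (hS z hzS).1)) T
  have h7 := Real.log_le_log (mul_pos hkn (Finset.prod_pos hpos)) h6
  rw [Real.log_mul hkn.ne' (Finset.prod_pos hpos).ne', Real.log_prod (fun z hzS =>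
    (hpos z hzS).ne'), Real.log_div (by positivity) (by positivity), Real.log_mul
    (Real.exp_pos A).ne' (by positivity), Real.log_exp, Real.log_pow, Real.log_pow] at h7
  have h8 : ∑ z ∈ S, Real.log ((ρ / ‖z‖) ^ T) = T * ∑ z ∈ S, Real.log (ρ / ‖z‖) := by
    rw [Finset.mul_sum]
    exact Finset.sum_congr rfl fun z _ => Real.log_pow _ _
  rw [h8] at h7
  have h9 := bla_sum hJ hS hN
  have h10 : (T : ℝ) * (c * (J - j₀ + 1) / 4) ≤ T * ∑ z ∈ S, Real.log (ρ / ‖z‖) :=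
    mul_le_mul_of_nonneg_left h9 (Nat.cast_nonneg T)
  have h11 : Real.log 2 ≤ 1 := by
    have := Real.log_two_lt_d9
    linarith
  have h12 : -Real.log ρ ≤ 1 := by
    have h13 : Real.log (1 / 2) ≤ Real.log ρ := Real.log_le_log (by norm_num) hρ
    rw [one_div, Real.log_inv] at h13
    linarith
  have h14 : ((((J + 1) * B : ℕ) : ℝ)) * Real.log 2 ≤ B * (J + 1) := by
    push_cast
    have h15 : (0 : ℝ) ≤ (J + 1) * B := by positivity
    nlinarith
  have h16 : -((m : ℝ) * Real.log ρ) ≤ m := by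
    have h17 : (0 : ℝ) ≤ m := Nat.cast_nonneg m
    nlinarith
  linarith

/-- The local form of a function of the coordinate `t`: the leading coefficient. -/
theorem lead {t H v k : ℂ → ℂ} (ht : AnalyticAt ℂ t 0) (hH : AnalyticAt ℂ H (t 0)) {m : ℕ}
    (hm : ∀ i < m, iteratedDeriv i H (t 0) = 0) (hv : AnalyticAt ℂ v 0) (hk : AnalyticAt ℂ k 0)
    (he : ∀ᶠ z in 𝓝 (0 : ℂ), z ^ m * k z = H (t z) * v z) :
    k 0 = iteratedDeriv m H (t 0) / (m.factorial : ℂ) * deriv t 0 ^ m * v 0 := by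
  have hta : AnalyticAt ℂ (fun z : ℂ => t 0 + z) 0 := analyticAt_const.add analyticAt_id
  have hH' : AnalyticAt ℂ H ((fun z : ℂ => t 0 + z) 0) := by simpa using hH
  have hf : AnalyticAt ℂ (fun z => H (t 0 + z)) 0 := hH'.comp hta
  obtain ⟨F, hF, hFe⟩ := hf.exists_eventuallyEq_sum_add_pow_mul (m + 1)
  have hd : ∀ i, iteratedDeriv i (fun z => H (t 0 + z)) 0 = iteratedDeriv i H (t 0) := by
    intro i
    rw [iteratedDeriv_comp_const_add]
    simp
  have hFe' : ∀ᶠ z in 𝓝 (0 : ℂ), H (t 0 + z) =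
      z ^ m * (iteratedDeriv m H (t 0) / (m.factorial : ℂ) + z * F z) := by
    filter_upwards [hFe] with z hz
    rw [hz, Finset.sum_range_succ, Finset.sum_eq_zero, hd]
    · simp only [smul_eq_mul]
      ring
    · intro i hi
      rw [hd, hm i (Finset.mem_range.1 hi), smul_zero]
  have htc : Tendsto (fun z => t z - t 0) (𝓝 0) (𝓝 0) := by
    have h1 : Tendsto (fun z => t z - t 0) (𝓝 0) (𝓝 (t 0 - t 0)) :=
      ht.continuousAt.tendsto.sub_const _
    rwa [sub_self] at h1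
  have hFt := htc.eventually hFe'
  set s : ℂ → ℂ := dslope t 0 with hs
  have hsz : ∀ z, t z - t 0 = z * s z := by
    intro z
    have h1 := sub_smul_dslope t 0 z
    rw [sub_zero, smul_eq_mul] at h1
    rw [hs, h1]
  have hsa : ContinuousAt s 0 := continuousAt_dslope_same.2 ht.differentiableAt
  have hs0 : s 0 = deriv t 0 := dslope_same t 0
  have hR : Tendsto (fun z => s z ^ m * (iteratedDeriv m H (t 0) / (m.factorial : ℂ) +
      (t z - t 0) * F (t z - t 0)) * v z) (𝓝 0) (𝓝 (s 0 ^ m *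
        (iteratedDeriv m H (t 0) / (m.factorial : ℂ) + 0 * F 0) * v 0)) := by
    refine ((hsa.tendsto.pow m).mul (tendsto_const_nhds.add (htc.mul ?_))).mul
      hv.continuousAt.tendsto
    exact hF.continuousAt.tendsto.comp htc
  have hne : ∀ᶠ z in 𝓝[≠] (0 : ℂ), k z = s z ^ m * (iteratedDeriv m H (t 0) /
      (m.factorial : ℂ) + (t z - t 0) * F (t z - t 0)) * v z := by
    filter_upwards [he.filter_mono nhdsWithin_le_nhds, hFt.filter_mono nhdsWithin_le_nhds,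
      self_mem_nhdsWithin] with z h1 h2 h3
    rw [add_sub_cancel] at h2
    rw [h2] at h1
    have h4 : z ^ m ≠ 0 := pow_ne_zero m h3
    refine mul_left_cancel₀ h4 ?_
    rw [h1]
    have h5 : (t z - t 0) ^ m = z ^ m * s z ^ m := by rw [hsz, mul_pow]
    rw [h5]
    ring
  have hkt : Tendsto k (𝓝[≠] (0 : ℂ)) (𝓝 (k 0)) :=
    hk.continuousAt.tendsto.mono_left nhdsWithin_le_nhds
  have h6 := tendsto_nhds_unique (hkt.congr' hne) (hR.mono_left nhdsWithin_le_nhds)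
  rw [h6, hs0]
  ring

end Pool.Agent.Lib.MP_5d4057_al.T5
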