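import Pool.Agent.Lib.MP_5d4057_al.T5.HtD
import Pool.Agent.Lib.MP_5d4057_al.T5.Stp

/-!
# T5: the numerator of the auxiliary function
-/

set_option autoImplicit false

namespace Pool.Agent.Lib.MP_5d4057_al.T5

open Filter Topology Metric

variable {K : Type*} [Field K]

/-- The numerator of the auxiliary function. -/
def Ph (ι : K →+* ℂ) (α b y₁ y₂ : ℂ → ℂ) (a : ℕ → ℕ → K) (x : K) (D0 D1 : ℕ) : ℂ → ℂ :=
  fun z => ∑ i ∈ Finset.range (D0 + 1), ∑ j ∈ Finset.range (D1 + 1),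
    ι (a i j) * ι x ^ j * (α z ^ i * b z ^ (D0 - i)) * (y₁ z ^ j * y₂ z ^ (D1 - j))

variable {ι : K →+* ℂ} {α b y₁ y₂ : ℂ → ℂ} {a : ℕ → ℕ → K} {x : K} {D0 D1 : ℕ}

theorem ph_diff {U : Set ℂ} (hα : DifferentiableOn ℂ α U) (hb : DifferentiableOn ℂ b U)
    (h1 : DifferentiableOn ℂ y₁ U) (h2 : DifferentiableOn ℂ y₂ U) :
    DifferentiableOn ℂ (Ph ι α b y₁ y₂ a x D0 D1) U := by
  refine DifferentiableOn.fun_sum fun i _ => DifferentiableOn.fun_sum fun j _ => ?_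
  exact (((differentiableOn_const _).mul ((hα.pow i).mul (hb.pow _))).mul
    ((h1.pow j).mul (h2.pow _)))

theorem ph_eq {t Y : ℂ → ℂ} {z : ℂ} (hb : b z ≠ 0) (hy : y₂ z ≠ 0) (ht : t z = α z / b z)
    (hY : Y z = y₁ z / y₂ z) :
    Ph ι α b y₁ y₂ a x D0 D1 z = Fz ι t Y a x D0 D1 z * (b z ^ D0 * y₂ z ^ D1) := by
  unfold Ph Fz
  rw [Finset.sum_mul]
  refine Finset.sum_congr rfl fun i hi => ?_
  rw [Finset.sum_mul]
  refine Finset.sum_congr rfl fun j hj => ?_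
  have hi' : i ≤ D0 := Nat.lt_succ_iff.1 (Finset.mem_range.1 hi)
  have hj' : j ≤ D1 := Nat.lt_succ_iff.1 (Finset.mem_range.1 hj)
  have e1 : b z ^ D0 = b z ^ i * b z ^ (D0 - i) := by rw [← pow_add, Nat.add_sub_cancel' hi']
  have e2 : y₂ z ^ D1 = y₂ z ^ j * y₂ z ^ (D1 - j) := by
    rw [← pow_add, Nat.add_sub_cancel' hj']
  rw [ht, hY, e1, e2, div_pow, div_pow]
  field_simp

theorem ph_act {μ : K} {z w : ℂ} (h1 : α w * b z = α z * b w)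
    (h2 : y₁ w * y₂ z = ι μ * y₁ z * y₂ w) :
    Ph ι α b y₁ y₂ a x D0 D1 w * (b z ^ D0 * y₂ z ^ D1) =
      Ph ι α b y₁ y₂ a (x * μ) D0 D1 z * (b w ^ D0 * y₂ w ^ D1) := by
  unfold Ph
  rw [Finset.sum_mul, Finset.sum_mul]
  refine Finset.sum_congr rfl fun i hi => ?_
  rw [Finset.sum_mul, Finset.sum_mul]
  refine Finset.sum_congr rfl fun j hj => ?_
  have hi' : i ≤ D0 := Nat.lt_succ_iff.1 (Finset.mem_range.1 hi)
  have hj' : j ≤ D1 := Nat.lt_succ_iff.1 (Finset.mem_range.1 hj)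
  have e1 : ∀ v, b v ^ D0 = b v ^ i * b v ^ (D0 - i) := fun v => by
    rw [← pow_add, Nat.add_sub_cancel' hi']
  have e2 : ∀ v, y₂ v ^ D1 = y₂ v ^ j * y₂ v ^ (D1 - j) := fun v => by
    rw [← pow_add, Nat.add_sub_cancel' hj']
  have e3 : α w ^ i * b z ^ i = α z ^ i * b w ^ i := by rw [← mul_pow, h1, mul_pow]
  have e4 : y₁ w ^ j * y₂ z ^ j = ι μ ^ j * y₁ z ^ j * y₂ w ^ j := by
    rw [← mul_pow, h2, mul_pow, mul_pow]
  rw [e1 z, e2 z, e1 w, e2 w, map_mul, mul_pow]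
  calc ι (a i j) * ι x ^ j * (α w ^ i * b w ^ (D0 - i)) * (y₁ w ^ j * y₂ w ^ (D1 - j)) *
        (b z ^ i * b z ^ (D0 - i) * (y₂ z ^ j * y₂ z ^ (D1 - j)))
      = ι (a i j) * ι x ^ j * (b w ^ (D0 - i) * b z ^ (D0 - i)) *
        (y₂ w ^ (D1 - j) * y₂ z ^ (D1 - j)) * (α w ^ i * b z ^ i) * (y₁ w ^ j * y₂ z ^ j) := by
        ring
    _ = _ := by
        rw [e3, e4]
        ring

theorem ph_growth {M : ℝ} {E : ℕ} {A : ℝ} {z : ℂ} (hM : 1 ≤ M) (hz : ‖z‖ < 1)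
    (hα : ‖α z‖ ≤ M * ((1 - ‖z‖)⁻¹) ^ E) (hb : ‖b z‖ ≤ M * ((1 - ‖z‖)⁻¹) ^ E)
    (h1 : ‖y₁ z‖ ≤ M * ((1 - ‖z‖)⁻¹) ^ E) (h2 : ‖y₂ z‖ ≤ M * ((1 - ‖z‖)⁻¹) ^ E)
    (ha : ∀ i j, ‖ι (a i j)‖ ≤ Real.exp A) (hx : ‖ι x‖ = 1) :
    ‖Ph ι α b y₁ y₂ a x D0 D1 z‖ ≤
      Real.exp (A + Real.log (D0 + 1) + Real.log (D1 + 1) + (D0 + D1) * Real.log M) *
        ((1 - ‖z‖)⁻¹) ^ (E * (D0 + D1)) := by
  have hM0 : 0 < M := by linarith
  set R : ℝ := M * ((1 - ‖z‖)⁻¹) ^ E with hR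
  have hR0 : 0 ≤ R := (norm_nonneg _).trans hα
  have hterm : ∀ i ∈ Finset.range (D0 + 1), ∀ j ∈ Finset.range (D1 + 1),
      ‖ι (a i j) * ι x ^ j * (α z ^ i * b z ^ (D0 - i)) * (y₁ z ^ j * y₂ z ^ (D1 - j))‖ ≤
        Real.exp A * R ^ (D0 + D1) := by
    intro i hi j hj
    have hi' : i ≤ D0 := Nat.lt_succ_iff.1 (Finset.mem_range.1 hi)
    have hj' : j ≤ D1 := Nat.lt_succ_iff.1 (Finset.mem_range.1 hj)
    rw [norm_mul, norm_mul, norm_mul, norm_mul, norm_mul, norm_pow, norm_pow, norm_pow,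
      norm_pow, norm_pow, hx, one_pow, mul_one]
    have e1 : R ^ (D0 + D1) = (R ^ i * R ^ (D0 - i)) * (R ^ j * R ^ (D1 - j)) := by
      rw [← pow_add, ← pow_add, ← pow_add]
      congr 1
      omega
    rw [e1, mul_assoc]
    refine mul_le_mul (ha i j) ?_ (by positivity) (Real.exp_pos A).le
    refine mul_le_mul ?_ ?_ (by positivity) (by positivity)
    · exact mul_le_mul (pow_le_pow_left₀ (norm_nonneg _) hα i)
        (pow_le_pow_left₀ (norm_nonneg _) hb _) (by positivity) (by positivity)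
    · exact mul_le_mul (pow_le_pow_left₀ (norm_nonneg _) h1 j)
        (pow_le_pow_left₀ (norm_nonneg _) h2 _) (by positivity) (by positivity)
  have hsum : ‖Ph ι α b y₁ y₂ a x D0 D1 z‖ ≤
      (D0 + 1) * ((D1 + 1) * (Real.exp A * R ^ (D0 + D1))) := by
    unfold Ph
    refine (norm_sum_le_of_le _ fun i hi => norm_sum_le_of_le _ fun j hj =>
      hterm i hi j hj).trans (le_of_eq ?_)
    rw [Finset.sum_const, Finset.sum_const, Finset.card_range, Finset.card_range,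
      nsmul_eq_mul, nsmul_eq_mul]
    push_cast
    ring
  refine hsum.trans (le_of_eq ?_)
  rw [Real.exp_add, Real.exp_add, Real.exp_add, Real.exp_log (by positivity),
    Real.exp_log (by positivity), mul_comm ((D0 : ℝ) + D1) (Real.log M), Real.exp_mul,
    Real.exp_log hM0, hR, mul_pow, ← pow_mul]
  have e2 : M ^ ((D0 : ℝ) + D1) = M ^ (D0 + D1) := by
    rw [← Nat.cast_add, Real.rpow_natCast]
  rw [e2]
  ring

/-- Transport of the order by an element of the group. -/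
theorem ph_order {μ : K} {φ : ℂ → ℂ} {T : ℕ} (hα : DifferentiableOn ℂ α (ball 0 1))
    (hb : DifferentiableOn ℂ b (ball 0 1)) (h1 : DifferentiableOn ℂ y₁ (ball 0 1))
    (h2 : DifferentiableOn ℂ y₂ (ball 0 1)) (hφ : DifferentiableOn ℂ φ (ball 0 1))
    (hφb : ∀ z ∈ ball (0 : ℂ) 1, φ z ∈ ball (0 : ℂ) 1) (hφd : deriv φ 0 ≠ 0)
    (hb0 : b 0 ≠ 0) (hy0 : y₂ 0 ≠ 0)
    (hαφ : ∀ z ∈ ball (0 : ℂ) 1, α (φ z) * b z = α z * b (φ z))
    (hyφ : ∀ z ∈ ball (0 : ℂ) 1, y₁ (φ z) * y₂ z = ι μ * y₁ z * y₂ (φ z))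
    (hT : (T : ℕ∞) ≤ analyticOrderAt (Ph ι α b y₁ y₂ a (x * μ) D0 D1) 0) :
    (T : ℕ∞) ≤ analyticOrderAt (Ph ι α b y₁ y₂ a x D0 D1) (φ 0) := by
  have m0 : (0 : ℂ) ∈ ball (0 : ℂ) 1 := mem_ball_self one_pos
  have n0 : ball (0 : ℂ) 1 ∈ 𝓝 (0 : ℂ) := isOpen_ball.mem_nhds m0
  have hφa : AnalyticAt ℂ φ 0 := hφ.analyticAt n0
  have hPd : ∀ y, DifferentiableOn ℂ (Ph ι α b y₁ y₂ a y D0 D1) (ball 0 1) := fun y =>
    ph_diff hα hb h1 h2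
  have hPa : AnalyticAt ℂ (Ph ι α b y₁ y₂ a x D0 D1) (φ 0) :=
    (hPd x).analyticAt (isOpen_ball.mem_nhds (hφb 0 m0))
  have hba : AnalyticAt ℂ b 0 := hb.analyticAt n0
  have hya : AnalyticAt ℂ y₂ 0 := h2.analyticAt n0
  have hbφ : AnalyticAt ℂ (fun z => b (φ z)) 0 :=
    (hb.analyticAt (isOpen_ball.mem_nhds (hφb 0 m0))).comp hφa
  have hy2φ : AnalyticAt ℂ (fun z => y₂ (φ z)) 0 :=
    (h2.analyticAt (isOpen_ball.mem_nhds (hφb 0 m0))).comp hφa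
  have hPφ : AnalyticAt ℂ (fun z => Ph ι α b y₁ y₂ a x D0 D1 (φ z)) 0 := hPa.comp hφa
  have e1 : analyticOrderAt (Ph ι α b y₁ y₂ a x D0 D1) (φ 0) =
      analyticOrderAt (fun z => Ph ι α b y₁ y₂ a x D0 D1 (φ z)) 0 :=
    (analyticOrderAt_comp_of_deriv_ne_zero hφa hφd).symm
  have hu : AnalyticAt ℂ (fun z => b z ^ D0 * y₂ z ^ D1) 0 := (hba.pow D0).mul (hya.pow D1)
  have hv : AnalyticAt ℂ (fun z => b (φ z) ^ D0 * y₂ (φ z) ^ D1) 0 :=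
    (hbφ.pow D0).mul (hy2φ.pow D1)
  rw [e1, ← order_mul_unit (u := fun z => b z ^ D0 * y₂ z ^ D1) hPφ hu
    (mul_ne_zero (pow_ne_zero _ hb0) (pow_ne_zero _ hy0))]
  have e2 : (fun z => b z ^ D0 * y₂ z ^ D1 * Ph ι α b y₁ y₂ a x D0 D1 (φ z)) =ᶠ[𝓝 0]
      (Ph ι α b y₁ y₂ a (x * μ) D0 D1) * fun z => b (φ z) ^ D0 * y₂ (φ z) ^ D1 := by
    filter_upwards [n0] with z hz
    rw [Pi.mul_apply, ← ph_act (hαφ z hz) (hyφ z hz)]
    ring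
  rw [analyticOrderAt_congr e2, analyticOrderAt_mul ((hPd _).analyticAt n0) hv]
  exact hT.trans le_self_add

end Pool.Agent.Lib.MP_5d4057_al.T5
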