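import Pool.Agent.Lib.MP_5d4057_al.T5.Defs
import Mathlib.RingTheory.PowerSeries.Basic

/-!
# T5: expansions in powers of `u` (owner: helper23)
-/

set_option autoImplicit false

namespace Pool.Agent.Lib.MP_5d4057_al.T5

open Metric Filter Topology Pool.Agent.Lib.MP_5d4057_al Pool.Agent.Lib.MP_5d4057_al.HM

open PowerSeries

variable {u f g : ℂ → ℂ}

/-- The expansion of `f` in powers of `u` is the formal power series `F`. -/
def EP (u f : ℂ → ℂ) (F : PowerSeries ℂ) : Prop := Exps u f fun l => coeff l F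

/-- Division of an analytic function by `x`. -/
theorem exists_div_x (hf : AnalyticAt ℂ f 0) :
    ∃ h : ℂ → ℂ, AnalyticAt ℂ h 0 ∧ h 0 = deriv f 0 ∧ ∀ x, f x = f 0 + x * h x := by
  obtain ⟨p, hp⟩ := hf
  refine ⟨dslope f 0, ⟨_, hp.has_fpower_series_dslope_fslope⟩, dslope_same f 0, fun x => ?_⟩
  have h := sub_smul_dslope f 0 x
  rw [sub_zero, smul_eq_mul] at h
  rw [h]
  ring

/-- Division of an analytic function by `u`. -/
theorem exists_div_u (hu : AnalyticAt ℂ u 0) (u0 : u 0 = 0) (u1 : deriv u 0 ≠ 0)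
    (hf : AnalyticAt ℂ f 0) :
    ∃ h : ℂ → ℂ, AnalyticAt ℂ h 0 ∧ ∀ᶠ x in 𝓝 (0 : ℂ), f x = f 0 + u x * h x := by
  obtain ⟨h, h1, -, h3⟩ := exists_div_x hf
  obtain ⟨v, v1, v2, v3⟩ := exists_div_x hu
  rw [u0] at v3
  rw [← v2] at u1
  refine ⟨fun x => h x / v x, h1.div v1 u1, ?_⟩
  filter_upwards [v1.continuousAt.eventually_ne u1] with x hx
  rw [h3 x, v3 x]
  field_simp
  ring

/-- PROOF. `f = f 0 + u f₁`, `f₁ = (f - f 0)/u` analytic; iterate. -/
theorem exists_EP (hu : AnalyticAt ℂ u 0) (u0 : u 0 = 0) (u1 : deriv u 0 ≠ 0)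
    (hf : AnalyticAt ℂ f 0) : ∃ F, EP u f F := by
  have hstep : ∀ k : {k : ℂ → ℂ // AnalyticAt ℂ k 0}, ∃ h : {k : ℂ → ℂ // AnalyticAt ℂ k 0},
      ∀ᶠ x in 𝓝 (0 : ℂ), k.1 x = k.1 0 + u x * h.1 x := by
    intro k
    obtain ⟨h, h1, h2⟩ := exists_div_u hu u0 u1 k.2
    exact ⟨⟨h, h1⟩, h2⟩
  choose st hst using hstep
  obtain ⟨s, hs0, hs1⟩ : ∃ s : ℕ → {k : ℂ → ℂ // AnalyticAt ℂ k 0},
      s 0 = ⟨f, hf⟩ ∧ ∀ l, s (l + 1) = st (s l) :=
    ⟨fun l => Nat.rec ⟨f, hf⟩ (fun _ k => st k) l, rfl, fun _ => rfl⟩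
  refine ⟨PowerSeries.mk fun l => (s l).1 0, fun L => ⟨(s L).1, (s L).2, ?_⟩⟩
  induction L with
  | zero =>
    refine Eventually.of_forall fun x => ?_
    rw [hs0]
    simp
  | succ L ih =>
    filter_upwards [ih, hst (s L)] with x h1 h2
    rw [h1, Finset.sum_range_succ, h2, hs1, coeff_mk]
    ring

theorem EP.analytic (_hu : AnalyticAt ℂ u 0) {F : PowerSeries ℂ} (h : EP u f F) :
    AnalyticAt ℂ f 0 := by
  obtain ⟨R, hR, h1⟩ := h 0
  refine hR.congr ?_
  filter_upwards [h1] with x hx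
  rw [hx]
  simp

theorem u_ne (hu : AnalyticAt ℂ u 0) (_u0 : u 0 = 0) (u1 : deriv u 0 ≠ 0) :
    ∀ᶠ x in 𝓝[≠] (0 : ℂ), u x ≠ 0 := by
  have h := hu.differentiableAt.hasDerivAt.eventually_ne (c := 0) u1
  exact h

/-- PROOF. If `∑_(l<L) c_l u^l + u^L R = 0` near `0` then `c_0 = 0`, divide by `u`, which is nonzero near `0` except at `0`. -/
theorem EP.unique (hu : AnalyticAt ℂ u 0) (u0 : u 0 = 0) (u1 : deriv u 0 ≠ 0)
    {F G : PowerSeries ℂ} (h : EP u f F) (h' : EP u f G) : F = G := by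
  ext L
  induction L using Nat.strong_induction_on with
  | _ L ih =>
    obtain ⟨R, hR, h1⟩ := h (L + 1)
    obtain ⟨S, hS, h2⟩ := h' (L + 1)
    have h3 : ∀ᶠ x in 𝓝[≠] (0 : ℂ), (coeff L F - coeff L G) + u x * (R x - S x) = 0 := by
      filter_upwards [u_ne hu u0 u1, h1.filter_mono nhdsWithin_le_nhds,
        h2.filter_mono nhdsWithin_le_nhds] with x hx e1 e2
      rw [e1, Finset.sum_range_succ, Finset.sum_range_succ] at e2
      have e3 : ∑ l ∈ Finset.range L, coeff l F * u x ^ l =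
          ∑ l ∈ Finset.range L, coeff l G * u x ^ l := by
        refine Finset.sum_congr rfl fun l hl => ?_
        rw [ih l (Finset.mem_range.1 hl)]
      have e4 : u x ^ L * ((coeff L F - coeff L G) + u x * (R x - S x)) = 0 := by
        rw [e3] at e2
        linear_combination e2
      rcases mul_eq_zero.1 e4 with e5 | e5
      · exact absurd e5 (pow_ne_zero _ hx)
      · exact e5
    have h4 : Tendsto (fun x => (coeff L F - coeff L G) + u x * (R x - S x)) (𝓝[≠] (0 : ℂ))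
        (𝓝 (coeff L F - coeff L G)) := by
      have h5 : ContinuousAt (fun x => (coeff L F - coeff L G) + u x * (R x - S x)) 0 :=
        continuousAt_const.add (hu.continuousAt.mul (hR.continuousAt.sub hS.continuousAt))
      have h6 := h5.tendsto.mono_left (nhdsWithin_le_nhds (s := {0}ᶜ))
      rw [u0, zero_mul, add_zero] at h6
      exact h6
    have h5 := tendsto_nhds_unique (h4.congr' h3) tendsto_const_nhds
    exact sub_eq_zero.1 h5

theorem EP.congr {F : PowerSeries ℂ} (h : EP u f F) (hfg : ∀ᶠ x in 𝓝 (0 : ℂ), f x = g x) :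
    EP u g F := by
  intro L
  obtain ⟨R, hR, h1⟩ := h L
  refine ⟨R, hR, ?_⟩
  filter_upwards [h1, hfg] with x e1 e2
  rw [← e2, e1]

theorem EP.const (c : ℂ) : EP u (fun _ => c) (C c) := by
  intro L
  rcases L with _ | L
  · refine ⟨fun _ => c, analyticAt_const, Eventually.of_forall fun x => ?_⟩
    simp
  · refine ⟨fun _ => 0, analyticAt_const, Eventually.of_forall fun x => ?_⟩
    rw [mul_zero, add_zero, Finset.sum_range_succ']
    simp [coeff_C]

theorem EP.self (hu : AnalyticAt ℂ u 0) : EP u u (PowerSeries.X : PowerSeries ℂ) := by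
  intro L
  rcases L with _ | _ | L
  · refine ⟨u, hu, Eventually.of_forall fun x => ?_⟩
    simp
  · refine ⟨fun _ => 1, analyticAt_const, Eventually.of_forall fun x => ?_⟩
    simp [coeff_X]
  · refine ⟨fun _ => 0, analyticAt_const, Eventually.of_forall fun x => ?_⟩
    rw [mul_zero, add_zero, Finset.sum_range_succ', Finset.sum_range_succ']
    simp [coeff_X]

theorem EP.add {F G : PowerSeries ℂ} (hf : EP u f F) (hg : EP u g G) :
    EP u (fun x => f x + g x) (F + G) := by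
  intro L
  obtain ⟨R, hR, h1⟩ := hf L
  obtain ⟨S, hS, h2⟩ := hg L
  refine ⟨fun x => R x + S x, hR.add hS, ?_⟩
  filter_upwards [h1, h2] with x e1 e2
  rw [e1, e2]
  simp only [map_add, add_mul, Finset.sum_add_distrib]
  ring

theorem EP.mul (hu : AnalyticAt ℂ u 0) {F G : PowerSeries ℂ} (hf : EP u f F) (hg : EP u g G) :
    EP u (fun x => f x * g x) (F * G) := by
  intro L
  obtain ⟨R, hR, h1⟩ := hf L
  obtain ⟨S, hS, h2⟩ := hg L
  have hev : ∀ (H : PowerSeries ℂ) (z : ℂ), (trunc L H).eval z =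
      ∑ l ∈ Finset.range L, coeff l H * z ^ l := by
    intro H z
    have h := eval₂_trunc_eq_sum_range z (RingHom.id ℂ) L H
    simpa using h
  obtain ⟨Q, hQ⟩ : (Polynomial.X : Polynomial ℂ) ^ L ∣
      trunc L F * trunc L G - trunc L (F * G) := by
    rw [Polynomial.X_pow_dvd_iff]
    intro d hd
    rw [Polynomial.coeff_sub, coeff_trunc, if_pos hd,
      coeff_mul_eq_coeff_trunc_mul_trunc F G hd, ← Polynomial.coe_mul, Polynomial.coeff_coe,
      sub_self]
  have hQ' : ∀ z : ℂ, (∑ l ∈ Finset.range L, coeff l F * z ^ l) *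
      (∑ l ∈ Finset.range L, coeff l G * z ^ l) =
      (∑ l ∈ Finset.range L, coeff l (F * G) * z ^ l) + z ^ L * Q.eval z := by
    intro z
    rw [← hev, ← hev, ← hev]
    have h := congrArg (Polynomial.eval z) hQ
    rw [Polynomial.eval_sub, Polynomial.eval_mul, Polynomial.eval_mul, Polynomial.eval_pow,
      Polynomial.eval_X] at h
    rw [← h]
    ring
  have hpol : ∀ H : PowerSeries ℂ, AnalyticAt ℂ
      (fun x => ∑ l ∈ Finset.range L, coeff l H * u x ^ l) 0 := fun H =>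
    Finset.analyticAt_fun_sum _ fun l _ => analyticAt_const.mul (hu.pow l)
  refine ⟨fun x => Q.eval (u x) + (∑ l ∈ Finset.range L, coeff l F * u x ^ l) * S x +
    R x * (∑ l ∈ Finset.range L, coeff l G * u x ^ l) + u x ^ L * (R x * S x), ?_, ?_⟩
  · have hQa : AnalyticAt ℂ (fun x => Q.eval (u x)) 0 := by
      have h := AnalyticAt.aeval_polynomial hu Q
      simpa [Polynomial.aeval_def, Polynomial.eval₂_eq_eval_map] using h
    exact ((hQa.add ((hpol F).mul hS)).add (hR.mul (hpol G))).add ((hu.pow L).mul (hR.mul hS))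
  · filter_upwards [h1, h2] with x e1 e2
    rw [e1, e2]
    have e3 := hQ' (u x)
    linear_combination e3

theorem EP.pow (hu : AnalyticAt ℂ u 0) {F : PowerSeries ℂ} (hf : EP u f F) (j : ℕ) :
    EP u (fun x => f x ^ j) (F ^ j) := by
  induction j with
  | zero =>
    have h := EP.const (u := u) 1
    rw [map_one] at h
    simpa using h
  | succ j ih =>
    have h := EP.mul hu ih hf
    rw [← pow_succ] at h
    refine h.congr (Eventually.of_forall fun x => ?_)
    show f x ^ j * f x = f x ^ (j + 1)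
    rw [pow_succ]

theorem EP.sum {ι : Type} (s : Finset ι) {f : ι → ℂ → ℂ} {F : ι → PowerSeries ℂ}
    (h : ∀ i ∈ s, EP u (f i) (F i)) : EP u (fun x => ∑ i ∈ s, f i x) (∑ i ∈ s, F i) := by
  classical
  induction s using Finset.induction_on with
  | empty =>
    have h := EP.const (u := u) 0
    rw [map_zero] at h
    simpa using h
  | insert a s ha ih =>
    have h1 := h a (Finset.mem_insert_self a s)
    have h2 := ih fun i hi => h i (Finset.mem_insert_of_mem hi)
    have h3 := EP.add h1 h2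
    rw [← Finset.sum_insert ha] at h3
    refine h3.congr (Eventually.of_forall fun x => ?_)
    show f a x + ∑ i ∈ s, f i x = ∑ i ∈ insert a s, f i x
    rw [Finset.sum_insert ha]

/-- The derivative `d/du`. PROOF: differentiate `f = ∑_(l<L+1) c_l u^l + u^(L+1) R` and divide by `u'`. -/
theorem EP.deriv (hu : AnalyticAt ℂ u 0) (u1 : _root_.deriv u 0 ≠ 0) {F : PowerSeries ℂ}
    (hf : EP u f F) (hfg : ∀ᶠ x in 𝓝 (0 : ℂ), _root_.deriv f x = g x * _root_.deriv u x)
    (_hg : AnalyticAt ℂ g 0) :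
    EP u g (PowerSeries.mk fun l => ((l : ℂ) + 1) * coeff (l + 1) F) := by
  intro L
  obtain ⟨R, hR, h1⟩ := hf (L + 1)
  have hu' : AnalyticAt ℂ (_root_.deriv u) 0 := hu.deriv
  have hR' : AnalyticAt ℂ (_root_.deriv R) 0 := hR.deriv
  refine ⟨fun x => ((L : ℂ) + 1) * R x + u x * (_root_.deriv R x / _root_.deriv u x),
    (analyticAt_const.mul hR).add (hu.mul (hR'.div hu' u1)), ?_⟩
  have h2 : ∀ᶠ x in 𝓝 (0 : ℂ), ∀ᶠ y in 𝓝 x, f y =
      ∑ l ∈ Finset.range (L + 1), coeff l F * u y ^ l + u y ^ (L + 1) * R y :=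
    eventually_eventually_nhds.2 h1
  filter_upwards [h2, hfg, hu.eventually_analyticAt, hR.eventually_analyticAt,
    hu'.continuousAt.eventually_ne u1] with x e1 e2 e3 e4 e5
  have e6 : HasDerivAt (fun y => ∑ l ∈ Finset.range (L + 1), coeff l F * u y ^ l +
      u y ^ (L + 1) * R y) (∑ l ∈ Finset.range (L + 1), coeff l F *
        ((l : ℂ) * u x ^ (l - 1) * _root_.deriv u x) +
      ((((L + 1 : ℕ) : ℂ) * u x ^ (L + 1 - 1) * _root_.deriv u x) * R x +
        u x ^ (L + 1) * _root_.deriv R x)) x := by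
    have hud := e3.differentiableAt.hasDerivAt
    have hRd := e4.differentiableAt.hasDerivAt
    refine HasDerivAt.add ?_ ((hud.pow (L + 1)).mul hRd)
    exact HasDerivAt.fun_sum fun l _ => (hud.pow l).const_mul _
  have e7 : _root_.deriv f x = ∑ l ∈ Finset.range (L + 1), coeff l F *
        ((l : ℂ) * u x ^ (l - 1) * _root_.deriv u x) +
      ((((L + 1 : ℕ) : ℂ) * u x ^ (L + 1 - 1) * _root_.deriv u x) * R x +
        u x ^ (L + 1) * _root_.deriv R x) := by
    have e8 : f =ᶠ[𝓝 x] fun y => ∑ l ∈ Finset.range (L + 1), coeff l F * u y ^ l +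
      u y ^ (L + 1) * R y := e1
    rw [e8.deriv_eq, e6.deriv]
  rw [e2, Finset.sum_range_succ'] at e7
  have e9 : ∑ l ∈ Finset.range L, coeff (l + 1) F *
      (((l + 1 : ℕ) : ℂ) * u x ^ (l + 1 - 1) * _root_.deriv u x) =
      _root_.deriv u x * ∑ l ∈ Finset.range L, ((l : ℂ) + 1) * coeff (l + 1) F * u x ^ l := by
    rw [Finset.mul_sum]
    refine Finset.sum_congr rfl fun l _ => ?_
    rw [Nat.add_sub_cancel]
    push_cast
    ring
  rw [e9, Nat.add_sub_cancel] at e7
  simp only [coeff_mk]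
  apply mul_right_cancel₀ e5
  rw [e7]
  push_cast
  field_simp
  ring

end Pool.Agent.Lib.MP_5d4057_al.T5
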