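import Pool.Agent.Lib.MP_5d4057_al.T5.SerA

/-!
# T5: descent of a formal solution
-/

set_option autoImplicit false

namespace Pool.Agent.Lib.MP_5d4057_al.T5

open Metric Filter Topology Pool.Agent.Lib.MP_5d4057_al Pool.Agent.Lib.MP_5d4057_al.HM

open NumberField PowerSeries

variable {K : Type} [Field K] [NumberField K]

/-- First order expansion of a polynomial expression at a perturbation of order `L`. -/
private theorem desc_exp {d L : ℕ} (hL : 1 ≤ L) (p : ℕ → ℕ → ℂ) (H S : PowerSeries ℂ) :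
    coeff L (∑ i ∈ Finset.range d, ∑ j ∈ Finset.range d,
        C (p i j) * PowerSeries.X ^ i * (H + PowerSeries.X ^ L * S) ^ j) =
      coeff L (∑ i ∈ Finset.range d, ∑ j ∈ Finset.range d,
        C (p i j) * PowerSeries.X ^ i * H ^ j) +
      coeff 0 S * ∑ j ∈ Finset.range d, p 0 j * ((j : ℂ) * coeff 0 H ^ (j - 1)) := by
  have h1 : ∀ j : ℕ, ∃ k : PowerSeries ℂ, (H + PowerSeries.X ^ L * S) ^ j =
      H ^ j + (j : PowerSeries ℂ) * H ^ (j - 1) * (PowerSeries.X ^ L * S) +
        k * (PowerSeries.X ^ L * S) ^ 2 := fun j =>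
    ⟨_, (Polynomial.powAddExpansion H (PowerSeries.X ^ L * S) j).2⟩
  choose k hk using h1
  set W₁ : PowerSeries ℂ := ∑ i ∈ Finset.range d, ∑ j ∈ Finset.range d,
    C (p i j) * PowerSeries.X ^ i * ((j : PowerSeries ℂ) * H ^ (j - 1)) with hW₁
  set W₂ : PowerSeries ℂ := ∑ i ∈ Finset.range d, ∑ j ∈ Finset.range d,
    C (p i j) * PowerSeries.X ^ i * k j * S ^ 2 with hW₂
  have e1 : (∑ i ∈ Finset.range d, ∑ j ∈ Finset.range d,
        C (p i j) * PowerSeries.X ^ i * (H + PowerSeries.X ^ L * S) ^ j) =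
      (∑ i ∈ Finset.range d, ∑ j ∈ Finset.range d,
        C (p i j) * PowerSeries.X ^ i * H ^ j) +
      PowerSeries.X ^ L * (S * W₁ + PowerSeries.X ^ L * W₂) := by
    rw [hW₁, hW₂, mul_add, Finset.mul_sum, Finset.mul_sum, Finset.mul_sum, Finset.mul_sum,
      ← Finset.sum_add_distrib, ← Finset.sum_add_distrib]
    refine Finset.sum_congr rfl fun i _ => ?_
    rw [Finset.mul_sum, Finset.mul_sum, Finset.mul_sum, Finset.mul_sum,
      ← Finset.sum_add_distrib, ← Finset.sum_add_distrib]
    refine Finset.sum_congr rfl fun j _ => ?_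
    rw [hk j]
    ring
  have e2 : coeff 0 W₁ = ∑ j ∈ Finset.range d, p 0 j * ((j : ℂ) * coeff 0 H ^ (j - 1)) := by
    rw [coeff_zero_eq_constantCoeff_apply, coeff_zero_eq_constantCoeff_apply, hW₁, map_sum]
    rcases Nat.eq_zero_or_pos d with rfl | hd
    · simp
    rw [Finset.sum_eq_single_of_mem 0 (Finset.mem_range.2 hd)]
    · rw [map_sum]
      refine Finset.sum_congr rfl fun j _ => ?_
      simp
    · intro i _ hi
      rw [map_sum]
      refine Finset.sum_eq_zero fun j _ => ?_
      simp [hi]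
  rw [e1, map_add, coeff_X_pow_mul', if_pos le_rfl, Nat.sub_self]
  congr 1
  rw [← e2, coeff_zero_eq_constantCoeff_apply, coeff_zero_eq_constantCoeff_apply,
    coeff_zero_eq_constantCoeff_apply, map_add, map_mul, map_mul, map_pow, constantCoeff_X,
    zero_pow (by omega), zero_mul, add_zero]

/-- A formal solution over `ℂ` with constant term in `K` has coefficients in `K`. PROOF: strong induction: `e γ_l = ` polynomial over `K` in `γ_0, …, γ_(l-1)`;
or: write `G = (truncation) + X^l G'`, `P(X, G) = P(X, trunc) + X^l G' (e + X ..) + ..`. -/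
theorem descend (σ₀ : K →+* ℂ) {d : ℕ} (p : ℕ → ℕ → K) (G : PowerSeries ℂ)
    (hG : ∑ i ∈ Finset.range d, ∑ j ∈ Finset.range d, C (σ₀ (p i j)) * PowerSeries.X ^ i * G ^ j = 0)
    (hreg : ∑ j ∈ Finset.range d, σ₀ (p 0 j) * ((j : ℂ) * coeff 0 G ^ (j - 1)) ≠ 0)
    (h0 : ∃ g₀ : K, σ₀ g₀ = coeff 0 G) : ∃ G₁ : PowerSeries K, G = PowerSeries.map σ₀ G₁ := by
  have key : ∀ l : ℕ, ∃ c : K, σ₀ c = coeff l G := by
    intro L
    induction L using Nat.strong_induction_on with
    | _ L ih =>
      rcases Nat.eq_zero_or_pos L with rfl | hL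
      · exact h0
      choose! g hg using ih
      set H : PowerSeries K := PowerSeries.mk fun k => if k < L then g k else 0 with hH
      set S : PowerSeries ℂ := PowerSeries.mk fun k => coeff (k + L) G with hS
      have hGe : G = PowerSeries.map σ₀ H + PowerSeries.X ^ L * S := by
        ext k
        rw [map_add, coeff_map, coeff_X_pow_mul', hH, coeff_mk]
        by_cases hk : k < L
        · rw [if_pos hk, if_neg (by omega), add_zero, hg k hk]
        · rw [if_neg hk, if_pos (by omega), hS, coeff_mk, map_zero, zero_add,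
            Nat.sub_add_cancel (by omega)]
      have hG0 : coeff 0 (PowerSeries.map σ₀ H) = coeff 0 G := by
        rw [coeff_map, hH, coeff_mk, if_pos hL, hg 0 hL]
      have h1 := desc_exp (d := d) hL (fun i j => σ₀ (p i j)) (PowerSeries.map σ₀ H) S
      rw [← hGe, hG, map_zero, hG0] at h1
      have h2 : coeff 0 S = coeff L G := by
        rw [hS, coeff_mk, zero_add]
      rw [h2] at h1
      have h3 : (∑ i ∈ Finset.range d, ∑ j ∈ Finset.range d,
          C (σ₀ (p i j)) * PowerSeries.X ^ i * PowerSeries.map σ₀ H ^ j) =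
          PowerSeries.map σ₀ (∑ i ∈ Finset.range d, ∑ j ∈ Finset.range d,
            C (p i j) * PowerSeries.X ^ i * H ^ j) := by
        rw [map_sum]
        refine Finset.sum_congr rfl fun i _ => ?_
        rw [map_sum]
        refine Finset.sum_congr rfl fun j _ => ?_
        rw [map_mul, map_mul, map_pow, map_pow, PowerSeries.map_C, PowerSeries.map_X]
      rw [h3, coeff_map] at h1
      have h4 : ∑ j ∈ Finset.range d, σ₀ (p 0 j) * ((j : ℂ) * coeff 0 G ^ (j - 1)) =
          σ₀ (∑ j ∈ Finset.range d, p 0 j * ((j : K) * g 0 ^ (j - 1))) := by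
        rw [map_sum]
        refine Finset.sum_congr rfl fun j _ => ?_
        rw [map_mul, map_mul, map_pow, map_natCast, hg 0 hL]
      rw [h4] at h1 hreg
      refine ⟨- coeff L (∑ i ∈ Finset.range d, ∑ j ∈ Finset.range d,
            C (p i j) * PowerSeries.X ^ i * H ^ j) /
          (∑ j ∈ Finset.range d, p 0 j * ((j : K) * g 0 ^ (j - 1))), ?_⟩
      rw [map_div₀, map_neg, div_eq_iff hreg]
      linear_combination h1
  choose g hg using key
  refine ⟨PowerSeries.mk g, ?_⟩
  ext k
  rw [coeff_map, coeff_mk, hg]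

end Pool.Agent.Lib.MP_5d4057_al.T5
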