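import Pool.Agent.Lib.MP_5d4057_al.T5.Defs

/-!
# T5: Siegel's lemma (owner: helper84)
-/

set_option autoImplicit false

namespace Pool.Agent.Lib.MP_5d4057_al.T5

open Metric Filter Topology Pool.Agent.Lib.MP_5d4057_al Pool.Agent.Lib.MP_5d4057_al.HM

open NumberField

private theorem sg_raw (K : Type) [Field K] [NumberField K] [DecidableEq (K →+* ℂ)] : ∃ c : ℝ,
    ∀ (p q : ℕ), 0 < p → p < q → ∀ (α β : Type) [Fintype α] [Fintype β], Fintype.card α = p →
      Fintype.card β = q → ∀ (a : Matrix α β (𝓞 K)) (A : ℝ), a ≠ 0 →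
        (∀ k l, house (algebraMap (𝓞 K) K (a k l)) ≤ A) →
          ∃ ξ : β → 𝓞 K, ξ ≠ 0 ∧ a.mulVec ξ = 0 ∧
            ∀ l, house (algebraMap (𝓞 K) K (ξ l)) ≤ c * (c * q * A) ^ ((p : ℝ) / (q - p)) :=
  ⟨_, fun p q h0 h1 α β _ _ hα hβ a A ha hA =>
    NumberField.house.exists_ne_zero_int_vec_house_le K a ha h0 h1 hβ hA hα⟩

/-- Siegel's lemma, with a nonnegative constant. PROOF: `house.exists_ne_zero_int_vec_house_le`, exponent `p/(q-p) ≤ 1`; its constant `c₁` is
nonnegative (apply it to one equation in three unknowns: if `c₁ < 0` then `(c₁ 3 A)^(1/2) = 0` by `Real.rpow_def_of_neg`). -/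
theorem siegel (K : Type) [Field K] [NumberField K] : ∃ C : ℝ, 1 ≤ C ∧ ∀ (p q : ℕ), 0 < p →
    2 * p ≤ q → ∀ (α β : Type) [Fintype α] [Fintype β], Fintype.card α = p → Fintype.card β = q →
    ∀ (a : Matrix α β (𝓞 K)) (A : ℝ), 1 ≤ A → (∀ k l, house (a k l : K) ≤ A) →
      ∃ ξ : β → 𝓞 K, ξ ≠ 0 ∧ a.mulVec ξ = 0 ∧ ∀ l, house (ξ l : K) ≤ C * q * A := by
  classical
  obtain ⟨c, hc⟩ := sg_raw K
  have hone : house (1 : K) = 1 := by
    have h := house_intCast (K := K) 1
    simpa using h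
  -- the constant is nonnegative
  have hc0 : 0 ≤ c := by
    by_contra hneg
    push Not at hneg
    obtain ⟨ξ, hξ0, -, hξ⟩ := hc 1 3 one_pos (by norm_num) (Fin 1) (Fin 3) (by simp) (by simp)
      (fun _ _ => 1) 1 (fun h => one_ne_zero (congrFun (congrFun h 0) 0)) (fun k l => by
        rw [map_one, hone])
    refine hξ0 (funext fun l => ?_)
    have h1 := hξ l
    have h2 : ((1 : ℕ) : ℝ) / (((3 : ℕ) : ℝ) - ((1 : ℕ) : ℝ)) = 1 / 2 := by norm_num
    have h3 : c * ((3 : ℕ) : ℝ) * 1 < 0 := by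
      push_cast
      linarith
    rw [h2, Real.rpow_def_of_neg h3] at h1
    have h4 : Real.cos (1 / 2 * Real.pi) = 0 := by
      rw [show (1 : ℝ) / 2 * Real.pi = Real.pi / 2 by ring]
      exact Real.cos_pi_div_two
    rw [h4, mul_zero, mul_zero] at h1
    by_contra hl
    have h5 := one_le_house_of_isIntegral (K := K) (RingOfIntegers.isIntegral_coe (ξ l)) (by
      intro h6
      exact hl (RingOfIntegers.ext h6))
    linarith
  set C : ℝ := max 1 c with hC
  have hC1 : 1 ≤ C := le_max_left _ _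
  have hcC : c ≤ C := le_max_right _ _
  refine ⟨C * C, by nlinarith, ?_⟩
  intro p q hp hpq α β _ _ hα hβ a A hA ha
  have hq : (1 : ℝ) ≤ q := by
    have : 1 ≤ q := by omega
    exact_mod_cast this
  have hbd : 1 ≤ C * q * A := by
    have h1 : 1 ≤ C * q := by nlinarith
    nlinarith
  rcases eq_or_ne a 0 with rfl | ha0
  · obtain ⟨l₀⟩ : Nonempty β := Fintype.card_pos_iff.1 (by omega)
    refine ⟨Pi.single l₀ 1, fun h => ?_, by rw [Matrix.zero_mulVec], fun l => ?_⟩
    · have := congrFun h l₀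
      rw [Pi.single_eq_same] at this
      exact one_ne_zero this
    · have h1 : house ((Pi.single l₀ (1 : 𝓞 K) : β → 𝓞 K) l : K) ≤ 1 := by
        rcases eq_or_ne l l₀ with rfl | hl
        · rw [Pi.single_eq_same]
          have : ((1 : 𝓞 K) : K) = 1 := rfl
          rw [this, hone]
        · rw [Pi.single_eq_of_ne hl]
          have h2 := house_intCast (K := K) 0
          have : ((0 : 𝓞 K) : K) = ((0 : ℤ) : K) := by simp
          rw [this, h2]
          norm_num
      refine h1.trans ?_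
      nlinarith
  · obtain ⟨ξ, hξ0, hξ1, hξ⟩ := hc p q hp (by omega) α β hα hβ a A ha0 ha
    refine ⟨ξ, hξ0, hξ1, fun l => (hξ l).trans ?_⟩
    have hpr : (0 : ℝ) < p := by exact_mod_cast hp
    have hpqr : 2 * (p : ℝ) ≤ q := by exact_mod_cast hpq
    have he : (p : ℝ) / (q - p) ≤ 1 := by
      rw [div_le_one (by linarith)]
      linarith
    have he0 : 0 ≤ (p : ℝ) / (q - p) := div_nonneg hpr.le (by linarith)
    have h0 : 0 ≤ c * q * A := by positivity
    calc c * (c * q * A) ^ ((p : ℝ) / (q - p))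
        ≤ C * (C * q * A) ^ ((p : ℝ) / (q - p)) := by
          have h1 : c * q * A ≤ C * q * A := by gcongr
          have h2 := Real.rpow_le_rpow h0 h1 he0
          have h3 : 0 ≤ (c * q * A) ^ ((p : ℝ) / (q - p)) := Real.rpow_nonneg h0 _
          exact mul_le_mul hcC h2 h3 (by linarith)
      _ ≤ C * (C * q * A) ^ (1 : ℝ) := by
          gcongr
      _ = C * C * q * A := by rw [Real.rpow_one]; ring

end Pool.Agent.Lib.MP_5d4057_al.T5
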