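import Pool.Agent.Lib.MP_5d4057_al.T5.Num

/-!
# T5: the inequality of the step
-/

set_option autoImplicit false

namespace Pool.Agent.Lib.MP_5d4057_al.T5

open Filter Topology Metric

variable {K : Type*} [Field K] {ι : K →+* ℂ} {t Y α b y₁ y₂ : ℂ → ℂ} {a : ℕ → ℕ → K} {x : K}
  {D0 D1 : ℕ}

theorem step_ineq {k0 : ℂ → ℂ} {A' c : ℝ} {B m T j₀ J : ℕ} {S : Finset ℂ}
    (hα : DifferentiableOn ℂ α (ball 0 1)) (hb : DifferentiableOn ℂ b (ball 0 1))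
    (h1 : DifferentiableOn ℂ y₁ (ball 0 1)) (h2 : DifferentiableOn ℂ y₂ (ball 0 1))
    (hb0 : b 0 ≠ 0) (hy0 : y₂ 0 ≠ 0) (ht : ∀ᶠ z in 𝓝 (0 : ℂ), t z = α z / b z)
    (hY : ∀ᶠ z in 𝓝 (0 : ℂ), Y z = y₁ z / y₂ z)
    (hk0a : AnalyticAt ℂ k0 0) (hk0 : k0 0 ≠ 0)
    (hF : ∀ᶠ z in 𝓝 (0 : ℂ), Fz ι t Y a x D0 D1 z = (z - 0) ^ m * k0 z)
    (hJ : j₀ ≤ J)
    (hgr : ∀ z : ℂ, ‖z‖ < 1 → ‖Ph ι α b y₁ y₂ a x D0 D1 z‖ ≤
      Real.exp A' * ((1 - ‖z‖)⁻¹) ^ B)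
    (hS : ∀ z ∈ S, z ≠ 0 ∧ ‖z‖ ≤ 1 - (1 / 2) ^ J)
    (hz : ∀ z ∈ S, (T : ℕ∞) ≤ analyticOrderAt (Ph ι α b y₁ y₂ a x D0 D1) z)
    (hN : ∀ j, j₀ ≤ j → j ≤ J →
      c * 2 ^ j ≤ ((S.filter fun z => ‖z‖ ≤ 1 - (1 / 2) ^ j).card : ℝ)) :
    Real.log ‖k0 0‖ + (D0 * Real.log ‖b 0‖ + D1 * Real.log ‖y₂ 0‖) +
      T * (c * (J - j₀ + 1) / 4) ≤ A' + B * (J + 1) + m := by
  have m0 : (0 : ℂ) ∈ ball (0 : ℂ) 1 := mem_ball_self one_pos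
  have n0 : ball (0 : ℂ) 1 ∈ 𝓝 (0 : ℂ) := isOpen_ball.mem_nhds m0
  have hPd : DifferentiableOn ℂ (Ph ι α b y₁ y₂ a x D0 D1) (ball 0 1) := ph_diff hα hb h1 h2
  have hba : AnalyticAt ℂ b 0 := hb.analyticAt n0
  have hya : AnalyticAt ℂ y₂ 0 := h2.analyticAt n0
  -- the function near 0
  have hbe : ∀ᶠ z in 𝓝 (0 : ℂ), b z ≠ 0 := hba.continuousAt.eventually_ne hb0
  have hye : ∀ᶠ z in 𝓝 (0 : ℂ), y₂ z ≠ 0 := hya.continuousAt.eventually_ne hy0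
  set k1 : ℂ → ℂ := fun z => k0 z * (b z ^ D0 * y₂ z ^ D1) with hk1
  have hk1a : AnalyticAt ℂ k1 0 := hk0a.mul ((hba.pow D0).mul (hya.pow D1))
  have hloc : ∀ᶠ z in 𝓝 (0 : ℂ), Ph ι α b y₁ y₂ a x D0 D1 z = (z - 0) ^ m • k1 z := by
    filter_upwards [hbe, hye, ht, hY, hF] with z g1 g2 g3 g4 g5
    rw [ph_eq g1 g2 g3 g4, g5, smul_eq_mul, hk1]
    ring
  have hord : (m : ℕ∞) ≤ analyticOrderAt (Ph ι α b y₁ y₂ a x D0 D1) 0 :=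
    (natCast_le_analyticOrderAt (hPd.analyticAt n0)).2 ⟨k1, hk1a, hloc⟩
  obtain ⟨k, hk, hke⟩ := div_pow_of_order isOpen_ball hPd m0 hord
  have hkk : k 0 = k1 0 := by
    have e1 : ∀ᶠ z in 𝓝[≠] (0 : ℂ), k z = k1 z := by
      filter_upwards [hloc.filter_mono nhdsWithin_le_nhds,
        (show ∀ᶠ z in 𝓝 (0 : ℂ), z ∈ ball (0 : ℂ) 1 from n0).filter_mono nhdsWithin_le_nhds,
        self_mem_nhdsWithin] with z g1 g2 g3
      have g4 : (z - 0) ^ m ≠ 0 := pow_ne_zero m (by rwa [sub_zero])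
      rw [hke z g2, smul_eq_mul] at g1
      exact mul_left_cancel₀ g4 g1
    have e2 : Tendsto k (𝓝[≠] (0 : ℂ)) (𝓝 (k 0)) :=
      (hk.analyticAt n0).continuousAt.tendsto.mono_left nhdsWithin_le_nhds
    have e3 : Tendsto k1 (𝓝[≠] (0 : ℂ)) (𝓝 (k1 0)) :=
      hk1a.continuousAt.tendsto.mono_left nhdsWithin_le_nhds
    exact tendsto_nhds_unique (e2.congr' e1) e3
  have hk10 : k1 0 ≠ 0 := mul_ne_zero hk0 (mul_ne_zero (pow_ne_zero _ hb0) (pow_ne_zero _ hy0))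
  have hzk : ∀ z ∈ S, (T : ℕ∞) ≤ analyticOrderAt k z := by
    intro z hzS
    have hzb : z ∈ ball (0 : ℂ) 1 := by
      rw [mem_ball_zero_iff]
      have := (hS z hzS).2
      have h3 : (0 : ℝ) < (1 / 2) ^ J := by positivity
      linarith
    have nz : ball (0 : ℂ) 1 ∈ 𝓝 z := isOpen_ball.mem_nhds hzb
    have e1 : Ph ι α b y₁ y₂ a x D0 D1 =ᶠ[𝓝 z] fun w => (w - 0) ^ m * k w := by
      filter_upwards [nz] with w hw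
      exact hke w hw
    have e2 := hz z hzS
    have hua : AnalyticAt ℂ (fun w : ℂ => (w - 0) ^ m) z :=
      (analyticAt_id.sub analyticAt_const).pow m
    rw [analyticOrderAt_congr e1, order_mul_unit (hk.analyticAt nz) hua
      (pow_ne_zero m (by rw [sub_zero]; exact (hS z hzS).1))] at e2
    exact e2
  have key := stp (m := m) hk (by rw [hkk]; exact hk10) hJ (A := A') (B := B) (fun z hz' => by
    have g1 := hke z (by rwa [mem_ball_zero_iff])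
    rw [sub_zero] at g1
    rw [← g1]
    exact hgr z hz') hS hzk hN
  have hlog : Real.log ‖k 0‖ = Real.log ‖k0 0‖ + (D0 * Real.log ‖b 0‖ +
      D1 * Real.log ‖y₂ 0‖) := by
    have g1 : ‖k0 0‖ ≠ 0 := norm_ne_zero_iff.2 hk0
    have g2 : ‖b 0‖ ^ D0 ≠ 0 := pow_ne_zero _ (norm_ne_zero_iff.2 hb0)
    have g3 : ‖y₂ 0‖ ^ D1 ≠ 0 := pow_ne_zero _ (norm_ne_zero_iff.2 hy0)
    rw [hkk, hk1]
    simp only [norm_mul, norm_pow]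
    rw [Real.log_mul g1 (mul_ne_zero g2 g3), Real.log_mul g2 g3, Real.log_pow, Real.log_pow]
  rw [← hlog]
  exact key

end Pool.Agent.Lib.MP_5d4057_al.T5
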