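import Mathlib

/-!
# T5: the Vandermonde step
-/

set_option autoImplicit false

namespace Pool.Agent.Lib.MP_5d4057_al.T5

open Filter Topology

/-- The order of a linear combination. -/
theorem order_sum {ι : Type*} (s : Finset ι) {f : ι → ℂ → ℂ} {p : ℂ} {T : ℕ} (c : ι → ℂ)
    (hf : ∀ i ∈ s, AnalyticAt ℂ (f i) p) (h : ∀ i ∈ s, (T : ℕ∞) ≤ analyticOrderAt (f i) p) :
    (T : ℕ∞) ≤ analyticOrderAt (fun z => ∑ i ∈ s, c i * f i z) p := by
  have hg : AnalyticAt ℂ (fun z => ∑ i ∈ s, c i * f i z) p :=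
    Finset.analyticAt_fun_sum s fun i hi => analyticAt_const.mul (hf i hi)
  rw [natCast_le_analyticOrderAt hg]
  have h1 : ∀ i : ι, ∃ g : ℂ → ℂ, i ∈ s → (AnalyticAt ℂ g p ∧
      ∀ᶠ z in 𝓝 p, f i z = (z - p) ^ T • g z) := by
    intro i
    by_cases hi : i ∈ s
    · obtain ⟨g, hg, he⟩ := (natCast_le_analyticOrderAt (hf i hi)).1 (h i hi)
      exact ⟨g, fun _ => ⟨hg, he⟩⟩
    · exact ⟨0, fun h => absurd h hi⟩
  choose g hg using h1
  refine ⟨fun z => ∑ i ∈ s, c i * g i z,
    Finset.analyticAt_fun_sum s fun i hi => analyticAt_const.mul (hg i hi).1, ?_⟩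
  have h2 : ∀ᶠ z in 𝓝 p, ∀ i ∈ s, f i z = (z - p) ^ T • g i z :=
    (Filter.eventually_all_finset s).2 fun i hi => (hg i hi).2
  filter_upwards [h2] with z hz
  rw [smul_eq_mul, Finset.mul_sum]
  refine Finset.sum_congr rfl fun i hi => ?_
  rw [hz i hi, smul_eq_mul]
  ring

/-- The Vandermonde step: a system of combinations of order at least `T`. -/
theorem van_order {D : ℕ} {f : Fin (D + 1) → ℂ → ℂ} {p : ℂ} {T : ℕ}
    (hf : ∀ j, AnalyticAt ℂ (f j) p) {x : Fin (D + 1) → ℂ} (hx : Function.Injective x)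
    (h : ∀ i, (T : ℕ∞) ≤ analyticOrderAt
      (fun z => ∑ j : Fin (D + 1), x i ^ (j : ℕ) * f j z) p)
    (j : Fin (D + 1)) : (T : ℕ∞) ≤ analyticOrderAt (f j) p := by
  have hdet : IsUnit (Matrix.vandermonde x).det :=
    isUnit_iff_ne_zero.2 (Matrix.det_vandermonde_ne_zero_iff.2 hx)
  have hinv : (Matrix.vandermonde x)⁻¹ * Matrix.vandermonde x = 1 :=
    Matrix.nonsing_inv_mul _ hdet
  have h1 : ∀ l : Fin (D + 1), ∑ i : Fin (D + 1), (Matrix.vandermonde x)⁻¹ j i *
      x i ^ (l : ℕ) = (1 : Matrix (Fin (D + 1)) (Fin (D + 1)) ℂ) j l := by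
    intro l
    rw [← hinv, Matrix.mul_apply]
    simp only [Matrix.vandermonde_apply]
  have hkey : f j = fun z => ∑ i : Fin (D + 1), (Matrix.vandermonde x)⁻¹ j i *
      ∑ l : Fin (D + 1), x i ^ (l : ℕ) * f l z := by
    funext z
    calc f j z = ∑ l : Fin (D + 1),
          (1 : Matrix (Fin (D + 1)) (Fin (D + 1)) ℂ) j l * f l z := by
          simp [Matrix.one_apply]
      _ = ∑ l : Fin (D + 1), (∑ i : Fin (D + 1), (Matrix.vandermonde x)⁻¹ j i *
          x i ^ (l : ℕ)) * f l z := by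
          simp only [h1]
      _ = _ := by
          simp only [Finset.sum_mul, Finset.mul_sum]
          rw [Finset.sum_comm]
          refine Finset.sum_congr rfl fun i _ => Finset.sum_congr rfl fun l _ => ?_
          ring
  rw [hkey]
  refine order_sum Finset.univ _ (fun i _ => ?_) fun i _ => h i
  exact Finset.analyticAt_fun_sum _ fun l _ => analyticAt_const.mul (hf l)

/-- A polynomial in a local coordinate. -/
theorem poly_order {t : ℂ → ℂ} {p : ℂ} (ht : AnalyticAt ℂ t p) (ht' : deriv t p ≠ 0)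
    {P : Polynomial ℂ} {T : ℕ} (hT : P.natDegree < T)
    (h : (T : ℕ∞) ≤ analyticOrderAt (fun z => P.eval (t z)) p) : P = 0 := by
  by_contra hP
  obtain ⟨Q, hQ, hd⟩ := Polynomial.exists_eq_pow_rootMultiplicity_mul_and_not_dvd P hP (t p)
  set k := P.rootMultiplicity (t p) with hk
  have hk1 : k ≤ P.natDegree := by
    have h1 := Polynomial.natDegree_le_of_dvd (Polynomial.pow_rootMultiplicity_dvd P (t p)) hP
    rwa [Polynomial.natDegree_pow, Polynomial.natDegree_X_sub_C, mul_one] at h1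
  have hQ0 : Q.eval (t p) ≠ 0 := by
    intro h0
    exact hd (Polynomial.dvd_iff_isRoot.2 h0)
  have hta : AnalyticAt ℂ (fun z => t z - t p) p := ht.sub analyticAt_const
  have hQa : AnalyticAt ℂ (fun z => Q.eval (t z)) p := by
    have h1 : AnalyticAt ℂ (fun w : ℂ => Q.eval w) (t p) := Q.differentiable.analyticAt _
    exact h1.comp ht
  have ho1 : analyticOrderAt (fun z => t z - t p) p = 1 :=
    ht.analyticOrderAt_sub_eq_one_of_deriv_ne_zero ht'
  have he : (fun z => P.eval (t z)) = (fun z => t z - t p) ^ k * fun z => Q.eval (t z) := by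
    funext z
    rw [hQ]
    simp
  rw [he, analyticOrderAt_mul (hta.pow k) hQa, analyticOrderAt_pow hta, ho1,
    hQa.analyticOrderAt_eq_zero.2 hQ0] at h
  have h2 : (T : ℕ∞) ≤ (k : ℕ∞) := by simpa using h
  have h3 : T ≤ k := by exact_mod_cast h2
  omega

/-- The order at the image of a point under a Möbius map. -/
theorem order_mobius {a b c d p : ℂ} (hdet : a * d - b * c ≠ 0) (hp : c * p + d ≠ 0)
    (f : ℂ → ℂ) : analyticOrderAt (fun z => f ((a * z + b) / (c * z + d))) p =
      analyticOrderAt f ((a * p + b) / (c * p + d)) := by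
  have hd : HasDerivAt (fun z : ℂ => (a * z + b) / (c * z + d))
      ((a * (c * p + d) - (a * p + b) * c) / (c * p + d) ^ 2) p := by
    have h1 : HasDerivAt (fun z : ℂ => a * z + b) a p := by
      simpa using ((hasDerivAt_id p).const_mul a).add_const b
    have h2 : HasDerivAt (fun z : ℂ => c * z + d) c p := by
      simpa using ((hasDerivAt_id p).const_mul c).add_const d
    exact h1.div h2 hp
  have ha : AnalyticAt ℂ (fun z : ℂ => (a * z + b) / (c * z + d)) p :=
    ((analyticAt_const.mul analyticAt_id).add analyticAt_const).div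
      ((analyticAt_const.mul analyticAt_id).add analyticAt_const) hp
  have hd' : deriv (fun z : ℂ => (a * z + b) / (c * z + d)) p ≠ 0 := by
    rw [hd.deriv]
    have h3 : a * (c * p + d) - (a * p + b) * c = a * d - b * c := by ring
    rw [h3]
    exact div_ne_zero hdet (pow_ne_zero 2 hp)
  exact analyticOrderAt_comp_of_deriv_ne_zero ha hd'

/-- A nonvanishing analytic factor does not change the order. -/
theorem order_mul_unit {f u : ℂ → ℂ} {p : ℂ} (hf : AnalyticAt ℂ f p) (hu : AnalyticAt ℂ u p)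
    (h : u p ≠ 0) : analyticOrderAt (fun z => u z * f z) p = analyticOrderAt f p := by
  have h1 : (fun z => u z * f z) = u * f := rfl
  rw [h1, analyticOrderAt_mul hu hf, hu.analyticOrderAt_eq_zero.2 h, zero_add]

/-- The end of the proof of T5: too many independent conditions. -/
theorem van_final {t Y : ℂ → ℂ} {p : ℂ} (ht : AnalyticAt ℂ t p) (ht' : deriv t p ≠ 0)
    (hY : AnalyticAt ℂ Y p) (hY0 : Y p ≠ 0) {D0 D1 T : ℕ} (hT : D0 < T)
    {a : ℕ → ℕ → ℂ} {x : Fin (D1 + 1) → ℂ} (hx : Function.Injective x)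
    (h : ∀ k, (T : ℕ∞) ≤ analyticOrderAt
      (fun z => ∑ i ∈ Finset.range (D0 + 1), ∑ j ∈ Finset.range (D1 + 1),
        a i j * x k ^ j * t z ^ i * Y z ^ j) p) :
    ∀ i ≤ D0, ∀ j ≤ D1, a i j = 0 := by
  classical
  set f : Fin (D1 + 1) → ℂ → ℂ := fun j z =>
    (∑ i ∈ Finset.range (D0 + 1), a i (j : ℕ) * t z ^ i) * Y z ^ (j : ℕ) with hfd
  have hfa : ∀ j, AnalyticAt ℂ (fun z => ∑ i ∈ Finset.range (D0 + 1), a i j * t z ^ i) p :=
    fun j => Finset.analyticAt_fun_sum _ fun i _ => analyticAt_const.mul (ht.pow i)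
  have hf : ∀ j, AnalyticAt ℂ (f j) p := fun j => (hfa j).mul (hY.pow _)
  have h1 : ∀ k, (T : ℕ∞) ≤ analyticOrderAt
      (fun z => ∑ j : Fin (D1 + 1), x k ^ (j : ℕ) * f j z) p := by
    intro k
    refine (h k).trans (le_of_eq ?_)
    congr 1
    funext z
    rw [Finset.sum_comm, ← Fin.sum_univ_eq_sum_range
      (fun j => ∑ i ∈ Finset.range (D0 + 1), a i j * x k ^ j * t z ^ i * Y z ^ j)]
    refine Finset.sum_congr rfl fun j _ => ?_
    simp only [hfd, Finset.sum_mul, Finset.mul_sum]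
    refine Finset.sum_congr rfl fun i _ => ?_
    ring
  have h2 := van_order hf hx h1
  intro i hi j hj
  set P : Polynomial ℂ := ∑ i ∈ Finset.range (D0 + 1), Polynomial.C (a i j) * Polynomial.X ^ i
    with hP
  have hdeg : P.natDegree ≤ D0 := by
    refine Polynomial.natDegree_sum_le_of_forall_le _ _ fun i hi => ?_
    refine (Polynomial.natDegree_C_mul_X_pow_le _ _).trans ?_
    have := Finset.mem_range.1 hi
    omega
  have h3 : (T : ℕ∞) ≤ analyticOrderAt (fun z => P.eval (t z)) p := by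
    have h4 := h2 ⟨j, Nat.lt_succ_of_le hj⟩
    have h5 : f ⟨j, Nat.lt_succ_of_le hj⟩ = fun z => Y z ^ j * P.eval (t z) := by
      funext z
      simp only [hfd, hP, Polynomial.eval_finsetSum, Polynomial.eval_mul, Polynomial.eval_C,
        Polynomial.eval_pow, Polynomial.eval_X]
      ring
    rw [h5] at h4
    have h6 : AnalyticAt ℂ (fun z => P.eval (t z)) p := by
      have h7 : AnalyticAt ℂ (fun w : ℂ => P.eval w) (t p) := P.differentiable.analyticAt _
      exact h7.comp ht
    have h8 := order_mul_unit (u := fun z => Y z ^ j) h6 (hY.pow j) (pow_ne_zero j hY0)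
    rwa [h8] at h4
  have h8 := poly_order ht ht' (lt_of_le_of_lt hdeg hT) h3
  have h9 := congrArg (fun Q => Polynomial.coeff Q i) h8
  simpa [hP, Polynomial.finsetSum_coeff, Polynomial.coeff_C_mul, Polynomial.coeff_X_pow,
    Nat.lt_succ_of_le hi] using h9

end Pool.Agent.Lib.MP_5d4057_al.T5
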